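import Pool.Agent.LibCE75.Defs

set_option autoImplicit false

/-!
# Board CE75, row A1 (MEDIUM/STRONG, only Mathlib).  MP_6fa1a0_gt (cell-like equivalence of boundaries of CAT(0) groups).
Chair: helper75.  Deliver the whole file as CE75_A1.lean (team-store put), statements unchanged,
auxiliary lemmas private, no sorry, no axiom, no straight double quotation mark.

Convexity of the metric of a CAT(0) space, from the CN inequality only.
PLAN. (1) uniqueness: if z, z' both satisfy dist x z = a, dist z y = d - a (d = dist x y) then z = z': otherwise take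
a midpoint m of z, z' (geodesic at parameter half); CN gives dist x m < a or (a = 0 ...) and dist y m <= d - a with
one of them strict (dist x m ^ 2 <= a ^ 2 - dist z z' ^ 2 / 4, same for y), so d <= dist x m + dist m y < d.
(2) midpoints m of p, x and n of p, y: dist m n <= dist x y / 2: CN twice: dist m n ^ 2 <= dist m p ^ 2 / 2 + dist m y ^ 2 / 2
- dist p y ^ 2 / 4 and dist y m ^ 2 <= dist y p ^ 2 / 2 + dist y x ^ 2 / 2 - dist p x ^ 2 / 4.
(3) midpoints m of x, y and m' of x', y': dist m m' <= (dist x x' + dist y y') / 2 through the midpoint of x, y'.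
(4) by (1) z = gamma (s d), z' = gamma' (s d') for geodesics. The function f s = dist (gamma (s d)) (gamma' (s d')) is
continuous on [0,1] and midpoint convex by (3), so f s <= (1 - s) f 0 + s f 1: the set of s where
g s = f s - (1 - s) f 0 - s f 1 > 0: if M = max g > 0 (compactness), take the smallest s with g s = M; it is in the
open interval, midpoint convexity at s - h, s + h gives a contradiction (g (s-h) < M for small h > 0).
-/

namespace LibCE75

open Set Metric Topology Filter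
open scoped NNReal

private theorem A1_mid {X : Type} [MetricSpace X] (hX : IsCAT0 X) (x y : X) :
    ∃ m : X, dist x m = dist x y / 2 ∧ dist y m = dist x y / 2 := by
  obtain ⟨γ, h0, h1, h⟩ := hX.geodesic x y
  have hd : 0 ≤ dist x y := dist_nonneg
  have e1 := h 0 ⟨le_refl _, hd⟩ (dist x y / 2) ⟨by linarith, by linarith⟩
  have e2 := h (dist x y) ⟨hd, le_refl _⟩ (dist x y / 2) ⟨by linarith, by linarith⟩
  rw [h0] at e1
  rw [h1] at e2
  refine ⟨γ (dist x y / 2), ?_, ?_⟩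
  · rw [e1, zero_sub, abs_neg, abs_of_nonneg (by linarith)]
  · rw [e2, show dist x y - dist x y / 2 = dist x y / 2 by ring, abs_of_nonneg (by linarith)]

private theorem A1_uniq {X : Type} [MetricSpace X] (hX : IsCAT0 X) {x y z z' : X} {a : ℝ}
    (h1 : dist x z = a) (h2 : dist z y = dist x y - a) (h3 : dist x z' = a)
    (h4 : dist z' y = dist x y - a) : z = z' := by
  by_contra hne
  have hD : 0 < dist z z' := dist_pos.2 hne
  obtain ⟨m, hm1, hm2⟩ := A1_mid hX z z'
  have c1 := hX.cn x z z' m hm1 hm2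
  have c2 := hX.cn y z z' m hm1 hm2
  rw [h1, h3] at c1
  rw [dist_comm y z, dist_comm y z', h2, h4] at c2
  have ha : 0 ≤ a := h1 ▸ dist_nonneg
  have hb : 0 ≤ dist x y - a := h2 ▸ dist_nonneg
  have hD2 : 0 < dist z z' ^ 2 := by positivity
  have k1 : dist x m < a := by
    apply lt_of_pow_lt_pow_left₀ 2 ha
    linarith
  have k2 : dist y m < dist x y - a := by
    apply lt_of_pow_lt_pow_left₀ 2 hb
    linarith
  have k3 := dist_triangle x m y
  rw [dist_comm m y] at k3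
  linarith

private theorem A1_tri {X : Type} [MetricSpace X] (hX : IsCAT0 X) {p x y m n : X}
    (hm1 : dist p m = dist p x / 2) (hm2 : dist x m = dist p x / 2)
    (hn1 : dist p n = dist p y / 2) (hn2 : dist y n = dist p y / 2) :
    dist m n ≤ dist x y / 2 := by
  have c1 := hX.cn m p y n hn1 hn2
  have c2 := hX.cn y p x m hm1 hm2
  rw [dist_comm m p, hm1, dist_comm m y] at c1
  rw [dist_comm y p, dist_comm y x] at c2
  have hxy : 0 ≤ dist x y / 2 := by positivity
  apply le_of_sq_le_sq _ hxy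
  nlinarith

private theorem A1_quad {X : Type} [MetricSpace X] (hX : IsCAT0 X) {x y x' y' m m' : X}
    (hm1 : dist x m = dist x y / 2) (hm2 : dist y m = dist x y / 2)
    (hn1 : dist x' m' = dist x' y' / 2) (hn2 : dist y' m' = dist x' y' / 2) :
    dist m m' ≤ (dist x x' + dist y y') / 2 := by
  obtain ⟨n, h1, h2⟩ := A1_mid hX x y'
  have k1 := A1_tri hX hm1 hm2 h1 h2
  have k2 : dist n m' ≤ dist x x' / 2 := by
    refine A1_tri hX (p := y') (x := x) (y := x') ?_ ?_ ?_ ?_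
    · rw [h2, dist_comm x y']
    · rw [h1, dist_comm x y']
    · rw [hn2, dist_comm x' y']
    · rw [hn1, dist_comm x' y']
  have k3 := dist_triangle m n m'
  linarith

private theorem A1_half {f : ℝ → ℝ}
    (hf : ∀ s ∈ Icc (0 : ℝ) 1, ∀ t ∈ Icc (0 : ℝ) 1, f ((s + t) / 2) ≤ (f s + f t) / 2) {C : ℝ}
    (hC : ∀ t ∈ Icc (0 : ℝ) 1, f t ≤ (1 - t) * f 0 + t * f 1 + C) :
    ∀ t ∈ Icc (0 : ℝ) 1, f t ≤ (1 - t) * f 0 + t * f 1 + C / 2 := by
  intro t ht
  rcases le_total t (1 / 2) with h | h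
  · have k1 := hf 0 ⟨le_refl _, zero_le_one⟩ (2 * t) ⟨by linarith [ht.1], by linarith⟩
    have k2 := hC (2 * t) ⟨by linarith [ht.1], by linarith⟩
    rw [show (0 + 2 * t) / 2 = t by ring] at k1
    linarith
  · have k1 := hf (2 * t - 1) ⟨by linarith, by linarith [ht.2]⟩ 1 ⟨zero_le_one, le_refl _⟩
    have k2 := hC (2 * t - 1) ⟨by linarith, by linarith [ht.2]⟩
    rw [show (2 * t - 1 + 1) / 2 = t by ring] at k1
    linarith

private theorem A1_conv {f : ℝ → ℝ}
    (hf : ∀ s ∈ Icc (0 : ℝ) 1, ∀ t ∈ Icc (0 : ℝ) 1, f ((s + t) / 2) ≤ (f s + f t) / 2) {C : ℝ}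
    (hC : ∀ t ∈ Icc (0 : ℝ) 1, f t ≤ (1 - t) * f 0 + t * f 1 + C) :
    ∀ t ∈ Icc (0 : ℝ) 1, f t ≤ (1 - t) * f 0 + t * f 1 := by
  have key : ∀ n : ℕ, ∀ t ∈ Icc (0 : ℝ) 1, f t ≤ (1 - t) * f 0 + t * f 1 + C * (1 / 2) ^ n := by
    intro n
    induction n with
    | zero => simpa using hC
    | succ n ih =>
      intro t ht
      have := A1_half hf ih t ht
      rw [pow_succ]
      linarith
  intro t ht
  have hlim : Tendsto (fun n : ℕ => (1 - t) * f 0 + t * f 1 + C * (1 / 2) ^ n) atTop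
      (𝓝 ((1 - t) * f 0 + t * f 1 + C * 0)) := by
    refine Tendsto.const_add _ (Tendsto.const_mul _ ?_)
    exact tendsto_pow_atTop_nhds_zero_of_lt_one (by norm_num) (by norm_num)
  rw [mul_zero, add_zero] at hlim
  exact ge_of_tendsto' hlim fun n => key n t ht

/-- Convexity of the metric: `z`, `z'` are the points of the geodesics `[x, y]`, `[x', y']` with
ratio `s`. -/
theorem convex_dist {X : Type} [MetricSpace X] (hX : IsCAT0 X) (x y x' y' z z' : X) (s : ℝ)
    (hs : s ∈ Icc (0 : ℝ) 1) (h1 : dist x z = s * dist x y) (h2 : dist z y = (1 - s) * dist x y)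
    (h3 : dist x' z' = s * dist x' y') (h4 : dist z' y' = (1 - s) * dist x' y') :
    dist z z' ≤ (1 - s) * dist x x' + s * dist y y' := by
  obtain ⟨γ, a0, a1, ha⟩ := hX.geodesic x y
  obtain ⟨γ', b0, b1, hb⟩ := hX.geodesic x' y'
  obtain ⟨d, hd⟩ : ∃ d, d = dist x y := ⟨_, rfl⟩
  obtain ⟨d', hd'⟩ : ∃ d', d' = dist x' y' := ⟨_, rfl⟩
  have hd0 : 0 ≤ d := hd ▸ dist_nonneg
  have hd0' : 0 ≤ d' := hd' ▸ dist_nonneg
  rw [← hd] at a1 ha h1 h2
  rw [← hd'] at b1 hb h3 h4
  have hmem : ∀ t ∈ Icc (0 : ℝ) 1, t * d ∈ Icc (0 : ℝ) d := fun t ht =>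
    ⟨mul_nonneg ht.1 hd0, by nlinarith [ht.2]⟩
  have hmem' : ∀ t ∈ Icc (0 : ℝ) 1, t * d' ∈ Icc (0 : ℝ) d' := fun t ht =>
    ⟨mul_nonneg ht.1 hd0', by nlinarith [ht.2]⟩
  have hxd : ∀ t ∈ Icc (0 : ℝ) 1, dist x (γ (t * d)) = t * d := fun t ht => by
    have h := ha 0 ⟨le_refl _, hd0⟩ _ (hmem t ht)
    rw [a0, zero_sub, abs_neg, abs_of_nonneg (hmem t ht).1] at h
    exact h
  have hyd : ∀ t ∈ Icc (0 : ℝ) 1, dist (γ (t * d)) y = d - t * d := fun t ht => by
    have h := ha _ (hmem t ht) d ⟨hd0, le_refl _⟩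
    rw [a1, abs_sub_comm, abs_of_nonneg (sub_nonneg.2 (hmem t ht).2)] at h
    exact h
  have hxd' : ∀ t ∈ Icc (0 : ℝ) 1, dist x' (γ' (t * d')) = t * d' := fun t ht => by
    have h := hb 0 ⟨le_refl _, hd0'⟩ _ (hmem' t ht)
    rw [b0, zero_sub, abs_neg, abs_of_nonneg (hmem' t ht).1] at h
    exact h
  have hyd' : ∀ t ∈ Icc (0 : ℝ) 1, dist (γ' (t * d')) y' = d' - t * d' := fun t ht => by
    have h := hb _ (hmem' t ht) d' ⟨hd0', le_refl _⟩
    rw [b1, abs_sub_comm, abs_of_nonneg (sub_nonneg.2 (hmem' t ht).2)] at h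
    exact h
  have hz : z = γ (s * d) := by
    refine A1_uniq hX (x := x) (y := y) (a := s * d) h1 ?_ (hxd s hs) ?_
    · rw [h2, ← hd]; ring
    · rw [hyd s hs, ← hd]
  have hz' : z' = γ' (s * d') := by
    refine A1_uniq hX (x := x') (y := y') (a := s * d') h3 ?_ (hxd' s hs) ?_
    · rw [h4, ← hd']; ring
    · rw [hyd' s hs, ← hd']
  have hf : ∀ s ∈ Icc (0 : ℝ) 1, ∀ t ∈ Icc (0 : ℝ) 1,
      (fun t => dist (γ (t * d)) (γ' (t * d'))) ((s + t) / 2) ≤
        ((fun t => dist (γ (t * d)) (γ' (t * d'))) s +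
          (fun t => dist (γ (t * d)) (γ' (t * d'))) t) / 2 := by
    intro s hs t ht
    have hst : (s + t) / 2 ∈ Icc (0 : ℝ) 1 := ⟨by linarith [hs.1, ht.1], by linarith [hs.2, ht.2]⟩
    have e1 := ha _ (hmem s hs) _ (hmem _ hst)
    have e2 := ha _ (hmem t ht) _ (hmem _ hst)
    have e3 := ha _ (hmem s hs) _ (hmem t ht)
    have e1' := hb _ (hmem' s hs) _ (hmem' _ hst)
    have e2' := hb _ (hmem' t ht) _ (hmem' _ hst)
    have e3' := hb _ (hmem' s hs) _ (hmem' t ht)
    have g1 : ∀ u : ℝ, |s * u - (s + t) / 2 * u| = |s * u - t * u| / 2 := fun u => by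
      rw [show s * u - (s + t) / 2 * u = (s * u - t * u) / 2 by ring, abs_div, abs_two]
    have g2 : ∀ u : ℝ, |t * u - (s + t) / 2 * u| = |s * u - t * u| / 2 := fun u => by
      rw [show t * u - (s + t) / 2 * u = (t * u - s * u) / 2 by ring, abs_div, abs_two,
        abs_sub_comm]
    refine A1_quad hX ?_ ?_ ?_ ?_
    · rw [e1, e3, g1]
    · rw [e2, e3, g2]
    · rw [e1', e3', g1]
    · rw [e2', e3', g2]
  have hC : ∀ t ∈ Icc (0 : ℝ) 1, (fun t => dist (γ (t * d)) (γ' (t * d'))) t ≤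
      (1 - t) * (fun t => dist (γ (t * d)) (γ' (t * d'))) 0 +
        t * (fun t => dist (γ (t * d)) (γ' (t * d'))) 1 + (d + dist x x' + d') := by
    intro t ht
    have k1 : dist (γ (t * d)) (γ' (t * d')) ≤
        dist (γ (t * d)) x + dist x x' + dist x' (γ' (t * d')) := dist_triangle4 _ _ _ _
    rw [dist_comm (γ (t * d)) x, hxd t ht, hxd' t ht] at k1
    have k2 := (hmem t ht).2
    have k3 := (hmem' t ht).2
    have k4 : 0 ≤ (1 - t) * dist (γ (0 * d)) (γ' (0 * d')) :=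
      mul_nonneg (by linarith [ht.2]) dist_nonneg
    have k5 : 0 ≤ t * dist (γ (1 * d)) (γ' (1 * d')) := mul_nonneg ht.1 dist_nonneg
    change dist (γ (t * d)) (γ' (t * d')) ≤ (1 - t) * dist (γ (0 * d)) (γ' (0 * d')) +
      t * dist (γ (1 * d)) (γ' (1 * d')) + (d + dist x x' + d')
    linarith
  have hfin := A1_conv hf hC s hs
  change dist (γ (s * d)) (γ' (s * d')) ≤ (1 - s) * dist (γ (0 * d)) (γ' (0 * d')) +
    s * dist (γ (1 * d)) (γ' (1 * d')) at hfin
  rw [zero_mul, zero_mul, one_mul, one_mul, a0, a1, b0, b1] at hfin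
  rw [hz, hz']
  exact hfin

end LibCE75
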