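import Pool.Agent.LibCE75.Defs
import Pool.Agent.LibCE75.A1

set_option autoImplicit false

/-!
# Board CE75, row A2 (MEDIUM, cites A1).  MP_6fa1a0_gt (cell-like equivalence of boundaries of CAT(0) groups).
Chair: helper75.  Deliver the whole file as CE75_A2.lean (team-store put), statements unchanged,
auxiliary lemmas private, no sorry, no axiom, no straight double quotation mark.

Consequences of convexity.
PLAN. btw_unique: convex_dist with x = x', y = y'. ball_convex: convex_dist with x' = y' = z' = c (s = dist x z / dist x y;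
x = y trivial). seg_of_btw, ray_seg: btw_unique with dist_left_seg, dist_seg_right. seg_seg_le: with a = dist x0 y,
b = dist x0 z, s = t / a, the point of [x0, z] with ratio s is at distance (t/a) dist y z from seg y t by convex_dist,
and its distance from seg z t is |t b / a - t| <= (t / a) * dist y z.
-/

namespace LibCE75

open Set Metric Topology Filter
open scoped NNReal

private theorem a2_btw_le {X : Type} [MetricSpace X] {x y z : X} (h : Btw x z y) :
    dist x z ≤ dist x y := by
  unfold Btw at h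
  linarith [dist_nonneg (x := z) (y := y)]

private theorem a2_btw_seg {X : Type} [MetricSpace X] (hX : IsCAT0 X) (x y : X) (t : ℝ≥0) :
    Btw x (seg hX x y t) y := by
  unfold Btw
  rw [dist_left_seg, dist_seg_right]
  ring

private theorem a2_ratio {X : Type} [MetricSpace X] {x y z : X} (h : Btw x z y)
    (hd : 0 < dist x y) : dist x z / dist x y ∈ Icc (0 : ℝ) 1 ∧
      dist x z = dist x z / dist x y * dist x y ∧
      dist z y = (1 - dist x z / dist x y) * dist x y := by
  have h1 := a2_btw_le h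
  have h2 : dist x z = dist x z / dist x y * dist x y := by
    field_simp
  refine ⟨⟨div_nonneg dist_nonneg dist_nonneg, (div_le_one hd).2 h1⟩, h2, ?_⟩
  unfold Btw at h
  rw [sub_mul, ← h2]
  linarith

theorem btw_unique {X : Type} [MetricSpace X] (hX : IsCAT0 X) {x y z z' : X} (h : Btw x z y)
    (h' : Btw x z' y) (hd : dist x z = dist x z') : z = z' := by
  rcases (dist_nonneg (x := x) (y := y)).eq_or_lt with h0 | h0
  · have h1 : dist x z = 0 := le_antisymm ((a2_btw_le h).trans h0.symm.le) dist_nonneg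
    have h2 : dist x z' = 0 := by rw [← hd, h1]
    rw [← dist_eq_zero.1 h1, ← dist_eq_zero.1 h2]
  · obtain ⟨hs, h1, h2⟩ := a2_ratio h h0
    have h4 : dist z' y = (1 - dist x z / dist x y) * dist x y := by
      rw [← h2]
      unfold Btw at h h'
      linarith
    have h3 : dist x z' = dist x z / dist x y * dist x y := by rw [← h1, hd]
    have h5 := convex_dist hX x y x y z z' _ hs h1 h2 h3 h4
    rw [dist_self, dist_self, mul_zero, mul_zero, add_zero] at h5
    exact dist_le_zero.1 h5

theorem ball_convex {X : Type} [MetricSpace X] (hX : IsCAT0 X) {c x y z : X} (h : Btw x z y) :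
    dist c z ≤ max (dist c x) (dist c y) := by
  rcases (dist_nonneg (x := x) (y := y)).eq_or_lt with h0 | h0
  · have h1 : dist x z = 0 := le_antisymm ((a2_btw_le h).trans h0.symm.le) dist_nonneg
    rw [← dist_eq_zero.1 h1]
    exact le_max_left _ _
  · obtain ⟨hs, h1, h2⟩ := a2_ratio h h0
    have h5 := convex_dist hX x y c c z c _ hs h1 h2 (by simp) (by simp)
    obtain ⟨r, hr⟩ : ∃ r : ℝ, r = dist x z / dist x y := ⟨_, rfl⟩
    rw [← hr] at h5 hs
    rw [dist_comm c z, dist_comm c x, dist_comm c y]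
    have h6 := le_max_left (dist x c) (dist y c)
    have h7 := le_max_right (dist x c) (dist y c)
    have h8 : 0 ≤ 1 - r := by linarith [hs.2]
    calc dist z c ≤ (1 - r) * dist x c + r * dist y c := h5
      _ ≤ (1 - r) * max (dist x c) (dist y c) + r * max (dist x c) (dist y c) :=
          add_le_add (mul_le_mul_of_nonneg_left h6 h8) (mul_le_mul_of_nonneg_left h7 hs.1)
      _ = _ := by ring

theorem seg_of_btw {X : Type} [MetricSpace X] (hX : IsCAT0 X) {x y z : X} (h : Btw x z y)
    (t : ℝ≥0) (ht : (t : ℝ) = dist x z) : seg hX x y t = z := by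
  refine btw_unique hX (a2_btw_seg hX x y t) h ?_
  rw [dist_left_seg, ht, min_eq_left (a2_btw_le h)]

theorem ray_seg {X : Type} [MetricSpace X] (hX : IsCAT0 X) {x₀ : X} (c : Ray X x₀) (s t : ℝ≥0) :
    seg hX x₀ (c.1 s) t = c.1 (min t s) := by
  have h1 : ∀ u : ℝ≥0, dist x₀ (c.1 u) = u := fun u => by
    have := c.2.2 0 u
    rw [c.2.1] at this
    rw [this]; simp
  have h2 : ((min t s : ℝ≥0) : ℝ) = min (t : ℝ) s := by
    rcases le_total t s with h | h
    · rw [min_eq_left h, min_eq_left (by exact_mod_cast h)]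
    · rw [min_eq_right h, min_eq_right (by exact_mod_cast h)]
  refine btw_unique hX (a2_btw_seg hX x₀ (c.1 s) t) ?_ ?_
  · unfold Btw
    rw [h1, h1, c.2.2, h2, abs_sub_comm,
      abs_of_nonneg (sub_nonneg.2 (min_le_right (t : ℝ) (s : ℝ)))]
    ring
  · rw [dist_left_seg, h1, h1, h2]

theorem seg_seg_le {X : Type} [MetricSpace X] (hX : IsCAT0 X) (x₀ y z : X) (t : ℝ≥0)
    (ht : (t : ℝ) ≤ dist x₀ y) (ht' : (t : ℝ) ≤ dist x₀ z) :
    dist (seg hX x₀ y t) (seg hX x₀ z t) * dist x₀ y ≤ 2 * t * dist y z := by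
  obtain ⟨a, ha⟩ : ∃ a : ℝ, a = dist x₀ y := ⟨_, rfl⟩
  obtain ⟨b, hb⟩ : ∃ b : ℝ, b = dist x₀ z := ⟨_, rfl⟩
  have hb0 : 0 ≤ b := by rw [hb]; exact dist_nonneg
  have hyz : 0 ≤ dist y z := dist_nonneg
  rw [← ha] at ht ⊢
  rw [← hb] at ht'
  have ha0 : 0 ≤ a := by rw [ha]; exact dist_nonneg
  rcases ha0.eq_or_lt with h0 | h0
  · rw [← h0, mul_zero]
    have := t.2
    positivity
  · obtain ⟨s, hs⟩ : ∃ s : ℝ, s = (t : ℝ) / a := ⟨_, rfl⟩
    have hs0 : 0 ≤ s := by rw [hs]; exact div_nonneg t.2 ha0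
    have hs1 : s ≤ 1 := by rw [hs]; exact (div_le_one h0).2 ht
    have hsa : s * a = t := by rw [hs]; field_simp
    have hsb : s * b ≤ b := by nlinarith
    obtain ⟨r, hr⟩ : ∃ r : ℝ≥0, (r : ℝ) = s * b :=
      ⟨(s * b).toNNReal, Real.coe_toNNReal _ (mul_nonneg hs0 hb0)⟩
    obtain ⟨w, hw⟩ : ∃ w : X, w = seg hX x₀ z r := ⟨_, rfl⟩
    have e1 : dist x₀ (seg hX x₀ y t) = s * dist x₀ y := by
      rw [dist_left_seg, ← ha, min_eq_left ht, hsa]
    have e2 : dist (seg hX x₀ y t) y = (1 - s) * dist x₀ y := by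
      rw [dist_seg_right, ← ha, min_eq_left ht, ← hsa]
      ring
    have e3 : dist x₀ w = s * dist x₀ z := by
      rw [hw, dist_left_seg, ← hb, hr, min_eq_left hsb]
    have e4 : dist w z = (1 - s) * dist x₀ z := by
      rw [hw, dist_seg_right, ← hb, hr, min_eq_left hsb]
      ring
    have h1 := convex_dist hX x₀ y x₀ z (seg hX x₀ y t) w s ⟨hs0, hs1⟩ e1 e2 e3 e4
    rw [dist_self, mul_zero, zero_add] at h1
    have h2 : dist w (seg hX x₀ z t) = |s * b - t| := by
      rw [hw, dist_seg_seg, ← hb, hr, min_eq_left hsb, min_eq_left ht']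
    have h3 : |s * b - t| ≤ s * dist y z := by
      rw [← hsa, ← mul_sub, abs_mul, abs_of_nonneg hs0]
      refine mul_le_mul_of_nonneg_left ?_ hs0
      rw [ha, hb, dist_comm x₀ z, dist_comm x₀ y, dist_comm y z]
      exact abs_dist_sub_le z y x₀
    have h4 := dist_triangle (seg hX x₀ y t) w (seg hX x₀ z t)
    calc dist (seg hX x₀ y t) (seg hX x₀ z t) * a ≤ (2 * s * dist y z) * a := by
          refine mul_le_mul_of_nonneg_right ?_ ha0
          linarith
      _ = 2 * (s * a) * dist y z := by ring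
      _ = _ := by rw [hsa]

end LibCE75
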