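import Pool.Agent.LibCE75.Defs
import Pool.Agent.LibCE75.A1
import Pool.Agent.LibCE75.A2

set_option autoImplicit false

/-!
# Board CE75, row A3 (MEDIUM, cites A1, A2).  MP_6fa1a0_gt (cell-like equivalence of boundaries of CAT(0) groups).
Chair: helper75.  Deliver the whole file as CE75_A3.lean (team-store put), statements unchanged,
auxiliary lemmas private, no sorry, no axiom, no straight double quotation mark.

Closure of a convex set; convex subsets are CAT(0).
PLAN. closure_cvx: x_n -> x, y_n -> y in S, z between x and y with ratio s = dist x z / dist x y (if x = y then z = x).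
z_n = the point of a geodesic from x_n to y_n with ratio s is in S; convex_dist gives dist z_n z <= (1-s) dist x_n x
+ s dist y_n y -> 0. isCAT0_subtype: a geodesic of X between points of S stays in S (its points are between);
define the path in the subtype by projecting the parameter to [0, dist x y] (Set.projIcc or a max/min); cn is inherited.
-/

namespace LibCE75

open Set Metric Topology Filter
open scoped NNReal

theorem closure_cvx {X : Type} [MetricSpace X] (hX : IsCAT0 X) (S : Set X) (hS : Cvx S) :
    Cvx (closure S) := by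
  intro x hx y hy z hz
  unfold Btw at hz
  rcases eq_or_lt_of_le (dist_nonneg : 0 ≤ dist x y) with hd | hd
  · have h1 : dist x z = 0 := le_antisymm (by
      have := dist_nonneg (x := z) (y := y)
      linarith) dist_nonneg
    rw [← dist_eq_zero.1 h1]
    exact hx
  · have h0 : 0 ≤ dist x z := dist_nonneg
    have h0' : 0 ≤ dist z y := dist_nonneg
    set s : ℝ := dist x z / dist x y with hs
    have hs0 : 0 ≤ s := div_nonneg h0 hd.le
    have hs1 : s ≤ 1 := by
      rw [hs, div_le_one hd]
      linarith
    have hxz : dist x z = s * dist x y := by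
      rw [hs, div_mul_cancel₀ _ hd.ne']
    have hzy : dist z y = (1 - s) * dist x y := by
      rw [sub_mul, ← hxz, one_mul]
      linarith
    rw [Metric.mem_closure_iff]
    intro ε hε
    obtain ⟨x', hx', hxx⟩ := Metric.mem_closure_iff.1 hx ε hε
    obtain ⟨y', hy', hyy⟩ := Metric.mem_closure_iff.1 hy ε hε
    have hd' : 0 ≤ dist x' y' := dist_nonneg
    let t : ℝ≥0 := ⟨s * dist x' y', mul_nonneg hs0 hd'⟩
    have ht : (t : ℝ) = s * dist x' y' := rfl
    have htm : min (t : ℝ) (dist x' y') = s * dist x' y' := by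
      rw [ht]
      exact min_eq_left (mul_le_of_le_one_left hd' hs1)
    have h3 : dist x' (seg hX x' y' t) = s * dist x' y' := by
      rw [dist_left_seg, htm]
    have h4 : dist (seg hX x' y' t) y' = (1 - s) * dist x' y' := by
      rw [dist_seg_right, htm]
      ring
    refine ⟨seg hX x' y' t, hS x' hx' y' hy' _ ?_, ?_⟩
    · unfold Btw
      rw [h3, h4]
      ring
    · have h5 := convex_dist hX x y x' y' z (seg hX x' y' t) s ⟨hs0, hs1⟩ hxz hzy h3 h4
      refine h5.trans_lt ?_
      rcases eq_or_lt_of_le hs0 with hs2 | hs2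
      · rw [← hs2]
        linarith
      · have h6 : (1 - s) * dist x x' ≤ (1 - s) * ε :=
          mul_le_mul_of_nonneg_left hxx.le (by linarith)
        have h7 : s * dist y y' < s * ε := mul_lt_mul_of_pos_left hyy hs2
        linarith

theorem isCAT0_subtype {X : Type} [MetricSpace X] (hX : IsCAT0 X) (S : Set X) (hS : Cvx S) :
    IsCAT0 ↥S := by
  constructor
  · intro x y
    obtain ⟨g, hg0, hg1, hg⟩ := hX.geodesic x.1 y.1
    have hd : 0 ≤ dist x.1 y.1 := dist_nonneg
    have hcl : ∀ t : ℝ, max 0 (min t (dist x.1 y.1)) ∈ Icc (0 : ℝ) (dist x.1 y.1) := fun t =>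
      ⟨le_max_left _ _, max_le hd (min_le_right _ _)⟩
    have hid : ∀ t ∈ Icc (0 : ℝ) (dist x.1 y.1), max 0 (min t (dist x.1 y.1)) = t := by
      intro t ht
      rw [min_eq_left ht.2, max_eq_right ht.1]
    have hmem : ∀ t : ℝ, g (max 0 (min t (dist x.1 y.1))) ∈ S := by
      intro t
      have h1 := hcl t
      have h2 := hg 0 ⟨le_refl _, hd⟩ _ h1
      have h3 := hg _ h1 (dist x.1 y.1) ⟨hd, le_refl _⟩
      rw [hg0, zero_sub, abs_neg, abs_of_nonneg h1.1] at h2
      rw [hg1, abs_sub_comm, abs_of_nonneg (sub_nonneg.2 h1.2)] at h3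
      refine hS x.1 x.2 y.1 y.2 _ ?_
      unfold Btw
      rw [h2, h3]
      ring
    refine ⟨fun t => ⟨g (max 0 (min t (dist x.1 y.1))), hmem t⟩, ?_, ?_, ?_⟩
    · apply Subtype.ext
      show g (max 0 (min 0 (dist x.1 y.1))) = x.1
      rw [hid 0 ⟨le_refl _, hd⟩, hg0]
    · apply Subtype.ext
      show g (max 0 (min (dist x.1 y.1) (dist x.1 y.1))) = y.1
      rw [hid _ ⟨hd, le_refl _⟩, hg1]
    · intro s hs t ht
      show dist (g (max 0 (min s (dist x.1 y.1)))) (g (max 0 (min t (dist x.1 y.1)))) = |s - t|
      rw [hid s hs, hid t ht]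
      exact hg s hs t ht
  · intro p q r m h1 h2
    exact hX.cn p.1 q.1 r.1 m.1 h1 h2

end LibCE75
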