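import Pool.Agent.LibCE75.Defs

set_option autoImplicit false

/-!
# Board CE75, row A4 (MEDIUM/STRONG, only Mathlib).  MP_6fa1a0_gt (cell-like equivalence of boundaries of CAT(0) groups).
Chair: helper75.  Deliver the whole file as CE75_A4.lean (team-store put), statements unchanged,
auxiliary lemmas private, no sorry, no axiom, no straight double quotation mark.

A geodesic space with a geometric action is proper; the action is metrically proper; covering radius.
PLAN (Bridson-Haefliger I.8.3, I.8.4). (1) for x, y in X there is e > 0 such that {g | g B(x,e) meets B(y,e)} is finite: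
otherwise there are, for every n, infinitely many g with g B(x,1/n) meeting B(y,1/n), so dist (g x) y < 2/n; choose
n with 4/n < r (r for x from proper): for two of them g, g' : dist (g^-1 g' x) x < 4/n, so g^-1 g' is in the finite
set for x: so only finitely many g' : contradiction. (2) compactness of K x K gives: there is an open U containing K with
{g | g U meets U} finite (cover K x K by finitely many balls B(x_i,e_i) x B(y_i,e_i); or argue with Lebesgue numbers).
(3) for x in X (first x in K, then translate): a small ball around x is contained in finitely many g K, so its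
closed ball is compact; cocompactness (Lebesgue number of K) gives ONE r > 0 such that all closed balls of radius r are
compact. (4) all closed balls are compact, by induction on the radius: closedBall x (s + r/2) is contained in the
finite union of closedBall y r, y in an r/2-net of the compact closedBall x s (geodesic space). (5) finite_near: the
closed ball of radius r around x is compact, add y to K; finitely many g. exists_cover: K is bounded.
-/

namespace LibCE75

open Set Metric Topology Filter
open scoped NNReal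

private theorem A4_L1 {G X : Type} [Group G] [MetricSpace X] [MulAction G X]
    (hG : Geometric G X) (y : X) :
    ∃ e : ℝ, 0 < e ∧ ∀ x : X, {g : G | dist x (g • y) < e}.Finite := by
  obtain ⟨r, hr, hfin⟩ := hG.proper y
  refine ⟨r / 2, by linarith, fun x => ?_⟩
  rcases Set.eq_empty_or_nonempty {g : G | dist x (g • y) < r / 2} with h | ⟨g₀, hg₀⟩
  · rw [h]
    exact Set.finite_empty
  · refine (hfin.image (fun g => g₀ * g)).subset ?_
    intro g hg
    refine ⟨g₀⁻¹ * g, ?_, by simp⟩
    refine ⟨(g₀⁻¹ * g) • y, ⟨y, mem_ball_self hr, rfl⟩, ?_⟩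
    have h1 : dist x (g₀ • y) < r / 2 := hg₀
    have h2 : dist x (g • y) < r / 2 := hg
    have h3 : dist ((g₀⁻¹ * g) • y) y = dist (g • y) (g₀ • y) := by
      rw [← hG.isom g₀ ((g₀⁻¹ * g) • y) y, smul_smul, mul_inv_cancel_left]
    have h4 := dist_triangle_left (g • y) (g₀ • y) x
    rw [mem_ball, h3]
    linarith

private theorem A4_L2 {G X : Type} [Group G] [MetricSpace X] [MulAction G X]
    (hG : Geometric G X) {K : Set X} (hK : IsCompact K) :
    ∃ e : ℝ, 0 < e ∧ ∀ x : X, {g : G | ∃ k ∈ K, dist x (g • k) < e}.Finite := by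
  refine hK.induction_on (p := fun K => ∃ e : ℝ, 0 < e ∧
    ∀ x : X, {g : G | ∃ k ∈ K, dist x (g • k) < e}.Finite) ?_ ?_ ?_ ?_
  · refine ⟨1, one_pos, fun x => ?_⟩
    simp
  · rintro s t hst ⟨e, he, h⟩
    exact ⟨e, he, fun x => (h x).subset fun g ⟨k, hk, hkd⟩ => ⟨k, hst hk, hkd⟩⟩
  · rintro s t ⟨e, he, h⟩ ⟨e', he', h'⟩
    refine ⟨min e e', lt_min he he', fun x => ((h x).union (h' x)).subset ?_⟩
    rintro g ⟨k, hk | hk, hkd⟩
    · exact Or.inl ⟨k, hk, hkd.trans_le (min_le_left _ _)⟩
    · exact Or.inr ⟨k, hk, hkd.trans_le (min_le_right _ _)⟩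
  · intro y _
    obtain ⟨e, he, h⟩ := A4_L1 hG y
    refine ⟨ball y (e / 2), mem_nhdsWithin_of_mem_nhds (ball_mem_nhds y (by linarith)),
      e / 2, by linarith, fun x => (h x).subset ?_⟩
    rintro g ⟨k, hk, hkd⟩
    have h1 : dist (g • k) (g • y) < e / 2 := by
      rw [hG.isom]
      exact hk
    have h2 := dist_triangle x (g • k) (g • y)
    change dist x (g • y) < e
    linarith

private theorem A4_small {G X : Type} [Group G] [MetricSpace X] [MulAction G X]
    (hG : Geometric G X) : ∃ r : ℝ, 0 < r ∧ ∀ x : X, IsCompact (closedBall x r) := by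
  obtain ⟨K, hK, hcov⟩ := hG.cocompact
  obtain ⟨e, he, h⟩ := A4_L2 hG hK
  refine ⟨e / 2, by linarith, fun x => ?_⟩
  have hc : IsCompact (⋃ g ∈ {g : G | ∃ k ∈ K, dist x (g • k) < e}, (fun y : X => g • y) '' K) := by
    refine (h x).isCompact_biUnion fun g _ => hK.image ?_
    exact (Isometry.of_dist_eq (hG.isom g)).continuous
  refine hc.of_isClosed_subset isClosed_closedBall ?_
  intro z hz
  obtain ⟨g, hg⟩ := hcov z
  rw [mem_iUnion₂]
  refine ⟨g⁻¹, ⟨g • z, hg, ?_⟩, g • z, hg, inv_smul_smul g z⟩
  rw [inv_smul_smul, dist_comm]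
  have : dist z x ≤ e / 2 := hz
  linarith

private theorem A4_step {X : Type} [MetricSpace X] (hX : IsCAT0 X) {r : ℝ} (hr : 0 < r)
    (h : ∀ x : X, IsCompact (closedBall x r)) (x : X) {s : ℝ} (hs : 0 ≤ s)
    (hc : IsCompact (closedBall x s)) : IsCompact (closedBall x (s + r / 2)) := by
  obtain ⟨t, -, htf, htc⟩ := hc.finite_cover_balls (half_pos hr)
  have hc' : IsCompact (⋃ y ∈ t, closedBall y r) := htf.isCompact_biUnion fun y _ => h y
  refine hc'.of_isClosed_subset isClosed_closedBall ?_
  intro y hy
  have hy' : dist x y ≤ s + r / 2 := by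
    rw [dist_comm]
    exact hy
  have hw : ∃ w, dist x w ≤ s ∧ dist w y ≤ r / 2 := by
    rcases le_total (dist x y) s with hle | hle
    · exact ⟨y, hle, by rw [dist_self]; linarith⟩
    · obtain ⟨γ, h0, h1, hγ⟩ := hX.geodesic x y
      have hd : 0 ≤ dist x y := dist_nonneg
      have e1 := hγ 0 ⟨le_refl _, hd⟩ s ⟨hs, hle⟩
      have e2 := hγ s ⟨hs, hle⟩ (dist x y) ⟨hd, le_refl _⟩
      rw [h0, zero_sub, abs_neg, abs_of_nonneg hs] at e1
      rw [h1, abs_sub_comm, abs_of_nonneg (sub_nonneg.2 hle)] at e2
      exact ⟨γ s, e1.le, by rw [e2]; linarith⟩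
  obtain ⟨w, hw1, hw2⟩ := hw
  have hwm : w ∈ closedBall x s := by
    rw [mem_closedBall, dist_comm]
    exact hw1
  obtain ⟨n, hn, hnw⟩ := mem_iUnion₂.1 (htc hwm)
  rw [mem_iUnion₂]
  refine ⟨n, hn, ?_⟩
  rw [mem_ball] at hnw
  rw [mem_closedBall]
  have := dist_triangle y w n
  rw [dist_comm y w] at this
  linarith

theorem properSpace_of_geometric {G X : Type} [Group G] [MetricSpace X] [MulAction G X]
    (hX : IsCAT0 X) (hG : Geometric G X) : ProperSpace X := by
  obtain ⟨r, hr, h⟩ := A4_small hG
  have key : ∀ (x : X) (n : ℕ), IsCompact (closedBall x (n * (r / 2))) := by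
    intro x n
    induction n with
    | zero =>
      rw [Nat.cast_zero, zero_mul, closedBall_zero]
      exact isCompact_singleton
    | succ n ih =>
      have := A4_step hX hr h x (by positivity) ih
      rwa [show (n : ℝ) * (r / 2) + r / 2 = ((n + 1 : ℕ) : ℝ) * (r / 2) by push_cast; ring] at this
  refine ⟨fun x s => ?_⟩
  obtain ⟨n, hn⟩ := exists_nat_ge (s / (r / 2))
  refine (key x n).of_isClosed_subset isClosed_closedBall (closedBall_subset_closedBall ?_)
  rwa [div_le_iff₀ (half_pos hr)] at hn

theorem finite_near {G X : Type} [Group G] [MetricSpace X] [MulAction G X]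
    (hX : IsCAT0 X) (hG : Geometric G X) (x y : X) (r : ℝ) :
    {g : G | dist x (g • y) ≤ r}.Finite := by
  have := properSpace_of_geometric hX hG
  obtain ⟨e, he, h⟩ := A4_L1 hG y
  obtain ⟨t, -, htf, htc⟩ := (isCompact_closedBall x r).finite_cover_balls he
  refine (htf.biUnion fun w _ => h w).subset ?_
  intro g hg
  have hg' : g • y ∈ closedBall x r := by
    rw [mem_closedBall, dist_comm]
    exact hg
  obtain ⟨w, hw, hwd⟩ := mem_iUnion₂.1 (htc hg')
  rw [mem_iUnion₂]
  refine ⟨w, hw, ?_⟩
  change dist w (g • y) < e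
  rw [dist_comm]
  exact hwd

theorem exists_cover {G X : Type} [Group G] [MetricSpace X] [MulAction G X]
    (hG : Geometric G X) (x₀ : X) :
    ∃ R : ℝ, 0 ≤ R ∧ ∀ x : X, ∃ g : G, dist x (g • x₀) ≤ R := by
  obtain ⟨K, hK, hcov⟩ := hG.cocompact
  obtain ⟨R, hR⟩ := hK.isBounded.subset_closedBall x₀
  refine ⟨max R 0, le_max_right _ _, fun x => ?_⟩
  obtain ⟨g, hg⟩ := hcov x
  refine ⟨g⁻¹, ?_⟩
  have h1 : dist (g • x) x₀ ≤ R := hR hg
  rw [← hG.isom g, smul_inv_smul]
  exact h1.trans (le_max_left _ _)

end LibCE75
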