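import Pool.Agent.LibCE75.Defs
import Pool.Agent.LibCE75.A1
import Pool.Agent.LibCE75.A2

set_option autoImplicit false

/-!
# Board CE75, row B1 (MEDIUM, cites A2).  MP_6fa1a0_gt (cell-like equivalence of boundaries of CAT(0) groups).
Chair: helper75.  Deliver the whole file as CE75_B1.lean (team-store put), statements unchanged,
auxiliary lemmas private, no sorry, no axiom, no straight double quotation mark.

The compactification is compact and metrizable; the rays are a closed subspace.
PLAN. Xbar is a closed subset of the product over t of closedBall x0 t (take s = t in the condition: dist x0 (c t) =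
min t _ <= t), each compact (ProperSpace), Tychonoff. Metrizable: restriction to natural numbers c |-> (c n)_n is a
continuous injection into the metrizable space N -> X: if c n = c' n for all n then c t = c' t: for t <= n both are at
distance min t (dist x0 (c n)) from x0 and at distance dist x0 (c n) - that from c n ... WARNING: without CAT(0)
uniqueness this is NOT true, so use hX: they are equal by uniqueness of geodesic points (cite A2 btw_unique). So the
restriction is a closed embedding (compact to Hausdorff). toXbar: topologies are both induced from the product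
topology; range = {c | forall t, dist x0 (c t) = t}, closed.
-/

namespace LibCE75

open Set Metric Topology Filter
open scoped NNReal

theorem xbar_compact {X : Type} [MetricSpace X] [ProperSpace X] (x₀ : X) :
    CompactSpace (Xbar X x₀) := by
  have hcl : IsClosed {c : ℝ≥0 → X | ∀ s t : ℝ≥0, s ≤ t →
      dist x₀ (c s) = min (s : ℝ) (dist x₀ (c t)) ∧
      dist (c s) (c t) = dist x₀ (c t) - dist x₀ (c s)} := by
    simp only [ofPred_forall]
    refine isClosed_iInter fun s => isClosed_iInter fun t => isClosed_iInter fun _ => ?_
    have hs : Continuous fun c : ℝ≥0 → X => c s := continuous_apply s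
    have ht : Continuous fun c : ℝ≥0 → X => c t := continuous_apply t
    exact (isClosed_eq (continuous_const.dist hs)
      (continuous_const.min (continuous_const.dist ht))).inter
      (isClosed_eq (hs.dist ht) ((continuous_const.dist ht).sub (continuous_const.dist hs)))
  have hK : IsCompact (Set.pi univ fun t : ℝ≥0 => closedBall x₀ (t : ℝ)) :=
    isCompact_univ_pi fun t => isCompact_closedBall x₀ t
  have hc := hK.of_isClosed_subset hcl (fun c hc t _ => by
    rw [mem_closedBall, dist_comm, (hc t t le_rfl).1]
    exact min_le_left _ _)
  exact isCompact_iff_compactSpace.mp hc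

theorem xbar_metrizable {X : Type} [MetricSpace X] [ProperSpace X] (hX : IsCAT0 X) (x₀ : X) :
    TopologicalSpace.MetrizableSpace (Xbar X x₀) := by
  have hcomp : CompactSpace (Xbar X x₀) := xbar_compact x₀
  have hcont : Continuous (fun (c : Xbar X x₀) (n : ℕ) => c.1 (n : ℝ≥0)) :=
    continuous_pi fun n => (continuous_apply (n : ℝ≥0)).comp continuous_subtype_val
  have hinj : Function.Injective (fun (c : Xbar X x₀) (n : ℕ) => c.1 (n : ℝ≥0)) := by
    intro c c' h
    refine Subtype.ext (funext fun t => ?_)
    obtain ⟨n, hn⟩ := exists_nat_ge t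
    have hcn : c.1 (n : ℝ≥0) = c'.1 (n : ℝ≥0) := congrFun h n
    have h1 := c.2 t n hn
    have h2 := c'.2 t n hn
    refine btw_unique hX (x := x₀) (y := c.1 (n : ℝ≥0)) ?_ ?_ ?_
    · unfold Btw
      rw [h1.2]
      ring
    · unfold Btw
      rw [hcn, h2.2]
      ring
    · rw [h1.1, h2.1, hcn]
  exact (hcont.isClosedEmbedding hinj).isEmbedding.metrizableSpace

theorem toXbar_closedEmbedding {X : Type} [MetricSpace X] (x₀ : X) :
    IsClosedEmbedding (Ray.toXbar : Ray X x₀ → Xbar X x₀) := by
  have hcont : Continuous (Ray.toXbar : Ray X x₀ → Xbar X x₀) :=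
    Continuous.subtype_mk continuous_subtype_val _
  have hemb : IsEmbedding (Ray.toXbar : Ray X x₀ → Xbar X x₀) :=
    IsEmbedding.of_comp (g := fun c : Xbar X x₀ => c.1) hcont continuous_subtype_val
      (IsEmbedding.subtypeVal (p := fun c : ℝ≥0 → X => c 0 = x₀ ∧
        ∀ s t : ℝ≥0, dist (c s) (c t) = |(s : ℝ) - t|))
  refine ⟨hemb, ?_⟩
  have hr : range (Ray.toXbar : Ray X x₀ → Xbar X x₀) =
      ⋂ t : ℝ≥0, {c : Xbar X x₀ | dist x₀ (c.1 t) = t} := by
    ext c
    simp only [mem_range, mem_iInter, mem_ofPred_eq]
    constructor
    · rintro ⟨d, rfl⟩ t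
      have := d.2.2 0 t
      rw [d.2.1] at this
      rw [show (Ray.toXbar d).1 t = d.1 t from rfl, this]
      simp
    · intro h
      have h0 : c.1 0 = x₀ := by
        have := h 0
        rw [NNReal.coe_zero, dist_eq_zero] at this
        exact this.symm
      refine ⟨⟨c.1, h0, ?_⟩, rfl⟩
      have key : ∀ s t : ℝ≥0, s ≤ t → dist (c.1 s) (c.1 t) = |(s : ℝ) - t| := by
        intro s t hst
        have hst' : (s : ℝ) ≤ t := hst
        rw [(c.2 s t hst).2, h s, h t, abs_sub_comm, abs_of_nonneg (sub_nonneg.2 hst')]
      intro s t
      rcases le_total s t with hst | hst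
      · exact key s t hst
      · rw [dist_comm, key t s hst, abs_sub_comm]
  rw [hr]
  refine isClosed_iInter fun t => ?_
  have ht : Continuous fun c : Xbar X x₀ => c.1 t :=
    (continuous_apply t).comp continuous_subtype_val
  exact isClosed_eq (continuous_const.dist ht) continuous_const

theorem ray_compact {X : Type} [MetricSpace X] [ProperSpace X] (x₀ : X) :
    CompactSpace (Ray X x₀) := by
  have hcomp : CompactSpace (Xbar X x₀) := xbar_compact x₀
  exact (toXbar_closedEmbedding x₀).compactSpace

theorem ray_metrizable {X : Type} [MetricSpace X] [ProperSpace X] (hX : IsCAT0 X) (x₀ : X) :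
    TopologicalSpace.MetrizableSpace (Ray X x₀) := by
  have hmet : TopologicalSpace.MetrizableSpace (Xbar X x₀) := xbar_metrizable hX x₀
  exact (toXbar_closedEmbedding x₀).isEmbedding.metrizableSpace

end LibCE75
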