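import Pool.Agent.LibCE75.Defs
import Pool.Agent.LibCE75.A1
import Pool.Agent.LibCE75.A2

set_option autoImplicit false

/-!
# Board CE75, row B2 (SHORT/MEDIUM, cites A2).  MP_6fa1a0_gt (cell-like equivalence of boundaries of CAT(0) groups).
Chair: helper75.  Deliver the whole file as CE75_B2.lean (team-store put), statements unchanged,
auxiliary lemmas private, no sor ry, no axiom, no straight double quotation mark.

Limits of points going to infinity are rays.
PLAN. exists_ray: put c itself: dist (c s) (c t) = |s - t| from the second condition of Xbar with dist x0 (c t) = t.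
limit_is_ray: for fixed t, dist x0 (seg x0 (y a) t) = min t (dist x0 (y a)) = t eventually, and it tends to dist x0 (c t).
ray_dist: dist x0 (c t) = t for a ray. nhds: Tendsto to c in Xbar iff pointwise convergence
(induced topology + tendsto_pi_nhds).
-/

namespace LibCE75

open Set Metric Topology Filter
open scoped NNReal

theorem ray_dist {X : Type} [MetricSpace X] {x₀ : X} (c : Ray X x₀) (t : ℝ≥0) :
    dist x₀ (c.1 t) = t := by
  have h := c.2.2 0 t
  rw [c.2.1] at h
  rw [h]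
  simp

theorem tendsto_xbar_iff {X : Type} [MetricSpace X] {x₀ : X} {α : Type} {l : Filter α}
    (f : α → Xbar X x₀) (c : Xbar X x₀) :
    Tendsto f l (𝓝 c) ↔ ∀ t : ℝ≥0, Tendsto (fun a => (f a).1 t) l (𝓝 (c.1 t)) := by
  have h : Tendsto f l (𝓝 c) ↔ Tendsto (fun a => (f a).1) l (𝓝 c.1) := tendsto_subtype_rng
  rw [h, tendsto_pi_nhds]

theorem tendsto_ray_iff {X : Type} [MetricSpace X] {x₀ : X} {α : Type} {l : Filter α}
    (f : α → Ray X x₀) (c : Ray X x₀) :
    Tendsto f l (𝓝 c) ↔ ∀ t : ℝ≥0, Tendsto (fun a => (f a).1 t) l (𝓝 (c.1 t)) := by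
  have h : Tendsto f l (𝓝 c) ↔ Tendsto (fun a => (f a).1) l (𝓝 c.1) := tendsto_subtype_rng
  rw [h, tendsto_pi_nhds]

theorem exists_ray {X : Type} [MetricSpace X] {x₀ : X} (c : Xbar X x₀)
    (h : ∀ t : ℝ≥0, dist x₀ (c.1 t) = t) : ∃ ξ : Ray X x₀, c = ξ.toXbar := by
  have h0 : c.1 0 = x₀ := by
    have h1 := h 0
    rw [NNReal.coe_zero, dist_eq_zero] at h1
    exact h1.symm
  have hle : ∀ s t : ℝ≥0, s ≤ t → dist (c.1 s) (c.1 t) = |(s : ℝ) - t| := by
    intro s t hst
    have hst' : (s : ℝ) ≤ t := hst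
    rw [(c.2 s t hst).2, h, h, abs_sub_comm, abs_of_nonneg (sub_nonneg.2 hst')]
  have hd : ∀ s t : ℝ≥0, dist (c.1 s) (c.1 t) = |(s : ℝ) - t| := by
    intro s t
    rcases le_total s t with hst | hst
    · exact hle s t hst
    · rw [dist_comm, abs_sub_comm]
      exact hle t s hst
  exact ⟨⟨c.1, h0, hd⟩, Subtype.ext rfl⟩

theorem limit_is_ray {X : Type} [MetricSpace X] (hX : IsCAT0 X) {x₀ : X} {α : Type}
    {l : Filter α} [NeBot l] (y : α → X) (hy : Tendsto (fun a => dist x₀ (y a)) l atTop)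
    (c : Xbar X x₀) (h : Tendsto (fun a => pt hX x₀ (y a)) l (𝓝 c)) :
    ∃ ξ : Ray X x₀, c = ξ.toXbar := by
  refine exists_ray c fun t => ?_
  have h1 := (tendsto_xbar_iff _ _).1 h t
  have h2 : Tendsto (fun a => dist x₀ ((pt hX x₀ (y a)).1 t)) l (𝓝 (dist x₀ (c.1 t))) :=
    tendsto_const_nhds.dist h1
  have h3 : Tendsto (fun a => dist x₀ ((pt hX x₀ (y a)).1 t)) l (𝓝 (t : ℝ)) := by
    refine tendsto_const_nhds.congr' ?_
    filter_upwards [hy.eventually_ge_atTop (t : ℝ)] with a ha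
    have h4 : dist x₀ ((pt hX x₀ (y a)).1 t) = min (t : ℝ) (dist x₀ (y a)) :=
      dist_left_seg hX x₀ (y a) t
    rw [h4, min_eq_left ha]
  exact tendsto_nhds_unique h2 h3

end LibCE75
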