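import Pool.Agent.LibCE75.Defs
import Pool.Agent.LibCE75.A1
import Pool.Agent.LibCE75.A2
import Pool.Agent.LibCE75.B2

set_option autoImplicit false

/-!
# Board CE75, row B3 (MEDIUM, cites A2, B2).  MP_6fa1a0_gt (cell-like equivalence of boundaries of CAT(0) groups).
Chair: helper75.  Deliver the whole file as CE75_B3.lean (team-store put), statements unchanged,
auxiliary lemmas private, no sorry, no axiom, no straight double quotation mark.

Points near to far points of converging rays converge.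
PLAN. For fixed t: (pt (y a)) t = seg x0 (y a) t; for tau a > t + C, by seg_seg_le with z = (xi a) (tau a) and ray_seg:
dist (seg x0 (y a) t) ((xi a) t) * dist x0 (y a) <= 2 t C and dist x0 (y a) >= tau a - C -> infinity; (xi a) t -> xi0 t.
Second statement: same with seg_seg_le for y a, y' a. Third: the two rays: dist (c t) (c' t) * s <= 2 t C' for
s arbitrarily large: compare c s and c' s' with seg_seg_le and ray_seg (|s - s'| <= C automatically).
-/

namespace LibCE75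

open Set Metric Topology Filter
open scoped NNReal

private theorem B3_key {X : Type} [MetricSpace X] (hX : IsCAT0 X) {x₀ : X} {α : Type}
    {l : Filter α} (y z : α → X) (C : ℝ) (hC : 0 ≤ C) (h : ∀ᶠ a in l, dist (y a) (z a) ≤ C)
    (hd : Tendsto (fun a => dist x₀ (y a)) l atTop) (t : ℝ≥0) :
    Tendsto (fun a => dist (seg hX x₀ (y a) t) (seg hX x₀ (z a) t)) l (𝓝 0) := by
  have h1 : Tendsto (fun a => 2 * (t : ℝ) * C / dist x₀ (y a)) l (𝓝 0) :=
    tendsto_const_nhds.div_atTop hd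
  refine tendsto_of_tendsto_of_tendsto_of_le_of_le' tendsto_const_nhds h1
    (Eventually.of_forall fun a => dist_nonneg) ?_
  filter_upwards [h, hd.eventually_ge_atTop ((t : ℝ) + C + 1)] with a ha hda
  have ht0 : (0 : ℝ) ≤ t := t.2
  have hpos : 0 < dist x₀ (y a) := by linarith
  rw [le_div_iff₀ hpos]
  have h2 : (t : ℝ) ≤ dist x₀ (y a) := by linarith
  have h3 : (t : ℝ) ≤ dist x₀ (z a) := by
    have h4 : dist x₀ (y a) ≤ dist x₀ (z a) + dist (z a) (y a) := dist_triangle _ _ _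
    rw [dist_comm (z a) (y a)] at h4
    linarith
  have h5 := seg_seg_le hX x₀ (y a) (z a) t h2 h3
  have h6 : 2 * (t : ℝ) * dist (y a) (z a) ≤ 2 * (t : ℝ) * C :=
    mul_le_mul_of_nonneg_left ha (by positivity)
  exact h5.trans h6

theorem tendsto_pt {X : Type} [MetricSpace X] (hX : IsCAT0 X) {x₀ : X} {α : Type}
    {l : Filter α} (y : α → X) (ξ : α → Ray X x₀) (τ : α → ℝ≥0) (ξ₀ : Ray X x₀) (C : ℝ)
    (hξ : Tendsto ξ l (𝓝 ξ₀)) (hτ : Tendsto τ l atTop)
    (hy : ∀ᶠ a in l, dist (y a) ((ξ a).1 (τ a)) ≤ C) :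
    Tendsto (fun a => pt hX x₀ (y a)) l (𝓝 ξ₀.toXbar) := by
  have hy' : ∀ᶠ a in l, dist (y a) ((ξ a).1 (τ a)) ≤ |C| := by
    filter_upwards [hy] with a ha
    exact ha.trans (le_abs_self C)
  have hd : Tendsto (fun a => dist x₀ (y a)) l atTop := by
    have h1 : Tendsto (fun a => (τ a : ℝ) + (-|C|)) l atTop :=
      tendsto_atTop_add_const_right l (-|C|) (NNReal.tendsto_coe_atTop.2 hτ)
    refine tendsto_atTop_mono' l ?_ h1
    filter_upwards [hy'] with a ha
    have h2 := ray_dist (ξ a) (τ a)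
    have h3 : dist x₀ ((ξ a).1 (τ a)) ≤ dist x₀ (y a) + dist (y a) ((ξ a).1 (τ a)) :=
      dist_triangle _ _ _
    linarith
  rw [tendsto_xbar_iff]
  intro t
  have h1 : Tendsto (fun a => (ξ a).1 t) l (𝓝 (ξ₀.1 t)) := (tendsto_ray_iff ξ ξ₀).1 hξ t
  have h2 := B3_key hX y (fun a => (ξ a).1 (τ a)) |C| (abs_nonneg C) hy' hd t
  have h3 : Tendsto (fun a => dist ((ξ a).1 t) (seg hX x₀ (y a) t)) l (𝓝 0) := by
    refine h2.congr' ?_
    filter_upwards [hτ.eventually_ge_atTop t] with a ha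
    rw [ray_seg, min_eq_left ha, dist_comm]
  exact tendsto_of_tendsto_of_dist h1 h3

theorem tendsto_pt_of_near {X : Type} [MetricSpace X] (hX : IsCAT0 X) {x₀ : X} {α : Type}
    {l : Filter α} (y y' : α → X) (c : Xbar X x₀) (C : ℝ)
    (hd : Tendsto (fun a => dist x₀ (y a)) l atTop) (h : ∀ᶠ a in l, dist (y a) (y' a) ≤ C)
    (hy : Tendsto (fun a => pt hX x₀ (y a)) l (𝓝 c)) :
    Tendsto (fun a => pt hX x₀ (y' a)) l (𝓝 c) := by
  have h' : ∀ᶠ a in l, dist (y a) (y' a) ≤ |C| := by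
    filter_upwards [h] with a ha
    exact ha.trans (le_abs_self C)
  rw [tendsto_xbar_iff] at hy ⊢
  intro t
  exact tendsto_of_tendsto_of_dist (hy t) (B3_key hX y y' |C| (abs_nonneg C) h' hd t)

theorem ray_eq_of_near {X : Type} [MetricSpace X] (hX : IsCAT0 X) {x₀ : X} (c c' : Ray X x₀)
    (C : ℝ) (h : ∀ n : ℝ, ∃ t t' : ℝ≥0, n ≤ t ∧ dist (c.1 t) (c'.1 t') ≤ C) : c = c' := by
  apply Subtype.ext
  funext s
  by_contra hne
  have hd : 0 < dist (c.1 s) (c'.1 s) := dist_pos.2 hne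
  have hC : 0 ≤ C := by
    obtain ⟨t, t', -, h1⟩ := h 0
    exact dist_nonneg.trans h1
  have hs0 : (0 : ℝ) ≤ s := s.2
  obtain ⟨t, t', hn, h1⟩ := h (2 * s * C / dist (c.1 s) (c'.1 s) + s + C + 1)
  have h0 : 0 ≤ 2 * (s : ℝ) * C / dist (c.1 s) (c'.1 s) := by positivity
  have h2 := ray_dist c t
  have h3 := ray_dist c' t'
  have h4 : dist x₀ (c.1 t) ≤ dist x₀ (c'.1 t') + dist (c'.1 t') (c.1 t) := dist_triangle _ _ _
  rw [dist_comm (c'.1 t') (c.1 t)] at h4
  have h5 : (s : ℝ) ≤ t := by linarith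
  have h6 : (s : ℝ) ≤ t' := by linarith
  have h7 := seg_seg_le hX x₀ (c.1 t) (c'.1 t') s (by rw [h2]; exact h5) (by rw [h3]; exact h6)
  rw [ray_seg, ray_seg, min_eq_left (show s ≤ t from h5), min_eq_left (show s ≤ t' from h6),
    h2] at h7
  have h8 : 2 * (s : ℝ) * dist (c.1 t) (c'.1 t') ≤ 2 * s * C :=
    mul_le_mul_of_nonneg_left h1 (by positivity)
  have h9 : dist (c.1 s) (c'.1 s) * (2 * s * C / dist (c.1 s) (c'.1 s) + s + C + 1) ≤
      dist (c.1 s) (c'.1 s) * t := mul_le_mul_of_nonneg_left hn hd.le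
  have h10 : dist (c.1 s) (c'.1 s) * (2 * s * C / dist (c.1 s) (c'.1 s) + s + C + 1) =
      2 * s * C + dist (c.1 s) (c'.1 s) * (s + C + 1) := by
    field_simp
    ring
  have h11 : 0 < dist (c.1 s) (c'.1 s) * ((s : ℝ) + C + 1) := by positivity
  linarith

end LibCE75
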