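import Pool.Agent.LibCE75.Defs
import Pool.Agent.LibCE75.A1
import Pool.Agent.LibCE75.A2
import Pool.Agent.LibCE75.B1
import Pool.Agent.LibCE75.B2
import Pool.Agent.LibCE75.B3

set_option autoImplicit false

/-!
# Board CE75, row B5 (STRONG, cites A1, A2, B1, B2, B3).  MP_6fa1a0_gt (cell-like equivalence of boundaries of CAT(0) groups).
Chair: helper75.  Deliver the whole file as CE75_B5.lean (team-store put), statements unchanged,
auxiliary lemmas private, no sorry, no axiom, no straight double quotation mark.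

Change of the base point (Bridson-Haefliger II.8.2, II.8.8).
PLAN. d = dist x y. Existence: c a ray from x. For t <= dist y (c n): dist (seg y (c n) t) (c t) <= 2 d, and better: by
convex_dist for the geodesics [x, c n], [y, c n] with ratio s = t / n: the point of [y, c n] with ratio s is within
(1 - s) d of c t, and within s d of seg y (c n) t (distance from y: s * dist y (c n) differs from t by at most s d). So
dist (seg y (c n) t) (c t) <= d. Take a cluster point of pt hX y (c n) in the compact Xbar X y: by limit_is_ray it is a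
ray c' from y with dist (c t) (c' t) <= d for all t. Uniqueness: two rays from y at bounded distance are equal (B3
ray_eq_of_near). So there is a unique c' with dist (c t) (c' t) <= d for all t; same with x, y exchanged: a bijection
b. Continuity: the graph {(c, c') | forall t, dist (c t) (c' t) <= d} is closed and the spaces are compact Hausdorff
(continuous_of... closed graph into a compact space; or by ultrafilters: c_i -> c, b c_i -> c' along an ultrafilter,
then c' = b c).
-/

namespace LibCE75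

open Set Metric Topology Filter
open scoped NNReal

/-- the segment from `y` to a far point of the ray `c` stays near to `c` -/
private theorem near_seg {X : Type} [MetricSpace X] (hX : IsCAT0 X) (x y : X) (c : Ray X x)
    (t n : ℝ≥0) (hn : 0 < n) (htn : t ≤ n) (hty : (t : ℝ) ≤ dist y (c.1 n)) :
    dist (c.1 t) (seg hX y (c.1 n) t) ≤ dist x y := by
  have hn' : (0 : ℝ) < n := hn
  have htn' : (t : ℝ) ≤ n := htn
  have ht0 : (0 : ℝ) ≤ t := t.2
  set D := dist y (c.1 n) with hD
  have hD0 : 0 ≤ D := dist_nonneg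
  have hxn : dist x (c.1 n) = n := ray_dist c n
  have hxt : dist x (c.1 t) = t := ray_dist c t
  set s : ℝ := t / n with hs
  have hs0 : 0 ≤ s := by positivity
  have hs1 : s ≤ 1 := by rw [hs, div_le_one hn']; exact htn'
  have hsn : s * n = t := by rw [hs]; field_simp
  have hsD : s * D ≤ D := by nlinarith
  have hsD0 : 0 ≤ s * D := mul_nonneg hs0 hD0
  let r : ℝ≥0 := ⟨s * D, hsD0⟩
  have hr : (r : ℝ) = s * D := rfl
  have h1 : dist (c.1 t) (seg hX y (c.1 n) r) ≤ (1 - s) * dist x y + s * dist (c.1 n) (c.1 n) := by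
    refine convex_dist hX x (c.1 n) y (c.1 n) (c.1 t) (seg hX y (c.1 n) r) s ⟨hs0, hs1⟩ ?_ ?_ ?_ ?_
    · rw [hxt, hxn, hsn]
    · rw [c.2.2, hxn, abs_sub_comm, abs_of_nonneg (by linarith), sub_mul, one_mul, hsn]
    · rw [dist_left_seg, hr, ← hD, min_eq_left hsD]
    · rw [dist_seg_right, hr, ← hD, min_eq_left hsD]; ring
  have h2 : dist (seg hX y (c.1 n) r) (seg hX y (c.1 n) t) ≤ s * dist x y := by
    rw [dist_seg_seg, hr, ← hD, min_eq_left hsD, min_eq_left hty]
    have h3 : |D - n| ≤ dist x y := by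
      rw [hD, ← hxn, dist_comm x y]
      exact abs_dist_sub_le y x (c.1 n)
    calc |s * D - t| = |s * (D - n)| := by rw [← hsn]; congr 1; ring
      _ = s * |D - n| := by rw [abs_mul, abs_of_nonneg hs0]
      _ ≤ s * dist x y := mul_le_mul_of_nonneg_left h3 hs0
  calc dist (c.1 t) (seg hX y (c.1 n) t) ≤ dist (c.1 t) (seg hX y (c.1 n) r) +
        dist (seg hX y (c.1 n) r) (seg hX y (c.1 n) t) := dist_triangle _ _ _
    _ ≤ ((1 - s) * dist x y + s * dist (c.1 n) (c.1 n)) + s * dist x y := add_le_add h1 h2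
    _ = dist x y := by rw [dist_self]; ring

private theorem exists_para {X : Type} [MetricSpace X] [ProperSpace X] (hX : IsCAT0 X) (x y : X)
    (c : Ray X x) : ∃ c' : Ray X y, ∀ t : ℝ≥0, dist (c.1 t) (c'.1 t) ≤ dist x y := by
  have := xbar_compact (X := X) y
  set U : Ultrafilter ℕ := hyperfilter ℕ with hU
  have hUat : (U : Filter ℕ) ≤ atTop := by
    rw [← Nat.cofinite_eq_atTop]; exact hyperfilter_le_cofinite
  let f : ℕ → Xbar X y := fun n => pt hX y (c.1 (n : ℝ≥0))
  obtain ⟨z, hz⟩ : ∃ z : Xbar X y, Tendsto f U (𝓝 z) := by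
    obtain ⟨z, -, hz⟩ := (isCompact_univ (X := Xbar X y)).ultrafilter_le_nhds (U.map f)
      (by simp)
    exact ⟨z, hz⟩
  have hlow : ∀ n : ℕ, (n : ℝ) - dist x y ≤ dist y (c.1 (n : ℝ≥0)) := by
    intro n
    have h1 := dist_triangle x y (c.1 (n : ℝ≥0))
    rw [ray_dist c] at h1
    have : ((n : ℝ≥0) : ℝ) = n := by simp
    rw [this] at h1
    linarith
  have hat : Tendsto (fun n : ℕ => dist y (c.1 (n : ℝ≥0))) atTop atTop := by
    refine tendsto_atTop_mono hlow ?_
    exact tendsto_atTop_add_const_right _ _ tendsto_natCast_atTop_atTop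
  obtain ⟨ξ, hξ⟩ := limit_is_ray hX (fun n : ℕ => c.1 (n : ℝ≥0)) (hat.mono_left hUat) z hz
  refine ⟨ξ, fun t => ?_⟩
  have h1 := (tendsto_xbar_iff f z).1 hz t
  rw [hξ] at h1
  have h2 : Tendsto (fun n => dist (c.1 t) ((f n).1 t)) U (𝓝 (dist (c.1 t) (ξ.1 t))) :=
    tendsto_const_nhds.dist h1
  refine le_of_tendsto h2 ?_
  have e1 : ∀ᶠ n : ℕ in atTop, (t : ℝ) ≤ dist y (c.1 (n : ℝ≥0)) := hat.eventually_ge_atTop _
  have e2 : ∀ᶠ n : ℕ in atTop, t ≤ (n : ℝ≥0) :=
    (tendsto_natCast_atTop_atTop (R := ℝ≥0)).eventually_ge_atTop _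
  have e3 : ∀ᶠ n : ℕ in atTop, 0 < n := eventually_gt_atTop 0
  refine hUat ?_
  filter_upwards [e1, e2, e3] with n g1 g2 g3
  exact near_seg hX x y c t n (by exact_mod_cast g3) g2 g1

private theorem para_unique {X : Type} [MetricSpace X] (hX : IsCAT0 X) {x : X}
    (c c' : Ray X x) (C : ℝ) (h : ∀ t : ℝ≥0, dist (c.1 t) (c'.1 t) ≤ C) : c = c' := by
  refine ray_eq_of_near hX c c' C fun n => ⟨⟨max n 0, le_max_right _ _⟩, ⟨max n 0, le_max_right _ _⟩,
    le_max_left _ _, h _⟩

private theorem para_cont {X : Type} [MetricSpace X] [ProperSpace X] (hX : IsCAT0 X) (x y : X)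
    (b : Ray X x → Ray X y) (hb : ∀ (c : Ray X x) (t : ℝ≥0), dist (c.1 t) ((b c).1 t) ≤ dist x y) :
    Continuous b := by
  have := ray_compact (X := X) y
  rw [continuous_iff_ultrafilter]
  intro c0 U hU
  obtain ⟨c', -, hc'⟩ := (isCompact_univ (X := Ray X y)).ultrafilter_le_nhds (U.map b) (by simp)
  have hc'' : Tendsto b U (𝓝 c') := hc'
  have hid : Tendsto (fun c : Ray X x => c) U (𝓝 c0) := hU
  have h1 := (tendsto_ray_iff b c').1 hc''
  have h2 := (tendsto_ray_iff (fun c : Ray X x => c) c0).1 hid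
  have h3 : ∀ t : ℝ≥0, dist (c0.1 t) (c'.1 t) ≤ dist x y := by
    intro t
    exact le_of_tendsto ((h2 t).dist (h1 t)) (Eventually.of_forall fun c => hb c t)
  have h4 : c' = b c0 := by
    refine para_unique hX c' (b c0) (dist x y + dist x y) fun t => ?_
    calc dist (c'.1 t) ((b c0).1 t) ≤ dist (c'.1 t) (c0.1 t) + dist (c0.1 t) ((b c0).1 t) :=
          dist_triangle _ _ _
      _ ≤ dist x y + dist x y := add_le_add (by rw [dist_comm]; exact h3 t) (hb c0 t)
  rw [← h4]
  exact hc''

theorem base_change {X : Type} [MetricSpace X] [ProperSpace X] (hX : IsCAT0 X) (x y : X) :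
    ∃ b : Ray X x ≃ₜ Ray X y,
      ∀ (c : Ray X x) (t : ℝ≥0), dist (c.1 t) ((b c).1 t) ≤ dist x y := by
  choose f hf using exists_para hX x y
  choose g hg using exists_para hX y x
  refine ⟨⟨⟨f, g, fun c => ?_, fun c => ?_⟩, para_cont hX x y f hf, para_cont hX y x g hg⟩, hf⟩
  · refine para_unique hX (g (f c)) c (dist y x + dist x y) fun t => ?_
    calc dist ((g (f c)).1 t) (c.1 t) ≤ dist ((g (f c)).1 t) ((f c).1 t) +
          dist ((f c).1 t) (c.1 t) := dist_triangle _ _ _
      _ ≤ dist y x + dist x y := add_le_add (by rw [dist_comm]; exact hg (f c) t)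
          (by rw [dist_comm]; exact hf c t)
  · refine para_unique hX (f (g c)) c (dist x y + dist y x) fun t => ?_
    calc dist ((f (g c)).1 t) (c.1 t) ≤ dist ((f (g c)).1 t) ((g c).1 t) +
          dist ((g c).1 t) (c.1 t) := dist_triangle _ _ _
      _ ≤ dist x y + dist y x := add_le_add (by rw [dist_comm]; exact hf (g c) t)
          (by rw [dist_comm]; exact hg c t)

end LibCE75
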