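import Pool.Agent.LibCE75.Defs

set_option autoImplicit false

/-!
# Board CE75, row B6 (SHORT, only Mathlib).  MP_6fa1a0_gt (cell-like equivalence of boundaries of CAT(0) groups).
Chair: helper75.  Deliver the whole file as CE75_B6.lean (team-store put), statements unchanged,
auxiliary lemmas private, no sorry, no axiom, no straight double quotation mark.

Rays in a subspace; transport by an isometry.
PLAN. All topologies are induced from products; the maps are coordinatewise (Homeomorph with Continuous.subtype_mk,
continuous_pi). For ray_isometry: an isometric bijection f : X -> Y.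
-/

namespace LibCE75

open Set Metric Topology Filter
open scoped NNReal

theorem ray_subtype {X : Type} [MetricSpace X] (S : Set X) (s : S) :
    Nonempty (Ray ↥S s ≃ₜ {c : Ray X (s : X) // ∀ t, c.1 t ∈ S}) := by
  have hv : Continuous (fun c : Ray ↥S s => c.1) := continuous_subtype_val
  have hw : Continuous (fun c : {c : Ray X (s : X) // ∀ t, c.1 t ∈ S} => c.1.1) :=
    (continuous_subtype_val : Continuous (fun c : Ray X (s : X) => c.1)).comp
      continuous_subtype_val
  refine ⟨{
    toFun := fun c => ⟨⟨fun t => (c.1 t : X), congrArg Subtype.val c.2.1,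
      fun u t => c.2.2 u t⟩, fun t => (c.1 t).2⟩
    invFun := fun c => ⟨fun t => ⟨c.1.1 t, c.2 t⟩, Subtype.ext c.1.2.1, fun u t => c.1.2.2 u t⟩
    left_inv := fun c => rfl
    right_inv := fun c => rfl
    continuous_toFun := ?_
    continuous_invFun := ?_ }⟩
  · refine Continuous.subtype_mk (Continuous.subtype_mk (continuous_pi fun t => ?_) _) _
    exact continuous_subtype_val.comp ((continuous_apply t).comp hv)
  · refine Continuous.subtype_mk (continuous_pi fun t => ?_) _
    exact Continuous.subtype_mk ((continuous_apply t).comp hw) _

theorem ray_isometry {X Y : Type} [MetricSpace X] [MetricSpace Y] (f : X ≃ᵢ Y) (x : X) :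
    Nonempty (Ray X x ≃ₜ Ray Y (f x)) := by
  have hv : Continuous (fun c : Ray X x => c.1) := continuous_subtype_val
  have hw : Continuous (fun c : Ray Y (f x) => c.1) := continuous_subtype_val
  refine ⟨{
    toFun := fun c => ⟨fun t => f (c.1 t), congrArg f c.2.1,
      fun u t => (f.dist_eq _ _).trans (c.2.2 u t)⟩
    invFun := fun c => ⟨fun t => f.symm (c.1 t), (congrArg f.symm c.2.1).trans (f.symm_apply_apply x),
      fun u t => (f.symm.dist_eq _ _).trans (c.2.2 u t)⟩
    left_inv := fun c => Subtype.ext (funext fun t => f.symm_apply_apply _)
    right_inv := fun c => Subtype.ext (funext fun t => f.apply_symm_apply _)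
    continuous_toFun := ?_
    continuous_invFun := ?_ }⟩
  · refine Continuous.subtype_mk (continuous_pi fun t => ?_) _
    exact f.continuous.comp ((continuous_apply t).comp hv)
  · refine Continuous.subtype_mk (continuous_pi fun t => ?_) _
    exact f.symm.continuous.comp ((continuous_apply t).comp hw)

end LibCE75
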