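import Pool.Agent.LibCE75.Defs
import Pool.Agent.LibCE75.A1
import Pool.Agent.LibCE75.A2
import Pool.Agent.LibCE75.B2

set_option autoImplicit false

/-!
# Board CE75, row K1 (MEDIUM, cites A2, B2).  MP_6fa1a0_gt (cell-like equivalence of boundaries of CAT(0) groups).
Chair: helper75.  Deliver the whole file as CE75_K1.lean (team-store put), statements unchanged,
auxiliary lemmas private, no sorry, no axiom, no straight double quotation mark.

The side of a ray with respect to an edge is decided at one far point.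
PLAN. side_const: suppose rho v g = w and rho v g' is not w; cross with x = c t, y = c t' gives z between them with dist z (k x0) <= D.
With t <= t' (other case symmetric): dist x0 z >= dist x0 (c t') - dist z (c t') = t' - (t' - t - dist (c t) z) >= t, so
t <= dist x0 z <= dist x0 (k x0) + D, contradiction. beyRay_iff: from side_const, h.co.cover. beyRay_clopen: let r > dist x0
(k x0) + D. Both sides are open: if BeyRay v w c, take g near c r within R; for c' with dist (c r) (c' r) <= 1 (open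
neighbourhood, evaluation at r is continuous) dist (c' r) (g x0) <= R + 1, so BeyRay v w c' iff rho v g = w iff BeyRay v w c.
crossing: cross for x = c s, y = c t: z = c u for u = dist x0 z by btw uniqueness on the ray (z is between c s and c t, so it
is between x0 and c t: A2 seg_of_btw / ray_seg).
-/

namespace LibCE75

open Set Metric Topology Filter
open scoped NNReal

private theorem k1_aux {G V X : Type} [Group G] [MulAction G V] [MetricSpace X]
    [MulAction G X] {hX : IsCAT0 X} {T : SimpleGraph V} {S : Set (V × V)} {a₀ b₀ : V} {x₀ : X}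
    {R D : ℝ} {P : V → V → X} (h : Geo hX T S a₀ b₀ x₀ R D G P)
    {v w : V} (hvw : T.Adj v w) {k : G} (hk : k ∈ Q G S v w) (c : Ray X x₀) (t t' : ℝ≥0)
    (ht : dist x₀ (k • x₀) + D < t) (ht' : dist x₀ (k • x₀) + D < t') (g g' : G)
    (hg : dist (c.1 t) (g • x₀) ≤ R + 1) (hg' : dist (c.1 t') (g' • x₀) ≤ R + 1)
    (h1 : rho T a₀ b₀ v g = w) : rho T a₀ b₀ v g' = w := by
  by_contra h2
  obtain ⟨z, hz, hzD⟩ := h.co.cross v w hvw (c.1 t) (c.1 t') g g' hg hg' h1 h2 k hk
  unfold Btw at hz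
  have e1 := ray_dist c t
  have e2 := ray_dist c t'
  have e3 := c.2.2 t t'
  have e4 := dist_triangle x₀ z (c.1 t')
  have e5 := dist_triangle x₀ z (c.1 t)
  have e6 := dist_triangle x₀ (k • x₀) z
  have e7 : dist (k • x₀) z ≤ D := by rwa [dist_comm]
  have e8 : dist z (c.1 t) = dist (c.1 t) z := dist_comm _ _
  have e9 : 0 ≤ dist (c.1 t) z := dist_nonneg
  have e10 : 0 ≤ dist z (c.1 t') := dist_nonneg
  rcases le_total (t : ℝ) t' with h3 | h3
  · rw [abs_of_nonpos (by linarith)] at e3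
    linarith
  · rw [abs_of_nonneg (by linarith)] at e3
    linarith

private theorem k1_ev (r : ℝ) : ∀ᶠ t : ℝ≥0 in atTop, r < t := by
  filter_upwards [Filter.eventually_gt_atTop (Real.toNNReal r)] with t ht
  exact (Real.le_coe_toNNReal r).trans_lt (NNReal.coe_lt_coe.2 ht)

theorem side_const {G V X : Type} [Group G] [MulAction G V] [MetricSpace X]
    [MulAction G X] {hX : IsCAT0 X} {T : SimpleGraph V} {S : Set (V × V)} {a₀ b₀ : V} {x₀ : X}
    {R D : ℝ} {P : V → V → X} (h : Geo hX T S a₀ b₀ x₀ R D G P)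
    {v w : V} (hvw : T.Adj v w) {k : G} (hk : k ∈ Q G S v w) (c : Ray X x₀) (t t' : ℝ≥0)
    (ht : dist x₀ (k • x₀) + D < t) (ht' : dist x₀ (k • x₀) + D < t') (g g' : G)
    (hg : dist (c.1 t) (g • x₀) ≤ R + 1) (hg' : dist (c.1 t') (g' • x₀) ≤ R + 1) :
    rho T a₀ b₀ v g = w ↔ rho T a₀ b₀ v g' = w := by
  exact ⟨k1_aux h hvw hk c t t' ht ht' g g' hg hg', k1_aux h hvw hk c t' t ht' ht g' g hg' hg⟩

theorem beyRay_iff {G V X : Type} [Group G] [MulAction G V] [MetricSpace X]
    [MulAction G X] {hX : IsCAT0 X} {T : SimpleGraph V} {S : Set (V × V)} {a₀ b₀ : V} {x₀ : X}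
    {R D : ℝ} {P : V → V → X} (h : Geo hX T S a₀ b₀ x₀ R D G P)
    {v w : V} (hvw : T.Adj v w) {k : G} (hk : k ∈ Q G S v w) (c : Ray X x₀) (t : ℝ≥0)
    (ht : dist x₀ (k • x₀) + D < t) (g : G) (hg : dist (c.1 t) (g • x₀) ≤ R + 1) :
    BeyRay T a₀ b₀ R G v w c ↔ rho T a₀ b₀ v g = w := by
  unfold BeyRay
  constructor
  · intro hb
    obtain ⟨t', h1, h2⟩ := (hb.and (k1_ev (dist x₀ (k • x₀) + D))).exists
    obtain ⟨g', hg'⟩ := h.co.cover (c.1 t')
    have h3 := h1 g' hg'
    exact (side_const h hvw hk c t t' ht h2 g g' hg (by linarith)).2 h3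
  · intro hb
    filter_upwards [k1_ev (dist x₀ (k • x₀) + D)] with t' h2 g' hg'
    exact (side_const h hvw hk c t t' ht h2 g g' hg (by linarith)).1 hb

theorem beyRay_clopen {G V X : Type} [Group G] [MulAction G V] [MetricSpace X]
    [MulAction G X] {hX : IsCAT0 X} {T : SimpleGraph V} {S : Set (V × V)} {a₀ b₀ : V} {x₀ : X}
    {R D : ℝ} {P : V → V → X} (h : Geo hX T S a₀ b₀ x₀ R D G P)
    {v w : V} (hvw : T.Adj v w) : IsClopen {c : Ray X x₀ | BeyRay T a₀ b₀ R G v w c} := by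
  obtain ⟨k, hk, -⟩ := h.gateP v w hvw
  obtain ⟨r, hr⟩ := (k1_ev (dist x₀ (k • x₀) + D)).exists
  have key : ∀ c : Ray X x₀, ∀ᶠ c' : Ray X x₀ in 𝓝 c,
      (BeyRay T a₀ b₀ R G v w c' ↔ BeyRay T a₀ b₀ R G v w c) := by
    intro c
    obtain ⟨g, hg⟩ := h.co.cover (c.1 r)
    have h1 : Tendsto (fun a : Ray X x₀ => a.1 r) (𝓝 c) (𝓝 (c.1 r)) :=
      (tendsto_ray_iff (fun a : Ray X x₀ => a) c).1 tendsto_id r
    have h2 := (Metric.tendsto_nhds.1 h1) 1 one_pos
    filter_upwards [h2] with c' hc'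
    have h3 : dist (c'.1 r) (g • x₀) ≤ R + 1 := by
      have := dist_triangle (c'.1 r) (c.1 r) (g • x₀)
      linarith
    rw [beyRay_iff h hvw hk c' r hr g h3, beyRay_iff h hvw hk c r hr g (by linarith)]
  constructor
  · rw [← isOpen_compl_iff, isOpen_iff_mem_nhds]
    intro c hc
    filter_upwards [key c] with c' hc' h4
    exact hc (hc'.1 h4)
  · rw [isOpen_iff_mem_nhds]
    intro c hc
    filter_upwards [key c] with c' hc'
    exact hc'.2 hc

/-- a ray which changes the side of the edge `(v, w)` passes near its gates -/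
theorem crossing {G V X : Type} [Group G] [MulAction G V] [MetricSpace X]
    [MulAction G X] {hX : IsCAT0 X} {T : SimpleGraph V} {S : Set (V × V)} {a₀ b₀ : V} {x₀ : X}
    {R D : ℝ} {P : V → V → X} (h : Geo hX T S a₀ b₀ x₀ R D G P)
    {v w : V} (hvw : T.Adj v w) {k : G} (hk : k ∈ Q G S v w) (c : Ray X x₀) (s t : ℝ≥0)
    (hst : s ≤ t) (g g' : G) (hg : dist (c.1 s) (g • x₀) ≤ R + 1)
    (hg' : dist (c.1 t) (g' • x₀) ≤ R + 1) (h1 : rho T a₀ b₀ v g ≠ w)
    (h2 : rho T a₀ b₀ v g' = w) :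
    ∃ u : ℝ≥0, s ≤ u ∧ u ≤ t ∧ dist (c.1 u) (k • x₀) ≤ D := by
  obtain ⟨z, hz, hzD⟩ := h.co.cross v w hvw (c.1 t) (c.1 s) g' g hg' hg h2 h1 k hk
  unfold Btw at hz
  have hst' : (s : ℝ) ≤ t := hst
  have e1 := ray_dist c t
  have e2 := ray_dist c s
  have e3 := c.2.2 t s
  rw [abs_of_nonneg (by linarith)] at e3
  have e4 := dist_triangle x₀ (c.1 s) z
  have e5 := dist_triangle x₀ z (c.1 t)
  have e6 : dist (c.1 s) z = dist z (c.1 s) := dist_comm _ _
  have e7 : dist z (c.1 t) = dist (c.1 t) z := dist_comm _ _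
  have e8 : 0 ≤ dist (c.1 t) z := dist_nonneg
  have e9 : 0 ≤ dist z (c.1 s) := dist_nonneg
  have e10 : dist x₀ z = s + dist z (c.1 s) := by linarith
  have hb : Btw x₀ z (c.1 t) := by
    unfold Btw
    linarith
  obtain ⟨u, hu⟩ : ∃ u : ℝ≥0, (u : ℝ) = dist x₀ z :=
    ⟨(dist x₀ z).toNNReal, Real.coe_toNNReal _ dist_nonneg⟩
  have hsu : (s : ℝ) ≤ u := by linarith
  have hut : (u : ℝ) ≤ t := by linarith
  have hzu : z = c.1 u := by
    refine btw_unique hX hb ?_ ?_
    · unfold Btw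
      rw [ray_dist, c.2.2, ray_dist, abs_of_nonpos (by linarith)]
      ring
    · rw [ray_dist, hu]
  refine ⟨u, by exact_mod_cast hsu, by exact_mod_cast hut, ?_⟩
  rw [← hzu]
  exact hzD

end LibCE75
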