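import Pool.Agent.LibCE75.Defs

set_option autoImplicit false

/-!
# Board CE75, row RH2 (SHORT/MEDIUM, only Mathlib + TreeAction).  MP_6fa1a0_gt (cell-like equivalence of boundaries of CAT(0) groups).
Chair: helper75.  Deliver the whole file as CE75_RH2.lean (team-store put), statements unchanged,
auxiliary lemmas private, no sorry, no axiom, no straight double quotation mark.

Finiteness statements for gates.
PLAN. Everything from: for adjacent pairs p = (a, b) and q: {u : G | u a = q.1, u b = q.2} is empty or a coset u0 * {g | g a = a,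
g b = b}, finite by act.fin. (1) from act.cof: k = g^-1. (2) unfold Q, mul_inv_rev, smul_smul. (3) is (4) with E = ...:
Q v w = {k | (k^-1 v, k^-1 w) in S}. (4) finite union over p in E, q in E'. (5) for k in F and (k^-1 v, k^-1 w) = s in S the pair
(v, w) = (k s.1, k s.2).
-/

namespace LibCE75

open Set Metric Topology Filter
open scoped NNReal

private theorem RH2_coset {G V : Type} [Group G] [MulAction G V] {T : SimpleGraph V}
    {S : Set (V × V)} (h : TreeAction G T S) {a b : V} (hab : T.Adj a b) (q : V × V) :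
    {u : G | u • a = q.1 ∧ u • b = q.2}.Finite := by
  by_cases hne : ∃ u₀ : G, u₀ • a = q.1 ∧ u₀ • b = q.2
  · obtain ⟨u₀, h1, h2⟩ := hne
    refine ((h.fin a b hab).image fun g => u₀ * g).subset ?_
    rintro u ⟨h3, h4⟩
    refine ⟨u₀⁻¹ * u, ⟨?_, ?_⟩, ?_⟩
    · rw [mul_smul, h3, ← h1, inv_smul_smul]
    · rw [mul_smul, h4, ← h2, inv_smul_smul]
    · exact mul_inv_cancel_left u₀ u
  · refine Set.finite_empty.subset ?_
    intro u hu
    exact hne ⟨u, hu⟩

theorem Q_nonempty {G V : Type} [Group G] [MulAction G V] {T : SimpleGraph V} {S : Set (V × V)}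
    (h : TreeAction G T S) {v w : V} (hvw : T.Adj v w) : (Q G S v w).Nonempty := by
  obtain ⟨g, hg⟩ := h.cof v w hvw
  refine ⟨g⁻¹, ?_⟩
  change ((g⁻¹)⁻¹ • v, (g⁻¹)⁻¹ • w) ∈ S
  rwa [inv_inv]

theorem Q_smul {G V : Type} [Group G] [MulAction G V] {S : Set (V × V)} (g k : G) (v w : V) :
    g * k ∈ Q G S (g • v) (g • w) ↔ k ∈ Q G S v w := by
  change ((g * k)⁻¹ • g • v, (g * k)⁻¹ • g • w) ∈ S ↔ (k⁻¹ • v, k⁻¹ • w) ∈ S
  rw [mul_inv_rev, mul_smul, mul_smul, inv_smul_smul, inv_smul_smul]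

theorem trans_finite {G V : Type} [Group G] [MulAction G V] {T : SimpleGraph V}
    {S : Set (V × V)} (h : TreeAction G T S) (E E' : Set (V × V)) (hE : E.Finite)
    (hE' : E'.Finite) (hEadj : ∀ p ∈ E, T.Adj p.1 p.2) :
    {u : G | ∃ p ∈ E, (u • p.1, u • p.2) ∈ E'}.Finite := by
  have h1 : (⋃ p ∈ E, ⋃ q ∈ E', {u : G | u • p.1 = q.1 ∧ u • p.2 = q.2}).Finite :=
    hE.biUnion fun p hp => hE'.biUnion fun q _ => RH2_coset h (hEadj p hp) q
  refine h1.subset ?_
  rintro u ⟨p, hp, hu⟩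
  exact Set.mem_biUnion hp (Set.mem_biUnion hu ⟨rfl, rfl⟩)

theorem Q_finite {G V : Type} [Group G] [MulAction G V] {T : SimpleGraph V} {S : Set (V × V)}
    (h : TreeAction G T S) {v w : V} (hvw : T.Adj v w) : (Q G S v w).Finite := by
  refine ((trans_finite h {(v, w)} S (Set.finite_singleton _) h.Sfin ?_).image
    fun u => u⁻¹).subset ?_
  · rintro p rfl
    exact hvw
  · intro k hk
    exact ⟨k⁻¹, ⟨(v, w), rfl, hk⟩, inv_inv k⟩

theorem pairs_finite {G V : Type} [Group G] [MulAction G V] {T : SimpleGraph V}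
    {S : Set (V × V)} (h : TreeAction G T S) (F : Set G) (hF : F.Finite) :
    {p : V × V | ∃ k ∈ F, k ∈ Q G S p.1 p.2}.Finite := by
  have h1 : (⋃ k ∈ F, (fun s : V × V => ((k • s.1, k • s.2) : V × V)) '' S).Finite :=
    hF.biUnion fun k _ => h.Sfin.image _
  refine h1.subset ?_
  rintro ⟨v, w⟩ ⟨k, hk, hkQ⟩
  refine Set.mem_biUnion hk ⟨_, hkQ, ?_⟩
  change (k • k⁻¹ • v, k • k⁻¹ • w) = (v, w)
  rw [smul_inv_smul, smul_inv_smul]

end LibCE75
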