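import Pool.Agent.LibCE75.Defs
import Pool.Agent.LibCE75.RH2
import Pool.Agent.LibCE75.K1

set_option autoImplicit false

/-!
# Board CE75, row K2 (SHORT/MEDIUM, cites RH2, K1).  MP_6fa1a0_gt (cell-like equivalence of boundaries of CAT(0) groups).
Chair: helper75.  Deliver the whole file as CE75_K2.lean (team-store put), statements unchanged,
auxiliary lemmas private, no sorry, no axiom, no straight double quotation mark.

Gates are locally finite; rays behind an edge pass near its gates.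
PLAN. edges_locfin: P p.1 p.2 = k x0 with k in Q, k in the finite set {k | dist x0 (k x0) <= r} (co.locfin), pairs_finite.
gates_tendsto: from it (Filter.tendsto_atTop, cofinite; the set {w : Nb T v | dist x0 (P v w) < r} injects). beyRay_near:
crossing with s = 0 (c 0 = x0 = 1 x0), t far (beyRay_iff).
-/

namespace LibCE75

open Set Metric Topology Filter
open scoped NNReal

theorem edges_locfin {G V X : Type} [Group G] [MulAction G V] [MetricSpace X]
    [MulAction G X] {hX : IsCAT0 X} {T : SimpleGraph V} {S : Set (V × V)} {a₀ b₀ : V} {x₀ : X}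
    {R D : ℝ} {P : V → V → X} (h : Geo hX T S a₀ b₀ x₀ R D G P)
    (r : ℝ) : {p : V × V | T.Adj p.1 p.2 ∧ dist x₀ (P p.1 p.2) ≤ r}.Finite := by
  refine (pairs_finite h.act {k : G | dist x₀ (k • x₀) ≤ r} (h.co.locfin r)).subset ?_
  rintro ⟨v, w⟩ ⟨hvw, hd⟩
  obtain ⟨k, hk, hP⟩ := h.gateP v w hvw
  have hd' : dist x₀ (P v w) ≤ r := hd
  rw [hP] at hd'
  exact ⟨k, hd', hk⟩

theorem gates_tendsto {G V X : Type} [Group G] [MulAction G V] [MetricSpace X]
    [MulAction G X] {hX : IsCAT0 X} {T : SimpleGraph V} {S : Set (V × V)} {a₀ b₀ : V} {x₀ : X}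
    {R D : ℝ} {P : V → V → X} (h : Geo hX T S a₀ b₀ x₀ R D G P)
    (v : V) : Tendsto (fun w : Nb T v => dist x₀ (P v w.1)) cofinite atTop := by
  rw [Filter.tendsto_atTop]
  intro r
  rw [Filter.eventually_cofinite]
  have h1 := edges_locfin h r
  have h2 : Set.InjOn (fun w : Nb T v => ((v, w.1) : V × V))
      ((fun w : Nb T v => ((v, w.1) : V × V)) ⁻¹' {p : V × V | T.Adj p.1 p.2 ∧
        dist x₀ (P p.1 p.2) ≤ r}) := by
    intro a _ b _ hab
    exact Subtype.ext (congrArg Prod.snd hab)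
  refine (h1.preimage h2).subset ?_
  intro w hw
  exact ⟨w.2, (not_le.1 hw).le⟩

theorem beyRay_near {G V X : Type} [Group G] [MulAction G V] [MetricSpace X]
    [MulAction G X] {hX : IsCAT0 X} {T : SimpleGraph V} {S : Set (V × V)} {a₀ b₀ : V} {x₀ : X}
    {R D : ℝ} {P : V → V → X} (h : Geo hX T S a₀ b₀ x₀ R D G P)
    {v w : V} (hvw : T.Adj v w) (c : Ray X x₀) (hb : BeyRay T a₀ b₀ R G v w c)
    (h1 : rho T a₀ b₀ v (1 : G) ≠ w) {k : G} (hk : k ∈ Q G S v w) :
    ∃ t : ℝ≥0, dist (c.1 t) (k • x₀) ≤ D := by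
  obtain ⟨t, ht⟩ : ∃ t : ℝ≥0, dist x₀ (k • x₀) + D < t := by
    refine ⟨⟨dist x₀ (k • x₀) + D + 1, ?_⟩, ?_⟩
    · have h2 : 0 ≤ dist x₀ (k • x₀) := dist_nonneg
      have h3 := h.co.D_nonneg
      linarith
    · show dist x₀ (k • x₀) + D < dist x₀ (k • x₀) + D + 1
      linarith
  obtain ⟨g', hg'⟩ := h.co.cover (c.1 t)
  have hg'1 : dist (c.1 t) (g' • x₀) ≤ R + 1 := by linarith
  have h4 : rho T a₀ b₀ v g' = w := (beyRay_iff h hvw hk c t ht g' hg'1).1 hb
  have h5 : dist (c.1 0) ((1 : G) • x₀) ≤ R + 1 := by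
    rw [c.2.1, one_smul, dist_self]
    have := h.co.R_nonneg
    linarith
  obtain ⟨u, -, -, hu⟩ := crossing h hvw hk c 0 t (zero_le) 1 g' h5 hg'1 h1 h4
  exact ⟨u, hu⟩

end LibCE75
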