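import Pool.Agent.LibCE75.Defs
import Pool.Agent.LibCE75.B1
import Pool.Agent.LibCE75.B2
import Pool.Agent.LibCE75.K2

set_option autoImplicit false

/-!
# Board CE75, row C1 (MEDIUM, cites B1, B2, K2).  MP_6fa1a0_gt (cell-like equivalence of boundaries of CAT(0) groups).
Chair: helper75.  Deliver the whole file as CE75_C1.lean (team-store put), statements unchanged,
auxiliary lemmas private, no sor ry, no axiom, no straight double quotation mark.

The vertex compactification is good; its other points are rays.
PLAN. Xbar x OnePoint (Nb T v) is compact Hausdorff, Cv is a closed subspace. Metrizable: Xbar by B1; OnePoint of a countable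
discrete space is metrizable (compact Hausdorff, continuous injection into R: w |-> 1/(n w + 1), infty |-> 0, n : Nb T v -> N injective;
closed embedding); product, subspace. inj: second coordinates. isol: {x | second coordinate = w} is open in Xbar x OnePoint
(points of Nb are open in OnePoint), and in the closure of the range of jmap the only point with second coordinate w is
jmap w (the set {second coordinate = w} is clopen, meets the range only in jmap w, which is closed). Cv_rem: x not in range iv:
second coordinate is infty; x.1 is in the closure of the range and not in it; take a filter l on Nb T v (comap) with jmap -> x.1: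
it is finer than cofinite because the second coordinate tends to infty; so dist x0 (P v w) -> infinity (gates_tendsto) and
limit_is_ray.
-/

namespace LibCE75

open Set Metric Topology Filter
open scoped NNReal

private theorem C1_onepoint {N : Type} [TopologicalSpace N] [DiscreteTopology N] [Countable N] :
    TopologicalSpace.MetrizableSpace (OnePoint N) := by
  obtain ⟨n, hn⟩ := exists_injective_nat N
  let f : OnePoint N → ℝ := fun x => Option.elim x 0 fun w => 1 / ((n w : ℝ) + 1)
  have hf0 : f OnePoint.infty = 0 := rfl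
  have hfc : ∀ w : N, f (w : OnePoint N) = 1 / ((n w : ℝ) + 1) := fun _ => rfl
  have hcont : Continuous f := by
    rw [OnePoint.continuous_iff_from_discrete]
    rw [hf0]
    have h1 : Tendsto n cofinite atTop := by
      rw [← Nat.cofinite_eq_atTop]
      exact hn.tendsto_cofinite
    exact (tendsto_one_div_add_atTop_nhds_zero_nat (𝕜 := ℝ)).comp h1
  have hpos : ∀ w : N, (0 : ℝ) < (n w : ℝ) + 1 := fun w => by positivity
  have hinj : Function.Injective f := by
    intro x y hxy
    induction x using OnePoint.rec with
    | infty =>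
      induction y using OnePoint.rec with
      | infty => rfl
      | coe w =>
        rw [hf0, hfc] at hxy
        exact absurd hxy.symm (one_div_pos.2 (hpos w)).ne'
    | coe w =>
      induction y using OnePoint.rec with
      | infty =>
        rw [hf0, hfc] at hxy
        exact absurd hxy (one_div_pos.2 (hpos w)).ne'
      | coe w' =>
        rw [hfc, hfc, one_div, one_div, inv_inj, add_left_inj, Nat.cast_inj] at hxy
        rw [hn hxy]
  exact (hcont.isClosedEmbedding hinj).isEmbedding.metrizableSpace

private theorem C1_pt {V X : Type} [MetricSpace X] {hX : IsCAT0 X} {T : SimpleGraph V} {x₀ : X}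
    {P : V → V → X} {v : V} [T1Space (Xbar X x₀)] {p : Xbar X x₀ × OnePoint (Nb T v)}
    (hp : p ∈ closure (range (jmap T hX x₀ P v))) {w : Nb T v} (hw : p.2 = (w : OnePoint (Nb T v))) :
    p = jmap T hX x₀ P v w := by
  have hO : IsOpen {q : Xbar X x₀ × OnePoint (Nb T v) | q.2 = (w : OnePoint (Nb T v))} := by
    have h1 : IsOpen ({(w : OnePoint (Nb T v))} : Set (OnePoint (Nb T v))) := by
      have h2 := OnePoint.isOpenEmbedding_coe.isOpenMap _ (isOpen_discrete ({w} : Set (Nb T v)))
      rwa [image_singleton] at h2
    exact h1.preimage continuous_snd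
  have h1 := hO.inter_closure (t := range (jmap T hX x₀ P v)) ⟨hw, hp⟩
  have h2 : {q : Xbar X x₀ × OnePoint (Nb T v) | q.2 = (w : OnePoint (Nb T v))} ∩
      range (jmap T hX x₀ P v) ⊆ {jmap T hX x₀ P v w} := by
    rintro q ⟨hq, w', rfl⟩
    have h3 : (w' : OnePoint (Nb T v)) = w := hq
    rw [OnePoint.coe_injective h3]
    exact mem_singleton _
  have h3 := closure_mono h2 h1
  rw [closure_singleton] at h3
  exact h3

private theorem C1_filter {V X : Type} [MetricSpace X] {hX : IsCAT0 X} {T : SimpleGraph V} {x₀ : X}
    {P : V → V → X} {v : V} {p : Xbar X x₀ × OnePoint (Nb T v)}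
    (hp : p ∈ closure (range (jmap T hX x₀ P v))) (hw : p.2 = OnePoint.infty) :
    ∃ l : Filter (Nb T v), NeBot l ∧ l ≤ cofinite ∧
      Tendsto (fun w : Nb T v => pt hX x₀ (P v w.1)) l (𝓝 p.1) := by
  have ht : Tendsto (jmap T hX x₀ P v) (comap (jmap T hX x₀ P v) (𝓝 p)) (𝓝 p) := tendsto_comap
  refine ⟨comap (jmap T hX x₀ P v) (𝓝 p), ?_, ?_, (continuous_fst.tendsto p).comp ht⟩
  · rw [comap_neBot_iff]
    intro t htt
    obtain ⟨q, hq, w, rfl⟩ := mem_closure_iff_nhds.1 hp t htt
    exact ⟨w, hq⟩
  · have h1 : Tendsto (fun w : Nb T v => (w : OnePoint (Nb T v)))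
        (comap (jmap T hX x₀ P v) (𝓝 p)) (𝓝 OnePoint.infty) := by
      rw [← hw]
      exact (continuous_snd.tendsto p).comp ht
    have h2 := tendsto_iff_comap.1 h1
    rwa [OnePoint.comap_coe_nhds_infty, coclosedCompact_eq_cocompact, cocompact_eq_cofinite] at h2

theorem Cv_good {G V X : Type} [Group G] [MulAction G V] [MetricSpace X]
    [MulAction G X] {hX : IsCAT0 X} {T : SimpleGraph V} {S : Set (V × V)} {a₀ b₀ : V} {x₀ : X}
    {R D : ℝ} {P : V → V → X} (h : Geo hX T S a₀ b₀ x₀ R D G P)
    (v : V) [Countable (Nb T v)] : GoodVertex (Cv T hX x₀ P v) (iv T hX x₀ P v) := by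
  have := h.prop
  have := xbar_compact (X := X) x₀
  have := xbar_metrizable hX x₀
  have := C1_onepoint (N := Nb T v)
  refine ⟨?_, ?_, ?_, ?_⟩
  · exact isCompact_iff_compactSpace.1
      (isClosed_closure (s := range (jmap T hX x₀ P v))).isCompact
  · exact (Topology.IsEmbedding.subtypeVal (p := fun q => q ∈
      closure (range (jmap T hX x₀ P v)))).metrizableSpace
  · intro w w' hww
    have h1 : jmap T hX x₀ P v w = jmap T hX x₀ P v w' := congrArg Subtype.val hww
    have h2 : (w : OnePoint (Nb T v)) = w' := congrArg Prod.snd h1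
    exact OnePoint.coe_injective h2
  · intro w
    have h1 : IsOpen ({(w : OnePoint (Nb T v))} : Set (OnePoint (Nb T v))) := by
      have h2 := OnePoint.isOpenEmbedding_coe.isOpenMap _ (isOpen_discrete ({w} : Set (Nb T v)))
      rwa [image_singleton] at h2
    have h2 : Continuous (fun x : Cv T hX x₀ P v => x.1.2) := by
      have h3 : Continuous (fun x : Cv T hX x₀ P v => x.1) := continuous_subtype_val
      exact continuous_snd.comp h3
    have h3 : ({iv T hX x₀ P v w} : Set (Cv T hX x₀ P v)) =
        (fun x : Cv T hX x₀ P v => x.1.2) ⁻¹' {(w : OnePoint (Nb T v))} := by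
      ext x
      constructor
      · intro hx
        rw [mem_singleton_iff] at hx
        rw [hx]
        rfl
      · intro hx
        exact Subtype.ext (C1_pt x.2 hx)
    rw [h3]
    exact h1.preimage h2

theorem Cv_rem {G V X : Type} [Group G] [MulAction G V] [MetricSpace X]
    [MulAction G X] {hX : IsCAT0 X} {T : SimpleGraph V} {S : Set (V × V)} {a₀ b₀ : V} {x₀ : X}
    {R D : ℝ} {P : V → V → X} (h : Geo hX T S a₀ b₀ x₀ R D G P)
    (v : V) (x : Cv T hX x₀ P v) (hx : x ∉ range (iv T hX x₀ P v)) :
    ∃ c : Ray X x₀, x.1 = (c.toXbar, OnePoint.infty) := by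
  have := h.prop
  have := xbar_metrizable hX x₀
  have h1 : x.1.2 = OnePoint.infty := by
    by_contra hne
    obtain ⟨w, hw⟩ := OnePoint.ne_infty_iff_exists.1 hne
    exact hx ⟨w, Subtype.ext (C1_pt x.2 hw.symm).symm⟩
  obtain ⟨l, hl, hlc, ht⟩ := C1_filter x.2 h1
  obtain ⟨ξ, hξ⟩ := limit_is_ray hX _ ((gates_tendsto h v).mono_left hlc) x.1.1 ht
  exact ⟨ξ, Prod.ext hξ h1⟩

/-- a limit point of the vertex compactification is a limit of gates -/
theorem exists_filter {G V X : Type} [Group G] [MulAction G V] [MetricSpace X]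
    [MulAction G X] {hX : IsCAT0 X} {T : SimpleGraph V} {S : Set (V × V)} {a₀ b₀ : V} {x₀ : X}
    {R D : ℝ} {P : V → V → X} (h : Geo hX T S a₀ b₀ x₀ R D G P)
    (v : V) (c : Ray X x₀)
    (hc : (c.toXbar, (OnePoint.infty : OnePoint (Nb T v))) ∈ closure (range (jmap T hX x₀ P v))) :
    ∃ l : Filter (Nb T v), NeBot l ∧ l ≤ cofinite ∧
      Tendsto (fun w : Nb T v => pt hX x₀ (P v w.1)) l (𝓝 c.toXbar) :=
  C1_filter hc rfl

end LibCE75
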