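import Mathlib

set_option autoImplicit false

/-!
# Board CE75 (MP_6fa1a0_gt): cell-like equivalence of boundaries of CAT(0) groups,
# graphs of groups with finite edge groups.  Definitions.
-/

namespace LibCE75

open Set Metric Topology Filter
open scoped NNReal

/-! ## CAT(0) spaces, geometric actions, boundaries, cell-like equivalence -/

/-- CAT(0) space: a geodesic metric space satisfying the midpoint (CN) inequality. -/
structure IsCAT0 (X : Type) [MetricSpace X] : Prop where
  geodesic : ∀ x y : X, ∃ γ : ℝ → X, γ 0 = x ∧ γ (dist x y) = y ∧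
    ∀ s ∈ Set.Icc (0 : ℝ) (dist x y), ∀ t ∈ Set.Icc (0 : ℝ) (dist x y),
      dist (γ s) (γ t) = |s - t|
  cn : ∀ p q r m : X, dist q m = dist q r / 2 → dist r m = dist q r / 2 →
    dist p m ^ 2 ≤ dist p q ^ 2 / 2 + dist p r ^ 2 / 2 - dist q r ^ 2 / 4

/-- Geometric action: by isometries, properly discontinuous, cocompact. -/
structure Geometric (G X : Type) [Group G] [MetricSpace X] [MulAction G X] : Prop where
  isom : ∀ (g : G) (x y : X), dist (g • x) (g • y) = dist x y
  proper : ∀ x : X, ∃ r : ℝ, 0 < r ∧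
    {g : G | ((fun y : X => g • y) '' ball x r ∩ ball x r).Nonempty}.Finite
  cocompact : ∃ K : Set X, IsCompact K ∧ ∀ x : X, ∃ g : G, g • x ∈ K

/-- The visual boundary of `X`, seen from `x₀`: geodesic rays from `x₀`, with the topology of
pointwise convergence (for rays: uniform convergence on compact sets, the cone topology). -/
def Ray (X : Type) [MetricSpace X] (x₀ : X) : Type :=
  {c : ℝ≥0 → X // c 0 = x₀ ∧ ∀ s t : ℝ≥0, dist (c s) (c t) = |(s : ℝ) - t|}

instance (X : Type) [MetricSpace X] (x₀ : X) : TopologicalSpace (Ray X x₀) :=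
  inferInstanceAs (TopologicalSpace {c : ℝ≥0 → X // c 0 = x₀ ∧
    ∀ s t : ℝ≥0, dist (c s) (c t) = |(s : ℝ) - t|})

/-- The compact metrizable space `C` has the shape of a point: it is not empty, and for an
embedding in the Hilbert cube it is null-homotopic in each of its neighbourhoods. -/
def ShapeOfPoint (C : Type) [TopologicalSpace C] : Prop :=
  CompactSpace C ∧ Nonempty C ∧ ∃ e : C → (ℕ → unitInterval), IsEmbedding e ∧
    ∀ U : Set (ℕ → unitInterval), IsOpen U → range e ⊆ U →
      ∃ (h : unitInterval × C → (ℕ → unitInterval)) (p : ℕ → unitInterval), Continuous h ∧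
        (∀ c, h (0, c) = e c) ∧ (∀ c, h (1, c) = p) ∧ ∀ q, h q ∈ U

/-- Cell-like map. -/
def CellLikeMap {Z Y : Type} [TopologicalSpace Z] [TopologicalSpace Y] (f : Z → Y) : Prop :=
  Continuous f ∧ ∀ y : Y, ShapeOfPoint (f ⁻¹' {y})

/-- Cell-like equivalence, with a compact metrizable resolution. -/
def CellLikeEquivalent (Y₁ Y₂ : Type) [TopologicalSpace Y₁] [TopologicalSpace Y₂] : Prop :=
  ∃ (Z : Type) (_ : TopologicalSpace Z) (_ : CompactSpace Z) (_ : TopologicalSpace.MetrizableSpace Z)
    (f₁ : Z → Y₁) (f₂ : Z → Y₂), CellLikeMap f₁ ∧ CellLikeMap f₂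

/-- Any two CAT(0) boundaries of `G` are cell-like equivalent. -/
def CEUnique (G : Type) [Group G] : Prop :=
  ∀ (X₁ X₂ : Type) [MetricSpace X₁] [MetricSpace X₂] [MulAction G X₁] [MulAction G X₂],
    IsCAT0 X₁ → IsCAT0 X₂ → Geometric G X₁ → Geometric G X₂ →
      ∀ (x₁ : X₁) (x₂ : X₂), CellLikeEquivalent (Ray X₁ x₁) (Ray X₂ x₂)

/-! ## The compactification of a CAT(0) space -/

section xbar

variable {X : Type} [MetricSpace X]

/-- Generalised rays from `x₀` (rays and geodesic segments prolonged by a constant): the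
compactification of `X` by its boundary. -/
def Xbar (X : Type) [MetricSpace X] (x₀ : X) : Type :=
  {c : ℝ≥0 → X // ∀ s t : ℝ≥0, s ≤ t → dist x₀ (c s) = min (s : ℝ) (dist x₀ (c t)) ∧
    dist (c s) (c t) = dist x₀ (c t) - dist x₀ (c s)}

instance (x₀ : X) : TopologicalSpace (Xbar X x₀) :=
  inferInstanceAs (TopologicalSpace {c : ℝ≥0 → X // ∀ s t : ℝ≥0, s ≤ t →
    dist x₀ (c s) = min (s : ℝ) (dist x₀ (c t)) ∧
    dist (c s) (c t) = dist x₀ (c t) - dist x₀ (c s)})

/-- `z` lies between `x` and `y`. -/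
def Btw (x z y : X) : Prop := dist x z + dist z y = dist x y

/-- Convex subset. -/
def Cvx (S : Set X) : Prop := ∀ x ∈ S, ∀ y ∈ S, ∀ z, Btw x z y → z ∈ S

/-- The point of the geodesic from `x` to `y` at distance `min t (dist x y)` from `x`. -/
noncomputable def seg (hX : IsCAT0 X) (x y : X) (t : ℝ≥0) : X :=
  (hX.geodesic x y).choose (min (t : ℝ) (dist x y))

theorem dist_seg_seg (hX : IsCAT0 X) (x y : X) (s t : ℝ≥0) :
    dist (seg hX x y s) (seg hX x y t) = |min (s : ℝ) (dist x y) - min (t : ℝ) (dist x y)| :=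
  (hX.geodesic x y).choose_spec.2.2 _ ⟨le_min s.2 dist_nonneg, min_le_right _ _⟩ _
    ⟨le_min t.2 dist_nonneg, min_le_right _ _⟩

theorem dist_left_seg (hX : IsCAT0 X) (x y : X) (t : ℝ≥0) :
    dist x (seg hX x y t) = min (t : ℝ) (dist x y) := by
  have h := (hX.geodesic x y).choose_spec
  have h1 := h.2.2 0 ⟨le_refl _, dist_nonneg⟩ (min (t : ℝ) (dist x y))
    ⟨le_min t.2 dist_nonneg, min_le_right _ _⟩
  rw [h.1] at h1
  have h2 : 0 ≤ min (t : ℝ) (dist x y) := le_min t.2 dist_nonneg
  rw [show dist x (seg hX x y t) = |0 - min (t : ℝ) (dist x y)| from h1, zero_sub, abs_neg,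
    abs_of_nonneg h2]

theorem dist_seg_right (hX : IsCAT0 X) (x y : X) (t : ℝ≥0) :
    dist (seg hX x y t) y = dist x y - min (t : ℝ) (dist x y) := by
  have h := (hX.geodesic x y).choose_spec
  have h1 := h.2.2 (min (t : ℝ) (dist x y))
    ⟨le_min t.2 dist_nonneg, min_le_right _ _⟩ (dist x y) ⟨dist_nonneg, le_refl _⟩
  rw [h.2.1] at h1
  have h2 : min (t : ℝ) (dist x y) ≤ dist x y := min_le_right _ _
  rw [show dist (seg hX x y t) y = |min (t : ℝ) (dist x y) - dist x y| from h1, abs_sub_comm,
    abs_of_nonneg (sub_nonneg.2 h2)]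

/-- The point `x` of `X` as a point of the compactification. -/
noncomputable def pt (hX : IsCAT0 X) (x₀ x : X) : Xbar X x₀ :=
  ⟨seg hX x₀ x, fun s t hst => by
    have hst' : (s : ℝ) ≤ t := hst
    have h1 := dist_left_seg hX x₀ x s
    have h2 := dist_left_seg hX x₀ x t
    have h3 : min (s : ℝ) (dist x₀ x) ≤ min (t : ℝ) (dist x₀ x) := min_le_min_right _ hst'
    refine ⟨?_, ?_⟩
    · rw [h1, h2]
      rcases le_total (s : ℝ) (dist x₀ x) with h | h
      · rw [min_eq_left h, min_eq_left (le_min hst' h)]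
      · rw [min_eq_right h, min_eq_right (h.trans hst'), min_eq_right h]
    · rw [dist_seg_seg, h1, h2, abs_sub_comm, abs_of_nonneg (sub_nonneg.2 h3)]⟩

/-- A ray as a point of the compactification. -/
def Ray.toXbar {x₀ : X} (c : Ray X x₀) : Xbar X x₀ :=
  ⟨c.1, fun s t hst => by
    have hst' : (s : ℝ) ≤ t := hst
    have h1 : ∀ u : ℝ≥0, dist x₀ (c.1 u) = u := fun u => by
      have := c.2.2 0 u
      rw [c.2.1] at this
      rw [this]; simp
    rw [h1, h1, c.2.2, abs_sub_comm, abs_of_nonneg (sub_nonneg.2 hst'), min_eq_left hst']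
    exact ⟨rfl, rfl⟩⟩

end xbar

/-! ## Trees -/

section trees

variable {V : Type}

/-- The neighbours of `v`. -/
def Nb (T : SimpleGraph V) (v : V) : Type := {w : V // T.Adj v w}

instance (T : SimpleGraph V) (v : V) : TopologicalSpace (Nb T v) := ⊥

instance (T : SimpleGraph V) (v : V) : DiscreteTopology (Nb T v) := ⟨rfl⟩

open Classical in
/-- The neighbour of `v` on the path from `v` to `u` (it is `v` itself if `u = v`). -/
noncomputable def dir (T : SimpleGraph V) (v u : V) : V :=
  if h : ∃ p : T.Walk v u, p.IsPath then h.choose.snd else v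

/-- The space of a tree of spaces: `D v` are the vertex spaces, `i v w` the point of `D v` given by
the edge from `v` to `w`. -/
def ZSpace (T : SimpleGraph V) (D : V → Type) (i : ∀ v, Nb T v → D v) : Type :=
  {z : ∀ v, D v // ∀ (v w : V) (h : T.Adj v w), z v = i v ⟨w, h⟩ ↔ z w ≠ i w ⟨v, h.symm⟩}

instance (T : SimpleGraph V) (D : V → Type) [∀ v, TopologicalSpace (D v)]
    (i : ∀ v, Nb T v → D v) : TopologicalSpace (ZSpace T D i) :=
  inferInstanceAs (TopologicalSpace {z : ∀ v, D v // ∀ (v w : V) (h : T.Adj v w),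
    z v = i v ⟨w, h⟩ ↔ z w ≠ i w ⟨v, h.symm⟩})

/-- The vertex space `D` with the points `i` of the edges is good: the points `i w` are different
and isolated. -/
structure GoodVertex {N : Type} (D : Type) [TopologicalSpace D] (i : N → D) : Prop where
  compact : CompactSpace D
  metrizable : TopologicalSpace.MetrizableSpace D
  inj : Function.Injective i
  isol : ∀ w, IsOpen {i w}

/-- Standing assumptions: `G` acts on the tree `T` with finite edge stabilisers, every edge (with
any orientation) can be moved to an element of the finite set `S`. -/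
structure TreeAction (G : Type) [Group G] [MulAction G V] (T : SimpleGraph V)
    (S : Set (V × V)) : Prop where
  tree : T.IsTree
  adj : ∀ (g : G) (v w : V), T.Adj v w → T.Adj (g • v) (g • w)
  fin : ∀ v w, T.Adj v w → {g : G | g • v = v ∧ g • w = w}.Finite
  Sfin : S.Finite
  Sadj : ∀ p ∈ S, T.Adj p.1 p.2
  cof : ∀ v w, T.Adj v w → ∃ g : G, (g • v, g • w) ∈ S

variable {G : Type} [Group G] [MulAction G V]

open Classical in
/-- The direction from `v` to the edge `g (a₀, b₀)`. -/
noncomputable def rho (T : SimpleGraph V) (a₀ b₀ : V) (v : V) (g : G) : V :=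
  if g • a₀ = v then g • b₀ else dir T v (g • a₀)

/-- Gate elements of the oriented edge `(v, w)`. -/
def Q (G : Type) [Group G] [MulAction G V] (S : Set (V × V)) (v w : V) : Set G :=
  {k : G | (k⁻¹ • v, k⁻¹ • w) ∈ S}

end trees

/-! ## The coarse geometry of the action -/

section coarse

variable {G V X : Type} [Group G] [MulAction G V] [MetricSpace X] [MulAction G X]

/-- Coarse data: `R` covering radius, `D` the size of gates. -/
structure Coarse (T : SimpleGraph V) (S : Set (V × V)) (a₀ b₀ : V) (x₀ : X) (R D : ℝ)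
    (G : Type) [Group G] [MulAction G V] [MulAction G X] : Prop where
  R_nonneg : 0 ≤ R
  D_nonneg : 0 ≤ D
  /-- every point is `R`-near to the orbit -/
  cover : ∀ x : X, ∃ g : G, dist x (g • x₀) ≤ R
  /-- the orbit is locally finite -/
  locfin : ∀ r : ℝ, {g : G | dist x₀ (g • x₀) ≤ r}.Finite
  /-- a geodesic that changes the side of the oriented edge `(v, w)` passes near its gates -/
  cross : ∀ v w : V, T.Adj v w → ∀ x y : X, ∀ g h : G, dist x (g • x₀) ≤ R + 1 →
    dist y (h • x₀) ≤ R + 1 → rho T a₀ b₀ v g = w → rho T a₀ b₀ v h ≠ w →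
    ∀ k ∈ Q G S v w, ∃ z : X, Btw x z y ∧ dist z (k • x₀) ≤ D
  /-- gates of the same edge are near to each other -/
  diam : ∀ v w : V, T.Adj v w → ∀ k ∈ Q G S v w, ∀ k' ∈ Q G S v w,
    dist (k • x₀) (k' • x₀) ≤ D
  /-- a gate of an edge at `v` which is near to the point `g x₀` on the side of `w` is near to the
  gates of `(v, w)` -/
  gate : ∀ v w' : V, T.Adj v w' → ∀ k ∈ Q G S v w', ∀ g : G,
    dist (k • x₀) (g • x₀) ≤ R + 1 → ∀ k' ∈ Q G S v (rho T a₀ b₀ v g),
    dist (k • x₀) (k' • x₀) ≤ D

/-- The points of `X` which are, seen from `v`, on the side of `w`. -/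
def Bey (T : SimpleGraph V) (a₀ b₀ : V) (x₀ : X) (R : ℝ) (G : Type) [Group G] [MulAction G V]
    [MulAction G X] (v w : V) (x : X) : Prop :=
  ∃ g : G, dist x (g • x₀) ≤ R ∧ rho T a₀ b₀ v g = w

/-- The hull of the vertex `v` (a convex set on which the stabiliser of `v` acts cocompactly). -/
def hull (T : SimpleGraph V) (S : Set (V × V)) (a₀ b₀ : V) (x₀ : X) (R D : ℝ) (G : Type)
    [Group G] [MulAction G V] [MulAction G X] (v : V) : Set X :=
  {x : X | ∀ w, T.Adj v w → Bey T a₀ b₀ x₀ R G v w x → ∀ k ∈ Q G S v w, dist x (k • x₀) ≤ D}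

/-- A ray which, seen from `v`, ends on the side of `w`. -/
def BeyRay (T : SimpleGraph V) (a₀ b₀ : V) {x₀ : X} (R : ℝ) (G : Type) [Group G] [MulAction G V]
    [MulAction G X] (v w : V) (c : Ray X x₀) : Prop :=
  ∀ᶠ t : ℝ≥0 in atTop, ∀ g : G, dist (c.1 t) (g • x₀) ≤ R → rho T a₀ b₀ v g = w

/-- The point of the vertex compactification given by the edge `(v, w)`; `P v w` is its gate. -/
noncomputable def jmap (T : SimpleGraph V) (hX : IsCAT0 X) (x₀ : X) (P : V → V → X) (v : V)
    (w : Nb T v) : Xbar X x₀ × OnePoint (Nb T v) :=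
  (pt hX x₀ (P v w.1), (w : OnePoint (Nb T v)))

/-- The vertex compactification: the discrete set of neighbours of `v` together with the limit
points of their gates. -/
def Cv (T : SimpleGraph V) (hX : IsCAT0 X) (x₀ : X) (P : V → V → X) (v : V) : Type :=
  closure (range (jmap T hX x₀ P v))

instance (T : SimpleGraph V) (hX : IsCAT0 X) (x₀ : X) (P : V → V → X) (v : V) :
    TopologicalSpace (Cv T hX x₀ P v) :=
  inferInstanceAs (TopologicalSpace (closure (range (jmap T hX x₀ P v))))

/-- The point of an edge in the vertex compactification. -/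
noncomputable def iv (T : SimpleGraph V) (hX : IsCAT0 X) (x₀ : X) (P : V → V → X) (v : V)
    (w : Nb T v) : Cv T hX x₀ P v :=
  ⟨jmap T hX x₀ P v w, subset_closure ⟨w, rfl⟩⟩

open Classical in
/-- The `v`-coordinate of a ray: the edge behind which it ends, or (if it ends in the limit set of
the vertex `v`) the ray itself. -/
noncomputable def Psi (T : SimpleGraph V) (hX : IsCAT0 X) (a₀ b₀ : V) (x₀ : X) (R : ℝ)
    (G : Type) [Group G] [MulAction G V] [MulAction G X] (P : V → V → X) (v : V)
    (c : Ray X x₀) : Xbar X x₀ × OnePoint (Nb T v) :=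
  if h : ∃ w : Nb T v, BeyRay T a₀ b₀ R G v w.1 c then jmap T hX x₀ P v h.choose
  else (c.toXbar, OnePoint.infty)

/-- All standing assumptions of the geometric part. -/
structure Geo (hX : IsCAT0 X) (T : SimpleGraph V) (S : Set (V × V)) (a₀ b₀ : V) (x₀ : X)
    (R D : ℝ) (G : Type) [Group G] [MulAction G V] [MulAction G X] (P : V → V → X) : Prop where
  prop : ProperSpace X
  geom : Geometric G X
  act : TreeAction G T S
  edge : T.Adj a₀ b₀
  co : Coarse T S a₀ b₀ x₀ R D G
  gateP : ∀ v w, T.Adj v w → ∃ k ∈ Q G S v w, P v w = k • x₀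

end coarse

end LibCE75
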