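import Pool.Agent.LibCE75.Defs
import Pool.Agent.LibCE75.A4

set_option autoImplicit false

/-!
# Board CE75, row F1 (SHORT, cites A4).  MP_6fa1a0_gt (cell-like equivalence of boundaries of CAT(0) groups).
Chair: helper75.  Deliver the whole file as CE75_F1.lean (team-store put), statements unchanged,
auxiliary lemmas private, no sorry, no axiom, no straight double quotation mark.

Finite groups; trees without edges.
PLAN. ceUnique_of_finite: X is bounded (cocompact + finite group: finitely many translates of K), so there is no ray (dist (c 0) (c t) = t):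
both Ray types are empty; Z = Empty (PEmpty) with the empty maps. ceUnique_of_stabilizer: if V is a subsingleton then the stabiliser of v is
the whole group; an action of G gives an action of the stabiliser (Subgroup.instMulAction), geometric by the same r and K
(every g in G is in the stabiliser); IsCAT0 does not depend on the action. countable_V: G is countable (union over n of the finite sets
{g | dist x0 (g x0) <= n}); every vertex v has a neighbour or V is a subsingleton; with hnb: v is k a for a first coordinate a of S.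
-/

namespace LibCE75

open Set Metric Topology Filter
open scoped NNReal

private theorem F1_no_ray {G X : Type} [Group G] [Finite G] [MetricSpace X] [MulAction G X]
    (hG : Geometric G X) (x₀ : X) : IsEmpty (Ray X x₀) := by
  obtain ⟨R, _, hR⟩ := exists_cover hG x₀
  obtain ⟨B, hB⟩ := (Set.finite_range fun g : G => dist x₀ (g • x₀)).bddAbove
  refine ⟨fun c => ?_⟩
  have hbd : ∀ x : X, dist x₀ x ≤ B + R := by
    intro x
    obtain ⟨g, hg⟩ := hR x
    have h1 : dist x₀ (g • x₀) ≤ B := hB ⟨g, rfl⟩
    have h2 : dist x₀ x ≤ dist x₀ (g • x₀) + dist (g • x₀) x := dist_triangle _ _ _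
    rw [dist_comm (g • x₀) x] at h2
    linarith
  have hnn : 0 ≤ B + R := le_trans dist_nonneg (hbd x₀)
  have h1 := c.2.2 0 (Real.toNNReal (B + R + 1))
  rw [c.2.1, NNReal.coe_zero, zero_sub, abs_neg, Real.coe_toNNReal _ (by linarith),
    abs_of_nonneg (by linarith)] at h1
  have h2 := hbd (c.1 (Real.toNNReal (B + R + 1)))
  linarith

theorem ceUnique_of_finite (G : Type) [Group G] [Finite G] : CEUnique G := by
  intro X₁ X₂ _ _ _ _ _ _ h1 h2 x₁ x₂
  have e1 : IsEmpty (Ray X₁ x₁) := F1_no_ray h1 x₁
  have e2 : IsEmpty (Ray X₂ x₂) := F1_no_ray h2 x₂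
  exact ⟨Empty, inferInstance, inferInstance, inferInstance, Empty.elim, Empty.elim,
    ⟨continuous_of_discreteTopology, fun y => (e1.false y).elim⟩,
    ⟨continuous_of_discreteTopology, fun y => (e2.false y).elim⟩⟩

private theorem F1_geo {G V X : Type} [Group G] [MulAction G V] [Subsingleton V] (v : V)
    [MetricSpace X] [MulAction G X] (hG : Geometric G X) :
    Geometric (MulAction.stabilizer G v) X where
  isom g x y := hG.isom (g : G) x y
  proper x := by
    obtain ⟨r, hr, hf⟩ := hG.proper x
    have hp := hf.preimage (f := fun g : MulAction.stabilizer G v => (g : G))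
      (Subtype.val_injective.injOn)
    exact ⟨r, hr, hp⟩
  cocompact := by
    obtain ⟨K, hK, h⟩ := hG.cocompact
    refine ⟨K, hK, fun x => ?_⟩
    obtain ⟨g, hg⟩ := h x
    exact ⟨⟨g, MulAction.mem_stabilizer_iff.mpr (Subsingleton.elim _ _)⟩, hg⟩

theorem ceUnique_of_stabilizer {G V : Type} [Group G] [MulAction G V] [Subsingleton V] (v : V)
    (h : CEUnique (MulAction.stabilizer G v)) : CEUnique G := by
  intro X₁ X₂ _ _ _ _ c1 c2 h1 h2 x₁ x₂
  exact h X₁ X₂ c1 c2 (F1_geo v h1) (F1_geo v h2) x₁ x₂

theorem countable_group {G X : Type} [Group G] [MetricSpace X] [MulAction G X]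
    (hX : IsCAT0 X) (hG : Geometric G X) [Nonempty X] : Countable G := by
  obtain ⟨x₀⟩ := ‹Nonempty X›
  have h : (univ : Set G) = ⋃ n : ℕ, {g : G | dist x₀ (g • x₀) ≤ (n : ℝ)} := by
    symm
    rw [eq_univ_iff_forall]
    intro g
    obtain ⟨n, hn⟩ := exists_nat_ge (dist x₀ (g • x₀))
    exact mem_iUnion.mpr ⟨n, hn⟩
  rw [← Set.countable_univ_iff, h]
  exact Set.countable_iUnion fun n => (finite_near hX hG x₀ x₀ n).countable

theorem countable_vertices {G V : Type} [Group G] [MulAction G V] [Countable G]
    {T : SimpleGraph V} {S : Set (V × V)} (h : TreeAction G T S)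
    (hnb : ∀ v, Nonempty (Nb T v)) : Countable V := by
  have hf : (Prod.fst '' S).Finite := h.Sfin.image _
  have hc : Countable (Prod.fst '' S) := hf.countable.to_subtype
  have hs : Function.Surjective
      (fun p : G × (Prod.fst '' S) => p.1⁻¹ • (p.2 : V)) := by
    intro v
    obtain ⟨w⟩ := hnb v
    obtain ⟨g, hg⟩ := h.cof v w.1 w.2
    exact ⟨(g, ⟨g • v, ⟨_, hg, rfl⟩⟩), inv_smul_smul g v⟩
  exact hs.countable

theorem finite_orbits {G V : Type} [Group G] [MulAction G V] {T : SimpleGraph V}
    {S : Set (V × V)} (h : TreeAction G T S) (hnb : ∀ v, Nonempty (Nb T v)) :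
    Finite (MulAction.orbitRel.Quotient G V) := by
  have hf : (Prod.fst '' S).Finite := h.Sfin.image _
  have hc : Finite (Prod.fst '' S) := hf.to_subtype
  refine Finite.of_surjective
    (fun p : Prod.fst '' S => (Quotient.mk _ (p : V) : MulAction.orbitRel.Quotient G V)) ?_
  intro q
  induction q using Quotient.inductionOn with
  | h v =>
    obtain ⟨w⟩ := hnb v
    obtain ⟨g, hg⟩ := h.cof v w.1 w.2
    exact ⟨⟨g • v, ⟨_, hg, rfl⟩⟩, Quotient.sound ⟨g, rfl⟩⟩

end LibCE75
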