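import Pool.Agent.LibCE75.Defs

set_option autoImplicit false

/-!
# Board CE75, row TR1 (MEDIUM, only Mathlib (SimpleGraph.IsTree)).  MP_6fa1a0_gt (cell-like equivalence of boundaries of CAT(0) groups).
Chair: helper75.  Deliver the whole file as CE75_TR1.lean (team-store put), statements unchanged,
auxiliary lemmas private, no sorry, no axiom, no straight double quotation mark.

Directions in a tree.
PLAN. dir T v u = second vertex (Walk.snd = getVert 1) of the unique path from v to u (IsTree.existsUnique_path;
IsAcyclic.path_unique). Statement 4 contains the junk cases: dir T v v = v (nil path). For 3: T.Adj c c', v different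
from both: if p is the path from v to c and c' is not on p then p.concat is the path to c' with the same second
vertex; if c' is on p then the path to c' is an initial part (takeUntil) of p. For 4: T.Adj v w, u arbitrary: if the path
p from w to u does not contain v then v :: p is the path from v to u, so dir v u = w, and dir w u is not v (if u = w it
is w itself). If it contains v then its second vertex is v (the path from w to v is the edge: uniqueness), so
dir w u = v; and dir v u = w is impossible (then v, w, ... and w, v, ... : the path from v to u would contain w,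
and the path from w to u contains v: the takeUntil/dropUntil of paths give a contradiction with uniqueness/lengths,
e.g. lengths: len(path w u) = 1 + len(path v u) and conversely).
-/

namespace LibCE75

open Set Metric Topology Filter
open scoped NNReal

private theorem TR1_eq {V : Type} {T : SimpleGraph V} (hT : T.IsTree) {v u : V} {p : T.Walk v u}
    (hp : p.IsPath) : dir T v u = p.snd := by
  have h : ∃ p : T.Walk v u, p.IsPath := ⟨p, hp⟩
  unfold dir
  rw [dif_pos h, (hT.existsUnique_path v u).unique h.choose_spec hp]

private theorem TR1_concat {V : Type} {T : SimpleGraph V} {v c c' : V} (p : T.Walk v c)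
    (h : T.Adj c c') (hv : v ≠ c) : (p.concat h).snd = p.snd := by
  cases p with
  | nil => exact absurd rfl hv
  | cons h' p => simp [SimpleGraph.Walk.concat_cons]

theorem dir_adj {V : Type} {T : SimpleGraph V} (hT : T.IsTree) {v u : V} (h : v ≠ u) :
    T.Adj v (dir T v u) := by
  obtain ⟨p, hp⟩ := (hT.existsUnique_path v u).exists
  rw [TR1_eq hT hp]
  exact p.adj_snd fun hn => h hn.eq

theorem dir_self {V : Type} {T : SimpleGraph V} (hT : T.IsTree) (v : V) : dir T v v = v := by
  rw [TR1_eq hT (SimpleGraph.Walk.IsPath.nil (u := v))]
  rfl

theorem dir_of_adj {V : Type} {T : SimpleGraph V} (hT : T.IsTree) {v w : V} (h : T.Adj v w) :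
    dir T v w = w := by
  have hp : (SimpleGraph.Walk.cons h SimpleGraph.Walk.nil).IsPath := by
    rw [SimpleGraph.Walk.cons_isPath_iff]
    refine ⟨SimpleGraph.Walk.IsPath.nil, ?_⟩
    rw [SimpleGraph.Walk.support_nil, List.mem_singleton]
    exact h.ne
  rw [TR1_eq hT hp]
  rfl

theorem dir_eq_of_adj {V : Type} {T : SimpleGraph V} (hT : T.IsTree) {v c c' : V}
    (h : T.Adj c c') (hc : v ≠ c) (hc' : v ≠ c') : dir T v c = dir T v c' := by
  obtain ⟨p, hp⟩ := (hT.existsUnique_path v c).exists
  obtain ⟨q, hq⟩ := (hT.existsUnique_path v c').exists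
  rw [TR1_eq hT hp, TR1_eq hT hq]
  by_cases hcq : c ∈ q.support
  · rw [hT.isAcyclic.path_concat hp hq h hcq, TR1_concat p h hc]
  · have h1 := hT.isAcyclic.mem_support_of_ne_mem_support_of_adj_of_isPath hp hq h hcq
    rw [hT.isAcyclic.path_concat hq hp h.symm h1, TR1_concat q h.symm hc']

theorem dir_iff {V : Type} {T : SimpleGraph V} (hT : T.IsTree) {v w : V} (h : T.Adj v w)
    (u : V) : dir T v u = w ↔ dir T w u ≠ v := by
  obtain ⟨p, hp⟩ := (hT.existsUnique_path w u).exists
  obtain ⟨q, hq⟩ := (hT.existsUnique_path v u).exists
  by_cases hv : v ∈ p.support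
  · have h1 : dir T w u = v := by
      rw [TR1_eq hT hp]
      exact (hT.isAcyclic.eq_snd_of_adj_start hp h.symm hv).symm
    refine ⟨fun h2 => ?_, fun h2 => absurd h1 h2⟩
    exfalso
    have h3 : w ∉ q.reverse.support :=
      hT.isAcyclic.ne_mem_support_of_support_of_adj_of_isPath hp.reverse hq.reverse h.symm
        (by rw [SimpleGraph.Walk.support_reverse, List.mem_reverse]; exact hv)
    apply h3
    rw [SimpleGraph.Walk.support_reverse, List.mem_reverse, ← h2, TR1_eq hT hq]
    exact q.getVert_mem_support 1
  · have hq' : (SimpleGraph.Walk.cons h p).IsPath := by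
      rw [SimpleGraph.Walk.cons_isPath_iff]
      exact ⟨hp, hv⟩
    have h1 : dir T v u = w := by
      rw [TR1_eq hT hq']
      exact SimpleGraph.Walk.snd_cons p h
    refine ⟨fun _ h2 => ?_, fun _ => h1⟩
    rw [TR1_eq hT hp] at h2
    apply hv
    rw [← h2]
    exact p.getVert_mem_support 1

end LibCE75
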