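import Pool.Agent.LibCE75.Defs
import Pool.Agent.LibCE75.TR1

set_option autoImplicit false

/-!
# Board CE75, row TR2 (SHORT/MEDIUM, cites TR1).  MP_6fa1a0_gt (cell-like equivalence of boundaries of CAT(0) groups).
Chair: helper75.  Deliver the whole file as CE75_TR2.lean (team-store put), statements unchanged,
auxiliary lemmas private, no sorry, no axiom, no straight double quotation mark.

Equivariance and finiteness of directions.
PLAN. dir_map: f preserves adjacency in both directions, so it maps the path from v to u to a path from f v to f u
(Walk.map with injective f, or Iso.map); uniqueness of paths; the nil case. dir_finite: take a walk from u to u'; for v not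
in its (finite) support all steps keep dir T v (dir_eq_of_adj); so the set is contained in the support.
-/

namespace LibCE75

open Set Metric Topology Filter
open scoped NNReal

private theorem TR2_dir_eq {V : Type} {T : SimpleGraph V} (hT : T.IsTree) {v u : V}
    (p : T.Walk v u) (hp : p.IsPath) : dir T v u = p.snd := by
  have h : ∃ q : T.Walk v u, q.IsPath := ⟨p, hp⟩
  have h1 : dir T v u = h.choose.snd := by
    unfold dir
    rw [dif_pos h]
  have h2 : h.choose = p := (hT.existsUnique_path v u).unique h.choose_spec hp
  rw [h1, h2]

private theorem TR2_walk {V : Type} {T : SimpleGraph V} (hT : T.IsTree) {u u' : V}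
    (p : T.Walk u u') : ∀ v, v ∉ p.support → dir T v u = dir T v u' := by
  induction p with
  | nil => intro v _; rfl
  | @cons a b c hab q ih =>
    intro v hv
    rw [SimpleGraph.Walk.support_cons, List.mem_cons, not_or] at hv
    have hb : v ≠ b := fun h => hv.2 (h ▸ q.start_mem_support)
    rw [dir_eq_of_adj hT hab hv.1 hb]
    exact ih v hv.2

theorem dir_map {V : Type} {T : SimpleGraph V} (hT : T.IsTree) (f : V ≃ V)
    (hf : ∀ v w, T.Adj v w ↔ T.Adj (f v) (f w)) (v u : V) :
    dir T (f v) (f u) = f (dir T v u) := by
  obtain ⟨p, hp, -⟩ := hT.existsUnique_path v u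
  let f' : T →g T := ⟨f, fun {a b} hab => (hf a b).1 hab⟩
  have hq : (p.map f').IsPath := hp.map (f := f') f.injective
  rw [TR2_dir_eq hT p hp]
  refine (TR2_dir_eq hT (p.map f') hq).trans ?_
  exact SimpleGraph.Walk.getVert_map f' p 1

theorem dir_finite {V : Type} {T : SimpleGraph V} (hT : T.IsTree) (u u' : V) :
    {v : V | dir T v u ≠ dir T v u'}.Finite := by
  obtain ⟨p, -, -⟩ := hT.existsUnique_path u u'
  refine (List.finite_toSet p.support).subset ?_
  intro v hv
  by_contra hn
  exact hv (TR2_walk hT p v hn)

end LibCE75
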