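import Pool.Agent.LibCE75.Defs
import Pool.Agent.LibCE75.TR1
import Pool.Agent.LibCE75.TR2

set_option autoImplicit false

/-!
# Board CE75, row RH1 (MEDIUM, cites TR1, TR2).  MP_6fa1a0_gt (cell-like equivalence of boundaries of CAT(0) groups).
Chair: helper75.  Deliver the whole file as CE75_RH1.lean (team-store put), statements unchanged,
auxiliary lemmas private, no sorry, no axiom, no straight double quotation mark.

The direction rho v g from v to the base edge g (a0, b0).
PLAN. (1) if g a0 = v then rho = g b0, adjacent by act.adj; otherwise dir_adj. (2) dir_map for v |-> h v (MulAction.toPerm h;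
adjacency iff from act.adj for h and h^-1). (3), (4): for T.Adj v w: if v, w are both different from g a0: rho v g = w iff
dir v (g a0) = w, rho w g = v iff dir w (g a0) = v: exactly one (dir_iff). If v = g a0: rho w g = dir w (g a0) = v (adjacent) so
the or holds, and both hold iff g b0 = w. Same for w = g a0. So both hold iff (g a0, g b0) = (v, w) or (w, v); the set of such g
is finite: it is contained in the union of two left cosets g1 * {h | h a0 = a0, h b0 = b0} (act.fin).
(5) contained in {g a0, h a0} union {v | dir v (g a0) is not dir v (h a0)}, dir_finite.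
-/

namespace LibCE75

open Set Metric Topology Filter
open scoped NNReal

private theorem RH1_pos {G V : Type} [Group G] [MulAction G V] {T : SimpleGraph V} {a₀ b₀ v : V}
    {g : G} (h : g • a₀ = v) : rho T a₀ b₀ v g = g • b₀ := if_pos h

private theorem RH1_neg {G V : Type} [Group G] [MulAction G V] {T : SimpleGraph V} {a₀ b₀ v : V}
    {g : G} (h : ¬ g • a₀ = v) : rho T a₀ b₀ v g = dir T v (g • a₀) := if_neg h

theorem rho_adj {G V : Type} [Group G] [MulAction G V] {T : SimpleGraph V} {S : Set (V × V)}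
    (h : TreeAction G T S) {a₀ b₀ : V} (h0 : T.Adj a₀ b₀) (v : V) (g : G) :
    T.Adj v (rho T a₀ b₀ v g) := by
  by_cases h1 : g • a₀ = v
  · rw [RH1_pos h1, ← h1]
    exact h.adj g a₀ b₀ h0
  · rw [RH1_neg h1]
    exact dir_adj h.tree (fun h2 => h1 h2.symm)

theorem rho_smul {G V : Type} [Group G] [MulAction G V] {T : SimpleGraph V} {S : Set (V × V)}
    (h : TreeAction G T S) {a₀ b₀ : V} (h0 : T.Adj a₀ b₀) (k : G) (v : V) (g : G) :
    rho T a₀ b₀ (k • v) (k * g) = k • rho T a₀ b₀ v g := by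
  by_cases h1 : g • a₀ = v
  · rw [RH1_pos h1, RH1_pos (by rw [mul_smul, h1]), mul_smul]
  · have h2 : ¬ (k * g) • a₀ = k • v := by
      rw [mul_smul]
      intro h3
      exact h1 (MulAction.injective k h3)
    have h4 := dir_map h.tree (MulAction.toPerm k) (fun x y => ⟨fun h5 => h.adj k x y h5,
      fun h5 => by
        have h6 := h.adj k⁻¹ _ _ h5
        simpa using h6⟩) v (g • a₀)
    rw [RH1_neg h1, RH1_neg h2, mul_smul]
    exact h4

theorem rho_or {G V : Type} [Group G] [MulAction G V] {T : SimpleGraph V} {S : Set (V × V)}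
    (h : TreeAction G T S) {a₀ b₀ : V} (h0 : T.Adj a₀ b₀) {v w : V} (hvw : T.Adj v w) (g : G) :
    rho T a₀ b₀ v g = w ∨ rho T a₀ b₀ w g = v := by
  by_cases h1 : g • a₀ = v
  · right
    rw [RH1_neg (by rw [h1]; exact hvw.ne), h1]
    exact dir_of_adj h.tree hvw.symm
  · by_cases h2 : g • a₀ = w
    · left
      rw [RH1_neg h1, h2]
      exact dir_of_adj h.tree hvw
    · rw [RH1_neg h1, RH1_neg h2]
      by_cases h3 : dir T w (g • a₀) = v
      · exact Or.inr h3
      · exact Or.inl ((dir_iff h.tree hvw _).2 h3)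

private theorem RH1_fin {G V : Type} [Group G] [MulAction G V] {T : SimpleGraph V}
    {S : Set (V × V)} (h : TreeAction G T S) {a₀ b₀ : V} (h0 : T.Adj a₀ b₀) (v w : V) :
    {g : G | g • a₀ = v ∧ g • b₀ = w}.Finite := by
  by_cases h1 : ∃ g₁ : G, g₁ • a₀ = v ∧ g₁ • b₀ = w
  · obtain ⟨g₁, hv, hw⟩ := h1
    refine ((h.fin a₀ b₀ h0).image (fun k => g₁ * k)).subset ?_
    rintro g ⟨hgv, hgw⟩
    refine ⟨g₁⁻¹ * g, ⟨?_, ?_⟩, by simp⟩
    · rw [mul_smul, hgv, ← hv, inv_smul_smul]
    · rw [mul_smul, hgw, ← hw, inv_smul_smul]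
  · have h2 : {g : G | g • a₀ = v ∧ g • b₀ = w} = ∅ := by
      ext g
      simp only [Set.mem_ofPred_eq, Set.mem_empty_iff_false, iff_false]
      intro hg
      exact h1 ⟨g, hg⟩
    rw [h2]
    exact Set.finite_empty

theorem rho_both_finite {G V : Type} [Group G] [MulAction G V] {T : SimpleGraph V}
    {S : Set (V × V)} (h : TreeAction G T S) {a₀ b₀ : V} (h0 : T.Adj a₀ b₀) {v w : V}
    (hvw : T.Adj v w) :
    {g : G | rho T a₀ b₀ v g = w ∧ rho T a₀ b₀ w g = v}.Finite := by
  refine ((RH1_fin h h0 v w).union (RH1_fin h h0 w v)).subset ?_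
  rintro g ⟨h1, h2⟩
  by_cases h3 : g • a₀ = v
  · rw [RH1_pos h3] at h1
    exact Or.inl ⟨h3, h1⟩
  · by_cases h4 : g • a₀ = w
    · rw [RH1_pos h4] at h2
      exact Or.inr ⟨h4, h2⟩
    · rw [RH1_neg h3] at h1
      rw [RH1_neg h4] at h2
      exact absurd h2 ((dir_iff h.tree hvw _).1 h1)

theorem rho_ne_finite {G V : Type} [Group G] [MulAction G V] {T : SimpleGraph V}
    {S : Set (V × V)} (h : TreeAction G T S) {a₀ b₀ : V} (h0 : T.Adj a₀ b₀) (g k : G) :
    {v : V | rho T a₀ b₀ v g ≠ rho T a₀ b₀ v k}.Finite := by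
  refine ((((Set.finite_singleton (g • a₀)).union (Set.finite_singleton (k • a₀)))).union
    (dir_finite h.tree (g • a₀) (k • a₀))).subset ?_
  intro v hv
  by_cases h1 : g • a₀ = v
  · exact Or.inl (Or.inl h1.symm)
  · by_cases h2 : k • a₀ = v
    · exact Or.inl (Or.inr h2.symm)
    · right
      have hv' : rho T a₀ b₀ v g ≠ rho T a₀ b₀ v k := hv
      rw [RH1_neg h1, RH1_neg h2] at hv'
      exact hv'

end LibCE75
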