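import Pool.Agent.LibCE75.Defs
import Pool.Agent.LibCE75.A4
import Pool.Agent.LibCE75.RH1
import Pool.Agent.LibCE75.RH2

set_option autoImplicit false

/-!
# Board CE75, row GC (STRONG, cites A4, RH1, RH2).  MP_6fa1a0_gt (cell-like equivalence of boundaries of CAT(0) groups).
Chair: helper75.  Deliver the whole file as CE75_GC.lean (team-store put), statements unchanged,
auxiliary lemmas private, no sorry, no axiom, no straight double quotation mark.

Existence of the coarse data R, D.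
PLAN. R from exists_cover. D is the maximum of finitely many bounds (each field is monotone in D).
locfin: finite_near. cross: chain along the geodesic: choose points x = z_0, ..., z_m = y on a geodesic from x to y with
consecutive distances <= 1 (all Btw x z_i y), g_i with dist z_i (g_i x0) <= R (g_0 = g, g_m = h: then <= R + 1). There is i with
rho v g_i = w and rho v g_(i+1) not w (first change). f = g_i^-1 g_(i+1) is in the finite set F = {f | dist x0 (f x0) <= 2 R + 3}.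
Put v' = g_i^-1 v; by rho_smul rho v' 1 = g_i^-1 w =: w' and rho v' f is not w', so v' is in the finite set E_f (rho_ne_finite 1 f)
and w' = rho v' 1. So p = (v', w') is in the finite set E = union over f in F of {(v', rho v' 1) | v' in E_f} of adjacent pairs. For
k in Q v w: u = k^-1 g_i satisfies u p = (k^-1 v, k^-1 w) in S: finitely many u (trans_finite E S); dist (g_i x0) (k x0) =
dist (u x0) x0 <= D1. z = z_i: dist z (k x0) <= R + 1 + D1. diam: u = k^-1 k' maps (k'^-1 v, k'^-1 w) in S into S: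
finitely many u (trans_finite S S). gate: (a, b) = (k^-1 v, k^-1 w') in S, f = k^-1 g in the finite set {f | dist x0 (f x0) <= R + 1},
v1 = a, w1 = k^-1 (rho v g) = rho a f (rho_smul): finitely many pairs (a, rho a f), adjacent; k^-1 k' maps
(k'^-1 v, k'^-1 rho) in S to (v1, w1): finitely many u.
-/

namespace LibCE75

open Set Metric Topology Filter
open scoped NNReal

/-- chain of points on a geodesic -/
private theorem GC_chain {X : Type} [MetricSpace X] (hX : IsCAT0 X) (x y : X) :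
    ∃ (m : ℕ) (z : ℕ → X), 0 < m ∧ z 0 = x ∧ z m = y ∧ (∀ i ≤ m, Btw x (z i) y) ∧
      ∀ i < m, dist (z i) (z (i + 1)) ≤ 1 := by
  obtain ⟨γ, h0, h1, hγ⟩ := hX.geodesic x y
  have hd : 0 ≤ dist x y := dist_nonneg
  have hm : (0 : ℝ) < ((⌈dist x y⌉₊ + 1 : ℕ) : ℝ) := by positivity
  have hdm : dist x y ≤ ((⌈dist x y⌉₊ + 1 : ℕ) : ℝ) := by
    have := Nat.le_ceil (dist x y)
    push_cast
    linarith
  have hs : ∀ i : ℕ, i ≤ ⌈dist x y⌉₊ + 1 →
      dist x y * i / ((⌈dist x y⌉₊ + 1 : ℕ) : ℝ) ∈ Set.Icc (0 : ℝ) (dist x y) := by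
    intro i hi
    refine ⟨by positivity, ?_⟩
    rw [div_le_iff₀ hm]
    exact mul_le_mul_of_nonneg_left (by exact_mod_cast hi) hd
  refine ⟨⌈dist x y⌉₊ + 1, fun i => γ (dist x y * i / ((⌈dist x y⌉₊ + 1 : ℕ) : ℝ)),
    Nat.succ_pos _, ?_, ?_, ?_, ?_⟩
  · simp only [Nat.cast_zero, mul_zero, zero_div]
    exact h0
  · simp only
    rw [mul_div_assoc, div_self hm.ne', mul_one]
    exact h1
  · intro i hi
    have e1 := hγ 0 ⟨le_rfl, hd⟩ _ (hs i hi)
    have e2 := hγ _ (hs i hi) (dist x y) ⟨hd, le_rfl⟩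
    rw [h0, zero_sub, abs_neg, abs_of_nonneg (hs i hi).1] at e1
    rw [h1, abs_sub_comm, abs_of_nonneg (sub_nonneg.2 (hs i hi).2)] at e2
    change dist x (γ _) + dist (γ _) y = dist x y
    rw [e1, e2]
    ring
  · intro i hi
    change dist (γ _) (γ _) ≤ 1
    rw [hγ _ (hs i hi.le) _ (hs (i + 1) hi), abs_sub_comm]
    have e3 : dist x y * ((i + 1 : ℕ) : ℝ) / ((⌈dist x y⌉₊ + 1 : ℕ) : ℝ) -
        dist x y * (i : ℝ) / ((⌈dist x y⌉₊ + 1 : ℕ) : ℝ) =
        dist x y / ((⌈dist x y⌉₊ + 1 : ℕ) : ℝ) := by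
      rw [← sub_div]
      congr 1
      push_cast
      ring
    rw [e3, abs_of_nonneg (div_nonneg hd hm.le), div_le_one hm]
    exact hdm

private theorem GC_change {P : ℕ → Prop} {m : ℕ} (h0 : P 0) (hm : ¬ P m) :
    ∃ i < m, P i ∧ ¬ P (i + 1) := by
  by_contra hcon
  apply hm
  have : ∀ i ≤ m, P i := by
    intro i
    induction i with
    | zero => exact fun _ => h0
    | succ i ih =>
      intro hi
      by_contra h1
      exact hcon ⟨i, hi, ih (Nat.le_of_succ_le hi), h1⟩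
  exact this m le_rfl

private theorem GC_bd {G X : Type} [Group G] [MetricSpace X] [MulAction G X] {U : Set G}
    (hU : U.Finite) (x₀ : X) : ∃ D : ℝ, ∀ u ∈ U, dist (u • x₀) x₀ ≤ D := by
  obtain ⟨D, hD⟩ := (hU.image (fun u => dist (u • x₀) x₀)).bddAbove
  exact ⟨D, fun u hu => hD ⟨u, hu, rfl⟩⟩

private theorem GC_dist {G X : Type} [Group G] [MetricSpace X] [MulAction G X]
    (hG : Geometric G X) (x₀ : X) (k k' : G) :
    dist (k • x₀) (k' • x₀) = dist ((k⁻¹ * k') • x₀) x₀ := by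
  rw [← hG.isom k⁻¹ (k • x₀) (k' • x₀), inv_smul_smul, mul_smul, dist_comm]

theorem exists_coarse {G V X : Type} [Group G] [MulAction G V] [MetricSpace X] [MulAction G X]
    (hX : IsCAT0 X) (hG : Geometric G X) {T : SimpleGraph V} {S : Set (V × V)}
    (h : TreeAction G T S) {a₀ b₀ : V} (h0 : T.Adj a₀ b₀) (x₀ : X) :
    ∃ R D : ℝ, Coarse T S a₀ b₀ x₀ R D G := by
  obtain ⟨R, hR0, hR⟩ := exists_cover hG x₀
  -- the set for `cross`
  have hF2 : {f : G | dist x₀ (f • x₀) ≤ 2 * R + 3}.Finite := finite_near hX hG x₀ x₀ _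
  have hE1 : (⋃ f ∈ {f : G | dist x₀ (f • x₀) ≤ 2 * R + 3}, (fun v => (v, rho T a₀ b₀ v (1 : G))) ''
      {v : V | rho T a₀ b₀ v (1 : G) ≠ rho T a₀ b₀ v f}).Finite :=
    hF2.biUnion fun f _ => (rho_ne_finite h h0 1 f).image _
  have hU1 := trans_finite h _ S hE1 h.Sfin (by
    intro p hp
    simp only [Set.mem_iUnion] at hp
    obtain ⟨f, -, v, -, rfl⟩ := hp
    exact rho_adj h h0 v 1)
  obtain ⟨D1, hD1⟩ := GC_bd hU1 x₀
  -- the set for `diam`
  have hU2 := trans_finite h S S h.Sfin h.Sfin h.Sadj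
  obtain ⟨D2, hD2⟩ := GC_bd hU2 x₀
  -- the set for `gate`
  have hF1 : {f : G | dist x₀ (f • x₀) ≤ R + 1}.Finite := finite_near hX hG x₀ x₀ _
  have hE3 : ((fun q : (V × V) × G => (q.1.1, rho T a₀ b₀ q.1.1 q.2)) ''
      (S ×ˢ {f : G | dist x₀ (f • x₀) ≤ R + 1})).Finite := (h.Sfin.prod hF1).image _
  have hU3 := trans_finite h S _ h.Sfin hE3 h.Sadj
  obtain ⟨D3, hD3⟩ := GC_bd hU3 x₀
  have hle1 : R + 1 + D1 ≤ max 0 (max (R + 1 + D1) (max D2 D3)) :=
    (le_max_left _ _).trans (le_max_right _ _)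
  have hle2 : D2 ≤ max 0 (max (R + 1 + D1) (max D2 D3)) :=
    (le_max_left _ _).trans ((le_max_right _ _).trans (le_max_right _ _))
  have hle3 : D3 ≤ max 0 (max (R + 1 + D1) (max D2 D3)) :=
    (le_max_right _ _).trans ((le_max_right _ _).trans (le_max_right _ _))
  refine ⟨R, max 0 (max (R + 1 + D1) (max D2 D3)), hR0, le_max_left _ _, hR,
    fun r => finite_near hX hG x₀ x₀ r, ?_, ?_, ?_⟩
  · -- cross
    intro v w hvw x y g g' hxg hyg' hg hg' k hk
    obtain ⟨m, z, hm, hz0, hzm, hbtw, hstep⟩ := GC_chain hX x y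
    choose gg hgg using hR
    obtain ⟨c, hc⟩ : ∃ c : ℕ → G, ∀ i, c i = if i = 0 then g else if i = m then g' else gg (z i) :=
      ⟨_, fun _ => rfl⟩
    have hc0 : c 0 = g := by rw [hc, if_pos rfl]
    have hcm : c m = g' := by rw [hc, if_neg hm.ne', if_pos rfl]
    have hcd : ∀ i, dist (z i) (c i • x₀) ≤ R + 1 := by
      intro i
      by_cases h1 : i = 0
      · subst h1
        rw [hc0, hz0]
        exact hxg
      · by_cases h2 : i = m
        · subst h2
          rw [hcm, hzm]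
          exact hyg'
        · rw [hc, if_neg h1, if_neg h2]
          linarith [hgg (z i)]
    obtain ⟨i, him, hi1, hi2⟩ := GC_change (P := fun i => rho T a₀ b₀ v (c i) = w) (m := m)
      (by rw [hc0]; exact hg) (by rw [hcm]; exact hg')
    have hfd : dist x₀ (((c i)⁻¹ * c (i + 1)) • x₀) ≤ 2 * R + 3 := by
      rw [dist_comm, ← GC_dist hG]
      have e1 := dist_triangle4 (c i • x₀) (z i) (z (i + 1)) (c (i + 1) • x₀)
      have e2 := hcd i
      have e3 := hcd (i + 1)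
      have e4 := hstep i him
      rw [dist_comm] at e2
      linarith
    have hr1 : rho T a₀ b₀ ((c i)⁻¹ • v) (1 : G) = (c i)⁻¹ • w := by
      have := rho_smul h h0 (c i)⁻¹ v (c i)
      rw [inv_mul_cancel, hi1] at this
      exact this
    have hr2 : rho T a₀ b₀ ((c i)⁻¹ • v) ((c i)⁻¹ * c (i + 1)) =
        (c i)⁻¹ • rho T a₀ b₀ v (c (i + 1)) := rho_smul h h0 (c i)⁻¹ v (c (i + 1))
    have hne : rho T a₀ b₀ ((c i)⁻¹ • v) (1 : G) ≠
        rho T a₀ b₀ ((c i)⁻¹ • v) ((c i)⁻¹ * c (i + 1)) := by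
      rw [hr1, hr2]
      intro h3
      exact hi2 (MulAction.injective (c i)⁻¹ h3).symm
    have hu := hD1 (k⁻¹ * c i) (by
      refine ⟨((c i)⁻¹ • v, rho T a₀ b₀ ((c i)⁻¹ • v) (1 : G)), ?_, ?_⟩
      · simp only [Set.mem_iUnion]
        exact ⟨(c i)⁻¹ * c (i + 1), hfd, (c i)⁻¹ • v, hne, rfl⟩
      · change ((k⁻¹ * c i) • (c i)⁻¹ • v,
          (k⁻¹ * c i) • rho T a₀ b₀ ((c i)⁻¹ • v) (1 : G)) ∈ S
        rw [hr1, smul_smul, smul_smul, mul_assoc, mul_inv_cancel, mul_one]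
        exact hk)
    rw [← GC_dist hG] at hu
    refine ⟨z i, hbtw i him.le, ?_⟩
    have e5 := dist_triangle (z i) (c i • x₀) (k • x₀)
    have e6 := hcd i
    rw [dist_comm (c i • x₀)] at e5
    linarith
  · -- diam
    intro v w hvw k hk k' hk'
    have hu := hD2 (k⁻¹ * k') (by
      refine ⟨(k'⁻¹ • v, k'⁻¹ • w), hk', ?_⟩
      change ((k⁻¹ * k') • k'⁻¹ • v, (k⁻¹ * k') • k'⁻¹ • w) ∈ S
      rw [smul_smul, smul_smul, mul_assoc, mul_inv_cancel, mul_one]
      exact hk)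
    rw [← GC_dist hG] at hu
    exact hu.trans hle2
  · -- gate
    intro v w' hvw' k hk g hkg k' hk'
    have hr : rho T a₀ b₀ (k⁻¹ • v) (k⁻¹ * g) = k⁻¹ • rho T a₀ b₀ v g := rho_smul h h0 k⁻¹ v g
    have hf : dist x₀ ((k⁻¹ * g) • x₀) ≤ R + 1 := by
      rw [dist_comm, ← GC_dist hG]
      exact hkg
    have hu := hD3 (k⁻¹ * k') (by
      refine ⟨(k'⁻¹ • v, k'⁻¹ • rho T a₀ b₀ v g), hk', ?_⟩
      refine ⟨((k⁻¹ • v, k⁻¹ • w'), k⁻¹ * g), ⟨hk, hf⟩, ?_⟩
      change (k⁻¹ • v, rho T a₀ b₀ (k⁻¹ • v) (k⁻¹ * g)) =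
        ((k⁻¹ * k') • k'⁻¹ • v, (k⁻¹ * k') • k'⁻¹ • rho T a₀ b₀ v g)
      rw [hr, smul_smul, smul_smul, mul_assoc, mul_inv_cancel, mul_one])
    rw [← GC_dist hG] at hu
    exact hu.trans hle3

end LibCE75
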