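import Pool.Agent.LibCE75.Defs
import Pool.Agent.LibCE75.A1
import Pool.Agent.LibCE75.A2
import Pool.Agent.LibCE75.A3
import Pool.Agent.LibCE75.RH1
import Pool.Agent.LibCE75.RH2

set_option autoImplicit false

/-!
# Board CE75, row H1 (MEDIUM, cites A2, A3, RH1, RH2).  MP_6fa1a0_gt (cell-like equivalence of boundaries of CAT(0) groups).
Chair: helper75.  Deliver the whole file as CE75_H1.lean (team-store put), statements unchanged,
auxiliary lemmas private, no sorry, no axiom, no straight double quotation mark.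

The hull of a vertex.
PLAN. hull_cvx: x, y in the hull, z between, T.Adj v w, g with dist z (g x0) <= R, rho v g = w, k in Q v w. There is p with Btw x p z and
dist p (k x0) <= D: if Bey v w x take p = x; otherwise take g_x from co.cover for x, rho v g_x is not w, and co.cross for (z, g), (x, g_x)
(symmetry of Btw). Same for y: q with Btw z q y. Then Btw p z q (distances add up along x, p, z, q, y), and ball_convex.
gate_mem_hull: T.Adj v w', Bey v w' (k x0) by g: co.gate. near_gate: for x in the hull take g from cover, w = rho v g (rho_adj),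
k with P v w = k x0 (gateP): dist x (P v w) <= D; closure: + 1. hull_smul: substitute w = g w', g1 = g g1' (rho_smul, Q_smul,
geom.isom); both directions from one applied to g and g^-1.
-/

namespace LibCE75

open Set Metric Topology Filter
open scoped NNReal

private theorem H1_side {G V X : Type} [Group G] [MulAction G V] [MetricSpace X]
    [MulAction G X] {hX : IsCAT0 X} {T : SimpleGraph V} {S : Set (V × V)} {a₀ b₀ : V} {x₀ : X}
    {R D : ℝ} {P : V → V → X} (h : Geo hX T S a₀ b₀ x₀ R D G P)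
    {v w : V} (hvw : T.Adj v w) {x z : X} (hx : x ∈ hull T S a₀ b₀ x₀ R D G v)
    {g : G} (hg : dist z (g • x₀) ≤ R) (hgw : rho T a₀ b₀ v g = w) {k : G}
    (hk : k ∈ Q G S v w) : ∃ p : X, Btw x p z ∧ dist p (k • x₀) ≤ D := by
  by_cases hB : Bey T a₀ b₀ x₀ R G v w x
  · exact ⟨x, by unfold Btw; rw [dist_self, zero_add], hx w hvw hB k hk⟩
  · obtain ⟨g', hg'⟩ := h.co.cover x
    have hne : rho T a₀ b₀ v g' ≠ w := fun e => hB ⟨g', hg', e⟩
    obtain ⟨p, hp, hpk⟩ := h.co.cross v w hvw z x g g' (by linarith) (by linarith) hgw hne k hk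
    refine ⟨p, ?_, hpk⟩
    unfold Btw at hp ⊢
    rw [dist_comm x p, dist_comm p z, dist_comm x z]
    linarith

private theorem H1_hull_smul_aux {G V X : Type} [Group G] [MulAction G V] [MetricSpace X]
    [MulAction G X] {hX : IsCAT0 X} {T : SimpleGraph V} {S : Set (V × V)} {a₀ b₀ : V} {x₀ : X}
    {R D : ℝ} {P : V → V → X} (h : Geo hX T S a₀ b₀ x₀ R D G P)
    (g : G) (v : V) (x : X) (hx : x ∈ hull T S a₀ b₀ x₀ R D G v) :
    g • x ∈ hull T S a₀ b₀ x₀ R D G (g • v) := by
  intro w hvw hB k hk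
  obtain ⟨g1, hg1, hr⟩ := hB
  have e1 : ∀ (k : G), dist (g • x) (k • x₀) = dist x ((g⁻¹ * k) • x₀) := by
    intro k
    have := h.geom.isom g⁻¹ (g • x) (k • x₀)
    rw [inv_smul_smul, smul_smul] at this
    exact this.symm
  have hadj : T.Adj v (g⁻¹ • w) := by
    have := h.act.adj g⁻¹ _ _ hvw
    rwa [inv_smul_smul] at this
  have hrho : rho T a₀ b₀ v (g⁻¹ * g1) = g⁻¹ • w := by
    have := rho_smul h.act h.edge g⁻¹ (g • v) g1
    rw [inv_smul_smul, hr] at this
    exact this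
  have hQ : g⁻¹ * k ∈ Q G S v (g⁻¹ • w) := by
    have := (Q_smul (S := S) g⁻¹ k (g • v) w).2 hk
    rwa [inv_smul_smul] at this
  rw [e1]
  refine hx (g⁻¹ • w) hadj ⟨g⁻¹ * g1, ?_, hrho⟩ (g⁻¹ * k) hQ
  rw [← e1]
  exact hg1

private theorem H1_closure_hull_smul_aux {G V X : Type} [Group G] [MulAction G V] [MetricSpace X]
    [MulAction G X] {hX : IsCAT0 X} {T : SimpleGraph V} {S : Set (V × V)} {a₀ b₀ : V} {x₀ : X}
    {R D : ℝ} {P : V → V → X} (h : Geo hX T S a₀ b₀ x₀ R D G P)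
    (g : G) (v : V) (x : X) (hx : x ∈ closure (hull T S a₀ b₀ x₀ R D G v)) :
    g • x ∈ closure (hull T S a₀ b₀ x₀ R D G (g • v)) := by
  rw [Metric.mem_closure_iff] at hx ⊢
  intro ε hε
  obtain ⟨y, hy, hxy⟩ := hx ε hε
  exact ⟨g • y, H1_hull_smul_aux h g v y hy, by rw [h.geom.isom]; exact hxy⟩

theorem hull_cvx {G V X : Type} [Group G] [MulAction G V] [MetricSpace X]
    [MulAction G X] {hX : IsCAT0 X} {T : SimpleGraph V} {S : Set (V × V)} {a₀ b₀ : V} {x₀ : X}
    {R D : ℝ} {P : V → V → X} (h : Geo hX T S a₀ b₀ x₀ R D G P)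
    (v : V) : Cvx (hull T S a₀ b₀ x₀ R D G v) := by
  intro x hx y hy z hz w hvw hB k hk
  obtain ⟨g, hg, hgw⟩ := hB
  obtain ⟨p, hp, hpk⟩ := H1_side h hvw hx hg hgw hk
  obtain ⟨q, hq, hqk⟩ := H1_side h hvw hy hg hgw hk
  have hb : Btw p z q := by
    unfold Btw at hp hq hz ⊢
    have t1 := dist_triangle x p y
    have t2 := dist_triangle p q y
    have t3 := dist_triangle p z q
    have c1 := dist_comm y q
    have c2 := dist_comm q z
    have c3 := dist_comm y z
    linarith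
  have := ball_convex hX (c := k • x₀) hb
  rw [dist_comm z]
  refine this.trans (max_le ?_ ?_)
  · rw [dist_comm]; exact hpk
  · rw [dist_comm]; exact hqk

theorem gate_mem_hull {G V X : Type} [Group G] [MulAction G V] [MetricSpace X]
    [MulAction G X] {hX : IsCAT0 X} {T : SimpleGraph V} {S : Set (V × V)} {a₀ b₀ : V} {x₀ : X}
    {R D : ℝ} {P : V → V → X} (h : Geo hX T S a₀ b₀ x₀ R D G P)
    {v w : V} (hvw : T.Adj v w) {k : G} (hk : k ∈ Q G S v w) :
    k • x₀ ∈ hull T S a₀ b₀ x₀ R D G v := by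
  intro w' hvw' hB k' hk'
  obtain ⟨g, hg, hgw⟩ := hB
  subst hgw
  exact h.co.gate v w hvw k hk g (by linarith) k' hk'

theorem near_gate {G V X : Type} [Group G] [MulAction G V] [MetricSpace X]
    [MulAction G X] {hX : IsCAT0 X} {T : SimpleGraph V} {S : Set (V × V)} {a₀ b₀ : V} {x₀ : X}
    {R D : ℝ} {P : V → V → X} (h : Geo hX T S a₀ b₀ x₀ R D G P)
    (v : V) (x : X) (hx : x ∈ closure (hull T S a₀ b₀ x₀ R D G v)) :
    ∃ w : Nb T v, dist x (P v w.1) ≤ D + 1 := by
  rw [Metric.mem_closure_iff] at hx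
  obtain ⟨y, hy, hxy⟩ := hx 1 one_pos
  obtain ⟨g, hg⟩ := h.co.cover y
  have hadj := rho_adj h.act h.edge v g
  obtain ⟨k, hk, hP⟩ := h.gateP v _ hadj
  refine ⟨⟨rho T a₀ b₀ v g, hadj⟩, ?_⟩
  show dist x (P v (rho T a₀ b₀ v g)) ≤ D + 1
  have h1 := hy (rho T a₀ b₀ v g) hadj ⟨g, hg, rfl⟩ k hk
  rw [hP]
  have h2 := dist_triangle x y (k • x₀)
  linarith

theorem hull_smul {G V X : Type} [Group G] [MulAction G V] [MetricSpace X]
    [MulAction G X] {hX : IsCAT0 X} {T : SimpleGraph V} {S : Set (V × V)} {a₀ b₀ : V} {x₀ : X}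
    {R D : ℝ} {P : V → V → X} (h : Geo hX T S a₀ b₀ x₀ R D G P)
    (g : G) (v : V) (x : X) :
    g • x ∈ hull T S a₀ b₀ x₀ R D G (g • v) ↔ x ∈ hull T S a₀ b₀ x₀ R D G v := by
  constructor
  · intro hx
    have := H1_hull_smul_aux h g⁻¹ (g • v) (g • x) hx
    rwa [inv_smul_smul, inv_smul_smul] at this
  · exact H1_hull_smul_aux h g v x

theorem closure_hull_smul {G V X : Type} [Group G] [MulAction G V] [MetricSpace X]
    [MulAction G X] {hX : IsCAT0 X} {T : SimpleGraph V} {S : Set (V × V)} {a₀ b₀ : V} {x₀ : X}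
    {R D : ℝ} {P : V → V → X} (h : Geo hX T S a₀ b₀ x₀ R D G P)
    (g : G) (v : V) (x : X) :
    g • x ∈ closure (hull T S a₀ b₀ x₀ R D G (g • v)) ↔
      x ∈ closure (hull T S a₀ b₀ x₀ R D G v) := by
  constructor
  · intro hx
    have := H1_closure_hull_smul_aux h g⁻¹ (g • v) (g • x) hx
    rwa [inv_smul_smul, inv_smul_smul] at this
  · exact H1_closure_hull_smul_aux h g v x

end LibCE75
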