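import Pool.Agent.LibCE75.Defs
import Pool.Agent.LibCE75.RH2
import Pool.Agent.LibCE75.H1

set_option autoImplicit false

/-!
# Board CE75, row H2 (MEDIUM/STRONG, cites RH2, H1).  MP_6fa1a0_gt (cell-like equivalence of boundaries of CAT(0) groups).
Chair: helper75.  Deliver the whole file as CE75_H2.lean (team-store put), statements unchanged,
auxiliary lemmas private, no sorry, no axiom, no straight double quotation mark.

The stabiliser of v acts geometrically on the closed hull.
PLAN. The action: g.(x) = g x for g in the stabiliser (closure_hull_smul with g v = v). isom: geom.isom. proper: from geom.proper for G: the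
set for the subgroup maps injectively into the set for G (same r; ball of the subtype). cocompact: for every s = (a, b) in S such
that some k with k a = v exists choose one, k_s. K = union over these finitely many s of closedBall (k_s x0) (2 D + 1) (compact:
ProperSpace h.prop), intersected with the closed hull (closed in X, so the preimage in the subtype is compact). For x in the
closed hull: near_gate: w in Nb T v with dist x (P v w) <= D + 1, P v w = k x0, k in Q v w: (k^-1 v, k^-1 w) = s in S. u = k_s k^-1 fixes v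
(k^-1 v = a, k_s a = v), u x is in the closed hull and dist (u x) (k_s x0) = dist x (k x0) <= D + 1 (D >= 0).
-/

namespace LibCE75

open Set Metric Topology Filter
open scoped NNReal

theorem hull_geometric {G V X : Type} [Group G] [MulAction G V] [MetricSpace X]
    [MulAction G X] {hX : IsCAT0 X} {T : SimpleGraph V} {S : Set (V × V)} {a₀ b₀ : V} {x₀ : X}
    {R D : ℝ} {P : V → V → X} (h : Geo hX T S a₀ b₀ x₀ R D G P)
    (v : V) :
    ∃ inst : MulAction (MulAction.stabilizer G v) ↥(closure (hull T S a₀ b₀ x₀ R D G v)),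
      @Geometric (MulAction.stabilizer G v) ↥(closure (hull T S a₀ b₀ x₀ R D G v)) _ _ inst := by
  classical
  have hst : ∀ g : MulAction.stabilizer G v, (g : G) • v = v := fun g => g.2
  have hmem : ∀ (g : MulAction.stabilizer G v) (x : X),
      x ∈ closure (hull T S a₀ b₀ x₀ R D G v) → (g : G) • x ∈ closure (hull T S a₀ b₀ x₀ R D G v) := by
    intro g x hx
    have h1 := (closure_hull_smul h (g : G) v x).2 hx
    rwa [hst g] at h1
  let inst : MulAction (MulAction.stabilizer G v) ↥(closure (hull T S a₀ b₀ x₀ R D G v)) :=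
    { smul := fun g x => ⟨(g : G) • (x : X), hmem g x x.2⟩
      one_smul := fun x => Subtype.ext (one_smul G (x : X))
      mul_smul := fun g g' x => Subtype.ext (mul_smul (g : G) (g' : G) (x : X)) }
  have hval : ∀ (g : MulAction.stabilizer G v) (x : ↥(closure (hull T S a₀ b₀ x₀ R D G v))),
      ((inst.smul g x : ↥(closure (hull T S a₀ b₀ x₀ R D G v))) : X) = (g : G) • (x : X) :=
    fun _ _ => rfl
  refine ⟨inst, @Geometric.mk (MulAction.stabilizer G v) ↥(closure (hull T S a₀ b₀ x₀ R D G v)) _ _ inst
    ?_ ?_ ?_⟩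
  · intro g x y
    exact h.geom.isom (g : G) (x : X) (y : X)
  · intro x
    obtain ⟨r, hr, hfin⟩ := h.geom.proper (x : X)
    refine ⟨r, hr, ?_⟩
    refine (hfin.preimage (f := fun g : MulAction.stabilizer G v => (g : G))
      Subtype.val_injective.injOn).subset ?_
    rintro g ⟨z, ⟨y, hy, hyz⟩, hz⟩
    refine ⟨(z : X), ⟨(y : X), hy, ?_⟩, hz⟩
    exact congrArg Subtype.val hyz
  · have := h.prop
    let kk : V × V → G := fun s => if hs : ∃ k : G, k • s.1 = v then hs.choose else 1
    have hkk : ∀ s : V × V, (∃ k : G, k • s.1 = v) → kk s • s.1 = v := by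
      intro s hs
      have h1 : kk s = hs.choose := dif_pos hs
      rw [h1]
      exact hs.choose_spec
    refine ⟨Subtype.val ⁻¹' (⋃ s ∈ S, closedBall (kk s • x₀) (D + 1)), ?_, ?_⟩
    · refine (isClosed_closure.isClosedEmbedding_subtypeVal).isCompact_preimage ?_
      exact h.act.Sfin.isCompact_biUnion fun s _ => isCompact_closedBall _ _
    · intro x
      obtain ⟨w, hw⟩ := near_gate h v (x : X) x.2
      obtain ⟨k, hk, hPk⟩ := h.gateP v w.1 w.2
      have hk' : (k⁻¹ • v, k⁻¹ • w.1) ∈ S := hk
      have hv : kk (k⁻¹ • v, k⁻¹ • w.1) • (k⁻¹ • v) = v :=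
        hkk (k⁻¹ • v, k⁻¹ • w.1) ⟨k, smul_inv_smul k v⟩
      refine ⟨⟨kk (k⁻¹ • v, k⁻¹ • w.1) * k⁻¹, ?_⟩, ?_⟩
      · rw [MulAction.mem_stabilizer_iff, mul_smul]
        exact hv
      · show (kk (k⁻¹ • v, k⁻¹ • w.1) * k⁻¹) • (x : X) ∈ ⋃ s ∈ S, closedBall (kk s • x₀) (D + 1)
        refine mem_biUnion hk' ?_
        rw [mem_closedBall, mul_smul, h.geom.isom, ← h.geom.isom k, smul_inv_smul, ← hPk]
        exact hw

end LibCE75
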