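import Pool.Agent.LibCE75.Defs
import Pool.Agent.LibCE75.A2
import Pool.Agent.LibCE75.B1
import Pool.Agent.LibCE75.B2
import Pool.Agent.LibCE75.B3
import Pool.Agent.LibCE75.B5
import Pool.Agent.LibCE75.B6
import Pool.Agent.LibCE75.K2
import Pool.Agent.LibCE75.C1
import Pool.Agent.LibCE75.H1

set_option autoImplicit false

/-!
# Board CE75, row H3 (STRONG, cites A2 B1 B2 B3 B5 B6 K2 C1 H1).  MP_6fa1a0_gt (cell-like equivalence of boundaries of CAT(0) groups).
Chair: helper75.  Deliver the whole file as CE75_H3.lean (team-store put), statements unchanged,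
auxiliary lemmas private, no sorry, no axiom, no straight double quotation mark.

The remainder of the vertex compactification is the boundary of the closed hull.
PLAN. Let s in the closed hull H. (a) LIM: (toXbar c, infty) in the closure of range jmap v iff there is C with: for all t there is w in Nb T v
with dist (c t) (P v w) <= C. Proof =>: exists_filter l; let b : Ray X x0 = Ray X s be base_change; P v w is in H (gate_mem_hull); the
points pt hX s (P v w) converge along l to toXbar (b c) (compactness of Xbar X s: any cluster point is a ray e from s; points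
of [x0, P v w] and [s, P v w] at the same distance t are within 2 dist x0 s of each other [convex_dist / as in B5], so dist (e t)
(c t) is bounded, so e = b c by uniqueness, or avoid b c and use e directly); H closed and convex so e t in H
(seg s (P v w) t in H); dist (c t) (e t) bounded; near_gate. <=: choose w_n for t = n; dist (c n) (P v w_n) <= C: tendsto_pt gives
pt (P v w_n) -> toXbar c, dist x0 (P v w_n) -> infinity so w_n tends to cofinite; second coordinate tends to infty.
(b) the rays c from x0 with property LIM correspond under base_change to the rays e from s with e t in H for all t: => as in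
(a): the ray e constructed there is in H and is asymptotic to c, so equal to b c (ray_eq_of_near). <= near_gate.
(c) ray_subtype. (d) {x : Cv // x not in range iv} = {c // LIM c} by Cv_rem; homeomorphism because toXbar is an embedding (B1)
and the second coordinate is constant: the map c |-> (toXbar c, infty) is continuous, both spaces are compact Hausdorff
(the remainder is closed in Cv by GoodVertex.isol) or use embeddings.
-/

namespace LibCE75

open Set Metric Topology Filter
open scoped NNReal

private theorem H3_seg_near {X : Type} [MetricSpace X] (hX : IsCAT0 X) (x s p : X) (t : ℝ≥0)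
    (ht : (t : ℝ) ≤ dist x p) (ht' : (t : ℝ) ≤ dist s p) :
    dist (seg hX x p t) (seg hX s p t) ≤ dist x s := by
  by_cases h0 : dist x p = 0
  · have ht0 : (t : ℝ) = 0 := le_antisymm (h0 ▸ ht) t.2
    have h1 := dist_left_seg hX x p t
    have h2 := dist_left_seg hX s p t
    rw [min_eq_left ht, ht0] at h1
    rw [min_eq_left ht', ht0] at h2
    rw [← dist_eq_zero.1 h1, ← dist_eq_zero.1 h2]
  · have hpos : 0 < dist x p := lt_of_le_of_ne dist_nonneg (Ne.symm h0)
    obtain ⟨r, hr⟩ : ∃ r : ℝ, r = (t : ℝ) / dist x p := ⟨_, rfl⟩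
    have hr0 : 0 ≤ r := by rw [hr]; exact div_nonneg t.2 dist_nonneg
    have hr1 : r ≤ 1 := by rw [hr]; exact (div_le_one hpos).2 ht
    have hrt : r * dist x p = t := by rw [hr]; field_simp
    obtain ⟨u, hu⟩ : ∃ u : ℝ≥0, (u : ℝ) = r * dist s p :=
      ⟨⟨r * dist s p, mul_nonneg hr0 dist_nonneg⟩, rfl⟩
    have hub : (u : ℝ) ≤ dist s p := by
      rw [hu]; exact mul_le_of_le_one_left dist_nonneg hr1
    have h1 : dist x (seg hX x p t) = r * dist x p := by
      rw [dist_left_seg, min_eq_left ht, hrt]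
    have h2 : dist (seg hX x p t) p = (1 - r) * dist x p := by
      rw [dist_seg_right, min_eq_left ht, ← hrt]; ring
    have h3 : dist s (seg hX s p u) = r * dist s p := by
      rw [dist_left_seg, min_eq_left hub, hu]
    have h4 : dist (seg hX s p u) p = (1 - r) * dist s p := by
      rw [dist_seg_right, min_eq_left hub, hu]; ring
    have h5 := convex_dist hX x p s p _ _ r ⟨hr0, hr1⟩ h1 h2 h3 h4
    rw [dist_self, mul_zero, add_zero] at h5
    have h6 : dist (seg hX s p u) (seg hX s p t) ≤ r * dist x s := by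
      rw [dist_seg_seg, min_eq_left hub, min_eq_left ht', hu, ← hrt, ← mul_sub, abs_mul,
        abs_of_nonneg hr0]
      refine mul_le_mul_of_nonneg_left ?_ hr0
      have := abs_dist_sub_le s x p
      rwa [dist_comm s x] at this
    calc dist (seg hX x p t) (seg hX s p t)
        ≤ dist (seg hX x p t) (seg hX s p u) + dist (seg hX s p u) (seg hX s p t) :=
          dist_triangle _ _ _
      _ ≤ (1 - r) * dist x s + r * dist x s := add_le_add h5 h6
      _ = dist x s := by ring

private theorem H3_seg_mem {X : Type} [MetricSpace X] (hX : IsCAT0 X) {H : Set X} (hcv : Cvx H)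
    {s p : X} (hs : s ∈ H) (hp : p ∈ H) (t : ℝ≥0) : seg hX s p t ∈ H := by
  refine hcv s hs p hp _ ?_
  unfold Btw
  rw [dist_left_seg, dist_seg_right]
  ring

private theorem H3_lim_ray {X : Type} [MetricSpace X] [ProperSpace X] (hX : IsCAT0 X) {x₀ : X}
    (s : X) {α : Type} {l : Filter α} [NeBot l] (y : α → X)
    (hy : Tendsto (fun a => dist x₀ (y a)) l atTop) (c : Ray X x₀)
    (hc : Tendsto (fun a => pt hX x₀ (y a)) l (𝓝 c.toXbar)) (H : Set X) (hH : IsClosed H)
    (hcv : Cvx H) (hs : s ∈ H) (hyH : ∀ a, y a ∈ H) :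
    ∃ e : Ray X s, (∀ t, e.1 t ∈ H) ∧ ∀ t, dist (c.1 t) (e.1 t) ≤ dist x₀ s := by
  have hcomp := xbar_compact (X := X) s
  have hU : (↑(Ultrafilter.of l) : Filter α) ≤ l := Ultrafilter.of_le l
  obtain ⟨x, -, hx⟩ := (isCompact_univ (X := Xbar X s)).ultrafilter_le_nhds
    ((Ultrafilter.of l).map (fun a => pt hX s (y a))) (by simp)
  have hx' : Tendsto (fun a => pt hX s (y a)) (↑(Ultrafilter.of l) : Filter α) (𝓝 x) := hx
  have hy' : Tendsto (fun a => dist x₀ (y a)) (↑(Ultrafilter.of l) : Filter α) atTop :=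
    hy.mono_left hU
  have hys : Tendsto (fun a => dist s (y a)) (↑(Ultrafilter.of l) : Filter α) atTop := by
    refine tendsto_atTop_mono (fun a => ?_) (tendsto_atTop_add_const_right _ (-dist x₀ s) hy')
    have := dist_triangle x₀ s (y a)
    linarith
  obtain ⟨e, he⟩ := limit_is_ray hX y hys x hx'
  rw [he] at hx'
  have hc' := (tendsto_xbar_iff _ _).1 (hc.mono_left hU)
  have he' := (tendsto_xbar_iff _ _).1 hx'
  refine ⟨e, fun t => ?_, fun t => ?_⟩
  · have h1 : Tendsto (fun a => seg hX s (y a) t) (↑(Ultrafilter.of l) : Filter α) (𝓝 (e.1 t)) :=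
      he' t
    exact hH.mem_of_tendsto h1 (Eventually.of_forall fun a => H3_seg_mem hX hcv hs (hyH a) t)
  · have h1 : Tendsto (fun a => seg hX s (y a) t) (↑(Ultrafilter.of l) : Filter α) (𝓝 (e.1 t)) :=
      he' t
    have h2 : Tendsto (fun a => seg hX x₀ (y a) t) (↑(Ultrafilter.of l) : Filter α) (𝓝 (c.1 t)) :=
      hc' t
    refine le_of_tendsto (h2.dist h1) ?_
    filter_upwards [hy'.eventually_ge_atTop (t : ℝ), hys.eventually_ge_atTop (t : ℝ)] with a h3 h4
    exact H3_seg_near hX x₀ s (y a) t h3 h4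

private theorem H3_lim_iff {G V X : Type} [Group G] [MulAction G V] [MetricSpace X]
    [MulAction G X] {hX : IsCAT0 X} {T : SimpleGraph V} {S : Set (V × V)} {a₀ b₀ : V} {x₀ : X}
    {R D : ℝ} {P : V → V → X} (h : Geo hX T S a₀ b₀ x₀ R D G P)
    (v : V) (s : ↥(closure (hull T S a₀ b₀ x₀ R D G v))) (b : Ray X x₀ ≃ₜ Ray X (s : X))
    (hb : ∀ (c : Ray X x₀) (t : ℝ≥0), dist (c.1 t) ((b c).1 t) ≤ dist x₀ s) (c : Ray X x₀) :
    (c.toXbar, (OnePoint.infty : OnePoint (Nb T v))) ∈ closure (range (jmap T hX x₀ P v)) ↔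
      ∀ t, (b c).1 t ∈ closure (hull T S a₀ b₀ x₀ R D G v) := by
  have hprop := h.prop
  constructor
  · intro hc
    obtain ⟨l, hl, hlc, hlt⟩ := exists_filter h v c hc
    obtain ⟨e, he, hce⟩ := H3_lim_ray hX (s : X) (fun w : Nb T v => P v w.1)
      ((gates_tendsto h v).mono_left hlc) c hlt _ isClosed_closure
      (closure_cvx hX _ (hull_cvx h v)) s.2 (fun w => by
        obtain ⟨k, hk, hPk⟩ := h.gateP v w.1 w.2
        rw [hPk]
        exact subset_closure (gate_mem_hull h w.2 hk))
    have : e = b c := by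
      refine ray_eq_of_near hX e (b c) (dist x₀ s + dist x₀ s) fun n => ?_
      refine ⟨⟨max n 0, le_max_right _ _⟩, ⟨max n 0, le_max_right _ _⟩, le_max_left _ _, ?_⟩
      refine (dist_triangle _ (c.1 ⟨max n 0, le_max_right _ _⟩) _).trans (add_le_add ?_ (hb c _))
      rw [dist_comm]
      exact hce _
    rw [← this]
    exact he
  · intro hc
    have hw : ∀ n : ℕ, ∃ w : Nb T v, dist ((b c).1 (n : ℝ≥0)) (P v w.1) ≤ D + 1 := fun n =>
      near_gate h v _ (hc _)
    choose w hw using hw
    have hd : ∀ n : ℕ, dist (P v (w n).1) (c.1 (n : ℝ≥0)) ≤ D + 1 + dist x₀ s := fun n => by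
      have h1 := dist_triangle_left (P v (w n).1) (c.1 (n : ℝ≥0)) ((b c).1 (n : ℝ≥0))
      have h2 := hb c (n : ℝ≥0)
      rw [dist_comm] at h2
      linarith [hw n]
    have ht1 : Tendsto (fun n : ℕ => pt hX x₀ (P v (w n).1)) atTop (𝓝 c.toXbar) :=
      tendsto_pt hX (fun n : ℕ => P v (w n).1) (fun _ => c) (fun n : ℕ => (n : ℝ≥0)) c
        (D + 1 + dist x₀ s) tendsto_const_nhds tendsto_natCast_atTop_atTop
        (Eventually.of_forall hd)
    have hinf : Tendsto (fun n : ℕ => dist x₀ (P v (w n).1)) atTop atTop := by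
      refine tendsto_atTop_mono (fun n => ?_) (tendsto_atTop_add_const_right _
        (-(D + 1 + dist x₀ s)) (tendsto_natCast_atTop_atTop (R := ℝ)))
      have h1 := dist_triangle x₀ (P v (w n).1) (c.1 (n : ℝ≥0))
      rw [ray_dist] at h1
      have h2 := hd n
      have h3 : (((n : ℕ) : ℝ≥0) : ℝ) = (n : ℝ) := by simp
      rw [h3] at h1
      linarith
    have hcof : Tendsto w atTop cofinite := by
      rw [tendsto_def]
      intro F hF
      have hF' : (Fᶜ : Set (Nb T v)).Finite := hF
      obtain ⟨B, hB⟩ := (hF'.image (fun w : Nb T v => dist x₀ (P v w.1))).bddAbove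
      filter_upwards [hinf.eventually_gt_atTop B] with n hn
      by_contra hnF
      have : dist x₀ (P v (w n).1) ≤ B := hB ⟨w n, hnF, rfl⟩
      linarith
    have ht2 : Tendsto (fun n : ℕ => ((w n : Nb T v) : OnePoint (Nb T v))) atTop
        (𝓝 OnePoint.infty) := by
      refine Tendsto.comp (OnePoint.tendsto_coe_infty (X := Nb T v)) ?_
      rw [Filter.coclosedCompact_eq_cocompact, Filter.cocompact_eq_cofinite]
      exact hcof
    refine mem_closure_of_tendsto (ht1.prodMk_nhds ht2) (Eventually.of_forall fun n => ?_)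
    exact ⟨w n, rfl⟩

private theorem H3_rem {G V X : Type} [Group G] [MulAction G V] [MetricSpace X]
    [MulAction G X] {hX : IsCAT0 X} {T : SimpleGraph V} {S : Set (V × V)} {a₀ b₀ : V} {x₀ : X}
    {R D : ℝ} {P : V → V → X} (h : Geo hX T S a₀ b₀ x₀ R D G P) (v : V) :
    Nonempty ({c : Ray X x₀ // (c.toXbar, (OnePoint.infty : OnePoint (Nb T v))) ∈
      closure (range (jmap T hX x₀ P v))} ≃ₜ
        {x : Cv T hX x₀ P v // x ∉ range (iv T hX x₀ P v)}) := by
  let f : {c : Ray X x₀ // (c.toXbar, (OnePoint.infty : OnePoint (Nb T v))) ∈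
      closure (range (jmap T hX x₀ P v))} → {x : Cv T hX x₀ P v // x ∉ range (iv T hX x₀ P v)} :=
    fun c => ⟨⟨(c.1.toXbar, OnePoint.infty), c.2⟩, by
      rintro ⟨w, hw⟩
      have h1 : (jmap T hX x₀ P v w).2 = (OnePoint.infty : OnePoint (Nb T v)) :=
        congrArg Prod.snd (congrArg Subtype.val hw)
      exact OnePoint.coe_ne_infty w h1⟩
  have hemb := (toXbar_closedEmbedding (X := X) x₀).isEmbedding
  have hf : Continuous f := by
    refine Continuous.subtype_mk ?_ _
    refine Continuous.subtype_mk ?_ _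
    exact (hemb.continuous.comp continuous_subtype_val).prodMk continuous_const
  have hg : Continuous (fun x : {x : Cv T hX x₀ P v // x ∉ range (iv T hX x₀ P v)} =>
      (x.1.1.1 : Xbar X x₀)) := by
    have h1 : Continuous (fun x : Cv T hX x₀ P v => (x.1 : Xbar X x₀ × OnePoint (Nb T v))) :=
      continuous_subtype_val
    exact (continuous_fst.comp h1).comp continuous_subtype_val
  have hcomp : IsEmbedding ((fun x : {x : Cv T hX x₀ P v // x ∉ range (iv T hX x₀ P v)} =>
      (x.1.1.1 : Xbar X x₀)) ∘ f) := hemb.comp IsEmbedding.subtypeVal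
  have hfe : IsEmbedding f := IsEmbedding.of_comp hf hg hcomp
  have hsurj : Function.Surjective f := by
    intro x
    obtain ⟨c, hc⟩ := Cv_rem h v x.1 x.2
    refine ⟨⟨c, ?_⟩, ?_⟩
    · rw [← hc]
      exact x.1.2
    · apply Subtype.ext
      apply Subtype.ext
      exact hc.symm
  exact ⟨hfe.toHomeomorphOfSurjective hsurj⟩

theorem remainder_homeo {G V X : Type} [Group G] [MulAction G V] [MetricSpace X]
    [MulAction G X] {hX : IsCAT0 X} {T : SimpleGraph V} {S : Set (V × V)} {a₀ b₀ : V} {x₀ : X}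
    {R D : ℝ} {P : V → V → X} (h : Geo hX T S a₀ b₀ x₀ R D G P)
    (v : V) (s : ↥(closure (hull T S a₀ b₀ x₀ R D G v))) :
    Nonempty ({x : Cv T hX x₀ P v // x ∉ range (iv T hX x₀ P v)} ≃ₜ
      Ray ↥(closure (hull T S a₀ b₀ x₀ R D G v)) s) := by
  have hprop := h.prop
  obtain ⟨b, hb⟩ := base_change hX x₀ (s : X)
  obtain ⟨F1⟩ := H3_rem h v
  obtain ⟨F2⟩ := ray_subtype (closure (hull T S a₀ b₀ x₀ R D G v)) s
  have F3 := Homeomorph.subtype b (p := fun c : Ray X x₀ =>
    (c.toXbar, (OnePoint.infty : OnePoint (Nb T v))) ∈ closure (range (jmap T hX x₀ P v)))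
    (q := fun c : Ray X (s : X) => ∀ t, c.1 t ∈ closure (hull T S a₀ b₀ x₀ R D G v))
    (H3_lim_iff h v s b hb)
  exact ⟨F1.symm.trans (F3.trans F2.symm)⟩

end LibCE75
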