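import Pool.Agent.LibCE75.Defs
import Pool.Agent.LibCE75.RH2
import Pool.Agent.LibCE75.B3
import Pool.Agent.LibCE75.K2
import Pool.Agent.LibCE75.C1

set_option autoImplicit false

/-!
# Board CE75, row H4 (MEDIUM, cites RH2, B3, K2, C1).  MP_6fa1a0_gt (cell-like equivalence of boundaries of CAT(0) groups).
Chair: helper75.  Deliver the whole file as CE75_H4.lean (team-store put), statements unchanged,
auxiliary lemmas private, no sorry, no axiom, no straight double quotation mark.

Every class of neighbours accumulates at every limit point.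
PLAN. x.1 = (toXbar c, infty) (Cv_rem); exists_filter gives l on Nb T v, l <= cofinite, with pt (P v w) -> toXbar c along l. There is a constant E such
that for every w in Nb T v there is g in the stabiliser of v with dist (P v w) (P v (g w0)) <= E (g w0 a neighbour of v in the orbit
of w0): P v w = k x0, s = (k^-1 v, k^-1 w) in S; for the finitely many s that occur choose one k_s in G with
k_s^-1 v = s.1 (k_s in Q v (k_s s.2)); u = k k_s^-1 fixes v; dist (k x0) (u y) = dist (k_s x0) y with y = P v w0; and dist (u (P v w0)) (P v (u w0)) <= D by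
Q_smul and co.diam (both are gates of the edge (v, u w0)). So E = max over s of dist (k_s x0) (P v w0) + D. Put f w = u w0. Then
dist (P v w) (P v (f w)) <= E, so pt (P v (f w)) -> toXbar c along l (tendsto_pt_of_near), and f tends to cofinite along l
(dist x0 (P v (f w)) -> infinity, and if f w = w1 on a set of l then bounded), so iv (f w) -> x in Cv, which is in the closure.
Convergence in Cv: subtype, product; OnePoint: OnePoint.tendsto_coe_infty.
-/

namespace LibCE75

open Set Metric Topology Filter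
open scoped NNReal

private theorem H4_move {G V X : Type} [Group G] [MulAction G V] [MetricSpace X]
    [MulAction G X] {hX : IsCAT0 X} {T : SimpleGraph V} {S : Set (V × V)} {a₀ b₀ : V} {x₀ : X}
    {R D : ℝ} {P : V → V → X} (h : Geo hX T S a₀ b₀ x₀ R D G P)
    (v : V) (w₀ : Nb T v) : ∃ (f : Nb T v → Nb T v) (E : ℝ), (∀ w, ∃ g : G, g • w₀.1 = (f w).1) ∧
      ∀ w, dist (P v w.1) (P v (f w).1) ≤ E := by
  classical
  choose k hk hkP using fun w : Nb T v => h.gateP v w.1 w.2
  obtain ⟨sf, hsf⟩ : ∃ sf : Nb T v → V × V, ∀ w, sf w = ((k w)⁻¹ • v, (k w)⁻¹ • w.1) := ⟨_, fun _ => rfl⟩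
  have hsS : ∀ w, sf w ∈ S := fun w => by
    rw [hsf]
    exact hk w
  obtain ⟨κ, hκ⟩ : ∃ κ : V × V → G, ∀ w, (κ (sf w))⁻¹ • v = (sf w).1 := by
    refine ⟨fun s => if hs : ∃ w, sf w = s then k hs.choose else 1, fun w => ?_⟩
    have hs : ∃ w', sf w' = sf w := ⟨w, rfl⟩
    simp only
    rw [dif_pos hs]
    exact ((congrArg Prod.fst (hsf hs.choose)).symm.trans (congrArg Prod.fst hs.choose_spec) :)
  obtain ⟨u, hu⟩ : ∃ u : Nb T v → G, ∀ w, u w = k w * (κ (sf w))⁻¹ := ⟨_, fun _ => rfl⟩
  have huv : ∀ w, u w • v = v := fun w => by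
    rw [hu, mul_smul, hκ, hsf]
    exact smul_inv_smul _ _
  have hadj : ∀ w, T.Adj v (u w • w₀.1) := fun w => by
    have := h.act.adj (u w) v w₀.1 w₀.2
    rwa [huv] at this
  have hbd : BddAbove ((fun s => dist (κ s • x₀) (P v w₀.1)) '' S) :=
    (h.act.Sfin.image _).bddAbove
  obtain ⟨E1, hE1⟩ := hbd
  refine ⟨fun w => ⟨u w • w₀.1, hadj w⟩, E1 + D, fun w => ⟨u w, rfl⟩, fun w => ?_⟩
  change dist (P v w.1) (P v (u w • w₀.1)) ≤ E1 + D
  have e1 : dist (P v w.1) (u w • P v w₀.1) ≤ E1 := by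
    have e2 : P v w.1 = u w • (κ (sf w) • x₀) := by
      rw [hkP, hu, mul_smul, inv_smul_smul]
    rw [e2, h.geom.isom]
    exact hE1 ⟨sf w, hsS w, rfl⟩
  have e3 : dist (u w • P v w₀.1) (P v (u w • w₀.1)) ≤ D := by
    obtain ⟨k', hk', hk'P⟩ := h.gateP v (u w • w₀.1) (hadj w)
    rw [hkP w₀, hk'P, ← mul_smul]
    refine h.co.diam v (u w • w₀.1) (hadj w) _ ?_ _ hk'
    have e4 := (Q_smul (S := S) (u w) (k w₀) v w₀.1).2 (hk w₀)
    rwa [huv] at e4
  exact (dist_triangle _ _ _).trans (add_le_add e1 e3)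

theorem ample {G V X : Type} [Group G] [MulAction G V] [MetricSpace X]
    [MulAction G X] {hX : IsCAT0 X} {T : SimpleGraph V} {S : Set (V × V)} {a₀ b₀ : V} {x₀ : X}
    {R D : ℝ} {P : V → V → X} (h : Geo hX T S a₀ b₀ x₀ R D G P)
    (v : V) (w₀ : Nb T v) (x : Cv T hX x₀ P v) (hx : x ∉ range (iv T hX x₀ P v)) :
    x ∈ closure (iv T hX x₀ P v '' {w : Nb T v | ∃ g : G, g • w₀.1 = w.1}) := by
  obtain ⟨c, hxc⟩ := Cv_rem h v x hx
  have hc : (c.toXbar, (OnePoint.infty : OnePoint (Nb T v))) ∈ closure (range (jmap T hX x₀ P v)) := by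
    rw [← hxc]
    exact x.2
  obtain ⟨l, hlne, hl, hlt⟩ := exists_filter h v c hc
  obtain ⟨f, E, hf1, hf2⟩ := H4_move h v w₀
  have hd : Tendsto (fun w : Nb T v => dist x₀ (P v w.1)) l atTop := (gates_tendsto h v).mono_left hl
  have h1 : Tendsto (fun w => pt hX x₀ (P v (f w).1)) l (𝓝 c.toXbar) :=
    tendsto_pt_of_near hX (fun w : Nb T v => P v w.1) (fun w => P v (f w).1) c.toXbar E hd
      (Eventually.of_forall hf2) hlt
  have h2 : Tendsto f l cofinite := by
    change map f l ≤ cofinite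
    rw [le_cofinite_iff_eventually_ne]
    intro w1
    rw [eventually_map]
    filter_upwards [hd.eventually_gt_atTop (dist x₀ (P v w1.1) + E)] with w hw hfw
    have e1 := hf2 w
    rw [hfw, dist_comm] at e1
    have e2 := dist_triangle x₀ (P v w1.1) (P v w.1)
    linarith
  have h3 : Tendsto (fun w => ((f w : Nb T v) : OnePoint (Nb T v))) l (𝓝 OnePoint.infty) := by
    have e1 : Tendsto ((↑) : Nb T v → OnePoint (Nb T v)) cofinite (𝓝 OnePoint.infty) := by
      have := OnePoint.tendsto_coe_infty (X := Nb T v)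
      rwa [coclosedCompact_eq_cocompact, cocompact_eq_cofinite] at this
    exact e1.comp h2
  have h4 : Tendsto (fun w => (iv T hX x₀ P v (f w)).1) l (𝓝 x.1) := by
    rw [hxc]
    exact h1.prodMk_nhds h3
  have h5 : Tendsto (fun w => iv T hX x₀ P v (f w)) l (𝓝 x) :=
    (tendsto_subtype_rng (p := fun y => y ∈ closure (range (jmap T hX x₀ P v)))).2 h4
  exact mem_closure_of_tendsto h5 (Eventually.of_forall fun w => ⟨f w, hf1 w, rfl⟩)

end LibCE75
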