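import Pool.Agent.LibCE75.Defs
import Pool.Agent.LibCE75.A1
import Pool.Agent.LibCE75.A2
import Pool.Agent.LibCE75.A3
import Pool.Agent.LibCE75.B5
import Pool.Agent.LibCE75.B6
import Pool.Agent.LibCE75.H1

set_option autoImplicit false

/-!
# Board CE75, row H5 (SHORT/MEDIUM, cites A3 B5 B6 H1 A1 A2).  MP_6fa1a0_gt (cell-like equivalence of boundaries of CAT(0) groups).
Chair: helper75.  Deliver the whole file as CE75_H5.lean (team-store put), statements unchanged,
auxiliary lemmas private, no sorry, no axiom, no straight double quotation mark.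

The boundaries of the hulls of v and g v are homeomorphic.
PLAN. x |-> g x is an isometry equivalence from the closed hull of v to the closed hull of g v (closure_hull_smul, geom.isom; inverse g^-1);
ray_isometry, then base_change in the closed hull of g v, which is a proper (closed subset of a proper space) CAT(0) space
(isCAT0_subtype, closure_cvx, hull_cvx).
-/

namespace LibCE75

open Set Metric Topology Filter
open scoped NNReal

theorem hull_translate {G V X : Type} [Group G] [MulAction G V] [MetricSpace X]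
    [MulAction G X] {hX : IsCAT0 X} {T : SimpleGraph V} {S : Set (V × V)} {a₀ b₀ : V} {x₀ : X}
    {R D : ℝ} {P : V → V → X} (h : Geo hX T S a₀ b₀ x₀ R D G P)
    (g : G) (v : V) (s : ↥(closure (hull T S a₀ b₀ x₀ R D G v)))
    (s' : ↥(closure (hull T S a₀ b₀ x₀ R D G (g • v)))) :
    Nonempty (Ray ↥(closure (hull T S a₀ b₀ x₀ R D G v)) s ≃ₜ
      Ray ↥(closure (hull T S a₀ b₀ x₀ R D G (g • v))) s') := by
  haveI := h.prop
  haveI : ProperSpace ↥(closure (hull T S a₀ b₀ x₀ R D G (g • v))) :=
    ProperSpace.of_isClosed isClosed_closure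
  have hY : IsCAT0 ↥(closure (hull T S a₀ b₀ x₀ R D G (g • v))) :=
    isCAT0_subtype hX _ (closure_cvx hX _ (hull_cvx h (g • v)))
  let f : ↥(closure (hull T S a₀ b₀ x₀ R D G v)) ≃ᵢ
      ↥(closure (hull T S a₀ b₀ x₀ R D G (g • v))) :=
    { toFun := fun x => ⟨g • x.1, (closure_hull_smul h g v x.1).2 x.2⟩
      invFun := fun y => ⟨g⁻¹ • y.1, (closure_hull_smul h g v (g⁻¹ • y.1)).1
        (by rw [smul_inv_smul]; exact y.2)⟩
      left_inv := fun x => Subtype.ext (inv_smul_smul g x.1)
      right_inv := fun y => Subtype.ext (smul_inv_smul g y.1)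
      isometry_toFun := Isometry.of_dist_eq fun x y => h.geom.isom g x.1 y.1 }
  obtain ⟨a⟩ := ray_isometry f s
  obtain ⟨b, -⟩ := base_change hY (f s) s'
  exact ⟨a.trans b⟩

end LibCE75
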