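import Pool.Agent.LibCE75.Defs
import Pool.Agent.LibCE75.RH1
import Pool.Agent.LibCE75.B3
import Pool.Agent.LibCE75.K1
import Pool.Agent.LibCE75.K2

set_option autoImplicit false

/-!
# Board CE75, row K3 (MEDIUM, cites RH1, B3, K1, K2).  MP_6fa1a0_gt (cell-like equivalence of boundaries of CAT(0) groups).
Chair: helper75.  Deliver the whole file as CE75_K3.lean (team-store put), statements unchanged,
auxiliary lemmas private, no sorry, no axiom, no straight double quotation mark.

A ray which is behind no edge of v is a limit of gates of v.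
PLAN. For n choose g_n with dist (c n) (g_n x0) <= R, w_n = rho v g_n in Nb T v (rho_adj). For fixed w, by beyRay_iff, w_n is not w
for all large n: so u n = w_n tends to cofinite. For large n w_n is not rho v 1, so crossing (s = 0, g = 1, t = n) gives t_n with
dist (c t_n) (k x0) <= D for the k with P v w_n = k x0 (gateP). dist x0 (P v w_n) -> infinity by gates_tendsto, hence t_n ->
infinity (t_n = dist x0 (c t_n) >= dist x0 (k x0) - D); B3 tendsto_pt with the constant ray c.
-/

namespace LibCE75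

open Set Metric Topology Filter
open scoped NNReal

theorem lim_of_not_bey {G V X : Type} [Group G] [MulAction G V] [MetricSpace X]
    [MulAction G X] {hX : IsCAT0 X} {T : SimpleGraph V} {S : Set (V × V)} {a₀ b₀ : V} {x₀ : X}
    {R D : ℝ} {P : V → V → X} (h : Geo hX T S a₀ b₀ x₀ R D G P)
    (v : V) (c : Ray X x₀) (hn : ∀ w : Nb T v, ¬ BeyRay T a₀ b₀ R G v w.1 c) :
    ∃ u : ℕ → Nb T v, Tendsto u atTop cofinite ∧
      Tendsto (fun n => pt hX x₀ (P v (u n).1)) atTop (𝓝 c.toXbar) := by
  choose g hg using fun n : ℕ => h.co.cover (c.1 (n : ℝ≥0))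
  have hg1 : ∀ n : ℕ, dist (c.1 (n : ℝ≥0)) (g n • x₀) ≤ R + 1 := fun n =>
    (hg n).trans (by linarith)
  let w : ℕ → Nb T v := fun n => ⟨rho T a₀ b₀ v (g n), rho_adj h.act h.edge v (g n)⟩
  have hcof : Tendsto w atTop cofinite := by
    refine le_cofinite_iff_eventually_ne.2 fun w' => ?_
    rw [eventually_map]
    obtain ⟨k, hk, -⟩ := h.gateP v w'.1 w'.2
    filter_upwards [(tendsto_natCast_atTop_atTop (R := ℝ)).eventually_gt_atTop
      (dist x₀ (k • x₀) + D)] with n hn' he
    have h1 := (beyRay_iff h w'.2 hk c (n : ℝ≥0) (by simpa using hn') (g n) (hg1 n)).2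
      (congrArg Subtype.val he)
    exact hn w' h1
  have hc0 : ∀ t : ℝ≥0, dist x₀ (c.1 t) = t := fun t => by
    have h1 := c.2.2 0 t
    rw [c.2.1] at h1
    rw [h1]
    simp
  have hnear : ∀ᶠ n in atTop, ∃ u : ℝ≥0, dist (c.1 u) (P v (w n).1) ≤ D := by
    let w₁ : Nb T v := ⟨rho T a₀ b₀ v (1 : G), rho_adj h.act h.edge v 1⟩
    have h1 : ∀ᶠ n in atTop, w n ≠ w₁ := by
      have := (le_cofinite_iff_eventually_ne (l := map w atTop)).1 hcof w₁
      rwa [eventually_map] at this
    filter_upwards [h1] with n hn1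
    obtain ⟨k, hk, hP⟩ := h.gateP v (w n).1 (w n).2
    obtain ⟨u, -, -, hu⟩ := crossing h (w n).2 hk c 0 (n : ℝ≥0) (Nat.cast_nonneg n) 1 (g n)
      (by
        rw [c.2.1, one_smul, dist_self]
        linarith [h.co.R_nonneg]) (hg1 n) (fun he => hn1 (Subtype.ext he.symm)) rfl
    exact ⟨u, by rw [hP]; exact hu⟩
  have hex : ∃ τ : ℕ → ℝ≥0, ∀ᶠ n in atTop, dist (c.1 (τ n)) (P v (w n).1) ≤ D := by
    classical
    refine ⟨fun n => if h : ∃ u : ℝ≥0, dist (c.1 u) (P v (w n).1) ≤ D then h.choose else 0, ?_⟩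
    filter_upwards [hnear] with n hn2
    rw [dif_pos hn2]
    exact hn2.choose_spec
  obtain ⟨τ, hτ⟩ := hex
  have hτt : Tendsto τ atTop atTop := by
    rw [← NNReal.tendsto_coe_atTop]
    have h1 : Tendsto (fun n => dist x₀ (P v (w n).1) + -D) atTop atTop :=
      tendsto_atTop_add_const_right _ _ ((gates_tendsto h v).comp hcof)
    refine tendsto_atTop_mono' _ ?_ h1
    filter_upwards [hτ] with n hn3
    have h2 := dist_triangle x₀ (c.1 (τ n)) (P v (w n).1)
    rw [hc0] at h2
    linarith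
  refine ⟨w, hcof, tendsto_pt hX (fun n => P v (w n).1) (fun _ => c) τ c D tendsto_const_nhds
    hτt ?_⟩
  filter_upwards [hτ] with n hn4
  rw [dist_comm]
  exact hn4

end LibCE75
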