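import Pool.Agent.LibCE75.Defs
import Pool.Agent.LibCE75.RH1
import Pool.Agent.LibCE75.B1
import Pool.Agent.LibCE75.B2
import Pool.Agent.LibCE75.B3
import Pool.Agent.LibCE75.K1
import Pool.Agent.LibCE75.K2
import Pool.Agent.LibCE75.K3

set_option autoImplicit false

/-!
# Board CE75, row K4 (STRONG, cites RH1, B1, B2, B3, K1, K2, K3).  MP_6fa1a0_gt (cell-like equivalence of boundaries of CAT(0) groups).
Chair: helper75.  Deliver the whole file as CE75_K4.lean (team-store put), statements unchanged,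
auxiliary lemmas private, no sorry, no axiom, no straight double quotation mark.

The coordinate maps Psi v are continuous and take values in the vertex compactification.
PLAN. Uniqueness: BeyRay v w c and BeyRay v w' c imply w = w' (cover at a far point), so if BeyRay v w c then h.choose = w and
Psi v c = jmap v w. Psi_mem: first case jmap is in the range; second case: closure, by K3: (pt (P v (u n)), u n) -> (toXbar c, infty)
(OnePoint: Tendsto (fun n => (u n : OnePoint)) atTop (nhds infty) when u tends to cofinite of a discrete space: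
OnePoint.tendsto_coe_infty, coclosedCompact = cofinite for discrete spaces). Continuity at c with BeyRay v w c: Psi is constant on the
clopen set {BeyRay v w}. Continuity at c behind no edge: show Tendsto (Psi v) (nhds c) (nhds (toXbar c, infty)) by components;
split c' near c in two sets: A = {c' behind no edge} where Psi v c' = (toXbar c', infty) (toXbar is continuous, B1), and
B = the others, where Psi v c' = (pt (P v w'), w') with w' = w'(c'); use Filter.Tendsto on nhds c inf principal B: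
w'(c') tends to cofinite (for each w the set {not BeyRay v w} is an open neighbourhood of c), eventually w' is not rho v 1, so
beyRay_near gives tau(c') with dist (c' tau) (P v w') <= D, tau -> infinity because dist x0 (P v w') -> infinity (gates_tendsto);
B3 tendsto_pt with xi = id. Glue with Filter.Tendsto.sup / nhdsWithin.
-/

namespace LibCE75

open Set Metric Topology Filter
open scoped NNReal

private theorem K4_inf {V : Type} (T : SimpleGraph V) (v : V) {α : Type} {l : Filter α}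
    {u : α → Nb T v} (hu : Tendsto u l cofinite) :
    Tendsto (fun n => (u n : OnePoint (Nb T v))) l (𝓝 OnePoint.infty) := by
  have h1 : Tendsto u l (coclosedCompact (Nb T v)) := by
    rw [coclosedCompact_eq_cocompact, cocompact_eq_cofinite]
    exact hu
  exact OnePoint.tendsto_coe_infty.comp h1

theorem bey_unique {G V X : Type} [Group G] [MulAction G V] [MetricSpace X]
    [MulAction G X] {hX : IsCAT0 X} {T : SimpleGraph V} {S : Set (V × V)} {a₀ b₀ : V} {x₀ : X}
    {R D : ℝ} {P : V → V → X} (h : Geo hX T S a₀ b₀ x₀ R D G P)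
    {v w w' : V} (c : Ray X x₀) (h1 : BeyRay T a₀ b₀ R G v w c)
    (h2 : BeyRay T a₀ b₀ R G v w' c) : w = w' := by
  obtain ⟨t, ht1, ht2⟩ := (h1.and h2).exists
  obtain ⟨g, hg⟩ := h.co.cover (c.1 t)
  exact (ht1 g hg).symm.trans (ht2 g hg)

theorem Psi_of_bey {G V X : Type} [Group G] [MulAction G V] [MetricSpace X]
    [MulAction G X] {hX : IsCAT0 X} {T : SimpleGraph V} {S : Set (V × V)} {a₀ b₀ : V} {x₀ : X}
    {R D : ℝ} {P : V → V → X} (h : Geo hX T S a₀ b₀ x₀ R D G P)
    {v : V} (w : Nb T v) (c : Ray X x₀) (h1 : BeyRay T a₀ b₀ R G v w.1 c) :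
    Psi T hX a₀ b₀ x₀ R G P v c = jmap T hX x₀ P v w := by
  have h2 : ∃ w' : Nb T v, BeyRay T a₀ b₀ R G v w'.1 c := ⟨w, h1⟩
  have h3 : h2.choose = w := Subtype.ext (bey_unique h c h2.choose_spec h1)
  unfold Psi
  rw [dif_pos h2, h3]

theorem Psi_mem {G V X : Type} [Group G] [MulAction G V] [MetricSpace X]
    [MulAction G X] {hX : IsCAT0 X} {T : SimpleGraph V} {S : Set (V × V)} {a₀ b₀ : V} {x₀ : X}
    {R D : ℝ} {P : V → V → X} (h : Geo hX T S a₀ b₀ x₀ R D G P)
    (v : V) (c : Ray X x₀) :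
    Psi T hX a₀ b₀ x₀ R G P v c ∈ closure (range (jmap T hX x₀ P v)) := by
  by_cases h1 : ∃ w : Nb T v, BeyRay T a₀ b₀ R G v w.1 c
  · obtain ⟨w, hw⟩ := h1
    rw [Psi_of_bey h w c hw]
    exact subset_closure ⟨w, rfl⟩
  · have h2 : Psi T hX a₀ b₀ x₀ R G P v c = (c.toXbar, OnePoint.infty) := by
      unfold Psi
      rw [dif_neg h1]
    rw [h2]
    obtain ⟨u, hu, hu'⟩ := lim_of_not_bey h v c fun w hw => h1 ⟨w, hw⟩
    refine mem_closure_of_tendsto (f := fun n => jmap T hX x₀ P v (u n)) (b := atTop) ?_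
      (Eventually.of_forall fun n => ⟨u n, rfl⟩)
    exact hu'.prodMk_nhds (K4_inf T v hu)

private theorem K4_main {G V X : Type} [Group G] [MulAction G V] [MetricSpace X]
    [MulAction G X] {hX : IsCAT0 X} {T : SimpleGraph V} {S : Set (V × V)} {a₀ b₀ : V} {x₀ : X}
    {R D : ℝ} {P : V → V → X} (h : Geo hX T S a₀ b₀ x₀ R D G P)
    (v : V) (c : Ray X x₀) (h1 : ¬ ∃ w : Nb T v, BeyRay T a₀ b₀ R G v w.1 c) :
    Tendsto (Psi T hX a₀ b₀ x₀ R G P v)
      (𝓝 c ⊓ 𝓟 {c' | ∃ w : Nb T v, BeyRay T a₀ b₀ R G v w.1 c'})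
      (𝓝 (c.toXbar, OnePoint.infty)) := by
  classical
  set l : Filter (Ray X x₀) :=
    𝓝 c ⊓ 𝓟 {c' | ∃ w : Nb T v, BeyRay T a₀ b₀ R G v w.1 c'} with hl
  have hmem : ∀ᶠ c' in l, ∃ w : Nb T v, BeyRay T a₀ b₀ R G v w.1 c' := by
    rw [hl]
    exact (eventually_principal.2 fun _ hx => hx).filter_mono inf_le_right
  let w₀ : Nb T v := ⟨rho T a₀ b₀ v (1 : G), rho_adj h.act h.edge v 1⟩
  let W : Ray X x₀ → Nb T v := fun c' =>
    if hc : ∃ w : Nb T v, BeyRay T a₀ b₀ R G v w.1 c' then hc.choose else w₀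
  have hW : ∀ c', (∃ w : Nb T v, BeyRay T a₀ b₀ R G v w.1 c') →
      BeyRay T a₀ b₀ R G v (W c').1 c' := by
    intro c' hc'
    have h2 : W c' = hc'.choose := dif_pos hc'
    rw [h2]
    exact hc'.choose_spec
  have hne : ∀ w : Nb T v, ∀ᶠ c' in l, W c' ≠ w := by
    intro w
    have h2 : {c' : Ray X x₀ | BeyRay T a₀ b₀ R G v w.1 c'}ᶜ ∈ 𝓝 c :=
      (beyRay_clopen h w.2).compl.isOpen.mem_nhds fun hw => h1 ⟨w, hw⟩
    have h3 : ∀ᶠ c' in l, c' ∈ {c' : Ray X x₀ | BeyRay T a₀ b₀ R G v w.1 c'}ᶜ := by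
      rw [hl]
      exact Eventually.filter_mono inf_le_left h2
    filter_upwards [h3, hmem] with c' hc' hm heq
    exact hc' (heq ▸ hW c' hm)
  have hcof : Tendsto W l cofinite := by
    refine le_cofinite_iff_eventually_ne.2 fun w => ?_
    exact hne w
  let τ : Ray X x₀ → ℝ≥0 := fun c' =>
    if hc : ∃ t : ℝ≥0, dist (P v (W c').1) (c'.1 t) ≤ D then hc.choose else 0
  have hτ : ∀ᶠ c' in l, dist (P v (W c').1) (c'.1 (τ c')) ≤ D := by
    filter_upwards [hne w₀, hmem] with c' hc' hm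
    obtain ⟨k, hk, hPk⟩ := h.gateP v (W c').1 (W c').2
    have h2 : rho T a₀ b₀ v (1 : G) ≠ (W c').1 := by
      intro h3
      exact hc' (Subtype.ext h3.symm)
    obtain ⟨t, ht⟩ := beyRay_near h (W c').2 c' (hW c' hm) h2 hk
    have h3 : ∃ t : ℝ≥0, dist (P v (W c').1) (c'.1 t) ≤ D := by
      refine ⟨t, ?_⟩
      rw [hPk, dist_comm]
      exact ht
    have h4 : τ c' = h3.choose := dif_pos h3
    rw [h4]
    exact h3.choose_spec
  have hgt : Tendsto (fun c' => dist x₀ (P v (W c').1)) l atTop := (gates_tendsto h v).comp hcof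
  have hτ' : Tendsto τ l atTop := by
    rw [← NNReal.tendsto_coe_atTop]
    have h2 : Tendsto (fun c' => dist x₀ (P v (W c').1) + (-D)) l atTop :=
      tendsto_atTop_add_const_right l (-D) hgt
    refine tendsto_atTop_mono' l ?_ h2
    filter_upwards [hτ] with c' hc'
    have h3 : dist x₀ (P v (W c').1) ≤ dist x₀ (c'.1 (τ c')) + dist (c'.1 (τ c')) (P v (W c').1) :=
      dist_triangle _ _ _
    rw [ray_dist c' (τ c'), dist_comm (c'.1 (τ c'))] at h3
    linarith
  have hid : Tendsto (fun c' : Ray X x₀ => c') l (𝓝 c) := by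
    rw [hl]
    exact tendsto_id'.2 inf_le_left
  have hfst : Tendsto (fun c' => pt hX x₀ (P v (W c').1)) l (𝓝 c.toXbar) :=
    tendsto_pt hX (fun c' => P v (W c').1) (fun c' => c') τ c D hid hτ' hτ
  have hall : Tendsto (fun c' => jmap T hX x₀ P v (W c')) l (𝓝 (c.toXbar, OnePoint.infty)) :=
    hfst.prodMk_nhds (K4_inf T v hcof)
  refine Tendsto.congr' ?_ hall
  filter_upwards [hmem] with c' hm
  exact (Psi_of_bey h (W c') c' (hW c' hm)).symm

theorem continuous_Psi {G V X : Type} [Group G] [MulAction G V] [MetricSpace X]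
    [MulAction G X] {hX : IsCAT0 X} {T : SimpleGraph V} {S : Set (V × V)} {a₀ b₀ : V} {x₀ : X}
    {R D : ℝ} {P : V → V → X} (h : Geo hX T S a₀ b₀ x₀ R D G P)
    (v : V) : Continuous (Psi T hX a₀ b₀ x₀ R G P v) := by
  rw [continuous_iff_continuousAt]
  intro c
  by_cases h1 : ∃ w : Nb T v, BeyRay T a₀ b₀ R G v w.1 c
  · obtain ⟨w, hw⟩ := h1
    have h2 : ∀ᶠ c' in 𝓝 c, Psi T hX a₀ b₀ x₀ R G P v c' = jmap T hX x₀ P v w := by
      filter_upwards [(beyRay_clopen h w.2).isOpen.mem_nhds hw] with c' hc'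
      exact Psi_of_bey h w c' hc'
    have h3 : Psi T hX a₀ b₀ x₀ R G P v c = jmap T hX x₀ P v w := Psi_of_bey h w c hw
    unfold ContinuousAt
    rw [h3]
    exact tendsto_const_nhds.congr' (h2.mono fun c' hc' => hc'.symm)
  · have hc : Psi T hX a₀ b₀ x₀ R G P v c = (c.toXbar, OnePoint.infty) := by
      unfold Psi
      rw [dif_neg h1]
    unfold ContinuousAt
    rw [hc]
    let A : Set (Ray X x₀) := {c' | ∃ w : Nb T v, BeyRay T a₀ b₀ R G v w.1 c'}
    have hA : 𝓝 c = (𝓝 c ⊓ 𝓟 Aᶜ) ⊔ (𝓝 c ⊓ 𝓟 A) := by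
      rw [← inf_sup_left, sup_principal, compl_union_self, principal_univ, inf_top_eq]
    rw [hA, tendsto_sup]
    constructor
    · have h2 : ∀ᶠ c' in 𝓝 c ⊓ 𝓟 Aᶜ, Psi T hX a₀ b₀ x₀ R G P v c' = (c'.toXbar, OnePoint.infty) := by
        have h3 : ∀ᶠ c' in 𝓝 c ⊓ 𝓟 Aᶜ, c' ∈ Aᶜ :=
          (eventually_principal.2 fun _ hx => hx).filter_mono inf_le_right
        filter_upwards [h3] with c' hc'
        have hc2 : ¬ ∃ w : Nb T v, BeyRay T a₀ b₀ R G v w.1 c' := hc'
        unfold Psi
        rw [dif_neg hc2]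
      refine Tendsto.congr' (h2.mono fun c' hc' => hc'.symm) ?_
      refine Tendsto.prodMk_nhds ?_ tendsto_const_nhds
      exact ((toXbar_closedEmbedding x₀).continuous.tendsto c).mono_left inf_le_left
    · exact K4_main h v c h1

end LibCE75
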