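import Pool.Agent.LibCE75.Defs
import Pool.Agent.LibCE75.RH1
import Pool.Agent.LibCE75.B2
import Pool.Agent.LibCE75.K1

set_option autoImplicit false

/-!
# Board CE75, row K5 (SHORT/MEDIUM, cites RH1, B2, K1).  MP_6fa1a0_gt (cell-like equivalence of boundaries of CAT(0) groups).
Chair: helper75.  Deliver the whole file as CE75_K5.lean (team-store put), statements unchanged,
auxiliary lemmas private, no sorry, no axiom, no straight double quotation mark.

A ray is on exactly one side of every edge.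
PLAN. Take k in Q v w, k' in Q w v (gateP or Q nonempty), and t larger than both thresholds and so large that an element g near c t
(co.cover) is not in the finite set {g | rho v g = w and rho w g = v} (rho_both_finite): finitely many g, so dist x0 (g x0) is
bounded on it, while dist x0 (g x0) >= t - R. Then beyRay_iff for both and rho_or.
-/

namespace LibCE75

open Set Metric Topology Filter
open scoped NNReal

theorem bey_xor {G V X : Type} [Group G] [MulAction G V] [MetricSpace X]
    [MulAction G X] {hX : IsCAT0 X} {T : SimpleGraph V} {S : Set (V × V)} {a₀ b₀ : V} {x₀ : X}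
    {R D : ℝ} {P : V → V → X} (h : Geo hX T S a₀ b₀ x₀ R D G P)
    {v w : V} (hvw : T.Adj v w) (c : Ray X x₀) :
    BeyRay T a₀ b₀ R G v w c ↔ ¬ BeyRay T a₀ b₀ R G w v c := by
  obtain ⟨k, hk, -⟩ := h.gateP v w hvw
  obtain ⟨k', hk', -⟩ := h.gateP w v hvw.symm
  have hF := rho_both_finite h.act h.edge hvw
  obtain ⟨M, hM⟩ := (hF.image fun g => dist x₀ (g • x₀)).bddAbove
  have hM' : ∀ g : G, rho T a₀ b₀ v g = w → rho T a₀ b₀ w g = v → dist x₀ (g • x₀) ≤ M :=
    fun g h1 h2 => hM ⟨g, ⟨h1, h2⟩, rfl⟩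
  have hD := h.co.D_nonneg
  have hd := dist_nonneg (x := x₀) (y := k • x₀)
  set τ : ℝ := max (max (dist x₀ (k • x₀) + D) (dist x₀ (k' • x₀) + D)) (M + R) + 1 with hτ
  have h1 : dist x₀ (k • x₀) + D < τ := by
    have h2 : dist x₀ (k • x₀) + D ≤
        max (max (dist x₀ (k • x₀) + D) (dist x₀ (k' • x₀) + D)) (M + R) :=
      (le_max_left _ _).trans (le_max_left _ _)
    linarith
  have h2 : dist x₀ (k' • x₀) + D < τ := by
    have h2 : dist x₀ (k' • x₀) + D ≤
        max (max (dist x₀ (k • x₀) + D) (dist x₀ (k' • x₀) + D)) (M + R) :=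
      (le_max_right _ _).trans (le_max_left _ _)
    linarith
  have h3 : M + R < τ := by
    have h2 : M + R ≤ max (max (dist x₀ (k • x₀) + D) (dist x₀ (k' • x₀) + D)) (M + R) :=
      le_max_right _ _
    linarith
  have hτ0 : 0 ≤ τ := by linarith
  obtain ⟨g, hg⟩ := h.co.cover (c.1 ⟨τ, hτ0⟩)
  have hg' : dist (c.1 ⟨τ, hτ0⟩) (g • x₀) ≤ R + 1 := by linarith
  have e1 := beyRay_iff h hvw hk c ⟨τ, hτ0⟩ h1 g hg'
  have e2 := beyRay_iff h hvw.symm hk' c ⟨τ, hτ0⟩ h2 g hg'
  rw [e1, e2]
  constructor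
  · intro h4 h5
    have h6 := hM' g h4 h5
    have h7 := dist_triangle_right x₀ (c.1 ⟨τ, hτ0⟩) (g • x₀)
    have h8 : dist x₀ (c.1 ⟨τ, hτ0⟩) = τ := ray_dist c ⟨τ, hτ0⟩
    rw [h8] at h7
    linarith
  · intro h4
    exact (rho_or h.act h.edge hvw g).resolve_right h4

end LibCE75
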