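import Pool.Agent.LibCE75.Defs
import Pool.Agent.LibCE75.RH1
import Pool.Agent.LibCE75.RH2
import Pool.Agent.LibCE75.B1
import Pool.Agent.LibCE75.B2
import Pool.Agent.LibCE75.K1
import Pool.Agent.LibCE75.K2

set_option autoImplicit false

/-!
# Board CE75, row K6 (MEDIUM/STRONG, cites RH1, RH2, B1, B2, K1, K2).  MP_6fa1a0_gt (cell-like equivalence of boundaries of CAT(0) groups).
Chair: helper75.  Deliver the whole file as CE75_K6.lean (team-store put), statements unchanged,
auxiliary lemmas private, no sorry, no axiom, no straight double quotation mark.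

A limit point of the gates of v is behind no edge of v.
PLAN. Suppose BeyRay v w c, T.Adj v w, k in Q v w; t > dist x0 (k x0) + D, g with dist (c t) (g x0) <= R, so rho v g = w. By the
closure hypothesis (take the neighbourhood {(e, y) | dist (e t) (c t) < 1} x (complement of a finite subset of Nb T v)) there are
infinitely many / there is, outside of any finite set of w', a w' in Nb T v with dist (seg x0 (P v w') t) (c t) < 1 and
dist x0 (P v w') > t (gates_tendsto excludes finitely many). P v w' = k' x0, k' in Q v w' (gateP). Claim: rho v k' is not w for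
all w' outside a finite set: (a, b) = (k'^-1 v, k'^-1 w') in S; if rho v k' = w then k'^-1 w = rho a 1 (rho_smul), so k'^-1 maps the
adjacent pair (v, w) into the finite set {(a, rho a 1) | a first coordinate of S}: finitely many k' (trans_finite), hence
finitely many w' (pairs_finite). Now cross (edge v, w) with x = y_t := seg x0 (P v w') t (near g x0 within R + 1, rho v g = w), y =
P v w' = k' x0 (rho v k' not w): z between y_t and P v w' with dist z (k x0) <= D; but dist x0 z >= t (y_t is on the geodesic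
from x0 to P v w' at distance t, z further): t <= dist x0 (k x0) + D, contradiction.
-/

namespace LibCE75

open Set Metric Topology Filter
open scoped NNReal

theorem not_bey_of_lim {G V X : Type} [Group G] [MulAction G V] [MetricSpace X]
    [MulAction G X] {hX : IsCAT0 X} {T : SimpleGraph V} {S : Set (V × V)} {a₀ b₀ : V} {x₀ : X}
    {R D : ℝ} {P : V → V → X} (h : Geo hX T S a₀ b₀ x₀ R D G P)
    (v : V) (c : Ray X x₀)
    (hc : (c.toXbar, (OnePoint.infty : OnePoint (Nb T v))) ∈ closure (range (jmap T hX x₀ P v)))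
    (w : V) (hvw : T.Adj v w) : ¬ BeyRay T a₀ b₀ R G v w c := by
  intro hb
  obtain ⟨k, hk⟩ := Q_nonempty h.act hvw
  obtain ⟨t, ht⟩ : ∃ t : ℝ≥0, dist x₀ (k • x₀) + D < t :=
    ⟨⟨dist x₀ (k • x₀) + D + 1, by
      have := h.co.D_nonneg
      positivity⟩, by
      show dist x₀ (k • x₀) + D < dist x₀ (k • x₀) + D + 1
      linarith⟩
  obtain ⟨g, hg⟩ := h.co.cover (c.1 t)
  have hgw : rho T a₀ b₀ v g = w :=
    (beyRay_iff h hvw hk c t ht g (by linarith)).1 hb
  -- finite sets of edges
  have hF1 : {w' : Nb T v | dist x₀ (P v w'.1) ≤ t}.Finite := by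
    have h1 := (gates_tendsto h v).eventually_gt_atTop (t : ℝ)
    have h2 := Filter.mem_cofinite.1 h1
    refine h2.subset ?_
    intro w' hw'
    simp only [mem_compl_iff, mem_ofPred_eq, not_lt]
    exact hw'
  let E' : Set (V × V) := (fun p : V × V => (p.1, rho T a₀ b₀ p.1 (1 : G))) '' S
  have hE' : E'.Finite := h.act.Sfin.image _
  have hU : {u : G | ∃ p ∈ ({(v, w)} : Set (V × V)), (u • p.1, u • p.2) ∈ E'}.Finite := by
    refine trans_finite h.act {(v, w)} E' (finite_singleton _) hE' ?_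
    intro p hp
    rw [mem_singleton_iff] at hp
    rw [hp]
    exact hvw
  have hK : {k' : G | k'⁻¹ ∈ {u : G | ∃ p ∈ ({(v, w)} : Set (V × V)),
      (u • p.1, u • p.2) ∈ E'}}.Finite := hU.preimage inv_injective.injOn
  have hP := pairs_finite h.act _ hK
  have hF2 : {w' : Nb T v | ∃ k' ∈ Q G S v w'.1, rho T a₀ b₀ v k' = w}.Finite := by
    have hinj : InjOn (fun w' : Nb T v => (v, w'.1)) ((fun w' : Nb T v => (v, w'.1)) ⁻¹'
        {p : V × V | ∃ k ∈ {k' : G | k'⁻¹ ∈ {u : G | ∃ p ∈ ({(v, w)} : Set (V × V)),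
      (u • p.1, u • p.2) ∈ E'}}, k ∈ Q G S p.1 p.2}) := by
      intro a _ b _ hab
      exact Subtype.ext (congrArg Prod.snd hab)
    refine (hP.preimage hinj).subset ?_
    rintro w' ⟨k', hk', hk'w⟩
    refine ⟨k', ?_, hk'⟩
    refine ⟨(v, w), mem_singleton _, ?_⟩
    refine ⟨(k'⁻¹ • v, k'⁻¹ • w'.1), hk', ?_⟩
    show (k'⁻¹ • v, rho T a₀ b₀ (k'⁻¹ • v) (1 : G)) = (k'⁻¹ • v, k'⁻¹ • w)
    rw [← hk'w, ← rho_smul h.act h.edge, inv_mul_cancel]
  have hF := hF1.union hF2
  -- a neighbourhood of the limit point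
  set F : Set (Nb T v) := {w' : Nb T v | dist x₀ (P v w'.1) ≤ t} ∪
    {w' : Nb T v | ∃ k' ∈ Q G S v w'.1, rho T a₀ b₀ v k' = w} with hFdef
  have hopen1 : IsOpen {e : Xbar X x₀ | dist (e.1 t) (c.1 t) < 1} := by
    have hcont : Continuous fun e : Xbar X x₀ => dist (e.1 t) (c.1 t) :=
      ((continuous_apply t).comp continuous_subtype_val).dist continuous_const
    exact isOpen_lt hcont continuous_const
  have hopen2 : IsOpen ((((↑) : Nb T v → OnePoint (Nb T v)) '' F)ᶜ) := by
    rw [OnePoint.isOpen_compl_image_coe]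
    exact ⟨isClosed_discrete _, hF.isCompact⟩
  have hmem : (c.toXbar, (OnePoint.infty : OnePoint (Nb T v))) ∈
      {e : Xbar X x₀ | dist (e.1 t) (c.1 t) < 1} ×ˢ
        ((((↑) : Nb T v → OnePoint (Nb T v)) '' F)ᶜ) := by
    refine ⟨?_, ?_⟩
    · show dist (c.1 t) (c.1 t) < 1
      rw [dist_self]; norm_num
    · rintro ⟨a, -, ha⟩
      exact OnePoint.coe_ne_infty a ha
  obtain ⟨q, hq, w', rfl⟩ := mem_closure_iff.1 hc _ (hopen1.prod hopen2) hmem
  obtain ⟨hq1, hq2⟩ := hq
  have hq1' : dist (seg hX x₀ (P v w'.1) t) (c.1 t) < 1 := hq1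
  have hw'F : w' ∉ F := fun hw => hq2 ⟨w', hw, rfl⟩
  have hfar : (t : ℝ) < dist x₀ (P v w'.1) := by
    by_contra hcon
    exact hw'F (Or.inl (not_lt.1 hcon))
  have hne : ∀ k' ∈ Q G S v w'.1, rho T a₀ b₀ v k' ≠ w := fun k' hk' hcon =>
    hw'F (Or.inr ⟨k', hk', hcon⟩)
  obtain ⟨k', hk', hPk'⟩ := h.gateP v w'.1 w'.2
  obtain ⟨z, hz1, hz2⟩ := h.co.cross v w hvw (seg hX x₀ (P v w'.1) t) (P v w'.1) g k'
    (by
      have := dist_triangle (seg hX x₀ (P v w'.1) t) (c.1 t) (g • x₀)
      linarith)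
    (by
      rw [hPk', dist_self]
      have := h.co.R_nonneg
      linarith)
    hgw (hne k' hk') k hk
  have h5 := dist_seg_right hX x₀ (P v w'.1) t
  rw [min_eq_left hfar.le] at h5
  have h6 : dist (seg hX x₀ (P v w'.1) t) z + dist z (P v w'.1) =
      dist (seg hX x₀ (P v w'.1) t) (P v w'.1) := hz1
  have h7 := dist_triangle x₀ z (P v w'.1)
  have h8 := dist_triangle x₀ (k • x₀) z
  rw [dist_comm (k • x₀) z] at h8
  have h9 : 0 ≤ dist (seg hX x₀ (P v w'.1) t) z := dist_nonneg
  linarith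

end LibCE75
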