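import Pool.Agent.LibCE75.Defs
import Pool.Agent.LibCE75.TR1
import Pool.Agent.LibCE75.TR2

set_option autoImplicit false

/-!
# Board CE75, row TR4 (MEDIUM, cites TR1, TR2).  MP_6fa1a0_gt (cell-like equivalence of boundaries of CAT(0) groups).
Chair: helper75.  Deliver the whole file as CE75_TR4.lean (team-store put), statements unchanged,
auxiliary lemmas private, no sorry, no axiom, no straight double quotation mark.

Following a consistent choice of directions gives an injective path to infinity.
PLAN. s 0 = v0, s (n+1) = the chosen P-neighbour of s n. No backtracking: s (n+2) is not s n because P (s n) (s (n+1)) gives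
not P (s (n+1)) (s n). Claim for n < m: dir T (s n) (s m) = s (n+1), and dir T (s m) (s n) = s (m-1), s m not s n: induction
on m - n: for m = n+1 adjacency; step m -> m+1: dir (s m) (s n) = s (m-1) is not s (m+1), so by dir_iff (edge s m, s (m+1))
dir (s (m+1)) (s n) = s m; in particular s (m+1) is not s n (dir_self; s m is not s (m+1)); and dir (s n) (s (m+1)) =
dir (s n) (s m) by dir_eq_of_adj (s n is different from s m and s (m+1)). Last statement: for u given, {v | dir v u is not
dir v (s 0)} is finite (dir_finite) and s is injective, so for some n >= 1: s n is not u and dir (s n) u = dir (s n) (s 0) =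
s (n-1) which is not s (n+1).
-/

namespace LibCE75

open Set Metric Topology Filter
open scoped NNReal

theorem path_to_infinity {V : Type} {T : SimpleGraph V} (hT : T.IsTree) (P : V → V → Prop)
    (hP : ∀ v w, T.Adj v w → (P v w ↔ ¬ P w v)) (hex : ∀ v, ∃ w, T.Adj v w ∧ P v w) (v₀ : V) :
    ∃ s : ℕ → V, s 0 = v₀ ∧ (∀ n, T.Adj (s n) (s (n + 1))) ∧ (∀ n, P (s n) (s (n + 1))) ∧
      Function.Injective s ∧ (∀ n m, n < m → dir T (s n) (s m) = s (n + 1)) ∧
      (∀ n m, n < m → dir T (s m) (s n) = s (m - 1)) ∧
      ∀ u, ∃ n, s n ≠ u ∧ dir T (s n) u ≠ s (n + 1) := by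
  classical
  let s : ℕ → V := fun n => Nat.rec v₀ (fun _ v => (hex v).choose) n
  have hs0 : s 0 = v₀ := rfl
  have hadj : ∀ n, T.Adj (s n) (s (n + 1)) := fun n => (hex (s n)).choose_spec.1
  have hPs : ∀ n, P (s n) (s (n + 1)) := fun n => (hex (s n)).choose_spec.2
  clear_value s
  have hnb : ∀ n, s n ≠ s (n + 2) := by
    intro n h
    have h1 := hPs (n + 1)
    rw [show n + 1 + 1 = n + 2 from rfl, ← h] at h1
    exact (hP _ _ (hadj n)).1 (hPs n) h1
  have key : ∀ d n, dir T (s n) (s (n + d + 1)) = s (n + 1) ∧
      dir T (s (n + d + 1)) (s n) = s (n + d) ∧ s n ≠ s (n + d + 1) := by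
    intro d
    induction d with
    | zero =>
      intro n
      exact ⟨dir_of_adj hT (hadj n), dir_of_adj hT (hadj n).symm, (hadj n).ne⟩
    | succ d ih =>
      intro n
      obtain ⟨hA, hB, hC⟩ := ih n
      have e : n + (d + 1) + 1 = n + d + 1 + 1 := by ring
      have e' : n + (d + 1) = n + d + 1 := by ring
      rw [e, e']
      have hB' : dir T (s (n + d + 1 + 1)) (s n) = s (n + d + 1) := by
        by_contra hne
        have h1 := (dir_iff hT (hadj (n + d + 1)) (s n)).2 hne
        rw [hB] at h1
        exact hnb (n + d) h1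
      have hC' : s n ≠ s (n + d + 1 + 1) := by
        intro h
        rw [← h, dir_self hT, h] at hB'
        exact (hadj (n + d + 1)).ne hB'.symm
      refine ⟨?_, hB', hC'⟩
      rw [← dir_eq_of_adj hT (hadj (n + d + 1)) hC hC']
      exact hA
  have hlt : ∀ n m, n < m → dir T (s n) (s m) = s (n + 1) ∧
      dir T (s m) (s n) = s (m - 1) ∧ s n ≠ s m := by
    intro n m h
    obtain ⟨d, rfl⟩ : ∃ d, m = n + d + 1 := ⟨m - n - 1, by omega⟩
    have := key d n
    rw [show n + d + 1 - 1 = n + d by omega]
    exact this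
  have hinj : Function.Injective s := by
    intro n m h
    rcases lt_trichotomy n m with h1 | h1 | h1
    · exact absurd h (hlt n m h1).2.2
    · exact h1
    · exact absurd h.symm (hlt m n h1).2.2
  refine ⟨s, hs0, hadj, hPs, hinj, fun n m h => (hlt n m h).1, fun n m h => (hlt n m h).2.1, ?_⟩
  intro u
  have hfin : ({v : V | dir T v u ≠ dir T v (s 0)} ∪ {u}).Finite :=
    (dir_finite hT u (s 0)).union (Set.finite_singleton u)
  obtain ⟨n, hn⟩ : ∃ n, s (n + 1) ∉ ({v : V | dir T v u ≠ dir T v (s 0)} ∪ {u}) := by
    by_contra hcon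
    push Not at hcon
    have h1 : Function.Injective (fun n => s (n + 1)) := fun a b hab => by
      have := hinj hab
      omega
    refine Set.infinite_range_of_injective h1 (hfin.subset ?_)
    rintro _ ⟨n, rfl⟩
    exact hcon n
  have h1 : s (n + 1) ≠ u := fun h => hn (Or.inr h)
  have h2 : dir T (s (n + 1)) u = dir T (s (n + 1)) (s 0) := by
    by_contra h
    exact hn (Or.inl h)
  refine ⟨n + 1, h1, ?_⟩
  rw [h2, (hlt 0 (n + 1) (by omega)).2.1, show n + 1 - 1 = n by omega]
  exact hnb n

end LibCE75
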