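import Pool.Agent.LibCE75.Defs
import Pool.Agent.LibCE75.TR4
import Pool.Agent.LibCE75.RH1
import Pool.Agent.LibCE75.B1
import Pool.Agent.LibCE75.B2
import Pool.Agent.LibCE75.B3
import Pool.Agent.LibCE75.K1
import Pool.Agent.LibCE75.K2
import Pool.Agent.LibCE75.K4
import Pool.Agent.LibCE75.K5

set_option autoImplicit false

/-!
# Board CE75, row K7 (MEDIUM/STRONG, cites TR4, RH1, B1, B2, B3, K1, K2, K4, K5).  MP_6fa1a0_gt (cell-like equivalence of boundaries of CAT(0) groups).
Chair: helper75.  Deliver the whole file as CE75_K7.lean (team-store put), statements unchanged,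
auxiliary lemmas private, no sorry, no axiom, no straight double quotation mark.

Two rays with the same coordinates are equal.
PLAN. If for some v the ray c is behind no edge of v, then Psi v c = (toXbar c, infty); Psi v c' has second coordinate infty so c' is
also behind no edge and toXbar c = toXbar c', injective (B1). Otherwise every v has a neighbour w with BeyRay v w c, and then
BeyRay v w c' (second coordinates of Psi agree: (w : OnePoint) injective; Psi_of_bey). path_to_infinity with P v w =
(T.Adj v w and BeyRay v w c) (bey_xor) starting at a0 gives s. For n >= 1, rho (s n) 1 = dir (s n) a0 = s (n-1), different from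
s (n+1) (s n is not a0 = s 0; injective). beyRay_near for c and c' with the same k in Q (s n) (s (n+1)), P .. = k x0 : times t_n, t_n' with
dist (c t_n) (c' t_n') <= 2 D, and t_n -> infinity because the gates of the different edges (s n, s (n+1)) leave
every ball (edges_locfin). ray_eq_of_near.
-/

namespace LibCE75

open Set Metric Topology Filter
open scoped NNReal

theorem Psi_inj {G V X : Type} [Group G] [MulAction G V] [MetricSpace X]
    [MulAction G X] {hX : IsCAT0 X} {T : SimpleGraph V} {S : Set (V × V)} {a₀ b₀ : V} {x₀ : X}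
    {R D : ℝ} {P : V → V → X} (h : Geo hX T S a₀ b₀ x₀ R D G P)
    (c c' : Ray X x₀)
    (hcc : ∀ v, Psi T hX a₀ b₀ x₀ R G P v c = Psi T hX a₀ b₀ x₀ R G P v c') : c = c' := by
  classical
  by_cases hcase : ∃ v, ¬ ∃ w : Nb T v, BeyRay T a₀ b₀ R G v w.1 c
  · obtain ⟨v, hv⟩ := hcase
    have h1 : Psi T hX a₀ b₀ x₀ R G P v c = (c.toXbar, OnePoint.infty) := by
      unfold Psi
      rw [dif_neg hv]
    have h2 := hcc v
    rw [h1] at h2
    by_cases hv' : ∃ w : Nb T v, BeyRay T a₀ b₀ R G v w.1 c'
    · exfalso
      obtain ⟨w, hw⟩ := hv'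
      rw [Psi_of_bey h w c' hw] at h2
      have h3 := congrArg Prod.snd h2
      exact OnePoint.infty_ne_coe w h3
    · have h3 : Psi T hX a₀ b₀ x₀ R G P v c' = (c'.toXbar, OnePoint.infty) := by
        unfold Psi
        rw [dif_neg hv']
      rw [h3] at h2
      exact (toXbar_closedEmbedding x₀).injective (congrArg Prod.fst h2)
  · have hcase' : ∀ v, ∃ w : Nb T v, BeyRay T a₀ b₀ R G v w.1 c := fun v => by
      by_contra hv
      exact hcase ⟨v, hv⟩
    have key : ∀ v (w : Nb T v), BeyRay T a₀ b₀ R G v w.1 c → BeyRay T a₀ b₀ R G v w.1 c' := by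
      intro v w hw
      have h2 := hcc v
      rw [Psi_of_bey h w c hw] at h2
      by_cases hv' : ∃ w' : Nb T v, BeyRay T a₀ b₀ R G v w'.1 c'
      · obtain ⟨w', hw'⟩ := hv'
        rw [Psi_of_bey h w' c' hw'] at h2
        have h3 : (w : OnePoint (Nb T v)) = (w' : OnePoint (Nb T v)) := congrArg Prod.snd h2
        have h4 : w = w' := OnePoint.coe_injective h3
        rw [h4]
        exact hw'
      · exfalso
        have h3 : Psi T hX a₀ b₀ x₀ R G P v c' = (c'.toXbar, OnePoint.infty) := by
          unfold Psi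
          rw [dif_neg hv']
        rw [h3] at h2
        have h4 : (w : OnePoint (Nb T v)) = OnePoint.infty := congrArg Prod.snd h2
        exact OnePoint.infty_ne_coe w h4.symm
    obtain ⟨s, hs0, hadj, hPs, hinj, -, hdir, -⟩ := path_to_infinity h.act.tree
      (fun v w => T.Adj v w ∧ BeyRay T a₀ b₀ R G v w c)
      (fun v w hvw => by
        have h1 := bey_xor h hvw c
        constructor
        · rintro ⟨-, h2⟩ ⟨-, h3⟩
          exact h1.1 h2 h3
        · intro h2
          exact ⟨hvw, h1.2 fun h3 => h2 ⟨hvw.symm, h3⟩⟩)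
      (fun v => by
        obtain ⟨w, hw⟩ := hcase' v
        exact ⟨w.1, w.2, w.2, hw⟩) a₀
    have hrho : ∀ n, 1 ≤ n → rho T a₀ b₀ (s n) (1 : G) ≠ s (n + 1) := by
      intro n hn
      have h1 : (1 : G) • a₀ ≠ s n := by
        rw [one_smul, ← hs0]
        intro h2
        have := hinj h2
        omega
      unfold rho
      rw [if_neg h1, one_smul]
      have h2 := hdir 0 n (by omega)
      rw [hs0] at h2
      rw [h2]
      intro h3
      have := hinj h3
      omega
    refine ray_eq_of_near hX c c' (D + D) ?_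
    intro N
    have hfin := edges_locfin h (N + D)
    obtain ⟨n, hn1, hn2⟩ : ∃ n, 1 ≤ n ∧ N + D < dist x₀ (P (s n) (s (n + 1))) := by
      by_contra hcon
      push Not at hcon
      have hsub : range (fun n : ℕ => (s (n + 1), s (n + 1 + 1))) ⊆
          {p : V × V | T.Adj p.1 p.2 ∧ dist x₀ (P p.1 p.2) ≤ N + D} := by
        rintro _ ⟨n, rfl⟩
        exact ⟨hadj (n + 1), hcon (n + 1) (by omega)⟩
      have hinf : (range (fun n : ℕ => (s (n + 1), s (n + 1 + 1)))).Infinite := by
        apply Set.infinite_range_of_injective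
        intro n n' hnn
        have h1 := hinj (congrArg Prod.fst hnn)
        omega
      exact hinf (hfin.subset hsub)
    obtain ⟨k, hk, hPk⟩ := h.gateP _ _ (hadj n)
    have hb := (hPs n).2
    have hb' : BeyRay T a₀ b₀ R G (s n) (s (n + 1)) c' := key (s n) ⟨s (n + 1), hadj n⟩ hb
    obtain ⟨t, ht⟩ := beyRay_near h (hadj n) c hb (hrho n hn1) hk
    obtain ⟨t', ht'⟩ := beyRay_near h (hadj n) c' hb' (hrho n hn1) hk
    refine ⟨t, t', ?_, ?_⟩
    · have h1 := ray_dist c t
      have h2 := dist_triangle x₀ (c.1 t) (k • x₀)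
      rw [hPk] at hn2
      linarith
    · calc dist (c.1 t) (c'.1 t') ≤ dist (c.1 t) (k • x₀) + dist (k • x₀) (c'.1 t') := dist_triangle _ _ _
        _ ≤ D + D := by
          rw [dist_comm (k • x₀) (c'.1 t')]
          linarith

end LibCE75
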