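import Pool.Agent.LibCE75.Defs
import Pool.Agent.LibCE75.RH1
import Pool.Agent.LibCE75.RH2
import Pool.Agent.LibCE75.TR1
import Pool.Agent.LibCE75.TR2
import Pool.Agent.LibCE75.B1
import Pool.Agent.LibCE75.B2
import Pool.Agent.LibCE75.K1
import Pool.Agent.LibCE75.K2

set_option autoImplicit false

/-!
# Board CE75, row K8 (STRONG, cites RH1, RH2, TR1, TR2, B1, B2, K1, K2).  MP_6fa1a0_gt (cell-like equivalence of boundaries of CAT(0) groups).
Chair: helper75.  Deliver the whole file as CE75_K8.lean (team-store put), statements unchanged,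
auxiliary lemmas private, no sorry, no axiom, no straight double quotation mark.

Every end of the tree is the end of a ray.
PLAN. Let k_m be the gate element: P (s m) (s (m+1)) = k_m x0, k_m in Q (s m) (s (m+1)) =: p_m. dist x0 p_m -> infinity (edges_locfin, s
injective). Xbar is compact (B1): along an ultrafilter l on N, finer than atTop, pt p_m tends to some point of Xbar, a ray c by
limit_is_ray. Fix n. Claim A: rho (s n) k_m = s (n+1) for all but finitely many m. Let (a, b) = (k_m^-1 s m, k_m^-1 s (m+1)) in S and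
v' = k_m^-1 s n. For m > n: dir (s n) (s m) = s (n+1), so dir v' a = k_m^-1 s (n+1) (dir_map). If v' is not a0 and dir v' a0 = dir v' a
then rho v' 1 = dir v' a0 = k_m^-1 s (n+1), so rho (s n) k_m = s (n+1) (rho_smul). So failure means v' in the finite set
E = union over (a, b) in S of {v' | dir v' a0 is not dir v' a} union {a0} (dir_finite), and k_m^-1 s (n+1) = dir v' a: k_m^-1 maps the
adjacent pair (s n, s (n+1)) into a finite set: finitely many k_m (trans_finite), so finitely many m (pairs_finite and s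
injective). Claim B: BeyRay (s n) (s (n+1)) c: let k in Q (s n) (s (n+1)), t > dist x0 (k x0) + D, g near c t within R; suppose
rho (s n) g is not s (n+1). Choose m in the ultrafilter with dist (seg x0 p_m t) (c t) <= 1, dist x0 p_m > t and claim A. cross
(the side changes from k_m to g): z between p_m = k_m x0 and seg x0 p_m t with dist z (k x0) <= D, but dist x0 z >= t,
contradiction. So rho (s n) g = s (n+1), and beyRay_iff.
-/

namespace LibCE75

open Set Metric Topology Filter
open scoped NNReal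

private lemma k8_smul_adj {G V : Type} [Group G] [MulAction G V] {T : SimpleGraph V}
    {S : Set (V × V)} (h : TreeAction G T S) (g : G) (v w : V) :
    T.Adj v w ↔ T.Adj (MulAction.toPerm g v) (MulAction.toPerm g w) := by
  constructor
  · intro hv
    exact h.adj g v w hv
  · intro hv
    have h1 := h.adj g⁻¹ _ _ hv
    simpa [MulAction.toPerm_apply] using h1

private lemma k8_dir_smul {G V : Type} [Group G] [MulAction G V] {T : SimpleGraph V}
    {S : Set (V × V)} (h : TreeAction G T S) (g : G) (v u : V) :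
    dir T (g • v) (g • u) = g • dir T v u := by
  have := dir_map h.tree (MulAction.toPerm g) (k8_smul_adj h g) v u
  simpa [MulAction.toPerm_apply] using this

/-- If the direction from `v` to the edge `k (a₀, b₀)` is wrong then `k` is in a finite set. -/
private lemma k8_bad_finite {G V : Type} [Group G] [MulAction G V] {T : SimpleGraph V}
    {S : Set (V × V)} (h : TreeAction G T S) {a₀ b₀ : V} (h0 : T.Adj a₀ b₀) {v w : V}
    (hvw : T.Adj v w) :
    {k : G | ∃ a b, k ∈ Q G S a b ∧ dir T v a = w ∧ rho T a₀ b₀ v k ≠ w}.Finite := by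
  classical
  set E : Set V := {a₀} ∪ ⋃ p ∈ S, {v' : V | dir T v' a₀ ≠ dir T v' p.1} with hE
  have hEfin : E.Finite := by
    refine (Set.finite_singleton _).union ?_
    exact h.Sfin.biUnion (fun p _ => dir_finite h.tree a₀ p.1)
  set E' : Set (V × V) := (fun q : V × (V × V) => (q.1, dir T q.1 q.2.1)) '' (E ×ˢ S) with hE'
  have hE'fin : E'.Finite := (hEfin.prod h.Sfin).image _
  have hfin := trans_finite h {(v, w)} E' (Set.finite_singleton _) hE'fin (by
    intro p hp
    rw [Set.mem_singleton_iff] at hp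
    subst hp
    exact hvw)
  refine (hfin.image (fun u => u⁻¹)).subset ?_
  rintro k ⟨a, b, hk, hd, hr⟩
  refine ⟨k⁻¹, ⟨(v, w), rfl, ?_⟩, inv_inv k⟩
  have hw : dir T (k⁻¹ • v) (k⁻¹ • a) = k⁻¹ • w := by
    rw [k8_dir_smul h, hd]
  have hkS : (k⁻¹ • a, k⁻¹ • b) ∈ S := hk
  have hvE : k⁻¹ • v ∈ E := by
    by_contra hnot
    have h1 : k⁻¹ • v ≠ a₀ := by
      intro he
      exact hnot (Or.inl he)
    have h2 : dir T (k⁻¹ • v) a₀ = dir T (k⁻¹ • v) (k⁻¹ • a) := by
      by_contra he
      apply hnot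
      refine Or.inr ?_
      simp only [Set.mem_iUnion]
      exact ⟨_, hkS, he⟩
    have h3 : rho T a₀ b₀ (k⁻¹ • v) (1 : G) = k⁻¹ • w := by
      unfold rho
      rw [one_smul, if_neg (fun he => h1 he.symm), h2, hw]
    have h4 := rho_smul h h0 k (k⁻¹ • v) (1 : G)
    rw [h3, smul_inv_smul, smul_inv_smul, mul_one] at h4
    exact hr h4
  refine ⟨(k⁻¹ • v, (k⁻¹ • a, k⁻¹ • b)), ⟨hvE, hkS⟩, ?_⟩
  simp only
  rw [hw]

theorem end_ray {G V X : Type} [Group G] [MulAction G V] [MetricSpace X]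
    [MulAction G X] {hX : IsCAT0 X} {T : SimpleGraph V} {S : Set (V × V)} {a₀ b₀ : V} {x₀ : X}
    {R D : ℝ} {P : V → V → X} (h : Geo hX T S a₀ b₀ x₀ R D G P)
    (s : ℕ → V) (hs : ∀ n, T.Adj (s n) (s (n + 1))) (hinj : Function.Injective s)
    (hdir : ∀ n m, n < m → dir T (s n) (s m) = s (n + 1)) :
    ∃ c : Ray X x₀, ∀ n, BeyRay T a₀ b₀ R G (s n) (s (n + 1)) c := by
  classical
  have := h.prop
  have := xbar_compact (X := X) x₀
  have hch : ∀ m : ℕ, ∃ k : G, k ∈ Q G S (s m) (s (m + 1)) ∧ P (s m) (s (m + 1)) = k • x₀ := by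
    intro m
    obtain ⟨k, hk, hP⟩ := h.gateP _ _ (hs m)
    exact ⟨k, hk, hP⟩
  choose k hkQ hkP using hch
  have hpairinj : Function.Injective (fun m : ℕ => (s m, s (m + 1))) := by
    intro m m' hmm
    exact hinj (Prod.mk.inj hmm).1
  -- the distances to the gates tend to infinity
  have hinf : Tendsto (fun m : ℕ => dist x₀ (k m • x₀)) atTop atTop := by
    rw [← Nat.cofinite_eq_atTop, Filter.tendsto_atTop]
    intro r
    have hfin := (edges_locfin h r).preimage (hpairinj.injOn)
    rw [eventually_cofinite]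
    refine hfin.subset ?_
    intro m hm
    refine ⟨hs m, ?_⟩
    have hm' : ¬ (r ≤ dist x₀ (k m • x₀)) := hm
    show dist x₀ (P (s m) (s (m + 1))) ≤ r
    rw [hkP m]
    exact (not_le.1 hm').le
  -- claim A
  have hA : ∀ n, ∀ᶠ m in (atTop : Filter ℕ), rho T a₀ b₀ (s n) (k m) = s (n + 1) := by
    intro n
    have hF := k8_bad_finite h.act h.edge (hs n)
    have hp := pairs_finite h.act _ hF
    have hpre := hp.preimage (hpairinj.injOn)
    have h1 : ∀ᶠ m in (atTop : Filter ℕ), n < m := eventually_gt_atTop n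
    have h2 : ∀ᶠ m in (atTop : Filter ℕ), m ∉ ((fun m : ℕ => (s m, s (m + 1))) ⁻¹'
        {p : V × V | ∃ k ∈ {k : G | ∃ a b, k ∈ Q G S a b ∧ dir T (s n) a = s (n + 1) ∧
          rho T a₀ b₀ (s n) k ≠ s (n + 1)}, k ∈ Q G S p.1 p.2}) := by
      rw [← Nat.cofinite_eq_atTop]
      exact hpre.compl_mem_cofinite
    filter_upwards [h1, h2] with m hm1 hm2
    by_contra hne
    exact hm2 ⟨k m, ⟨s m, s (m + 1), hkQ m, hdir n m hm1, hne⟩, hkQ m⟩
  -- the limit
  obtain ⟨c', -, hc'⟩ := isCompact_univ.ultrafilter_le_nhds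
    ((Filter.hyperfilter ℕ).map (fun m => pt hX x₀ (k m • x₀))) (by simp)
  have hle : ((Filter.hyperfilter ℕ : Ultrafilter ℕ) : Filter ℕ) ≤ atTop :=
    Filter.hyperfilter_le_cofinite.trans Nat.cofinite_eq_atTop.le
  have hlim : Tendsto (fun m => pt hX x₀ (k m • x₀))
      ((Filter.hyperfilter ℕ : Ultrafilter ℕ) : Filter ℕ) (𝓝 c') := hc'
  obtain ⟨c, rfl⟩ := limit_is_ray hX (fun m => k m • x₀) (hinf.mono_left hle) c' hlim
  refine ⟨c, fun n => ?_⟩
  obtain ⟨q, hq⟩ := Q_nonempty h.act (hs n)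
  have hD := h.co.D_nonneg
  set t : ℝ≥0 := ⟨dist x₀ (q • x₀) + D + 1, by positivity⟩ with ht
  have htv : (t : ℝ) = dist x₀ (q • x₀) + D + 1 := rfl
  obtain ⟨g, hg⟩ := h.co.cover (c.1 t)
  rw [beyRay_iff h (hs n) hq c t (by rw [htv]; linarith) g (by linarith)]
  by_contra hne
  have hlt : Tendsto (fun m => seg hX x₀ (k m • x₀) t)
      ((Filter.hyperfilter ℕ : Ultrafilter ℕ) : Filter ℕ) (𝓝 (c.1 t)) :=
    (tendsto_xbar_iff _ _).1 hlim t
  have h1 : ∀ᶠ m in ((Filter.hyperfilter ℕ : Ultrafilter ℕ) : Filter ℕ),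
      dist (seg hX x₀ (k m • x₀) t) (c.1 t) < 1 := Metric.tendsto_nhds.1 hlt 1 one_pos
  have h2 := (hinf.eventually_gt_atTop (t : ℝ)).filter_mono hle
  have h3 := (hA n).filter_mono hle
  obtain ⟨m, hm1, hm2, hm3⟩ := (h1.and (h2.and h3)).exists
  have hx : dist (k m • x₀) (k m • x₀) ≤ R + 1 := by
    rw [dist_self]
    have := h.co.R_nonneg
    linarith
  have hy : dist (seg hX x₀ (k m • x₀) t) (g • x₀) ≤ R + 1 := by
    have := dist_triangle (seg hX x₀ (k m • x₀) t) (c.1 t) (g • x₀)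
    linarith
  obtain ⟨z, hz, hzD⟩ := h.co.cross _ _ (hs n) (k m • x₀) (seg hX x₀ (k m • x₀) t) (k m) g
    hx hy hm3 hne q hq
  have e1 := dist_seg_right hX x₀ (k m • x₀) t
  rw [min_eq_left hm2.le] at e1
  have e2 : dist (k m • x₀) z + dist z (seg hX x₀ (k m • x₀) t) =
    dist (k m • x₀) (seg hX x₀ (k m • x₀) t) := hz
  have e3 := dist_triangle x₀ z (k m • x₀)
  have e4 := dist_triangle x₀ (q • x₀) z
  have e5 : dist (q • x₀) z = dist z (q • x₀) := dist_comm _ _
  have e6 : dist z (k m • x₀) = dist (k m • x₀) z := dist_comm _ _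
  have e7 : dist (k m • x₀) (seg hX x₀ (k m • x₀) t) =
    dist (seg hX x₀ (k m • x₀) t) (k m • x₀) := dist_comm _ _
  have e8 : 0 ≤ dist z (seg hX x₀ (k m • x₀) t) := dist_nonneg
  linarith

end LibCE75
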