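import Pool.Agent.LibCE75.Defs
import Pool.Agent.LibCE75.TR1

set_option autoImplicit false

/-!
# Board CE75, row TR3 (SHORT/MEDIUM, cites TR1).  MP_6fa1a0_gt (cell-like equivalence of boundaries of CAT(0) groups).
Chair: helper75.  Deliver the whole file as CE75_TR3.lean (team-store put), statements unchanged,
auxiliary lemmas private, no sorry, no axiom, no straight double quotation mark.

Consistent choices of directions point to the same place.
PLAN. Induction on the distance (or on the length n of the path v = u_0, u_1 = dir v u, ..., u_n = u). From not P v u_1 get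
P u_1 v; if u_1 = u then dir T u v = v, done. Otherwise P u_1 (dir u_1 u) is false, because dir u_1 u is different from v
(dir_iff for the edge v, u_1: dir v u = u_1 so dir u_1 u is not v) and P-neighbours are unique; by induction
(u_1 is nearer to u) P u (dir u u_1); finally dir u u_1 = dir u v by dir_eq_of_adj (u different from v, u_1).
For the induction use T.dist v u, with T.dist (dir v u) u < T.dist v u, or induct on the walk.
-/

namespace LibCE75

open Set Metric Topology Filter
open scoped NNReal

private theorem tr3_dir {V : Type} {T : SimpleGraph V} (hT : T.IsTree) {v u : V}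
    (q : T.Walk v u) (hq : q.IsPath) : dir T v u = q.snd := by
  have h : ∃ p : T.Walk v u, p.IsPath := ⟨q, hq⟩
  unfold dir
  rw [dif_pos h]
  have h1 := hT.IsAcyclic.path_unique ⟨h.choose, h.choose_spec⟩ ⟨q, hq⟩
  have h2 : h.choose = q := congrArg Subtype.val h1
  rw [h2]

private theorem tr3_aux {V : Type} {T : SimpleGraph V} (hT : T.IsTree) (P : V → V → Prop)
    (hP : ∀ v w, T.Adj v w → (P v w ↔ ¬ P w v))
    (hu : ∀ v w w', T.Adj v w → T.Adj v w' → P v w → P v w' → w = w') :
    ∀ (v u : V) (q : T.Walk v u), q.IsPath → v ≠ u → ¬ P v (dir T v u) → P u (dir T u v) := by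
  intro v u q
  induction q with
  | nil => intro _ h; exact absurd rfl h
  | @cons v w u h q' ih =>
    intro hq hvu hnP
    have hdir : dir T v u = w := by
      rw [tr3_dir hT _ hq]
      simp
    rw [hdir] at hnP
    have hPwv : P w v := by
      by_contra h'
      exact hnP ((hP v w h).2 h')
    have hq' : q'.IsPath := hq.of_cons
    by_cases hwu : w = u
    · subst hwu
      rw [dir_of_adj hT h.symm]
      exact hPwv
    · have h1 : dir T w u ≠ v := (dir_iff hT h u).1 hdir
      have h2 : ¬ P w (dir T w u) := by
        intro h3
        exact h1 (hu w _ _ (dir_adj hT hwu) h.symm h3 hPwv)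
      have h4 := ih hq' hwu h2
      rwa [dir_eq_of_adj hT h.symm (fun h => hwu h.symm) (fun h => hvu h.symm)] at h4

theorem pointing {V : Type} {T : SimpleGraph V} (hT : T.IsTree) (P : V → V → Prop)
    (hP : ∀ v w, T.Adj v w → (P v w ↔ ¬ P w v))
    (hu : ∀ v w w', T.Adj v w → T.Adj v w' → P v w → P v w' → w = w')
    (v u : V) (hvu : v ≠ u) (h : ¬ P v (dir T v u)) : P u (dir T u v) := by
  obtain ⟨q, hq, -⟩ := hT.existsUnique_path v u
  exact tr3_aux hT P hP hu v u q hq hvu h

end LibCE75
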