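import Pool.Agent.LibCE75.Defs
import Pool.Agent.LibCE75.TR1
import Pool.Agent.LibCE75.TR3
import Pool.Agent.LibCE75.TR4
import Pool.Agent.LibCE75.B1
import Pool.Agent.LibCE75.K4
import Pool.Agent.LibCE75.K5
import Pool.Agent.LibCE75.K6
import Pool.Agent.LibCE75.K7
import Pool.Agent.LibCE75.K8
import Pool.Agent.LibCE75.C1

set_option autoImplicit false

/-!
# Board CE75, row KP (STRONG, cites TR1 TR3 TR4 B1 K4 K5 K6 K7 K8 C1).  MP_6fa1a0_gt (cell-like equivalence of boundaries of CAT(0) groups).
Chair: helper75.  Deliver the whole file as CE75_KP.lean (team-store put), statements unchanged,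
auxiliary lemmas private, no sorry, no axiom, no straight double quotation mark.

The boundary is the space of the tree of vertex compactifications.
PLAN. F c = (v |-> (Psi v c, Psi_mem)). For T.Adj v w: (F c) v = iv v w iff BeyRay v w c (Psi_of_bey; conversely if Psi v c = jmap v w then
the second coordinate is not infty so c is behind some w', and w' = w). So F c is in ZSpace by bey_xor. F is continuous
(continuous_Psi), injective (Psi_inj); Ray is compact (ray_compact), ZSpace is Hausdorff (subspace of a product of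
Hausdorff spaces): enough: F surjective (Continuous.homeoOfEquivCompactToT2). Given z, case 1: some v with z v not in range iv:
z v = (toXbar c, infty) by Cv_rem, in the closure (it is an element of Cv). Then F c = z: at v: not_bey_of_lim says c is behind no
edge of v, so Psi v c = (toXbar c, infty). At u different from v: with P v w := (exists h : T.Adj v w, z v = iv v (w, h)) and
the same for F c: hypothesis of pointing (TR3) hold for both, not P v (dir v u), so z u = iv u (dir u v) = (F c) u.
Case 2: all z v in range iv: path_to_infinity for P starting anywhere gives s with P (s n) (s (n+1)); end_ray gives c with BeyRay (s n)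
(s (n+1)) c. For u: choose n with s n not u and dir (s n) u not s (n+1) (last property): not P (s n) (dir (s n) u) for z and for F c
(uniqueness of P-neighbours), so by pointing both have the value iv u (dir u (s n)).
-/

namespace LibCE75

open Set Metric Topology Filter
open scoped NNReal

private theorem KP_key {G V X : Type} [Group G] [MulAction G V] [MetricSpace X]
    [MulAction G X] {hX : IsCAT0 X} {T : SimpleGraph V} {S : Set (V × V)} {a₀ b₀ : V} {x₀ : X}
    {R D : ℝ} {P : V → V → X} (h : Geo hX T S a₀ b₀ x₀ R D G P) {v w : V} (hvw : T.Adj v w)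
    (c : Ray X x₀) :
    Psi T hX a₀ b₀ x₀ R G P v c = jmap T hX x₀ P v ⟨w, hvw⟩ ↔ BeyRay T a₀ b₀ R G v w c := by
  constructor
  · intro he
    unfold Psi at he
    split_ifs at he with hb
    · have h2 := congrArg Prod.snd he
      have h4 : hb.choose = (⟨w, hvw⟩ : Nb T v) := OnePoint.coe_injective h2
      have h5 := hb.choose_spec
      rw [h4] at h5
      exact h5
    · have h2 := congrArg Prod.snd he
      exact absurd h2 (OnePoint.infty_ne_coe _)
  · intro hb
    exact Psi_of_bey h ⟨w, hvw⟩ c hb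

private theorem KP_ivinj {V X : Type} [MetricSpace X] {hX : IsCAT0 X} {T : SimpleGraph V} {x₀ : X}
    {P : V → V → X} (v : V) (w w' : Nb T v) (he : iv T hX x₀ P v w = iv T hX x₀ P v w') :
    w = w' := by
  have h1 : jmap T hX x₀ P v w = jmap T hX x₀ P v w' := congrArg Subtype.val he
  have h2 : (w : OnePoint (Nb T v)) = (w' : OnePoint (Nb T v)) := congrArg Prod.snd h1
  exact OnePoint.coe_injective h2

private noncomputable def KP_F {G V X : Type} [Group G] [MulAction G V] [MetricSpace X]
    [MulAction G X] {hX : IsCAT0 X} {T : SimpleGraph V} {S : Set (V × V)} {a₀ b₀ : V} {x₀ : X}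
    {R D : ℝ} {P : V → V → X} (h : Geo hX T S a₀ b₀ x₀ R D G P) (c : Ray X x₀) :
    ZSpace T (fun v => Cv T hX x₀ P v) (fun v => iv T hX x₀ P v) :=
  ⟨fun v => ⟨Psi T hX a₀ b₀ x₀ R G P v c, Psi_mem h v c⟩, fun v w hvw => by
    have k1 := KP_key h hvw c
    have k2 := KP_key h hvw.symm c
    have k3 := bey_xor h hvw c
    constructor
    · intro he hc
      have he' : Psi T hX a₀ b₀ x₀ R G P v c = jmap T hX x₀ P v ⟨w, hvw⟩ :=
        congrArg Subtype.val he
      have hc' : Psi T hX a₀ b₀ x₀ R G P w c = jmap T hX x₀ P w ⟨v, hvw.symm⟩ :=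
        congrArg Subtype.val hc
      exact k3.1 (k1.1 he') (k2.1 hc')
    · intro hne
      apply Subtype.ext
      exact k1.2 (k3.2 fun hb => hne (Subtype.ext (k2.2 hb)))⟩

private theorem KP_F_cont {G V X : Type} [Group G] [MulAction G V] [MetricSpace X]
    [MulAction G X] {hX : IsCAT0 X} {T : SimpleGraph V} {S : Set (V × V)} {a₀ b₀ : V} {x₀ : X}
    {R D : ℝ} {P : V → V → X} (h : Geo hX T S a₀ b₀ x₀ R D G P) : Continuous (KP_F h) := by
  refine Continuous.subtype_mk (continuous_pi fun v => ?_) _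
  exact Continuous.subtype_mk (continuous_Psi h v) _

private theorem KP_F_inj {G V X : Type} [Group G] [MulAction G V] [MetricSpace X]
    [MulAction G X] {hX : IsCAT0 X} {T : SimpleGraph V} {S : Set (V × V)} {a₀ b₀ : V} {x₀ : X}
    {R D : ℝ} {P : V → V → X} (h : Geo hX T S a₀ b₀ x₀ R D G P) :
    Function.Injective (KP_F h) := by
  intro c c' hcc
  refine Psi_inj h c c' fun v => ?_
  have h1 := congrFun (congrArg Subtype.val hcc) v
  exact congrArg Subtype.val h1

private theorem KP_F_surj {G V X : Type} [Group G] [MulAction G V] [MetricSpace X]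
    [MulAction G X] {hX : IsCAT0 X} {T : SimpleGraph V} {S : Set (V × V)} {a₀ b₀ : V} {x₀ : X}
    {R D : ℝ} {P : V → V → X} (h : Geo hX T S a₀ b₀ x₀ R D G P) :
    Function.Surjective (KP_F h) := by
  intro z
  have hT : T.IsTree := h.act.tree
  -- the pointing relation of z
  set Pz : V → V → Prop := fun v w => ∃ hvw : T.Adj v w, z.1 v = iv T hX x₀ P v ⟨w, hvw⟩ with hPz
  have hP : ∀ v w, T.Adj v w → (Pz v w ↔ ¬ Pz w v) := by
    intro v w hvw
    have hz := z.2 v w hvw
    constructor
    · rintro ⟨_, he⟩ ⟨_, he'⟩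
      exact hz.1 he he'
    · intro hn
      refine ⟨hvw, hz.2 fun he => hn ⟨hvw.symm, he⟩⟩
  have hu : ∀ v w w', T.Adj v w → T.Adj v w' → Pz v w → Pz v w' → w = w' := by
    rintro v w w' _ _ ⟨h1, e1⟩ ⟨h2, e2⟩
    have := KP_ivinj v _ _ (e1.symm.trans e2)
    exact congrArg Subtype.val this
  have hPc : ∀ c : Ray X x₀, ∀ v w, T.Adj v w →
      (BeyRay T a₀ b₀ R G v w c ↔ ¬ BeyRay T a₀ b₀ R G w v c) := fun c v w hvw => bey_xor h hvw c
  have huc : ∀ c : Ray X x₀, ∀ v w w', T.Adj v w → T.Adj v w' → BeyRay T a₀ b₀ R G v w c →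
      BeyRay T a₀ b₀ R G v w' c → w = w' := fun c v w w' _ _ h1 h2 => bey_unique h c h1 h2
  -- common step
  have step : ∀ c : Ray X x₀, ∀ v u, v ≠ u → ¬ Pz v (dir T v u) →
      ¬ BeyRay T a₀ b₀ R G v (dir T v u) c →
      (KP_F h c).1 u = z.1 u := by
    intro c v u hvu h1 h2
    obtain ⟨hadj, he⟩ := pointing hT Pz hP hu v u hvu h1
    have hb := pointing hT (fun v w => BeyRay T a₀ b₀ R G v w c) (hPc c) (huc c) v u hvu h2
    rw [he]
    apply Subtype.ext
    exact (KP_key h hadj c).2 hb
  by_cases hcase : ∃ v, z.1 v ∉ range (iv T hX x₀ P v)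
  · obtain ⟨v, hv⟩ := hcase
    obtain ⟨c, hc⟩ := Cv_rem h v (z.1 v) hv
    have hcl : (c.toXbar, (OnePoint.infty : OnePoint (Nb T v))) ∈
        closure (range (jmap T hX x₀ P v)) := by
      rw [← hc]; exact (z.1 v).2
    have hnb := not_bey_of_lim h v c hcl
    refine ⟨c, Subtype.ext (funext fun u => ?_)⟩
    by_cases hvu : v = u
    · subst hvu
      apply Subtype.ext
      have h1 : ¬ ∃ w : Nb T v, BeyRay T a₀ b₀ R G v w.1 c := by
        rintro ⟨w, hw⟩
        exact hnb w.1 w.2 hw
      have h2 : Psi T hX a₀ b₀ x₀ R G P v c = (c.toXbar, OnePoint.infty) := by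
        unfold Psi
        rw [dif_neg h1]
      exact h2.trans hc.symm
    · refine step c v u hvu ?_ (hnb _ (dir_adj hT hvu))
      rintro ⟨hadj, he⟩
      exact hv ⟨_, he.symm⟩
  · have hall : ∀ v, z.1 v ∈ range (iv T hX x₀ P v) := fun v => by
      by_contra hv
      exact hcase ⟨v, hv⟩
    have hex : ∀ v, ∃ w, T.Adj v w ∧ Pz v w := by
      intro v
      obtain ⟨w, hw⟩ := hall v
      exact ⟨w.1, w.2, w.2, hw.symm⟩
    obtain ⟨s, _, hadj, hPs, hinj, hdir, _, hlast⟩ := path_to_infinity hT Pz hP hex a₀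
    obtain ⟨c, hc⟩ := end_ray h s hadj hinj hdir
    refine ⟨c, Subtype.ext (funext fun u => ?_)⟩
    obtain ⟨n, hn1, hn2⟩ := hlast u
    refine step c (s n) u hn1 ?_ ?_
    · intro hp
      exact hn2 (hu _ _ _ (dir_adj hT hn1) (hadj n) hp (hPs n))
    · intro hp
      exact hn2 (bey_unique h c hp (hc n))

private theorem KP_t2 {V X : Type} [MetricSpace X] [ProperSpace X] {hX : IsCAT0 X}
    {T : SimpleGraph V} {x₀ : X} {P : V → V → X} :
    T2Space (ZSpace T (fun v => Cv T hX x₀ P v) (fun v => iv T hX x₀ P v)) := by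
  have : TopologicalSpace.MetrizableSpace (Xbar X x₀) := xbar_metrizable hX x₀
  have : T2Space (Xbar X x₀) := inferInstance
  have h1 : ∀ v, T2Space (Cv T hX x₀ P v) := fun v => by
    change T2Space (closure (range (jmap T hX x₀ P v)))
    infer_instance
  change T2Space {z : ∀ v, Cv T hX x₀ P v // ∀ (v w : V) (h : T.Adj v w),
    z v = iv T hX x₀ P v ⟨w, h⟩ ↔ z w ≠ iv T hX x₀ P w ⟨v, h.symm⟩}
  infer_instance

theorem package {G V X : Type} [Group G] [MulAction G V] [MetricSpace X]
    [MulAction G X] {hX : IsCAT0 X} {T : SimpleGraph V} {S : Set (V × V)} {a₀ b₀ : V} {x₀ : X}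
    {R D : ℝ} {P : V → V → X} (h : Geo hX T S a₀ b₀ x₀ R D G P) :
    Nonempty (Ray X x₀ ≃ₜ ZSpace T (fun v => Cv T hX x₀ P v) (fun v => iv T hX x₀ P v)) := by
  have : ProperSpace X := h.prop
  have : CompactSpace (Ray X x₀) := ray_compact x₀
  have : T2Space (ZSpace T (fun v => Cv T hX x₀ P v) (fun v => iv T hX x₀ P v)) := KP_t2
  exact ⟨Continuous.homeoOfEquivCompactToT2
    (f := Equiv.ofBijective (KP_F h) ⟨KP_F_inj h, KP_F_surj h⟩) (KP_F_cont h)⟩

end LibCE75
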