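import Pool.Agent.LibCE75.Defs

set_option autoImplicit false

/-!
# Board CE75, row PC (MEDIUM/STRONG, only Mathlib).  MP_6fa1a0_gt (cell-like equivalence of boundaries of CAT(0) groups).
Chair: helper75.  Deliver the whole file as CE75_PC.lean (team-store put), statements unchanged,
auxiliary lemmas private, no sorry, no axiom, no straight double quotation mark.

Matching two ample sequences in a compact metric space (back and forth).
PLAN. N and M are countable and infinite (hx, hy with U = univ, L nonempty): identify both with the natural numbers (Denumerable / Nonempty (N = Nat)).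
Back and forth: build an increasing sequence of finite partial injections; at stage 2n take the smallest n' not yet in the
domain and choose m not in the range with dist (x n') (y m) < 1/(n+1) (infinitely many m with y m in the ball around x n' by hy); at stage 2n+1
take the smallest m' not yet in the range and choose n'' not in the domain with dist (x n'') (y m') < 1/(n+1). The union is a
bijection s, and dist (x n) (y (s n)) < 1/(k+1) for the pair added at stage k: so for e > 0 only finitely many n have
distance >= e. Formalisation: recursion on k with values in Finset (Nat x Nat) (graphs of partial injections), keep the invariants;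
or construct sequences a k, b k of the pairs added at stage k (both injective and surjective).
-/

namespace LibCE75

open Set Metric Topology Filter
open scoped NNReal

private theorem PC_step (Rr : ℕ → ℕ → ℕ → Prop) (h1 : ∀ k n, {m | Rr k n m}.Infinite)
    (h2 : ∀ k m, {n | Rr k n m}.Infinite) (k : ℕ) (A B : Finset ℕ) :
    ∃ r : ℕ × ℕ, r.1 ∉ A ∧ r.2 ∉ B ∧ Rr k r.1 r.2 ∧
      (k % 2 = 0 → ∀ n < r.1, n ∈ A) ∧ (k % 2 = 1 → ∀ m < r.2, m ∈ B) := by
  classical
  rcases Nat.mod_two_eq_zero_or_one k with hk | hk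
  · have hex : ∃ n, n ∉ A := Infinite.exists_notMem_finset _
    obtain ⟨m, hm, hm'⟩ := (h1 k (Nat.find hex)).exists_notMem_finset B
    refine ⟨(Nat.find hex, m), Nat.find_spec hex, hm', hm, ?_, ?_⟩
    · intro _ n hn
      have := Nat.find_min hex hn
      simpa using this
    · intro hk'; omega
  · have hex : ∃ m, m ∉ B := Infinite.exists_notMem_finset _
    obtain ⟨n, hn, hn'⟩ := (h2 k (Nat.find hex)).exists_notMem_finset A
    refine ⟨(n, Nat.find hex), hn', Nat.find_spec hex, hn, ?_, ?_⟩
    · intro hk'; omega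
    · intro _ m hm
      have := Nat.find_min hex hm
      simpa using this

private theorem PC_bf (Rr : ℕ → ℕ → ℕ → Prop) (h1 : ∀ k n, {m | Rr k n m}.Infinite)
    (h2 : ∀ k m, {n | Rr k n m}.Infinite) :
    ∃ p : ℕ → ℕ × ℕ, (∀ k, Rr k (p k).1 (p k).2) ∧ Function.Bijective (fun k => (p k).1) ∧
      Function.Bijective (fun k => (p k).2) := by
  classical
  have hq : ∀ (k : ℕ) (F : Finset (ℕ × ℕ)), ∃ r : ℕ × ℕ, r.1 ∉ F.image Prod.fst ∧
      r.2 ∉ F.image Prod.snd ∧ Rr k r.1 r.2 ∧
      (k % 2 = 0 → ∀ n < r.1, n ∈ F.image Prod.fst) ∧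
      (k % 2 = 1 → ∀ m < r.2, m ∈ F.image Prod.snd) := fun k F => PC_step Rr h1 h2 k _ _
  choose q hq1 hq2 hq3 hq4 hq5 using hq
  let F : ℕ → Finset (ℕ × ℕ) := fun k => Nat.rec ∅ (fun k F => insert (q k F) F) k
  have hF : ∀ k, F (k + 1) = insert (q k (F k)) (F k) := fun k => rfl
  let p : ℕ → ℕ × ℕ := fun k => q k (F k)
  have hmem : ∀ k j, j < k → p j ∈ F k := by
    intro k
    induction k with
    | zero => intro j hj; omega
    | succ k ih =>
      intro j hj
      rw [hF]
      rcases Nat.lt_succ_iff_lt_or_eq.1 hj with h | h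
      · exact Finset.mem_insert_of_mem (ih j h)
      · subst h
        exact Finset.mem_insert_self _ _
  have hmem' : ∀ k r, r ∈ F k → ∃ j, p j = r := by
    intro k
    induction k with
    | zero => intro r hr; exact absurd hr (Finset.notMem_empty r)
    | succ k ih =>
      intro r hr
      rw [hF] at hr
      rcases Finset.mem_insert.1 hr with h | h
      · exact ⟨k, h.symm⟩
      · exact ih r h
  have inj1 : Function.Injective (fun k => (p k).1) := by
    intro j k hjk
    simp only at hjk
    by_contra hne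
    rcases Nat.lt_or_gt_of_ne hne with h | h
    · exact hq1 k (F k) (Finset.mem_image.2 ⟨p j, hmem k j h, hjk⟩)
    · exact hq1 j (F j) (Finset.mem_image.2 ⟨p k, hmem j k h, hjk.symm⟩)
  have inj2 : Function.Injective (fun k => (p k).2) := by
    intro j k hjk
    simp only at hjk
    by_contra hne
    rcases Nat.lt_or_gt_of_ne hne with h | h
    · exact hq2 k (F k) (Finset.mem_image.2 ⟨p j, hmem k j h, hjk⟩)
    · exact hq2 j (F j) (Finset.mem_image.2 ⟨p k, hmem j k h, hjk.symm⟩)
  refine ⟨p, fun k => hq3 k (F k), ⟨inj1, ?_⟩, ⟨inj2, ?_⟩⟩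
  · intro n
    have hinf : (range (fun k => (p (2 * k)).1)).Infinite := by
      apply Set.infinite_range_of_injective
      intro j k hjk
      have := inj1 hjk
      omega
    obtain ⟨_, ⟨k, rfl⟩, hk⟩ := hinf.exists_notMem_finset (Finset.range (n + 1))
    simp only [Finset.mem_range, not_lt] at hk
    have h3 := hq4 (2 * k) (F (2 * k)) (by omega) n (by
      show n < (p (2 * k)).1
      omega)
    obtain ⟨r, hr, hrn⟩ := Finset.mem_image.1 h3
    obtain ⟨j, hj⟩ := hmem' _ r hr
    exact ⟨j, by simp only; rw [hj, hrn]⟩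
  · intro n
    have hinf : (range (fun k => (p (2 * k + 1)).2)).Infinite := by
      apply Set.infinite_range_of_injective
      intro j k hjk
      have := inj2 hjk
      omega
    obtain ⟨_, ⟨k, rfl⟩, hk⟩ := hinf.exists_notMem_finset (Finset.range (n + 1))
    simp only [Finset.mem_range, not_lt] at hk
    have h3 := hq5 (2 * k + 1) (F (2 * k + 1)) (by omega) n (by
      show n < (p (2 * k + 1)).2
      omega)
    obtain ⟨r, hr, hrn⟩ := Finset.mem_image.1 h3
    obtain ⟨j, hj⟩ := hmem' (2 * k + 1) r hr
    exact ⟨j, by simp only; rw [hj, hrn]⟩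

theorem match_ample {L N M : Type} [MetricSpace L] [CompactSpace L] [Nonempty L] [Countable N]
    [Countable M] (x : N → L) (y : M → L)
    (hx : ∀ U : Set L, IsOpen U → U.Nonempty → {n | x n ∈ U}.Infinite)
    (hy : ∀ U : Set L, IsOpen U → U.Nonempty → {m | y m ∈ U}.Infinite) :
    ∃ σ : N ≃ M, ∀ ε : ℝ, 0 < ε → {n | ε ≤ dist (x n) (y (σ n))}.Finite := by
  classical
  have hN : Infinite N := by
    have h1 := hx univ isOpen_univ univ_nonempty
    rw [← Set.infinite_univ_iff]
    exact h1.mono (subset_univ _)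
  have hM : Infinite M := by
    have h1 := hy univ isOpen_univ univ_nonempty
    rw [← Set.infinite_univ_iff]
    exact h1.mono (subset_univ _)
  obtain ⟨eN⟩ : Nonempty (ℕ ≃ N) := nonempty_equiv_of_countable
  obtain ⟨eM⟩ : Nonempty (ℕ ≃ M) := nonempty_equiv_of_countable
  obtain ⟨p, hp, hb1, hb2⟩ := PC_bf (fun k n m => dist (x (eN n)) (y (eM m)) < 1 / ((k : ℝ) + 1))
    (by
      intro k n
      have h1 := hy (ball (x (eN n)) (1 / ((k : ℝ) + 1))) isOpen_ball
        ⟨x (eN n), mem_ball_self (by positivity)⟩
      have h2 : {m | dist (x (eN n)) (y (eM m)) < 1 / ((k : ℝ) + 1)} =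
          eM ⁻¹' {m | y m ∈ ball (x (eN n)) (1 / ((k : ℝ) + 1))} := by
        ext m
        simp only [mem_ofPred_eq, mem_preimage, mem_ball]
        rw [dist_comm]
      show {m | dist (x (eN n)) (y (eM m)) < 1 / ((k : ℝ) + 1)}.Infinite
      rw [h2]
      exact h1.preimage (by rw [eM.surjective.range_eq]; exact subset_univ _))
    (by
      intro k m
      have h1 := hx (ball (y (eM m)) (1 / ((k : ℝ) + 1))) isOpen_ball
        ⟨y (eM m), mem_ball_self (by positivity)⟩
      have h2 : {n | dist (x (eN n)) (y (eM m)) < 1 / ((k : ℝ) + 1)} =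
          eN ⁻¹' {n | x n ∈ ball (y (eM m)) (1 / ((k : ℝ) + 1))} := by
        ext n
        simp only [mem_ofPred_eq, mem_preimage, mem_ball]
      show {n | dist (x (eN n)) (y (eM m)) < 1 / ((k : ℝ) + 1)}.Infinite
      rw [h2]
      exact h1.preimage (by rw [eN.surjective.range_eq]; exact subset_univ _))
  let e1 : ℕ ≃ ℕ := Equiv.ofBijective _ hb1
  let e2 : ℕ ≃ ℕ := Equiv.ofBijective _ hb2
  refine ⟨((eN.symm.trans e1.symm).trans e2).trans eM, ?_⟩
  intro ε hε
  obtain ⟨K, hK⟩ := exists_nat_one_div_lt hε
  refine ((Set.finite_lt_nat K).image (fun k => eN (e1 k))).subset ?_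
  intro n hn
  have hn' : ε ≤ dist (x n) (y (eM (e2 (e1.symm (eN.symm n))))) := hn
  refine ⟨e1.symm (eN.symm n), ?_, ?_⟩
  · by_contra hk
    have hk' : K ≤ e1.symm (eN.symm n) := not_lt.1 hk
    have h3 := hp (e1.symm (eN.symm n))
    have h4 : (p (e1.symm (eN.symm n))).1 = eN.symm n := e1.apply_symm_apply (eN.symm n)
    have h5 : (p (e1.symm (eN.symm n))).2 = e2 (e1.symm (eN.symm n)) := rfl
    rw [h4, h5, Equiv.apply_symm_apply] at h3
    have h6 : 1 / (((e1.symm (eN.symm n) : ℕ) : ℝ) + 1) ≤ 1 / ((K : ℝ) + 1) := by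
      apply one_div_le_one_div_of_le (by positivity)
      have : (K : ℝ) ≤ ((e1.symm (eN.symm n) : ℕ) : ℝ) := by exact_mod_cast hk'
      linarith
    linarith
  · show eN (e1 (e1.symm (eN.symm n))) = n
    rw [Equiv.apply_symm_apply, Equiv.apply_symm_apply]

end LibCE75
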