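import Pool.Agent.LibCE75.Defs

set_option autoImplicit false

/-!
# Board CE75, row PN (MEDIUM, only Mathlib).  MP_6fa1a0_gt (cell-like equivalence of boundaries of CAT(0) groups).
Chair: helper75.  Deliver the whole file as CE75_PN.lean (team-store put), statements unchanged,
auxiliary lemmas private, no sorry, no axiom, no straight double quotation mark.

Nearest points: a good vertex space described by an asymptotic map to its remainder.
Here D is a good vertex space, K a compact metric space with an embedding kappa : K -> D onto the remainder, not empty.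
PLAN. Choose a metric on D (metrizableSpaceMetric). For n let a n be a k in K minimising dist (i n) (kappa k) (compactness). (1) For every
e > 0 only finitely many n have dist (i n) (kappa (a n)) >= e: otherwise the closed set of D of points at distance >= e from range
kappa contains infinitely many i n, but it is compact and all of its points are isolated points i n of D: finite. (2) so for a
filter l <= cofinite on N: i -> kappa k along l iff a -> k along l (kappa is an embedding, K compact). (3) if kappa k is in the closure of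
i '' A for all k, then for every nonempty open U in K infinitely many n in A have a n in U: kappa k, k in U, is a limit of
i n, n in A, along a filter; it is not a finite set of n since the points i n are closed and different from kappa k.
-/

namespace LibCE75

open Set Metric Topology Filter
open scoped NNReal

theorem nearest {N K D : Type} [TopologicalSpace K] [CompactSpace K]
    [TopologicalSpace.MetrizableSpace K] [Nonempty K] [TopologicalSpace D] (i : N → D)
    (hD : GoodVertex D i) (κ : K → D) (hκ : Continuous κ) (hκi : Function.Injective κ)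
    (hκr : range κ = (range i)ᶜ) :
    ∃ a : N → K, (∀ (l : Filter N) (k : K), l ≤ cofinite →
        (Tendsto i l (𝓝 (κ k)) ↔ Tendsto a l (𝓝 k))) ∧
      ∀ A : Set N, (∀ k, κ k ∈ closure (i '' A)) →
        ∀ U : Set K, IsOpen U → U.Nonempty → {n | n ∈ A ∧ a n ∈ U}.Infinite := by
  have hc := hD.compact
  have hm := hD.metrizable
  let _ : MetricSpace D := TopologicalSpace.metrizableSpaceMetric D
  have hemb : IsClosedEmbedding κ := hκ.isClosedEmbedding hκi
  have hne : ∀ n k, i n ≠ κ k := by
    intro n k h
    have h1 : κ k ∈ (range i)ᶜ := hκr ▸ mem_range_self k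
    exact h1 ⟨n, h⟩
  have hmin : ∀ n, ∃ k, ∀ k', dist (i n) (κ k) ≤ dist (i n) (κ k') := by
    intro n
    obtain ⟨k, -, hk⟩ := isCompact_univ.exists_isMinOn (univ_nonempty (α := K))
      (f := fun k => dist (i n) (κ k)) (continuous_const.dist hκ).continuousOn
    exact ⟨k, fun k' => hk (mem_univ k')⟩
  choose a ha using hmin
  have hfin : ∀ e : ℝ, 0 < e → {n | e ≤ dist (i n) (κ (a n))}.Finite := by
    intro e he
    have hC : IsClosed {x : D | ∀ k, e ≤ dist x (κ k)} := by
      simp only [Set.ofPred_forall]
      exact isClosed_iInter fun k => isClosed_le continuous_const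
        (continuous_id.dist continuous_const)
    have hsub : {x : D | ∀ k, e ≤ dist x (κ k)} ⊆ ⋃ w, {i w} := by
      intro x hx
      by_contra hcon
      have h1 : x ∈ (range i)ᶜ := by
        rintro ⟨w, rfl⟩
        exact hcon (mem_iUnion.2 ⟨w, rfl⟩)
      rw [← hκr] at h1
      obtain ⟨k, rfl⟩ := h1
      have h2 := hx k
      rw [dist_self] at h2
      linarith
    obtain ⟨t, ht⟩ := hC.isCompact.elim_finite_subcover _ (fun w => hD.isol w) hsub
    refine t.finite_toSet.subset ?_
    intro n hn
    have h1 : i n ∈ {x : D | ∀ k, e ≤ dist x (κ k)} := fun k => le_trans hn (ha n k)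
    obtain ⟨w, hw, hw'⟩ := mem_iUnion₂.1 (ht h1)
    rw [hD.inj (mem_singleton_iff.1 hw')]
    exact hw
  have key : ∀ (l : Filter N) (k : K), l ≤ cofinite →
      (Tendsto i l (𝓝 (κ k)) ↔ Tendsto a l (𝓝 k)) := by
    intro l k hl
    have h1 : Tendsto (fun n => dist (i n) (κ (a n))) l (𝓝 0) := by
      rw [Metric.tendsto_nhds]
      intro e he
      refine hl ?_
      refine ((hfin e he).subset ?_ : _)
      intro n hn
      have h2 : ¬ dist (dist (i n) (κ (a n))) 0 < e := hn
      rw [Real.dist_0_eq_abs, abs_of_nonneg dist_nonneg] at h2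
      exact not_lt.1 h2
    rw [tendsto_iff_of_dist h1]
    exact hemb.isEmbedding.tendsto_nhds_iff.symm
  refine ⟨a, key, ?_⟩
  rintro A hA U hU ⟨k, hk⟩ hinf
  have hl : comap i (𝓝 (κ k)) ⊓ 𝓟 A ≤ cofinite := by
    refine inf_le_left.trans ?_
    rw [le_cofinite_iff_compl_singleton_mem]
    intro n
    refine ⟨{i n}ᶜ, isOpen_compl_singleton.mem_nhds (fun h => hne n k h.symm), ?_⟩
    intro m hm hmn
    exact hm (congrArg i hmn)
  have hnb : (comap i (𝓝 (κ k)) ⊓ 𝓟 A).NeBot := by
    rw [inf_principal_neBot_iff]
    rintro W ⟨t, ht, htW⟩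
    obtain ⟨_, h1, n, hn, rfl⟩ := mem_closure_iff_nhds.1 (hA k) t ht
    exact ⟨n, htW h1, hn⟩
  have ht : Tendsto i (comap i (𝓝 (κ k)) ⊓ 𝓟 A) (𝓝 (κ k)) :=
    tendsto_comap.mono_left inf_le_left
  have h1 := (key _ k hl).1 ht (hU.mem_nhds hk)
  have h2 : A ∈ comap i (𝓝 (κ k)) ⊓ 𝓟 A := mem_inf_of_right (mem_principal_self A)
  have h3 := hl hinf.compl_mem_cofinite
  obtain ⟨n, h4, h5, h6⟩ := hnb.nonempty_of_mem (inter_mem h3 (inter_mem h2 h1))
  exact h4 ⟨h5, h6⟩

end LibCE75
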