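import Pool.Agent.LibCE75.Defs
import Pool.Agent.LibCE75.PC
import Pool.Agent.LibCE75.PN

set_option autoImplicit false

/-!
# Board CE75, row P0 (STRONG, cites PC, PN).  MP_6fa1a0_gt (cell-like equivalence of boundaries of CAT(0) groups).
Chair: helper75.  Deliver the whole file as CE75_P0.lean (team-store put), statements unchanged,
auxiliary lemmas private, no sorry, no axiom, no straight double quotation mark.

Pulling back a vertex space along a map onto its remainder.
PLAN. K empty: D = C, i = j, f = id. K nonempty: L = (range j)^c with a metric, b : M -> L from nearest (PN). Let d : Nat -> K be a dense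
sequence in which every value is repeated infinitely often; for each type class M_c (nonempty, then infinite by ampM: each point of L
is a limit) choose a bijection with Nat and get an ample map a_c : M_c -> K (every nonempty open U contains a_c m for infinitely many m in M_c).
match_ample for x = p o a_c (ample in L as p is onto L) and y = b on M_c gives s_c : M_c = M_c with dist (p (a_c m)) (b (s_c m)) -> 0; put a m' =
a_c (s_c^-1 m') for m' in M_c: a : M -> K with dist (p (a m)) (b m) -> 0 along cofinite (J finite), and a is ample on every class. D = the closed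
subspace range kappa union range i of K x OnePoint M (M discrete), kappa k = (k, infty), i m = (a m, m). GoodVertex: closed: D =
{(k, y) | forall m, y = m -> k = a m}; metrizable: K metrizable, OnePoint of a countable discrete space metrizable (M
countable: isolated points in a second countable space); isolated. ample on classes: for (k, infty): neighbourhoods U x
(complement of a finite set). f (k, infty) = p k, f (a m, m) = j m; continuity by ultrafilters as in P1 (PN for C).
-/

namespace LibCE75

open Set Metric Topology Filter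
open scoped NNReal

private theorem p0_class {N K L : Type} [Countable N] [MetricSpace K] [CompactSpace K]
    [Nonempty K] [MetricSpace L] [CompactSpace L] [Nonempty L] (q : K → L) (hq : Continuous q)
    (hqs : Function.Surjective q) (b : N → L)
    (hb : ∀ U : Set L, IsOpen U → U.Nonempty → {m | b m ∈ U}.Infinite) :
    ∃ a : N → K, (∀ ε : ℝ, 0 < ε → {m | ε ≤ dist (q (a m)) (b m)}.Finite) ∧
      ∀ U : Set K, IsOpen U → U.Nonempty → {m | a m ∈ U}.Infinite := by
  have hinf : Infinite N := by
    have h1 := hb univ isOpen_univ univ_nonempty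
    rw [← Set.infinite_univ_iff]
    exact h1.mono (subset_univ _)
  obtain ⟨hden⟩ := nonempty_denumerable N
  let e : N ≃ ℕ × ℕ := (Denumerable.eqv N).trans Nat.pairEquiv.symm
  let x0 : N → K := fun n => TopologicalSpace.denseSeq K (e n).1
  have hx0 : ∀ U : Set K, IsOpen U → U.Nonempty → {n | x0 n ∈ U}.Infinite := by
    intro U hU hne
    obtain ⟨r, hr⟩ := (TopologicalSpace.denseRange_denseSeq K).exists_mem_open hU hne
    refine Set.infinite_of_injective_forall_mem (f := fun s : ℕ => e.symm (r, s)) ?_ ?_
    · intro s t hst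
      have h2 := e.symm.injective hst
      exact (Prod.mk.inj h2).2
    · intro s
      show TopologicalSpace.denseSeq K (e (e.symm (r, s))).1 ∈ U
      rw [e.apply_symm_apply]
      exact hr
  obtain ⟨σ, hσ⟩ := match_ample (fun n => q (x0 n)) b (fun U hU hne => by
    refine hx0 (q ⁻¹' U) (hU.preimage hq) ?_
    obtain ⟨y, hy⟩ := hne
    obtain ⟨k, rfl⟩ := hqs y
    exact ⟨k, hy⟩) hb
  refine ⟨fun m => x0 (σ.symm m), fun ε hε => ?_, fun U hU hne => ?_⟩
  · refine ((hσ ε hε).image σ).subset ?_
    intro m hm
    refine ⟨σ.symm m, ?_, σ.apply_symm_apply m⟩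
    show ε ≤ dist (q (x0 (σ.symm m))) (b (σ (σ.symm m)))
    rw [σ.apply_symm_apply]
    exact hm
  · refine ((hx0 U hU hne).image σ.injective.injOn).mono ?_
    rintro _ ⟨n, hn, rfl⟩
    show x0 (σ.symm (σ n)) ∈ U
    rw [σ.symm_apply_apply]
    exact hn

private theorem p0_ampm {J M K L : Type} [Finite J] [Countable M] [MetricSpace K]
    [CompactSpace K] [Nonempty K] [MetricSpace L] [CompactSpace L] [Nonempty L] (q : K → L)
    (hq : Continuous q) (hqs : Function.Surjective q) (tM : M → J) (b : M → L)
    (hb : ∀ m₀ : M, ∀ U : Set L, IsOpen U → U.Nonempty →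
      {m | tM m = tM m₀ ∧ b m ∈ U}.Infinite) :
    ∃ a : M → K, (∀ ε : ℝ, 0 < ε → {m | ε ≤ dist (q (a m)) (b m)}.Finite) ∧
      ∀ m₀ : M, ∀ U : Set K, IsOpen U → U.Nonempty →
        {m | tM m = tM m₀ ∧ a m ∈ U}.Infinite := by
  have key : ∀ c : J, ∃ ac : {m // tM m = c} → K,
      (∀ ε : ℝ, 0 < ε → {m : {m // tM m = c} | ε ≤ dist (q (ac m)) (b m.1)}.Finite) ∧
      (Nonempty {m // tM m = c} → ∀ U : Set K, IsOpen U → U.Nonempty →
        {m | ac m ∈ U}.Infinite) := by
    intro c
    rcases isEmpty_or_nonempty {m // tM m = c} with h | ⟨⟨m₀, hm₀⟩⟩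
    · exact ⟨fun m => (h.false m).elim, fun ε _ => Set.toFinite _, fun h' =>
        (not_nonempty_iff.2 h h').elim⟩
    · obtain ⟨ac, h1, h2⟩ := p0_class (N := {m // tM m = c}) q hq hqs (fun m => b m.1) (by
        intro U hU hne
        have h3 := hb m₀ U hU hne
        intro hfin
        refine h3 ((hfin.image Subtype.val).subset ?_)
        rintro m ⟨hm1, hm2⟩
        exact ⟨⟨m, hm1.trans hm₀⟩, hm2, rfl⟩)
      exact ⟨ac, h1, fun _ => h2⟩
  choose ac h1 h2 using key
  have hac : ∀ (m : M) (c : J) (h : tM m = c), ac c ⟨m, h⟩ = ac (tM m) ⟨m, rfl⟩ := by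
    rintro m c rfl
    rfl
  refine ⟨fun m => ac (tM m) ⟨m, rfl⟩, fun ε hε => ?_, fun m₀ U hU hne => ?_⟩
  · have h3 : {m | ε ≤ dist (q (ac (tM m) ⟨m, rfl⟩)) (b m)} ⊆
        ⋃ c : J, Subtype.val '' {m : {m // tM m = c} | ε ≤ dist (q (ac c m)) (b m.1)} := by
      intro m hm
      exact Set.mem_iUnion.2 ⟨tM m, ⟨m, rfl⟩, hm, rfl⟩
    exact (Set.finite_iUnion fun c => (h1 c ε hε).image _).subset h3
  · have h4 := h2 (tM m₀) ⟨⟨m₀, rfl⟩⟩ U hU hne
    refine (h4.image Subtype.val_injective.injOn).mono ?_
    rintro _ ⟨⟨m, hm⟩, hmU, rfl⟩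
    refine ⟨hm, ?_⟩
    show ac (tM m) ⟨m, rfl⟩ ∈ U
    rw [← hac m _ hm]
    exact hmU

private theorem p0_amp {J M K L : Type} [Finite J] [Countable M] [TopologicalSpace K]
    [TopologicalSpace.MetrizableSpace K] [CompactSpace K] [Nonempty K] [TopologicalSpace L]
    [TopologicalSpace.MetrizableSpace L] [CompactSpace L] [Nonempty L] (q : K → L)
    (hq : Continuous q) (hqs : Function.Surjective q) (tM : M → J) (b : M → L)
    (hb : ∀ m₀ : M, ∀ U : Set L, IsOpen U → U.Nonempty →
      {m | tM m = tM m₀ ∧ b m ∈ U}.Infinite) :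
    ∃ a : M → K, (∀ (l : Filter M) (y : L), l ≤ cofinite →
      (Tendsto (fun m => q (a m)) l (𝓝 y) ↔ Tendsto b l (𝓝 y))) ∧
      ∀ m₀ : M, ∀ U : Set K, IsOpen U → U.Nonempty →
        {m | tM m = tM m₀ ∧ a m ∈ U}.Infinite := by
  let _ := TopologicalSpace.metrizableSpaceMetric K
  let _ := TopologicalSpace.metrizableSpaceMetric L
  obtain ⟨a, h1, h2⟩ := p0_ampm q hq hqs tM b hb
  refine ⟨a, fun l y hl => ?_, h2⟩
  have h3 : Tendsto (fun m => dist (q (a m)) (b m)) cofinite (𝓝 0) := by
    rw [Metric.tendsto_nhds]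
    intro ε hε
    rw [Filter.eventually_cofinite]
    refine (h1 ε hε).subset ?_
    intro m hm
    have h4 : ¬ dist (dist (q (a m)) (b m)) 0 < ε := hm
    rw [Real.dist_0_eq_abs, abs_of_nonneg dist_nonneg, not_lt] at h4
    exact h4
  exact tendsto_iff_of_dist (h3.mono_left hl)

private theorem p0_count {M C : Type} [TopologicalSpace C] [CompactSpace C]
    [TopologicalSpace.MetrizableSpace C] (j : M → C) (hj : Function.Injective j)
    (ho : ∀ m, IsOpen {j m}) : Countable M := by
  let _ := TopologicalSpace.metrizableSpaceMetric C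
  have h1 : (univ : Set M).PairwiseDisjoint (fun m => ({j m} : Set C)) := by
    intro m _ m' _ hne
    show Disjoint ({j m} : Set C) {j m'}
    rw [Set.disjoint_singleton]
    exact fun h => hne (hj h)
  have h2 := h1.countable_of_isOpen (fun m _ => ho m) (fun m _ => Set.singleton_nonempty _)
  exact Set.countable_univ_iff.1 h2

theorem typed_pullback {J M K C : Type} [Finite J] [TopologicalSpace K] [CompactSpace K]
    [TopologicalSpace.MetrizableSpace K] [TopologicalSpace C] (j : M → C)
    (hC : GoodVertex C j) (p : K → C) (hp : Continuous p) (hpr : range p = (range j)ᶜ)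
    (tM : M → J) (ampM : ∀ m₀, ∀ y ∉ range j, y ∈ closure (j '' {m | tM m = tM m₀})) :
    ∃ (D : Type) (_ : TopologicalSpace D) (i : M → D) (κ : K → D) (f : D → C),
      GoodVertex D i ∧ Continuous κ ∧ Function.Injective κ ∧ range κ = (range i)ᶜ ∧
      Continuous f ∧ (∀ m, f (i m) = j m) ∧ (∀ k, f (κ k) = p k) ∧
      ∀ m₀, ∀ x ∉ range i, x ∈ closure (i '' {m | tM m = tM m₀}) := by
  have hCc := hC.compact
  have hCm := hC.metrizable
  have hpk : ∀ k, p k ∉ range j := fun k => by
    have h1 : p k ∈ range p := ⟨k, rfl⟩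
    rwa [hpr] at h1
  rcases isEmpty_or_nonempty K with hK | hK
  · have hr : ∀ y, y ∈ range j := by
      intro y
      by_contra hy
      have h1 : y ∈ range p := by rw [hpr]; exact hy
      obtain ⟨k, -⟩ := h1
      exact hK.false k
    refine ⟨C, inferInstance, j, p, id, hC, hp, fun k => (hK.false k).elim, hpr, continuous_id,
      fun m => rfl, fun k => rfl, fun m₀ x hx => (hx (hr x)).elim⟩
  · have hopen : IsOpen (range j) := by
      have h1 : range j = ⋃ m, {j m} := by
        ext y
        simp [eq_comm]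
      rw [h1]
      exact isOpen_iUnion hC.isol
    have hLc : IsClosed {y : C | y ∉ range j} := hopen.isClosed_compl
    have hLcomp : CompactSpace {y : C // y ∉ range j} :=
      isCompact_iff_compactSpace.1 hLc.isCompact
    have hLmet : TopologicalSpace.MetrizableSpace {y : C // y ∉ range j} :=
      Topology.IsEmbedding.subtypeVal.metrizableSpace
    obtain ⟨q, hqd⟩ : ∃ q : K → {y : C // y ∉ range j}, q = fun k => ⟨p k, hpk k⟩ := ⟨_, rfl⟩
    have hq1 : ∀ k, (q k).1 = p k := fun k => by rw [hqd]
    have hq : Continuous q := by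
      rw [hqd]
      exact hp.subtype_mk _
    have hLne : Nonempty {y : C // y ∉ range j} := hK.map q
    have hqs : Function.Surjective q := by
      rintro ⟨y, hy⟩
      have h1 : y ∈ range p := by rw [hpr]; exact hy
      obtain ⟨k, hk⟩ := h1
      exact ⟨k, Subtype.ext ((hq1 k).trans hk)⟩
    have hcount : Countable M := p0_count j hC.inj hC.isol
    obtain ⟨b, hb1, hb2⟩ := nearest j hC (Subtype.val : {y : C // y ∉ range j} → C)
      continuous_subtype_val Subtype.val_injective (by
        ext y
        simp)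
    obtain ⟨a, ha1, ha2⟩ := p0_amp q hq hqs tM b (fun m₀ U hU hne =>
      hb2 {m | tM m = tM m₀} (fun y => ampM m₀ y.1 y.2) U hU hne)
    -- the space
    obtain ⟨I, hI⟩ : ∃ I : M → K × C, I = fun m => (a m, j m) := ⟨_, rfl⟩
    have hIinj : Function.Injective I := by
      intro m m' h
      rw [hI] at h
      exact hC.inj (Prod.mk.inj h).2
    obtain ⟨S, hS⟩ : ∃ S : Set (K × C), S = {x | x.2 = p x.1} ∪ range I := ⟨_, rfl⟩
    have hgr : IsClosed {x : K × C | x.2 = p x.1} :=
      isClosed_eq continuous_snd (hp.comp continuous_fst)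
    have hSc : IsClosed S := by
      rw [isClosed_iff_ultrafilter]
      rintro ⟨k, y⟩ u hu hSu
      rw [hS] at hSu ⊢
      rcases Ultrafilter.union_mem_iff.1 hSu with h1 | h1
      · exact Or.inl (isClosed_iff_ultrafilter.1 hgr _ u hu h1)
      · have hv : Tendsto I (u.comap hIinj h1 : Filter M) (𝓝 (k, y)) := by
          rw [Ultrafilter.coe_comap]
          exact tendsto_comap.mono_right hu
        obtain ⟨v, hvd⟩ : ∃ v : Ultrafilter M, v = u.comap hIinj h1 := ⟨_, rfl⟩
        rw [← hvd] at hv
        have hva : Tendsto a v (𝓝 k) := by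
          have := (continuous_fst.tendsto (k, y)).comp hv
          rw [hI] at this
          exact this
        have hvj : Tendsto j v (𝓝 y) := by
          have := (continuous_snd.tendsto (k, y)).comp hv
          rw [hI] at this
          exact this
        rcases v.le_cofinite_or_eq_pure with h2 | ⟨m₁, h2⟩
        · by_cases hy : y ∈ range j
          · obtain ⟨m₁, rfl⟩ := hy
            exfalso
            have h3 : {m | j m = j m₁} ∈ (v : Filter M) :=
              hvj ((hC.isol m₁).mem_nhds rfl)
            have h4 : {m₁}ᶜ ∈ (v : Filter M) := h2 (Set.finite_singleton m₁).compl_mem_cofinite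
            obtain ⟨m, hm1, hm2⟩ := v.nonempty_of_mem (Filter.inter_mem h3 h4)
            exact hm2 (hC.inj hm1)
          · left
            have h3 : Tendsto b v (𝓝 (⟨y, hy⟩ : {y : C // y ∉ range j})) :=
              (hb1 v ⟨y, hy⟩ h2).1 hvj
            have h4 := (ha1 v ⟨y, hy⟩ h2).2 h3
            have h5 : Tendsto (fun m => q (a m)) v (𝓝 (q k)) := (hq.tendsto k).comp hva
            have h6 := tendsto_nhds_unique h4 h5
            show y = p k
            rw [← hq1 k, ← h6]
        · right
          refine ⟨m₁, ?_⟩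
          rw [h2] at hv
          have h3 : Tendsto I (pure m₁) (𝓝 (I m₁)) := tendsto_pure_nhds I m₁
          exact tendsto_nhds_unique h3 hv
    have hScomp : CompactSpace S := isCompact_iff_compactSpace.1 hSc.isCompact
    have hmS : ∀ m, I m ∈ S := fun m => by rw [hS]; exact Or.inr ⟨m, rfl⟩
    have hkS : ∀ k, (k, p k) ∈ S := fun k => by rw [hS]; exact Or.inl rfl
    have hI1 : ∀ m, (I m).1 = a m := fun m => by rw [hI]
    have hI2 : ∀ m, (I m).2 = j m := fun m => by rw [hI]
    have hcase : ∀ x : S, (∃ k, x.1 = (k, p k)) ∨ ∃ m, x.1 = I m := by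
      rintro ⟨⟨k, y⟩, hx⟩
      rw [hS] at hx
      rcases hx with h1 | ⟨m, h1⟩
      · left
        refine ⟨k, ?_⟩
        have h2 : y = p k := h1
        show (k, y) = (k, p k)
        rw [h2]
      · right
        exact ⟨m, h1.symm⟩
    have hrange : (range fun k : K => (⟨(k, p k), hkS k⟩ : S)) =
        (range fun m : M => (⟨I m, hmS m⟩ : S))ᶜ := by
      ext x
      constructor
      · rintro ⟨k, rfl⟩ ⟨m, hm⟩
        have h1 : I m = (k, p k) := congrArg Subtype.val hm
        refine hpk k ⟨m, ?_⟩
        rw [← hI2, h1]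
      · intro hx
        rcases hcase x with ⟨k, hk⟩ | ⟨m, hm⟩
        · exact ⟨k, Subtype.ext hk.symm⟩
        · exact (hx ⟨m, Subtype.ext hm.symm⟩).elim
    refine ⟨S, inferInstance, fun m => ⟨I m, hmS m⟩, fun k => ⟨(k, p k), hkS k⟩, fun x => x.1.2,
      ⟨hScomp, inferInstance, ?_, ?_⟩, ?_, ?_, hrange, ?_, ?_, ?_, ?_⟩
    · intro m m' h
      exact hIinj (congrArg Subtype.val h)
    · intro m
      have h1 : ({(⟨I m, hmS m⟩ : S)} : Set S) = (fun x : S => x.1.2) ⁻¹' {j m} := by
        ext x
        constructor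
        · rintro rfl
          exact hI2 m
        · intro hx
          have hx' : x.1.2 = j m := hx
          rcases hcase x with ⟨k, hk⟩ | ⟨m', hm'⟩
          · exfalso
            rw [hk] at hx'
            exact hpk k ⟨m, hx'.symm⟩
          · rw [hm', hI2] at hx'
            rw [Set.mem_singleton_iff]
            apply Subtype.ext
            rw [hm', hC.inj hx']
      rw [h1]
      exact (hC.isol m).preimage (continuous_snd.comp continuous_subtype_val)
    · exact (continuous_id.prodMk hp).subtype_mk _
    · intro k k' h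
      exact (Prod.mk.inj (congrArg Subtype.val h)).1
    · exact continuous_snd.comp continuous_subtype_val
    · exact hI2
    · intro k
      rfl
    · intro m₀ x hx
      have hx' : x ∈ range fun k : K => (⟨(k, p k), hkS k⟩ : S) := by
        rw [hrange]
        exact hx
      obtain ⟨k, rfl⟩ := hx'
      have h1 : MapClusterPt k (cofinite ⊓ 𝓟 {m | tM m = tM m₀}) a := by
        rw [mapClusterPt_iff_frequently]
        intro s hs
        rw [Filter.frequently_inf_principal, Filter.frequently_cofinite_iff_infinite]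
        obtain ⟨U, hUs, hU, hkU⟩ := mem_nhds_iff.1 hs
        exact (ha2 m₀ U hU ⟨k, hkU⟩).mono fun m hm => ⟨hm.1, hUs hm.2⟩
      obtain ⟨u, hu1, hu2⟩ := mapClusterPt_iff_ultrafilter.1 h1
      have hu3 : (u : Filter M) ≤ cofinite := hu1.trans inf_le_left
      have hu4 : ∀ᶠ m in (u : Filter M), tM m = tM m₀ :=
        (hu1.trans inf_le_right) (Filter.mem_principal_self _)
      have h5 : Tendsto (fun m => q (a m)) u (𝓝 (q k)) := (hq.tendsto k).comp hu2
      have h6 := (ha1 u (q k) hu3).1 h5
      have h7 : Tendsto j u (𝓝 (p k)) := by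
        have h8 := (hb1 u (q k) hu3).2 h6
        rwa [hq1] at h8
      refine mem_closure_of_tendsto (b := (u : Filter M)) (f := fun m => (⟨I m, hmS m⟩ : S))
        ?_ (hu4.mono fun m hm => ⟨m, hm, rfl⟩)
      rw [tendsto_subtype_rng]
      show Tendsto (fun m => I m) u (𝓝 (k, p k))
      rw [hI]
      exact hu2.prodMk_nhds h7

end LibCE75
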