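import Pool.Agent.LibCE75.Defs
import Pool.Agent.LibCE75.PC
import Pool.Agent.LibCE75.PN

set_option autoImplicit false

/-!
# Board CE75, row P1 (STRONG, cites PC, PN).  MP_6fa1a0_gt (cell-like equivalence of boundaries of CAT(0) groups).
Chair: helper75.  Deliver the whole file as CE75_P1.lean (team-store put), statements unchanged,
auxiliary lemmas private, no sorry, no axiom, no straight double quotation mark.

Typed Pelczynski lemma with one prescribed value.
PLAN. K empty: then range i = univ, D is compact and discrete, N finite, same for C; take s = e corrected so that s n0 = m0 by composing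
with the swap of e n0 and m0 (same type), g = j o s o i^-1 (continuous as D is discrete). K nonempty: metric on L = range q as
a subspace of C (compact, nonempty); nearest (PN) for D gives a : N -> K, and for C with kappa the inclusion of the subspace
(range j)^c gives b : M -> L. For each type c in J with {n | tN n = c} nonempty: x = (q o a) restricted to N_c and y = b restricted to M_c are
ample in L (q continuous onto L; ampN, ampM; PN (3)); M_c is nonempty because of e; countable: isolated points of a second
countable space. match_ample gives s_c : N_c = M_c; glue (Equiv.sigmaFiberEquiv or Equiv.ofBijective) to s; correct one value by a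
swap of s n0 and m0 (this changes s at two points only). Asymptotics: for e > 0 only finitely many n have dist (q (a n)) (b (s n)) >= e
(J finite). g (i n) = j (s n), g (kappa k) = q k, well defined since range kappa is the complement of range i. Continuity of g: at
isolated points trivial. At kappa k: let l be an ultrafilter -> kappa k: either it contains range kappa: then continuity of q o
kappa^-1 (kappa is a closed embedding), or it contains range i; then pull back to an ultrafilter l' on N, not principal, so l' <=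
cofinite: a -> k, q (a n) -> q k, so b (s n) -> q k, s maps l' to an ultrafilter <= cofinite, so j (s n) -> q k (PN).
-/

namespace LibCE75

open Set Metric Topology Filter
open scoped NNReal

private theorem p1_countable {N D : Type} [TopologicalSpace D] (i : N → D) (hD : GoodVertex D i) :
    Countable N := by
  haveI := hD.compact
  haveI := hD.metrizable
  letI := TopologicalSpace.metrizableSpaceMetric D
  have h : (univ : Set N).PairwiseDisjoint (fun n => ({i n} : Set D)) := by
    intro a _ b _ hab
    simp only [Function.onFun, Set.disjoint_singleton]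
    exact fun h => hab (hD.inj h)
  have := Set.PairwiseDisjoint.countable_of_isOpen h (fun n _ => hD.isol n)
    (fun n _ => Set.singleton_nonempty _)
  exact Set.countable_univ_iff.1 this

/-- correcting one value -/
private theorem p1_swap {J N M : Type} (tN : N → J) (tM : M → J) (σ₀ : N ≃ M)
    (h : ∀ n, tM (σ₀ n) = tN n) (n₀ : N) (m₀ : M) (h0 : tN n₀ = tM m₀) :
    ∃ σ : N ≃ M, (∀ n, tM (σ n) = tN n) ∧ σ n₀ = m₀ ∧
      ∀ n, n ≠ n₀ → n ≠ σ₀.symm m₀ → σ n = σ₀ n := by
  classical
  refine ⟨σ₀.trans (Equiv.swap (σ₀ n₀) m₀), ?_, ?_, ?_⟩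
  · intro n
    rw [Equiv.trans_apply]
    by_cases h1 : σ₀ n = σ₀ n₀
    · rw [h1, Equiv.swap_apply_left, ← h0, σ₀.injective h1]
    by_cases h2 : σ₀ n = m₀
    · rw [h2, Equiv.swap_apply_right, h, h0, ← h n, h2]
    rw [Equiv.swap_apply_of_ne_of_ne h1 h2, h]
  · rw [Equiv.trans_apply, Equiv.swap_apply_left]
  · intro n h1 h2
    rw [Equiv.trans_apply]
    refine Equiv.swap_apply_of_ne_of_ne (fun h3 => h1 (σ₀.injective h3)) (fun h3 => h2 ?_)
    rw [← h3, Equiv.symm_apply_apply]

/-- the map -/
private theorem p1_map {N M K D C : Type} (i : N → D) (hi : Function.Injective i) (κ : K → D)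
    (hκi : Function.Injective κ) (hκr : range κ = (range i)ᶜ) (j : M → C) (q : K → C)
    (σ : N ≃ M) : ∃ g : D → C, (∀ n, g (i n) = j (σ n)) ∧ ∀ k, g (κ k) = q k := by
  classical
  have h1 : ∀ d, (∃ n, i n = d) ∨ ∃ k, κ k = d := by
    intro d
    by_cases h : d ∈ range i
    · exact Or.inl h
    · right
      have : d ∈ (range i)ᶜ := h
      rw [← hκr] at this
      exact this
  refine ⟨fun d => if h : ∃ n, i n = d then j (σ h.choose) else
    q ((h1 d).resolve_left h).choose, ?_, ?_⟩
  · intro n
    have h : ∃ n', i n' = i n := ⟨n, rfl⟩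
    show (if h : ∃ n', i n' = i n then j (σ h.choose) else _) = _
    rw [dif_pos h, hi h.choose_spec]
  · intro k
    have h : ¬ ∃ n', i n' = κ k := by
      intro h
      have : κ k ∈ (range i)ᶜ := by rw [← hκr]; exact mem_range_self k
      exact this h
    show (if h : ∃ n', i n' = κ k then _ else q ((h1 (κ k)).resolve_left h).choose) = _
    rw [dif_neg h]
    have h2 := ((h1 (κ k)).resolve_left h).choose_spec
    rw [hκi h2]

/-- the glued bijection -/
private theorem p1_glue {J N M L : Type} [Finite J] [MetricSpace L] (tN : N → J) (tM : M → J)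
    (x : N → L) (b : M → L)
    (h : ∀ c : J, ∃ σ : {n // tN n = c} ≃ {m // tM m = c}, ∀ ε : ℝ, 0 < ε →
      {n : {n // tN n = c} | ε ≤ dist (x n) (b (σ n))}.Finite) :
    ∃ σ : N ≃ M, (∀ n, tM (σ n) = tN n) ∧
      ∀ ε : ℝ, 0 < ε → {n | ε ≤ dist (x n) (b (σ n))}.Finite := by
  choose s hs using h
  let σ : N ≃ M := (Equiv.sigmaFiberEquiv tN).symm.trans
    ((Equiv.sigmaCongrRight s).trans (Equiv.sigmaFiberEquiv tM))
  have hσ : ∀ n, σ n = (s (tN n) ⟨n, rfl⟩ : M) := fun n => rfl
  refine ⟨σ, fun n => ?_, fun ε hε => ?_⟩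
  · rw [hσ]; exact (s (tN n) ⟨n, rfl⟩).2
  · have h1 : {n | ε ≤ dist (x n) (b (σ n))} ⊆
        ⋃ c : J, Subtype.val '' {n : {n // tN n = c} | ε ≤ dist (x n) (b (s c n))} := by
      intro n hn
      refine mem_iUnion.2 ⟨tN n, ⟨n, rfl⟩, ?_, rfl⟩
      have : ε ≤ dist (x n) (b (σ n)) := hn
      rw [hσ] at this
      exact this
    exact (Set.finite_iUnion fun c => (hs c ε hε).image _).subset h1

theorem typed_match {J N M K D C : Type} [Finite J]
    [TopologicalSpace K] [CompactSpace K] [TopologicalSpace.MetrizableSpace K]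
    [TopologicalSpace D] [TopologicalSpace C]
    (i : N → D) (hD : GoodVertex D i) (κ : K → D) (hκ : Continuous κ)
    (hκi : Function.Injective κ) (hκr : range κ = (range i)ᶜ) (j : M → C)
    (hC : GoodVertex C j) (q : K → C) (hq : Continuous q) (hqr : range q = (range j)ᶜ)
    (tN : N → J) (tM : M → J) (e : N ≃ M) (he : ∀ n, tM (e n) = tN n)
    (ampN : ∀ n₀, ∀ x ∉ range i, x ∈ closure (i '' {n | tN n = tN n₀}))
    (ampM : ∀ m₀, ∀ y ∉ range j, y ∈ closure (j '' {m | tM m = tM m₀})) (n₀ : N) (m₀ : M)
    (h0 : tN n₀ = tM m₀) :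
    ∃ (σ : N ≃ M) (g : D → C), (∀ n, tM (σ n) = tN n) ∧ σ n₀ = m₀ ∧ Continuous g ∧
      (∀ n, g (i n) = j (σ n)) ∧ ∀ k, g (κ k) = q k := by
  haveI := hD.compact
  haveI := hD.metrizable
  haveI := hC.compact
  haveI := hC.metrizable
  have hopen : ∀ (g : D → C) n, ContinuousAt g (i n) := by
    intro g n
    have h1 : 𝓝 (i n) = pure (i n) := (isOpen_singleton_iff_nhds_eq_pure _).1 (hD.isol n)
    rw [ContinuousAt, h1]
    exact tendsto_pure_nhds _ _
  have hmem : ∀ d, d ∈ range i ∨ d ∈ range κ := by
    intro d
    rw [hκr]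
    exact em _
  rcases isEmpty_or_nonempty K with hK | hK
  · obtain ⟨σ, hσ, hσ0, -⟩ := p1_swap tN tM e he n₀ m₀ h0
    obtain ⟨g, hg1, hg2⟩ := p1_map i hD.inj κ hκi hκr j q σ
    refine ⟨σ, g, hσ, hσ0, continuous_iff_continuousAt.2 fun d => ?_, hg1, hg2⟩
    rcases hmem d with ⟨n, rfl⟩ | ⟨k, -⟩
    · exact hopen g n
    · exact (hK.false k).elim
  · letI mC : MetricSpace C := TopologicalSpace.metrizableSpaceMetric C
    -- the remainder of `C`
    let L : Type := ↥(range q)
    haveI : CompactSpace L := isCompact_iff_compactSpace.1 (isCompact_range hq)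
    haveI : Nonempty L := ⟨⟨q hK.some, mem_range_self _⟩⟩
    let q' : K → L := fun k => ⟨q k, mem_range_self k⟩
    have hq' : Continuous q' := hq.subtype_mk _
    have hLr : range (Subtype.val : L → C) = (range j)ᶜ := by
      rw [Subtype.range_val, hqr]
    obtain ⟨a, ha1, ha2⟩ := nearest i hD κ hκ hκi hκr
    obtain ⟨b, hb1, hb2⟩ := nearest j hC (Subtype.val : L → C) continuous_subtype_val
      Subtype.val_injective hLr
    haveI := p1_countable i hD
    haveI := p1_countable j hC
    have hκn : ∀ k, κ k ∉ range i := by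
      intro k
      have : κ k ∈ (range i)ᶜ := by rw [← hκr]; exact mem_range_self k
      exact this
    have hLn : ∀ l : L, (l : C) ∉ range j := by
      intro l
      have : (l : C) ∈ (range j)ᶜ := by rw [← hLr]; exact mem_range_self l
      exact this
    have key : ∀ c : J, ∃ σ : {n // tN n = c} ≃ {m // tM m = c}, ∀ ε : ℝ, 0 < ε →
        {n : {n // tN n = c} | ε ≤ dist (q' (a n)) (b (σ n))}.Finite := by
      intro c
      rcases isEmpty_or_nonempty {n // tN n = c} with hc | ⟨⟨n₁, hn₁⟩⟩
      · refine ⟨e.subtypeEquiv (fun n => by rw [he]), fun ε _ => ?_⟩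
        exact Set.toFinite _
      · refine match_ample (fun n : {n // tN n = c} => q' (a n)) (fun m : {m // tM m = c} => b m)
          ?_ ?_
        · intro U hU hUn
          have h1 : (q' ⁻¹' U).Nonempty := by
            obtain ⟨⟨l, k, rfl⟩, hl⟩ := hUn
            exact ⟨k, hl⟩
          have h2 := ha2 {n | tN n = tN n₁} (fun k => ampN n₁ _ (hκn k)) (q' ⁻¹' U)
            (hU.preimage hq') h1
          have h3 : {n | n ∈ {n | tN n = tN n₁} ∧ a n ∈ q' ⁻¹' U} ⊆
              Subtype.val '' {n : {n // tN n = c} | q' (a n) ∈ U} := by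
            rintro n ⟨h4, h5⟩
            exact ⟨⟨n, by rw [← hn₁]; exact h4⟩, h5, rfl⟩
          exact fun h4 => h2 ((h4.image _).subset h3)
        · intro U hU hUn
          have hm : tM (e n₁) = c := by rw [he, hn₁]
          have h2 := hb2 {m | tM m = tM (e n₁)} (fun l => ampM (e n₁) _ (hLn l)) U hU hUn
          have h3 : {m | m ∈ {m | tM m = tM (e n₁)} ∧ b m ∈ U} ⊆
              Subtype.val '' {m : {m // tM m = c} | b m ∈ U} := by
            rintro m ⟨h4, h5⟩
            exact ⟨⟨m, by rw [← hm]; exact h4⟩, h5, rfl⟩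
          exact fun h4 => h2 ((h4.image _).subset h3)
    obtain ⟨σ₀, hσ₀, hfin⟩ := p1_glue tN tM (fun n => q' (a n)) b key
    obtain ⟨σ, hσ, hσ0, hσe⟩ := p1_swap tN tM σ₀ hσ₀ n₀ m₀ h0
    have hfin' : ∀ ε : ℝ, 0 < ε → {n | ε ≤ dist (q' (a n)) (b (σ n))}.Finite := by
      intro ε hε
      refine ((hfin ε hε).union (Set.toFinite {n₀, σ₀.symm m₀})).subset ?_
      intro n hn
      by_cases h1 : n = n₀
      · right; left; exact h1
      by_cases h2 : n = σ₀.symm m₀
      · right; right; exact h2
      left
      have : ε ≤ dist (q' (a n)) (b (σ n)) := hn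
      rw [hσe n h1 h2] at this
      exact this
    have hdist : Tendsto (fun n => dist (q' (a n)) (b (σ n))) cofinite (𝓝 0) := by
      rw [Metric.tendsto_nhds]
      intro ε hε
      rw [Filter.eventually_cofinite]
      refine (hfin' ε hε).subset fun n hn => ?_
      have h1 : ¬ dist (dist (q' (a n)) (b (σ n))) 0 < ε := hn
      rw [Real.dist_0_eq_abs, abs_of_nonneg dist_nonneg, not_lt] at h1
      exact h1
    obtain ⟨g, hg1, hg2⟩ := p1_map i hD.inj κ hκi hκr j q σ
    refine ⟨σ, g, hσ, hσ0, continuous_iff_continuousAt.2 fun d => ?_, hg1, hg2⟩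
    rcases hmem d with ⟨n, rfl⟩ | ⟨k, rfl⟩
    · exact hopen g n
    -- continuity at a point of the remainder
    have hemb : IsEmbedding κ := (hκ.isClosedEmbedding hκi).isEmbedding
    have hsplit : 𝓝 (κ k) = map κ (comap κ (𝓝 (κ k))) ⊔ map i (comap i (𝓝 (κ k))) := by
      rw [Filter.map_comap, Filter.map_comap, hκr, ← inf_sup_left, sup_principal,
        Set.compl_union_self, principal_univ, inf_top_eq]
    rw [ContinuousAt, hg2, hsplit]
    refine Tendsto.sup ?_ ?_
    · rw [tendsto_map'_iff]
      have h1 : g ∘ κ = q := funext hg2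
      rw [h1, ← hemb.isInducing.nhds_eq_comap]
      exact hq.continuousAt
    · rw [tendsto_map'_iff]
      have h1 : g ∘ i = j ∘ σ := funext hg1
      rw [h1]
      set l : Filter N := comap i (𝓝 (κ k)) with hl
      have hlc : l ≤ cofinite := by
        rw [Filter.le_cofinite_iff_compl_singleton_mem]
        intro n
        rw [hl, Filter.mem_comap]
        refine ⟨{i n}ᶜ, isOpen_compl_singleton.mem_nhds ?_, ?_⟩
        · intro h2
          exact hκn k ⟨n, h2.symm⟩
        · intro n' hn' h2
          exact hn' (by rw [Set.mem_singleton_iff] at h2 ⊢; rw [h2])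
      have hil : Tendsto i l (𝓝 (κ k)) := tendsto_comap
      have hal : Tendsto a l (𝓝 k) := (ha1 l k hlc).1 hil
      have hxl : Tendsto (fun n => q' (a n)) l (𝓝 (q' k)) := (hq'.tendsto k).comp hal
      have hbl : Tendsto (fun n => b (σ n)) l (𝓝 (q' k)) := by
        rw [tendsto_iff_dist_tendsto_zero] at hxl ⊢
        have h2 : Tendsto (fun n => dist (q' (a n)) (b (σ n)) + dist (q' (a n)) (q' k)) l (𝓝 0) := by
          have := (hdist.mono_left hlc).add hxl
          rwa [add_zero] at this
        refine squeeze_zero (fun _ => dist_nonneg) (fun n => ?_) h2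
        calc dist (b (σ n)) (q' k) ≤ dist (b (σ n)) (q' (a n)) + dist (q' (a n)) (q' k) :=
              dist_triangle _ _ _
          _ = _ := by rw [dist_comm (b (σ n))]
      have hσl : map σ l ≤ cofinite := (map_mono hlc).trans σ.injective.tendsto_cofinite
      have h3 : Tendsto b (map σ l) (𝓝 (q' k)) := by
        rw [tendsto_map'_iff]; exact hbl
      have h4 := (hb1 (map σ l) (q' k) hσl).2 h3
      rw [tendsto_map'_iff] at h4
      exact h4

end LibCE75
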