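import Pool.Agent.LibCE75.Defs

set_option autoImplicit false

/-!
# Board CE75, row PF (SHORT, only Mathlib).  MP_6fa1a0_gt (cell-like equivalence of boundaries of CAT(0) groups).
Chair: helper75.  Deliver the whole file as CE75_PF.lean (team-store put), statements unchanged,
auxiliary lemmas private, no sorry, no axiom, no straight double quotation mark.

Fibres of the extended map over the remainder.
PLAN. y not in range j. A point x of D with f x = y is not i m (f (i m) is in range j), so x = kappa k with f (kappa k) = p k = y. kappa is an embedding (compact to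
Hausdorff, D is metrizable by hD) so it restricts to a homeomorphism of p^-1 {y} onto f^-1 {y}. Second: if f x in range j then x in range i: otherwise x = kappa k
and f x = p k not in range j by hpr.
-/

namespace LibCE75

open Set Metric Topology Filter
open scoped NNReal

theorem fibre_homeo {M N K D C : Type} [TopologicalSpace K] [CompactSpace K]
    [TopologicalSpace D] [TopologicalSpace C] (i : N → D) (hD : GoodVertex D i) (κ : K → D)
    (hκ : Continuous κ) (hκi : Function.Injective κ) (hκr : range κ = (range i)ᶜ) (j : M → C)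
    (f : D → C) (p : K → C) (hfi : ∀ n, f (i n) ∈ range j) (hfκ : ∀ k, f (κ k) = p k) (y : C)
    (hy : y ∉ range j) : Nonempty ((p ⁻¹' {y}) ≃ₜ (f ⁻¹' {y})) := by
  haveI := hD.metrizable
  have hemb : IsClosedEmbedding κ := hκ.isClosedEmbedding hκi
  have hmap : ∀ k : K, k ∈ p ⁻¹' {y} → κ k ∈ f ⁻¹' {y} := by
    intro k hk
    rw [mem_preimage, hfκ]
    exact hk
  have hsurj : ∀ x : (f ⁻¹' {y}), ∃ k : (p ⁻¹' {y}), κ k.1 = x.1 := by
    intro x
    have hxr : x.1 ∈ range κ := by
      rw [hκr]
      rintro ⟨n, hn⟩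
      apply hy
      have h1 := hfi n
      rw [hn] at h1
      have h2 : f x.1 = y := x.2
      rwa [h2] at h1
    obtain ⟨k, hk⟩ := hxr
    refine ⟨⟨k, ?_⟩, hk⟩
    rw [mem_preimage, ← hfκ, hk]
    exact x.2
  let F : (p ⁻¹' {y}) → (f ⁻¹' {y}) := fun k => ⟨κ k.1, hmap k.1 k.2⟩
  have hFemb : IsEmbedding F := by
    have h1 : IsEmbedding (fun k : (p ⁻¹' {y}) => κ k.1) :=
      hemb.isEmbedding.comp IsEmbedding.subtypeVal
    exact IsEmbedding.of_comp (Continuous.subtype_mk h1.continuous _) continuous_subtype_val h1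
  have hFs : Function.Surjective F := by
    intro x
    obtain ⟨k, hk⟩ := hsurj x
    exact ⟨k, Subtype.ext hk⟩
  exact ⟨hFemb.toHomeomorphOfSurjective hFs⟩

theorem not_range_of_not_range {M N K D C : Type} (i : N → D) (κ : K → D)
    (hκr : range κ = (range i)ᶜ) (j : M → C) (f : D → C) (p : K → C)
    (hpr : range p = (range j)ᶜ) (hfκ : ∀ k, f (κ k) = p k) (x : D) (hx : x ∉ range i) :
    f x ∉ range j := by
  have h1 : x ∈ range κ := by rw [hκr]; exact hx
  obtain ⟨k, rfl⟩ := h1
  rw [hfκ]
  have h2 : p k ∈ range p := ⟨k, rfl⟩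
  rw [hpr] at h2
  exact h2

end LibCE75
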