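import Pool.Agent.LibCE75.Defs
import Pool.Agent.LibCE75.TR1
import Pool.Agent.LibCE75.TR2

set_option autoImplicit false

/-!
# Board CE75, row RC (STRONG, cites TR1, TR2).  MP_6fa1a0_gt (cell-like equivalence of boundaries of CAT(0) groups).
Chair: helper75.  Deliver the whole file as CE75_RC.lean (team-store put), statements unchanged,
auxiliary lemmas private, no sorry, no axiom, no straight double quotation mark.

Building a tree automorphism from local matchings.
PLAN. Root r (V is nonempty: T.IsTree connected), par u = dir T u r for u not r (it is the neighbour nearer to r; T.dist (par u) r < T.dist u r). Define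
phi by recursion on T.dist u r (WellFounded.fix), together with the matching at each vertex: phi r = r with the matching s_r from H r r (n0 = m0
any neighbour of r); for u not r: p = par u, phi u = s_p (u) where s_p : Nb p = Nb (phi p) is the matching at p, and the matching s_u at u
is the one given by H u (phi u) with n0 = p, m0 = phi p: it maps p to phi p. To organise: define for every u the data (u', s : Nb u = Nb u')
recursively as an element of Sigma type {u' // ty u = ty u'} with s; types: ty (s w) = ty w. Facts: for T.Adj u w: s_u w = phi w: if w is a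
child of u (par w = u) by definition; if u is a child of w (par u = w) by the prescribed value. (For an edge u, w exactly one of
dir u r = w, dir w r = u holds: dir_iff.) So phi preserves adjacency (T.Adj u w -> T.Adj (phi u) (phi w)) and the map Nb u -> Nb (phi u) is the bijection s_u. phi injective:
phi maps the path from r to u to a walk without backtracking, so a path: if phi u = phi u' induct: T.dist (phi u) (phi r) = T.dist u r, and
par (phi u) = phi (par u) (because phi (par u) is adjacent to phi u and nearer to r), so phi (par u) = phi (par u') -> par u = par u' -> (s injective)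
u = u'. surjective: induct on T.dist u' r: par u' = phi p, u' in Nb (phi p), s_p surjective. Adjacency iff: if phi v, phi w adjacent then w' = s_v^-1 (phi
w) is adjacent to v with phi w' = phi w, so w' = w.
-/

namespace LibCE75

open Set Metric Topology Filter
open scoped NNReal

variable {V J : Type} {T : SimpleGraph V} {ty : V → J}
  {Pr : ∀ v v', (Nb T v → Nb T v') → Prop}

private structure St (T : SimpleGraph V) (ty : V → J)
    (Pr : ∀ v v', (Nb T v → Nb T v') → Prop) (v : V) where
  tgt : V
  ht : ty v = ty tgt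
  σ : Nb T v ≃ Nb T tgt
  hσ : ∀ w, ty (σ w).1 = ty w.1
  hPr : Pr v tgt σ

private theorem step_exists
    (H : ∀ v v', ty v = ty v' → ∀ (n₀ : Nb T v) (m₀ : Nb T v'), ty n₀.1 = ty m₀.1 →
      ∃ σ : Nb T v ≃ Nb T v', (∀ w, ty (σ w).1 = ty w.1) ∧ σ n₀ = m₀ ∧ Pr v v' σ)
    {v w : V} (h : T.Adj v w) (s : St T ty Pr v) :
    ∃ t : St T ty Pr w, t.tgt = (s.σ ⟨w, h⟩).1 ∧ (t.σ ⟨v, h.symm⟩).1 = s.tgt := by
  obtain ⟨τ, h1, h2, h3⟩ := H w (s.σ ⟨w, h⟩).1 (s.hσ ⟨w, h⟩).symm ⟨v, h.symm⟩
    ⟨s.tgt, (s.σ ⟨w, h⟩).2.symm⟩ s.ht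
  exact ⟨⟨_, (s.hσ ⟨w, h⟩).symm, τ, h1, h3⟩, rfl, congrArg Subtype.val h2⟩

private noncomputable def step
    (H : ∀ v v', ty v = ty v' → ∀ (n₀ : Nb T v) (m₀ : Nb T v'), ty n₀.1 = ty m₀.1 →
      ∃ σ : Nb T v ≃ Nb T v', (∀ w, ty (σ w).1 = ty w.1) ∧ σ n₀ = m₀ ∧ Pr v v' σ)
    {v w : V} (h : T.Adj v w) (s : St T ty Pr v) : St T ty Pr w :=
  (step_exists H h s).choose

private noncomputable def go
    (H : ∀ v v', ty v = ty v' → ∀ (n₀ : Nb T v) (m₀ : Nb T v'), ty n₀.1 = ty m₀.1 →
      ∃ σ : Nb T v ≃ Nb T v', (∀ w, ty (σ w).1 = ty w.1) ∧ σ n₀ = m₀ ∧ Pr v v' σ) :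
    ∀ {u v : V}, T.Walk u v → St T ty Pr u → St T ty Pr v
  | _, _, .nil, s => s
  | _, _, .cons h p, s => go H p (step H h s)

private theorem go_concat
    (H : ∀ v v', ty v = ty v' → ∀ (n₀ : Nb T v) (m₀ : Nb T v'), ty n₀.1 = ty m₀.1 →
      ∃ σ : Nb T v ≃ Nb T v', (∀ w, ty (σ w).1 = ty w.1) ∧ σ n₀ = m₀ ∧ Pr v v' σ)
    {u v w : V} (p : T.Walk u v) (h : T.Adj v w) (s : St T ty Pr u) :
    go H (p.concat h) s = step H h (go H p s) := by
  induction p with
  | nil => rfl
  | cons h' p ih => exact ih h (step H h' s)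

private theorem dir_cons (hT : T.IsTree) {u x w : V} (h : T.Adj u x) (q : T.Walk x w)
    (hq : (SimpleGraph.Walk.cons h q).IsPath) : dir T u w = x := by
  have hex : ∃ p : T.Walk u w, p.IsPath := ⟨_, hq⟩
  unfold dir
  rw [dif_pos hex]
  have : hex.choose = SimpleGraph.Walk.cons h q :=
    (hT.existsUnique_path u w).unique hex.choose_spec hq
  rw [this]
  exact SimpleGraph.Walk.snd_cons _ _

theorem exists_automorphism {V J : Type} {T : SimpleGraph V} (hT : T.IsTree)
    (hnb : ∀ v, Nonempty (Nb T v)) (ty : V → J) (Pr : ∀ v v', (Nb T v → Nb T v') → Prop)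
    (H : ∀ v v', ty v = ty v' → ∀ (n₀ : Nb T v) (m₀ : Nb T v'), ty n₀.1 = ty m₀.1 →
      ∃ σ : Nb T v ≃ Nb T v', (∀ w, ty (σ w).1 = ty w.1) ∧ σ n₀ = m₀ ∧ Pr v v' σ) :
    ∃ φ : V ≃ V, ∃ hφ : ∀ v w, T.Adj v w ↔ T.Adj (φ v) (φ w), (∀ v, ty (φ v) = ty v) ∧
      ∀ v, Pr v (φ v) (fun w => ⟨φ w.1, (hφ v w.1).1 w.2⟩) := by
  classical
  obtain ⟨r⟩ := hT.1.nonempty
  obtain ⟨n₀⟩ := hnb r
  obtain ⟨σr, hr1, hr2, hr3⟩ := H r r rfl n₀ n₀ rfl
  let sr : St T ty Pr r := ⟨r, rfl, σr, hr1, hr3⟩
  let pa : ∀ u, T.Walk r u := fun u => (hT.existsUnique_path r u).choose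
  have hpa : ∀ u, (pa u).IsPath := fun u => (hT.existsUnique_path r u).choose_spec.1
  let st : ∀ u, St T ty Pr u := fun u => go H (pa u) sr
  let f : V → V := fun u => (st u).tgt
  have hfr : f r = r := by
    have : pa r = SimpleGraph.Walk.nil :=
      (hT.existsUnique_path r r).unique (hpa r) SimpleGraph.Walk.IsPath.nil
    change (go H (pa r) sr).tgt = r
    rw [this]
    rfl
  have hstep : ∀ {u w : V} (h : T.Adj u w), u ∈ (pa w).support →
      st w = step H h (st u) := by
    intro u w h hu
    have : pa w = (pa u).concat h := hT.isAcyclic.path_concat (hpa u) (hpa w) h hu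
    change go H (pa w) sr = _
    rw [this, go_concat]
  have hσ : ∀ {u w : V} (h : T.Adj u w), ((st u).σ ⟨w, h⟩).1 = f w := by
    intro u w h
    by_cases hu : u ∈ (pa w).support
    · change _ = (st w).tgt
      rw [hstep h hu]
      exact (step_exists H h (st u)).choose_spec.1.symm
    · have hw : w ∈ (pa u).support :=
        hT.isAcyclic.mem_support_of_ne_mem_support_of_adj_of_isPath (hpa u) (hpa w) h hu
      have h2 := (step_exists H h.symm (st w)).choose_spec.2
      rw [hstep h.symm hw]
      exact h2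
  have hadj : ∀ {u w : V}, T.Adj u w → T.Adj (f u) (f w) := by
    intro u w h
    have := ((st u).σ ⟨w, h⟩).2
    rw [hσ h] at this
    exact this
  have hloc : ∀ {u w w' : V}, T.Adj u w → T.Adj u w' → f w = f w' → w = w' := by
    intro u w w' h h' he
    have : (st u).σ ⟨w, h⟩ = (st u).σ ⟨w', h'⟩ := Subtype.ext (by rw [hσ h, hσ h', he])
    exact congrArg Subtype.val ((st u).σ.injective this)
  have key : ∀ {u w : V} (p : T.Walk u w), p.IsPath → u ≠ w →
      f u ≠ f w ∧ dir T (f u) (f w) = f (dir T u w) := by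
    intro u w p
    induction p with
    | nil => intro _ h; exact absurd rfl h
    | @cons u x w h q ih =>
      intro hp huw
      have hd : dir T u w = x := dir_cons hT h q hp
      rw [hd]
      have hdd : dir T (f u) (f w) = f x := by
        by_cases hxw : x = w
        · subst hxw
          exact dir_of_adj hT (hadj h)
        · have hq := (SimpleGraph.Walk.cons_isPath_iff h q).1 hp
          obtain ⟨h1, h2⟩ := ih hq.1 hxw
          rw [dir_iff hT (hadj h), h2]
          intro he
          have h3 : T.Adj x (dir T x w) := dir_adj hT hxw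
          have h4 := hloc h3 h.symm he
          have h5 : dir T u w ≠ x := by
            rw [ne_eq, dir_iff hT h, h4]
            simp
          exact h5 hd
      refine ⟨fun he => ?_, hdd⟩
      rw [← he, dir_self hT] at hdd
      exact (hadj h).ne hdd
  have hinj : Function.Injective f := by
    intro u w he
    by_contra hne
    obtain ⟨p, hp, -⟩ := hT.existsUnique_path u w
    exact (key p hp hne).1 he
  have hsurj : Function.Surjective f := by
    have hw : ∀ {a b : V} (p : T.Walk a b), (∃ u, f u = a) → ∃ w, f w = b := by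
      intro a b p
      induction p with
      | nil => exact fun h => h
      | @cons a c b h q ih =>
        rintro ⟨u, rfl⟩
        refine ih ⟨((st u).σ.symm ⟨c, h⟩).1, ?_⟩
        have h1 := hσ ((st u).σ.symm ⟨c, h⟩).2
        have h2 : (st u).σ ((st u).σ.symm ⟨c, h⟩) = ⟨c, h⟩ := Equiv.apply_symm_apply _ _
        rw [← h1]
        exact congrArg Subtype.val h2
    intro b
    exact hw (pa b) ⟨r, hfr⟩
  have hadj' : ∀ v w, T.Adj v w ↔ T.Adj (f v) (f w) := by
    intro v w
    refine ⟨hadj, fun h => ?_⟩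
    have h1 := hσ ((st v).σ.symm ⟨f w, h⟩).2
    have h2 : (st v).σ ((st v).σ.symm ⟨f w, h⟩) = ⟨f w, h⟩ := Equiv.apply_symm_apply _ _
    have h3 : f ((st v).σ.symm ⟨f w, h⟩).1 = f w := by
      rw [← h1]
      exact congrArg Subtype.val h2
    rw [← hinj h3]
    exact ((st v).σ.symm ⟨f w, h⟩).2
  refine ⟨Equiv.ofBijective f ⟨hinj, hsurj⟩, hadj', fun v => (st v).ht.symm, fun v => ?_⟩
  have h1 := (st v).hPr
  have h2 : ((st v).σ : Nb T v → Nb T (st v).tgt) =
      fun w => ⟨f w.1, (hadj' v w.1).1 w.2⟩ := funext fun w => Subtype.ext (hσ w.2)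
  rw [h2] at h1
  exact h1

end LibCE75
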