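import Pool.Agent.LibCE75.Defs

set_option autoImplicit false

/-!
# Board CE75, row Z1 (SHORT/MEDIUM, only Mathlib).  MP_6fa1a0_gt (cell-like equivalence of boundaries of CAT(0) groups).
Chair: helper75.  Deliver the whole file as CE75_Z1.lean (team-store put), statements unchanged,
auxiliary lemmas private, no sorry, no axiom, no straight double quotation mark.

The space of a tree of spaces is compact and metrizable.
PLAN. Closed subset of the product: for T.Adj v w the sets {z | z v = i v w} are clopen (points i v w are open and closed). Compact by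
Tychonoff. Countable product of metrizable spaces is metrizable (second countable + regular Hausdorff, or
PiCountable / UniformSpace); a compact metrizable space is second countable.
-/

namespace LibCE75

open Set Metric Topology Filter
open scoped NNReal

private theorem Z1_closed {V : Type} (T : SimpleGraph V) (D : V → Type)
    [∀ v, TopologicalSpace (D v)] (i : ∀ v, Nb T v → D v) (hD : ∀ v, GoodVertex (D v) (i v)) :
    IsClosed {z : ∀ v, D v | ∀ (v w : V) (h : T.Adj v w),
      z v = i v ⟨w, h⟩ ↔ z w ≠ i w ⟨v, h.symm⟩} := by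
  have hcl : ∀ (v : V) (p : Nb T v), IsClopen {z : ∀ v, D v | z v = i v p} := by
    intro v p
    have hm := (hD v).metrizable
    have h1 : IsClopen ({i v p} : Set (D v)) := ⟨isClosed_singleton, (hD v).isol p⟩
    exact h1.preimage (continuous_apply v)
  have h0 : {z : ∀ v, D v | ∀ (v w : V) (h : T.Adj v w),
      z v = i v ⟨w, h⟩ ↔ z w ≠ i w ⟨v, h.symm⟩} =
      ⋂ (v : V) (w : V) (h : T.Adj v w),
        (({z : ∀ v, D v | z v = i v ⟨w, h⟩} ∩ {z : ∀ v, D v | z w = i w ⟨v, h.symm⟩}ᶜ) ∪
          ({z : ∀ v, D v | z v = i v ⟨w, h⟩}ᶜ ∩ {z : ∀ v, D v | z w = i w ⟨v, h.symm⟩})) := by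
    ext z
    simp only [Set.mem_iInter]
    constructor
    · intro hz v w h
      by_cases h1 : z v = i v ⟨w, h⟩
      · exact Or.inl ⟨h1, (hz v w h).1 h1⟩
      · refine Or.inr ⟨h1, ?_⟩
        by_contra h2
        exact h1 ((hz v w h).2 h2)
    · intro hz v w h
      rcases hz v w h with ⟨h1, h2⟩ | ⟨h1, h2⟩
      · exact ⟨fun _ => h2, fun _ => h1⟩
      · exact ⟨fun h3 => absurd h3 h1, fun h3 => absurd h2 h3⟩
  rw [h0]
  refine isClosed_iInter fun v => isClosed_iInter fun w => isClosed_iInter fun h => ?_
  exact (((hcl v ⟨w, h⟩).inter (hcl w ⟨v, h.symm⟩).compl).union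
    ((hcl v ⟨w, h⟩).compl.inter (hcl w ⟨v, h.symm⟩))).isClosed

theorem zspace_compact {V : Type} (T : SimpleGraph V) (D : V → Type)
    [∀ v, TopologicalSpace (D v)] (i : ∀ v, Nb T v → D v) (hD : ∀ v, GoodVertex (D v) (i v)) :
    CompactSpace (ZSpace T D i) := by
  have hc : ∀ v, CompactSpace (D v) := fun v => (hD v).compact
  exact isCompact_iff_compactSpace.1 (Z1_closed T D i hD).isCompact

theorem zspace_metrizable {V : Type} [Countable V] (T : SimpleGraph V) (D : V → Type)
    [∀ v, TopologicalSpace (D v)] (i : ∀ v, Nb T v → D v) (hD : ∀ v, GoodVertex (D v) (i v)) :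
    TopologicalSpace.MetrizableSpace (ZSpace T D i) := by
  have hc : ∀ v, CompactSpace (D v) := fun v => (hD v).compact
  have hm : ∀ v, TopologicalSpace.MetrizableSpace (D v) := fun v => (hD v).metrizable
  have hs : ∀ v, SecondCountableTopology (D v) := by
    intro v
    let _ := TopologicalSpace.metrizableSpaceMetric (D v)
    infer_instance
  have h1 : TopologicalSpace.MetrizableSpace (∀ v, D v) :=
    TopologicalSpace.metrizableSpace_of_t3_secondCountable _
  change TopologicalSpace.MetrizableSpace {z : ∀ v, D v // ∀ (v w : V) (h : T.Adj v w),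
    z v = i v ⟨w, h⟩ ↔ z w ≠ i w ⟨v, h.symm⟩}
  exact IsEmbedding.subtypeVal.metrizableSpace

end LibCE75
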