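import Pool.Agent.LibCE75.Defs

set_option autoImplicit false

/-!
# Board CE75, row S1 (SHORT, only Mathlib).  MP_6fa1a0_gt (cell-like equivalence of boundaries of CAT(0) groups).
Chair: helper75.  Deliver the whole file as CE75_S1.lean (team-store put), statements unchanged,
auxiliary lemmas private, no sorry, no axiom, no straight double quotation mark.

Shape of a point: homeomorphism invariance, one-point spaces; composition with homeomorphisms.
PLAN. Compose the embedding with the homeomorphism. One point: e = constant map, U open, homotopy constant. (Nonempty + Subsingleton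
gives the embedding: Subsingleton space has only one topology: IsEmbedding of a map from a subsingleton.)
-/

namespace LibCE75

open Set Metric Topology Filter
open scoped NNReal

theorem ShapeOfPoint.homeo {A B : Type} [TopologicalSpace A] [TopologicalSpace B] (e : A ≃ₜ B)
    (h : ShapeOfPoint A) : ShapeOfPoint B := by
  obtain ⟨h1, h2, i, hi, hU⟩ := h
  refine ⟨e.compactSpace, h2.map e, fun b => i (e.symm b), hi.comp e.symm.isEmbedding, ?_⟩
  intro U hUo hUr
  obtain ⟨hh, p, hc, h0, h1', hu⟩ := hU U hUo (by
    rintro _ ⟨a, rfl⟩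
    exact hUr ⟨e a, by simp⟩)
  exact ⟨fun q => hh (q.1, e.symm q.2), p,
    hc.comp (continuous_fst.prodMk (e.symm.continuous.comp continuous_snd)),
    fun c => h0 _, fun c => h1' _, fun q => hu _⟩

theorem ShapeOfPoint.of_unique {A : Type} [TopologicalSpace A] [Nonempty A] [Subsingleton A] :
    ShapeOfPoint A := by
  refine ⟨inferInstance, inferInstance, fun _ => fun _ => 0, ?_, ?_⟩
  · refine ⟨⟨?_⟩, fun a b _ => Subsingleton.elim a b⟩
    exact Subsingleton.elim _ _
  · intro U _ hUr
    refine ⟨fun _ => fun _ => 0, fun _ => 0, continuous_const, fun _ => rfl, fun _ => rfl, ?_⟩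
    intro q
    exact hUr ⟨q.2, rfl⟩

theorem CellLikeMap.comp_homeo {Z Y Y' : Type} [TopologicalSpace Z] [TopologicalSpace Y]
    [TopologicalSpace Y'] {f : Z → Y} (h : CellLikeMap f) (e : Y ≃ₜ Y') :
    CellLikeMap (fun z => e (f z)) := by
  refine ⟨e.continuous.comp h.1, fun y => ?_⟩
  refine (h.2 (e.symm y)).homeo (Homeomorph.setCongr ?_)
  ext z
  simp only [mem_preimage, mem_singleton_iff]
  constructor
  · intro hz
    rw [hz, e.apply_symm_apply]
  · intro hz
    rw [← hz, e.symm_apply_apply]

theorem CellLikeMap.surj {Z Y : Type} [TopologicalSpace Z] [TopologicalSpace Y] {f : Z → Y}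
    (h : CellLikeMap f) : Function.Surjective f := by
  intro y
  obtain ⟨⟨z, hz⟩⟩ := (h.2 y).2.1
  exact ⟨z, hz⟩

end LibCE75
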