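import Pool.Agent.LibCE75.Defs
import Pool.Agent.LibCE75.TR1
import Pool.Agent.LibCE75.TR3
import Pool.Agent.LibCE75.S1

set_option autoImplicit false

/-!
# Board CE75, row Z2 (STRONG, cites TR1 TR3 S1).  MP_6fa1a0_gt (cell-like equivalence of boundaries of CAT(0) groups).
Chair: helper75.  Deliver the whole file as CE75_Z2.lean (team-store put), statements unchanged,
auxiliary lemmas private, no sorry, no axiom, no straight double quotation mark.

A family of cell-like maps of the vertex spaces gives a cell-like map of the trees of spaces.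
PLAN. F z = (f v (z v))_v. In ZSpace: f v (z v) = j v w iff z v = i v w (if f v (z v) is in range j then z v is in range i by hfr, then
injectivity of j v). Continuous. Fibre over z'. Case 1: some v with z' v not in range (j v). By pointing (TR3) with P a b := (exists h : T.Adj a
b, z' a = j a (b, h)): for u different from v z' u = j u (dir u v). For z in the fibre: z v in f v^-1 {z' v}, z u = i u (dir u v). So z |-> z v is
a homeomorphism of the fibre onto f v^-1 {z' v}, with inverse x |-> (u |-> if u = v then x else i u (dir u v)), which is in ZSpace: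
for the edge v, b: z v = x is not in range i v; z b = i b v as dir b v = v (dir_of_adj); for an edge a, b off v: z a = i a b iff
dir a v = b iff dir b v not a (dir_iff) iff z b not i b a (injectivity of i). Continuity of the inverse: coordinatewise,
decide u = v (subst). Case 2: all z' v = j v (w v): the fibre is the one point z v = i v (w v): ShapeOfPoint.of_unique.
-/

namespace LibCE75

open Set Metric Topology Filter
open scoped NNReal

theorem zspace_map {V : Type} {T : SimpleGraph V} (hT : T.IsTree) (D C : V → Type)
    [∀ v, TopologicalSpace (D v)] [∀ v, TopologicalSpace (C v)] (i : ∀ v, Nb T v → D v)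
    (j : ∀ v, Nb T v → C v) (hD : ∀ v, GoodVertex (D v) (i v))
    (hC : ∀ v, GoodVertex (C v) (j v)) (f : ∀ v, D v → C v) (hf : ∀ v, Continuous (f v))
    (hfi : ∀ v w, f v (i v w) = j v w) (hfr : ∀ v x, x ∉ range (i v) → f v x ∉ range (j v))
    (hcell : ∀ v, ∀ y ∉ range (j v), ShapeOfPoint (f v ⁻¹' {y})) :
    ∃ F : ZSpace T D i → ZSpace T C j, CellLikeMap F := by
  classical
  have hF : ∀ z : ZSpace T D i, ∀ (v w : V) (h : T.Adj v w),
      f v (z.1 v) = j v ⟨w, h⟩ ↔ z.1 v = i v ⟨w, h⟩ := by
    intro z v w h
    constructor
    · intro he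
      have hr : z.1 v ∈ range (i v) := by
        by_contra hn
        exact hfr v _ hn (he ▸ ⟨_, rfl⟩)
      obtain ⟨w', hw'⟩ := hr
      rw [← hw', hfi] at he
      rw [← hw', (hC v).inj he]
    · intro he
      rw [he, hfi]
  let F : ZSpace T D i → ZSpace T C j := fun z => ⟨fun v => f v (z.1 v), fun v w h => by
    rw [hF z v w h, z.2 v w h, ne_eq, ne_eq, hF z w v h.symm]⟩
  have hFv : ∀ z v, (F z).1 v = f v (z.1 v) := fun _ _ => rfl
  refine ⟨F, ?_, ?_⟩
  · exact Continuous.subtype_mk (continuous_pi fun v => (hf v).comp
      ((continuous_apply v).comp continuous_subtype_val)) _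
  · intro z'
    by_cases hz : ∃ v, z'.1 v ∉ range (j v)
    · obtain ⟨v, hv⟩ := hz
      have hpt : ∀ u (hu : u ≠ v), z'.1 u = j u ⟨dir T u v, dir_adj hT hu⟩ := by
        intro u hu
        obtain ⟨h, hh⟩ := pointing hT (fun a b => ∃ h : T.Adj a b, z'.1 a = j a ⟨b, h⟩)
          (by
            intro a b hab
            constructor
            · rintro ⟨h1, h2⟩ ⟨h3, h4⟩
              exact (z'.2 a b hab).1 h2 h4
            · intro hn
              exact ⟨hab, (z'.2 a b hab).2 fun he => hn ⟨hab.symm, he⟩⟩)
          (by
            rintro a b b' hab hab' ⟨h1, h2⟩ ⟨h3, h4⟩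
            have := (hC a).inj (h2.symm.trans h4)
            exact congrArg Subtype.val this)
          v u hu.symm (by
            rintro ⟨h1, h2⟩
            exact hv (h2 ▸ ⟨_, rfl⟩))
        exact hh
      have hfib : ∀ z : ZSpace T D i, F z = z' → ∀ u (hu : u ≠ v),
          z.1 u = i u ⟨dir T u v, dir_adj hT hu⟩ := by
        intro z hz u hu
        rw [← hF z u _ (dir_adj hT hu), ← hFv, hz]
        exact hpt u hu
      let gf : D v → ∀ u, D u := fun x u =>
        if h : u = v then h.symm ▸ x else i u ⟨dir T u v, dir_adj hT h⟩
      have gv : ∀ x, gf x v = x := fun x => by simp [gf]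
      have gu : ∀ x u (hu : u ≠ v), gf x u = i u ⟨dir T u v, dir_adj hT hu⟩ :=
        fun x u hu => by simp only [gf, dif_neg hu]
      have hgf : ∀ x, x ∉ range (i v) → ∀ (a b : V) (h : T.Adj a b),
          gf x a = i a ⟨b, h⟩ ↔ gf x b ≠ i b ⟨a, h.symm⟩ := by
        intro x hx a b hab
        by_cases ha : a = v
        · subst ha
          rw [gv, gu x b hab.ne']
          have h1 : ¬ (x = i a ⟨b, hab⟩) := fun he => hx ⟨_, he.symm⟩
          have h2 : i b ⟨dir T b a, dir_adj hT hab.ne'⟩ = i b ⟨a, hab.symm⟩ := by
            congr 1
            exact Subtype.ext (dir_of_adj hT hab.symm)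
          simp [h1, h2]
        · by_cases hb : b = v
          · subst hb
            rw [gv, gu x a ha]
            have h1 : ¬ (x = i b ⟨a, hab.symm⟩) := fun he => hx ⟨_, he.symm⟩
            have h2 : i a ⟨dir T a b, dir_adj hT ha⟩ = i a ⟨b, hab⟩ := by
              congr 1
              exact Subtype.ext (dir_of_adj hT hab)
            simp [h1, h2]
          · rw [gu x a ha, gu x b hb]
            have h1 : i a ⟨dir T a v, dir_adj hT ha⟩ = i a ⟨b, hab⟩ ↔ dir T a v = b := by
              rw [(hD a).inj.eq_iff]
              exact Subtype.ext_iff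
            have h2 : i b ⟨dir T b v, dir_adj hT hb⟩ = i b ⟨a, hab.symm⟩ ↔ dir T b v = a := by
              rw [(hD b).inj.eq_iff]
              exact Subtype.ext_iff
            rw [h1, ne_eq, h2]
            exact dir_iff hT hab v
      have hx : ∀ x : (f v ⁻¹' {z'.1 v}), x.1 ∉ range (i v) := by
        rintro ⟨x, hx⟩ ⟨w, hw⟩
        simp only at hw
        refine hv ⟨w, ?_⟩
        rw [← hfi, hw]
        exact hx
      let G : (f v ⁻¹' {z'.1 v}) → (F ⁻¹' {z'}) := fun x => ⟨⟨gf x.1, hgf x.1 (hx x)⟩, by
        refine Subtype.ext (funext fun u => ?_)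
        change f u (gf x.1 u) = z'.1 u
        by_cases hu : u = v
        · subst hu
          rw [gv]
          exact x.2
        · rw [gu x.1 u hu, hfi, hpt u hu]⟩
      let Hm : (F ⁻¹' {z'}) → (f v ⁻¹' {z'.1 v}) := fun z => ⟨z.1.1 v, by
        have := z.2
        rw [mem_preimage, mem_singleton_iff] at this
        rw [mem_preimage, mem_singleton_iff, ← hFv, this]⟩
      refine (hcell v _ hv).homeo
        { toFun := G
          invFun := Hm
          left_inv := fun x => Subtype.ext (gv x.1)
          right_inv := ?_
          continuous_toFun := ?_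
          continuous_invFun := ?_ }
      · intro z
        refine Subtype.ext (Subtype.ext (funext fun u => ?_))
        by_cases hu : u = v
        · subst hu
          exact gv _
        · exact (gu _ u hu).trans (hfib z.1 z.2 u hu).symm
      · refine Continuous.subtype_mk (Continuous.subtype_mk (continuous_pi fun u => ?_) _) _
        by_cases hu : u = v
        · subst hu
          simp only [gv]
          exact continuous_subtype_val
        · simp only [gu _ u hu]
          exact continuous_const
      · exact Continuous.subtype_mk ((continuous_apply v).comp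
          (continuous_subtype_val.comp continuous_subtype_val)) _
    · push Not at hz
      choose w hw using hz
      have hz1 : ∀ (a b : V) (h : T.Adj a b),
          i a (w a) = i a ⟨b, h⟩ ↔ i b (w b) ≠ i b ⟨a, h.symm⟩ := by
        intro a b h
        have := z'.2 a b h
        rw [← hw a, ← hw b] at this
        rw [(hD a).inj.eq_iff, ne_eq, (hD b).inj.eq_iff]
        rw [(hC a).inj.eq_iff, ne_eq, (hC b).inj.eq_iff] at this
        exact this
      haveI : Nonempty (F ⁻¹' {z'}) := ⟨⟨⟨fun v => i v (w v), hz1⟩, by
        refine Subtype.ext (funext fun u => ?_)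
        change f u (i u (w u)) = z'.1 u
        rw [hfi, hw]⟩⟩
      haveI : Subsingleton (F ⁻¹' {z'}) := by
        have key : ∀ z : (F ⁻¹' {z'}), ∀ u, z.1.1 u = i u (w u) := by
          intro z u
          have h1 : F z.1 = z' := z.2
          refine (hF z.1 u (w u).1 (w u).2).1 ?_
          rw [← hFv, h1]
          exact (hw u).symm
        exact ⟨fun a b => Subtype.ext (Subtype.ext (funext fun u => (key a u).trans
          (key b u).symm))⟩
      exact ShapeOfPoint.of_unique

end LibCE75
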