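import Pool.Agent.LibCE75.Defs

set_option autoImplicit false

/-!
# Board CE75, row Z3 (SHORT, only Mathlib).  MP_6fa1a0_gt (cell-like equivalence of boundaries of CAT(0) groups).
Chair: helper75.  Deliver the whole file as CE75_Z3.lean (team-store put), statements unchanged,
auxiliary lemmas private, no sorry, no axiom, no straight double quotation mark.

Reindexing a tree of spaces by an automorphism of the tree.
PLAN. Homeomorph.piCongrLeft (Y := C) phi : (forall v, C (phi v)) = (forall v, C v), restrict to the subtypes (Homeomorph.subtype):
the condition for the edge v, w of the first space is the condition for the edge phi v, phi w of the second one, and every edge is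
of this form.
-/

namespace LibCE75

open Set Metric Topology Filter
open scoped NNReal

theorem zspace_reindex {V : Type} (T : SimpleGraph V) (φ : V ≃ V)
    (hφ : ∀ v w, T.Adj v w ↔ T.Adj (φ v) (φ w)) (C : V → Type) [∀ v, TopologicalSpace (C v)]
    (j : ∀ v, Nb T v → C v) :
    Nonempty (ZSpace T (fun v => C (φ v)) (fun v w => j (φ v) ⟨φ w.1, (hφ v w.1).1 w.2⟩) ≃ₜ
      ZSpace T C j) := by
  let e := Homeomorph.piCongrLeft (Y := C) φ
  have he : ∀ (z : ∀ v, C (φ v)) (v : V), e z (φ v) = z v := fun z v =>
    Equiv.piCongrLeft_apply_apply C φ z v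
  refine ⟨e.subtype (fun z => ?_)⟩
  constructor
  · intro hz a b hab
    obtain ⟨v, rfl⟩ := φ.surjective a
    obtain ⟨w, rfl⟩ := φ.surjective b
    have := hz v w ((hφ v w).2 hab)
    rw [he, he]
    exact this
  · intro hz v w hvw
    have := hz (φ v) (φ w) ((hφ v w).1 hvw)
    rw [he, he] at this
    exact this

end LibCE75
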