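import Pool.Agent.LibCE75.KP
import Pool.Agent.LibCE75.H2
import Pool.Agent.LibCE75.H3
import Pool.Agent.LibCE75.H4
import Pool.Agent.LibCE75.H5
import Pool.Agent.LibCE75.GC
import Pool.Agent.LibCE75.Z1
import Pool.Agent.LibCE75.Z2
import Pool.Agent.LibCE75.Z3
import Pool.Agent.LibCE75.P0
import Pool.Agent.LibCE75.P1
import Pool.Agent.LibCE75.RC
import Pool.Agent.LibCE75.F1
import Pool.Agent.LibCE75.PF

set_option autoImplicit false

/-! # Board CE75, assembly (helper75) -/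

namespace LibCE75

open Set Metric Topology Filter
open scoped NNReal

theorem exists_geo {G V X : Type} [Group G] [MulAction G V] [MetricSpace X] [MulAction G X]
    (hX : IsCAT0 X) (hG : Geometric G X) {T : SimpleGraph V} {S : Set (V × V)}
    (h : TreeAction G T S) {a₀ b₀ : V} (h0 : T.Adj a₀ b₀) (x₀ : X) :
    ∃ (R D : ℝ) (P : V → V → X), Geo hX T S a₀ b₀ x₀ R D G P := by
  classical
  obtain ⟨R, D, hco⟩ := exists_coarse hX hG h h0 x₀
  refine ⟨R, D, fun v w => if hvw : T.Adj v w then (Q_nonempty (G := G) h hvw).choose • x₀ else x₀,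
    ⟨properSpace_of_geometric hX hG, hG, h, h0, hco, fun v w hvw => ?_⟩⟩
  refine ⟨_, (Q_nonempty (G := G) h hvw).choose_spec, ?_⟩
  simp only [dif_pos hvw]

/-- the map of a resolution of the boundary of a hull onto the remainder of a vertex space -/
theorem exists_remainder_map {G V X : Type} [Group G] [MulAction G V] [MetricSpace X]
    [MulAction G X] {hX : IsCAT0 X} {T : SimpleGraph V} {S : Set (V × V)} {a₀ b₀ : V} {x₀ : X}
    {R D : ℝ} {P : V → V → X} (h : Geo hX T S a₀ b₀ x₀ R D G P)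
    (v₀ : V) (s₀ : ↥(closure (hull T S a₀ b₀ x₀ R D G v₀))) {K : Type} [TopologicalSpace K]
    (f : K → Ray ↥(closure (hull T S a₀ b₀ x₀ R D G v₀)) s₀) (hf : CellLikeMap f)
    (v : V) (hv : ∃ g : G, g • v₀ = v) :
    ∃ p : K → Cv T hX x₀ P v, Continuous p ∧ range p = (range (iv T hX x₀ P v))ᶜ ∧
      ∀ y ∉ range (iv T hX x₀ P v), ShapeOfPoint (p ⁻¹' {y}) := by
  obtain ⟨g, rfl⟩ := hv
  have hs' : g • s₀.1 ∈ closure (hull T S a₀ b₀ x₀ R D G (g • v₀)) :=
    (closure_hull_smul h g v₀ s₀.1).2 s₀.2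
  obtain ⟨e1⟩ := hull_translate h g v₀ s₀ ⟨g • s₀.1, hs'⟩
  obtain ⟨e2⟩ := remainder_homeo h (g • v₀) ⟨g • s₀.1, hs'⟩
  have hF : CellLikeMap (fun k => e2.symm (e1 (f k))) := (hf.comp_homeo e1).comp_homeo e2.symm
  refine ⟨fun k => (e2.symm (e1 (f k))).1, continuous_subtype_val.comp hF.1, ?_, ?_⟩
  · ext y
    constructor
    · rintro ⟨k, rfl⟩
      exact (e2.symm (e1 (f k))).2
    · intro hy
      obtain ⟨k, hk⟩ := hF.surj ⟨y, hy⟩
      exact ⟨k, congrArg Subtype.val hk⟩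
  · intro y hy
    have := hF.2 ⟨y, hy⟩
    refine this.homeo (Homeomorph.setCongr ?_)
    ext k
    simp only [mem_preimage, mem_singleton_iff]
    constructor
    · intro hk
      exact congrArg Subtype.val hk
    · intro hk
      exact Subtype.ext hk

theorem cast_map {J C : Type} (K : J → Type) [∀ τ, TopologicalSpace (K τ)] [TopologicalSpace C]
    {τ τ' : J} (e : τ = τ') (q : K τ' → C) (hq : Continuous q) :
    Continuous (fun k : K τ => q (e ▸ k)) ∧ range (fun k : K τ => q (e ▸ k)) = range q ∧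
      ∀ y, ShapeOfPoint (q ⁻¹' {y}) → ShapeOfPoint ((fun k : K τ => q (e ▸ k)) ⁻¹' {y}) := by
  subst e
  exact ⟨hq, rfl, fun y hy => hy⟩

theorem main_of_edge {G V : Type} [Group G] [MulAction G V] {T : SimpleGraph V}
    {S : Set (V × V)} (hA : TreeAction G T S) (hnb : ∀ v, Nonempty (Nb T v))
    (hall : ∀ v : V, CEUnique (MulAction.stabilizer G v)) : CEUnique G := by
  classical
  intro X₁ X₂ m1 m2 act1 act2 hX1 hX2 hG1 hG2 x₁ x₂
  have hV : Nonempty V := hA.tree.1.nonempty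
  obtain ⟨a₀⟩ := hV
  obtain ⟨b₀, h0⟩ := hnb a₀
  obtain ⟨R1, D1, P1, g1⟩ := exists_geo hX1 hG1 hA h0 x₁
  obtain ⟨R2, D2, P2, g2⟩ := exists_geo hX2 hG2 hA h0 x₂
  haveI : Nonempty X₁ := ⟨x₁⟩
  haveI : Countable G := countable_group hX1 hG1
  haveI : Countable V := countable_vertices hA hnb
  haveI hfinJ : Finite (MulAction.orbitRel.Quotient G V) := finite_orbits hA hnb
  haveI hcN : ∀ v, Countable (Nb T v) := fun v =>
    inferInstanceAs (Countable {w : V // T.Adj v w})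
  -- base points of the hulls
  have hs1 : ∀ v, Nonempty ↥(closure (hull T S a₀ b₀ x₁ R1 D1 G v)) := by
    intro v
    obtain ⟨w, hvw⟩ := hnb v
    obtain ⟨k, hk⟩ := Q_nonempty (G := G) hA hvw
    exact ⟨⟨k • x₁, subset_closure (gate_mem_hull g1 hvw hk)⟩⟩
  have hs2 : ∀ v, Nonempty ↥(closure (hull T S a₀ b₀ x₂ R2 D2 G v)) := by
    intro v
    obtain ⟨w, hvw⟩ := hnb v
    obtain ⟨k, hk⟩ := Q_nonempty (G := G) hA hvw
    exact ⟨⟨k • x₂, subset_closure (gate_mem_hull g2 hvw hk)⟩⟩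
  let s1 : ∀ v, ↥(closure (hull T S a₀ b₀ x₁ R1 D1 G v)) := fun v => (hs1 v).some
  let s2 : ∀ v, ↥(closure (hull T S a₀ b₀ x₂ R2 D2 G v)) := fun v => (hs2 v).some
  -- resolutions of the boundaries of the hulls
  have hCE : ∀ v, CellLikeEquivalent (Ray ↥(closure (hull T S a₀ b₀ x₁ R1 D1 G v)) (s1 v))
      (Ray ↥(closure (hull T S a₀ b₀ x₂ R2 D2 G v)) (s2 v)) := by
    intro v
    obtain ⟨i1, hi1⟩ := hull_geometric g1 v
    obtain ⟨i2, hi2⟩ := hull_geometric g2 v
    exact @hall v _ _ _ _ i1 i2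
      (isCAT0_subtype hX1 _ (closure_cvx hX1 _ (hull_cvx g1 v)))
      (isCAT0_subtype hX2 _ (closure_cvx hX2 _ (hull_cvx g2 v))) hi1 hi2 (s1 v) (s2 v)
  let J := MulAction.orbitRel.Quotient G V
  let ty : V → J := fun v => Quotient.mk'' v
  have hty : ∀ v v', ty v = ty v' ↔ ∃ g : G, g • v = v' := by
    intro v v'
    rw [eq_comm]
    change (Quotient.mk'' v' : J) = Quotient.mk'' v ↔ _
    rw [Quotient.eq'']
    rfl
  let rep : J → V := fun τ => Quotient.out τ
  have hrep : ∀ v, ∃ g : G, g • rep (ty v) = v := by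
    intro v
    exact (hty _ _).1 (Quotient.out_eq' (ty v))
  choose K topK compK metrK r1 r2 hr using fun τ : J => hCE (rep τ)
  -- the maps onto the remainders
  choose p hpc hpr hpf using fun v => exists_remainder_map g1 (rep (ty v)) (s1 _) (r1 (ty v))
    (hr (ty v)).1 v (hrep v)
  choose q hqc hqr hqf using fun v => exists_remainder_map g2 (rep (ty v)) (s2 _) (r2 (ty v))
    (hr (ty v)).2 v (hrep v)
  have amp1 : ∀ v, ∀ m₀ : Nb T v, ∀ y ∉ range (iv T hX1 x₁ P1 v),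
      y ∈ closure (iv T hX1 x₁ P1 v '' {m | ty m.1 = ty m₀.1}) := by
    intro v m₀ y hy
    refine closure_mono (image_mono ?_) (ample g1 v m₀ y hy)
    intro w hw
    exact ((hty _ _).2 hw).symm
  have amp2 : ∀ v, ∀ m₀ : Nb T v, ∀ y ∉ range (iv T hX2 x₂ P2 v),
      y ∈ closure (iv T hX2 x₂ P2 v '' {m | ty m.1 = ty m₀.1}) := by
    intro v m₀ y hy
    refine closure_mono (image_mono ?_) (ample g2 v m₀ y hy)
    intro w hw
    exact ((hty _ _).2 hw).symm
  have hgood1 := fun v => Cv_good g1 v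
  have hgood2 := fun v => Cv_good g2 v
  choose D topD i κ f hD hκc hκi hκr hfc hfi hfκ hamp using fun v =>
    typed_pullback (J := J) (iv T hX1 x₁ P1 v) (hgood1 v) (p v) (hpc v) (hpr v)
      (fun w => ty w.1) (amp1 v)
  -- the automorphism of the tree
  let Pr : ∀ v v', (Nb T v → Nb T v') → Prop := fun v v' σ => ∀ ht : ty v = ty v',
    ∃ g : D v → Cv T hX2 x₂ P2 v', Continuous g ∧ (∀ w, g (i v w) = iv T hX2 x₂ P2 v' (σ w)) ∧
      ∀ k : K (ty v), g (κ v k) = q v' (ht ▸ k)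
  obtain ⟨φ, hφ, hφty, hφPr⟩ := exists_automorphism hA.tree hnb ty Pr (by
    intro v v' ht n₀ m₀ h0'
    obtain ⟨g0, hg0⟩ := (hty _ _).1 ht
    have hadj' : ∀ w, T.Adj v w → T.Adj v' (g0 • w) := fun w hw => hg0 ▸ hA.adj g0 v w hw
    have hadj'' : ∀ w, T.Adj v' w → T.Adj v (g0⁻¹ • w) := fun w hw => by
      have := hA.adj g0⁻¹ v' w hw
      rwa [← hg0, inv_smul_smul] at this
    let e : Nb T v ≃ Nb T v' :=
      { toFun := fun w => ⟨g0 • w.1, hadj' _ w.2⟩
        invFun := fun w => ⟨g0⁻¹ • w.1, hadj'' _ w.2⟩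
        left_inv := fun w => Subtype.ext (inv_smul_smul g0 w.1)
        right_inv := fun w => Subtype.ext (smul_inv_smul g0 w.1) }
    have he : ∀ n : Nb T v, ty (e n).1 = ty n.1 := fun n =>
      ((hty _ _).2 ⟨g0, rfl⟩).symm
    obtain ⟨hc1, hc2, -⟩ := cast_map K ht (q v') (hqc v')
    obtain ⟨σ, g, hσ, hσ0, hg, hgi, hgκ⟩ := typed_match (J := J) (i v) (hD v) (κ v) (hκc v)
      (hκi v) (hκr v) (iv T hX2 x₂ P2 v') (hgood2 v') (fun k => q v' (ht ▸ k)) hc1
      (hc2.trans (hqr v')) (fun w => ty w.1) (fun w => ty w.1) e he (hamp v) (amp2 v') n₀ m₀ h0'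
    exact ⟨σ, hσ, hσ0, fun _ => ⟨g, hg, hgi, hgκ⟩⟩)
  choose gg hgc hgi hgκ using fun v => hφPr v (hφty v).symm
  -- the two maps
  have hFf : ∀ v, ∀ n, f v (i v n) ∈ range (iv T hX1 x₁ P1 v) := fun v n => ⟨n, (hfi v n).symm⟩
  obtain ⟨F1, hF1⟩ := zspace_map hA.tree D (fun v => Cv T hX1 x₁ P1 v) i
    (fun v => iv T hX1 x₁ P1 v) hD hgood1 f hfc hfi
    (fun v x hx => not_range_of_not_range (i v) (κ v) (hκr v) (iv T hX1 x₁ P1 v) (f v) (p v)
      (hpr v) (hfκ v) x hx)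
    (fun v y hy => by
      obtain ⟨e⟩ := fibre_homeo (i v) (hD v) (κ v) (hκc v) (hκi v) (hκr v)
        (iv T hX1 x₁ P1 v) (f v) (p v) (hFf v) (hfκ v) y hy
      exact (hpf v y hy).homeo e)
  let C' : V → Type := fun v => Cv T hX2 x₂ P2 (φ v)
  let j' : ∀ v, Nb T v → C' v := fun v w => iv T hX2 x₂ P2 (φ v) ⟨φ w.1, (hφ v w.1).1 w.2⟩
  have hr' : ∀ v, range (j' v) = range (iv T hX2 x₂ P2 (φ v)) := by
    intro v
    ext y
    constructor
    · rintro ⟨w, rfl⟩
      exact ⟨_, rfl⟩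
    · rintro ⟨w, rfl⟩
      have hw : T.Adj v (φ.symm w.1) := (hφ _ _).2 (by rw [Equiv.apply_symm_apply]; exact w.2)
      refine ⟨⟨φ.symm w.1, hw⟩, ?_⟩
      change iv T hX2 x₂ P2 (φ v) ⟨φ (φ.symm w.1), _⟩ = _
      congr 1
      exact Subtype.ext (Equiv.apply_symm_apply _ _)
  have hgood' : ∀ v, GoodVertex (C' v) (j' v) := by
    intro v
    refine ⟨(hgood2 (φ v)).compact, (hgood2 (φ v)).metrizable, ?_, fun w => (hgood2 (φ v)).isol _⟩
    intro w w' hww
    have := (hgood2 (φ v)).inj hww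
    have h2 := congrArg Subtype.val this
    exact Subtype.ext (φ.injective h2)
  have hcast := fun v => cast_map K (hφty v).symm (q (φ v)) (hqc (φ v))
  have hGg : ∀ v, ∀ n, gg v (i v n) ∈ range (j' v) := fun v n => ⟨n, (hgi v n).symm⟩
  obtain ⟨F2, hF2⟩ := zspace_map hA.tree D C' i j' hD hgood' gg hgc hgi
    (fun v x hx => not_range_of_not_range (i v) (κ v) (hκr v) (j' v) (gg v)
      (fun k => q (φ v) ((hφty v).symm ▸ k))
      (((hcast v).2.1.trans (hqr (φ v))).trans (by rw [hr' v])) (hgκ v) x hx)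
    (fun v y hy => by
      obtain ⟨e⟩ := fibre_homeo (i v) (hD v) (κ v) (hκc v) (hκi v) (hκr v) (j' v) (gg v)
        (fun k => q (φ v) ((hφty v).symm ▸ k)) (hGg v) (hgκ v) y hy
      refine ((hcast v).2.2 y (hqf (φ v) y ?_)).homeo e
      rw [← hr' v]; exact hy)
  obtain ⟨Φ1⟩ := package g1
  obtain ⟨Φ2⟩ := package g2
  obtain ⟨ρ⟩ := zspace_reindex T φ hφ (fun v => Cv T hX2 x₂ P2 v) (fun v => iv T hX2 x₂ P2 v)
  exact ⟨ZSpace T D i, inferInstance, zspace_compact T D i hD, zspace_metrizable T D i hD,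
    fun z => Φ1.symm (F1 z), fun z => Φ2.symm (ρ (F2 z)), hF1.comp_homeo Φ1.symm,
    (hF2.comp_homeo ρ).comp_homeo Φ2.symm⟩

/-- **Cell-like equivalence for graphs of groups with finite edge groups.**  `G` acts on a tree
with finite edge stabilisers and finitely many orbits of edges; if any two CAT(0) boundaries of
each infinite vertex stabiliser are cell-like equivalent, then so are any two CAT(0) boundaries
of `G`. -/
theorem main (G V : Type) [Group G] [MulAction G V] (T : SimpleGraph V) (hT : T.IsTree)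
    (hadj : ∀ (g : G) (v w : V), T.Adj v w → T.Adj (g • v) (g • w))
    (hfin : ∀ v w, T.Adj v w → {g : G | g • v = v ∧ g • w = w}.Finite)
    (hcof : ∃ S : Set (V × V), S.Finite ∧ ∀ v w, T.Adj v w → ∃ g : G, (g • v, g • w) ∈ S)
    (hQ : ∀ v : V, Infinite (MulAction.stabilizer G v) → CEUnique (MulAction.stabilizer G v)) :
    CEUnique G := by
  classical
  have hall : ∀ v : V, CEUnique (MulAction.stabilizer G v) := by
    intro v
    rcases finite_or_infinite (MulAction.stabilizer G v) with hf | hi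
    · exact ceUnique_of_finite _
    · exact hQ v hi
  by_cases hnb : ∀ v, Nonempty (Nb T v)
  · obtain ⟨S, hS, hcov⟩ := hcof
    refine main_of_edge (T := T) (S := {p ∈ S | T.Adj p.1 p.2})
      ⟨hT, hadj, hfin, hS.subset (fun p hp => hp.1), fun p hp => hp.2, fun v w hvw => ?_⟩ hnb hall
    obtain ⟨g, hg⟩ := hcov v w hvw
    exact ⟨g, hg, hadj g v w hvw⟩
  · obtain ⟨v, hv⟩ := not_forall.1 hnb
    have hsub : ∀ u, u = v := by
      intro u
      by_contra hne
      exact hv ⟨⟨dir T v u, dir_adj hT (Ne.symm hne)⟩⟩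
    haveI : Subsingleton V := ⟨fun a b => (hsub a).trans (hsub b).symm⟩
    exact ceUnique_of_stabilizer v (hall v)

end LibCE75
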